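import Pool.Agent.Lib.MP_9fe581_an.TW.Rot

/-!
# TW/Arg (row A1): the argument of a solution of the multiplicative cohomological equation
-/

set_option autoImplicit false
set_option linter.unusedSectionVars false

open Finset MeasureTheory Filter Topology
open scoped ComplexConjugate Matrix

namespace Pool.Agent.Lib.MP_9fe581_an.TW

open Pool.Agent.Lib.MP_9fe581_an.HT (TX mX ch ptq)
open Pool.Agent.Lib.MP_9fe581_an.FT (ec ec_add ec_neg norm_ec ec_coe ec_injective)

variable {κ : Type} [Fintype κ] [DecidableEq κ] {α : TX κ}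

/-- minus the argument of a complex number, as a point of the circle -/
private noncomputable def marg (z : ℂ) : UnitAddCircle := ((-(Complex.arg z / (2 * Real.pi)) : ℝ) : UnitAddCircle)

private theorem marg_meas : Measurable marg := by
  have h1 : Measurable (fun z : ℂ => -(Complex.arg z / (2 * Real.pi))) :=
    (Complex.measurable_arg.div_const _).neg
  have h2 : Measurable (fun x : ℝ => (x : UnitAddCircle)) := (AddCircle.continuous_mk' (1 : ℝ)).measurable
  exact h2.comp h1

private theorem marg_ec (z : ℂ) : (‖z‖ : ℂ) * ec (-marg z) = z := by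
  have h1 : -marg z = ((Complex.arg z / (2 * Real.pi) : ℝ) : UnitAddCircle) := by
    unfold marg
    rw [← AddCircle.coe_neg, neg_neg]
  rw [h1, ec_coe]
  have h2 : (2 * Real.pi * (Complex.arg z / (2 * Real.pi)) : ℝ) = Complex.arg z := by
    have := Real.pi_pos
    field_simp
  rw [h2]
  exact Complex.norm_mul_exp_arg_mul_I z

theorem arg_exists (hα : Irr α) (C : TX κ → UnitAddCircle) (w : UnitAddCircle) (G : TX κ → ℂ)
    (hG : AEStronglyMeasurable G (mX κ)) (he : ∀ᵐ t ∂mX κ, G (t + α) * ec (C t) = ec w * G t) (hne : ¬ G =ᵐ[mX κ] 0) :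
    ∃ (A : TX κ → UnitAddCircle) (r : ℝ), 0 < r ∧ Sol α (fun t => C t - w) A ∧ G =ᵐ[mX κ] fun t => (r : ℂ) * ec (-A t) := by
  have hE := hα.ergodic
  have hmp : MeasurePreserving (fun t : TX κ => t + α) (mX κ) (mX κ) := hE.toMeasurePreserving
  -- a measurable representative
  obtain ⟨G', hG', hGG⟩ := hG
  have hm : Measurable G' := hG'.measurable
  have hGs : ∀ᵐ t ∂mX κ, G (t + α) = G' (t + α) := hmp.quasiMeasurePreserving.ae hGG
  have he' : ∀ᵐ t ∂mX κ, G' (t + α) * ec (C t) = ec w * G' t := by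
    filter_upwards [he, hGG, hGs] with t h1 h2 h3
    rw [← h3, ← h2]
    exact h1
  -- the norm is invariant
  have hn : (fun t => ‖G' t‖) ∘ (fun t : TX κ => t + α) =ᵐ[mX κ] fun t => ‖G' t‖ := by
    filter_upwards [he'] with t h1
    have h2 := congrArg norm h1
    rw [norm_mul, norm_mul, norm_ec, norm_ec, mul_one, one_mul] at h2
    exact h2
  obtain ⟨r, hr⟩ := hE.ae_eq_const_of_ae_eq_comp_ae (hG'.norm.aestronglyMeasurable) hn
  have hr' : ∀ᵐ t ∂mX κ, ‖G' t‖ = r := hr
  have hr0 : 0 < r := by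
    obtain ⟨t, ht⟩ := hr'.exists
    have h0 : 0 ≤ r := ht ▸ norm_nonneg _
    rcases h0.lt_or_eq with h | h
    · exact h
    · exfalso
      apply hne
      filter_upwards [hGG, hr'] with t h1 h2
      rw [h1]
      rw [← h] at h2
      simpa using h2
  refine ⟨fun t => marg (G' t), r, hr0, ⟨marg_meas.comp hm, ?_⟩, ?_⟩
  · have hrs : ∀ᵐ t ∂mX κ, ‖G' (t + α)‖ = r := hmp.quasiMeasurePreserving.ae hr'
    filter_upwards [he', hr', hrs] with t h1 h2 h3
    have e1 : (r : ℂ) * ec (-marg (G' t)) = G' t := by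
      rw [← h2]
      exact marg_ec _
    have e2 : (r : ℂ) * ec (-marg (G' (t + α))) = G' (t + α) := by
      rw [← h3]
      exact marg_ec _
    have h4 : ec (-marg (G' (t + α)) + C t) = ec (w + -marg (G' t)) := by
      apply mul_left_cancel₀ (show (r : ℂ) ≠ 0 from by exact_mod_cast hr0.ne')
      rw [ec_add, ec_add, ← mul_assoc, e2, h1, ← mul_assoc, mul_comm (r : ℂ) (ec w), mul_assoc, e1]
    have h5 := ec_injective h4
    show marg (G' (t + α)) - marg (G' t) = C t - w
    have h6 : C t = w + -marg (G' t) + marg (G' (t + α)) := by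
      rw [← h5]; abel
    rw [h6]
    abel
  · filter_upwards [hGG, hr'] with t h1 h2
    rw [h1, ← h2]
    exact (marg_ec _).symm

end Pool.Agent.Lib.MP_9fe581_an.TW
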