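import Pool.Agent.Lib.MP_9fe581_an.TW.Arg

/-!
# TW / EigY: eigenfunctions of the circle extension
-/

set_option autoImplicit false
set_option linter.unusedSectionVars false

open Finset MeasureTheory Filter Topology
open scoped ComplexConjugate Matrix

namespace Pool.Agent.Lib.MP_9fe581_an.TW

open Pool.Agent.Lib.MP_9fe581_an.HT (TX mX ch ptq)
open Pool.Agent.Lib.MP_9fe581_an.FT (ec)

variable {κ : Type} [Fintype κ] [DecidableEq κ] {α : TX κ} {φ : TX κ → UnitAddCircle}

theorem SS_cont (hφ : Continuous φ) : Continuous (SS α φ) := by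
  unfold SS
  exact (continuous_fst.add continuous_const).prodMk (continuous_snd.add (hφ.comp continuous_fst))

theorem SS_pres (hφ : Continuous φ) : MeasurePreserving (SS α φ) (mY κ) (mY κ) := by
  unfold mY
  exact (measurePreserving_add_right (mX κ) α).skew_product (g := fun x y => y + φ x)
    ((continuous_snd.add (hφ.comp continuous_fst)).measurable)
    (ae_of_all _ fun x => (measurePreserving_add_right AddCircle.haarAddCircle (φ x)).map_eq)

theorem SS_iter (α : TX κ) (φ : TX κ → UnitAddCircle) (n : ℕ) (z : YY κ) : (SS α φ)^[n] z = (z.1 + n • α, z.2 + ph α φ n z.1) := by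
  induction n with
  | zero => simp [ph]
  | succ n ih =>
    rw [Function.iterate_succ_apply', ih]
    unfold SS ph
    rw [sum_range_succ]
    simp only [succ_nsmul, add_assoc]

private lemma chy_cont (m : κ →₀ ℤ) (k : ℤ) : Continuous (chy m k : YY κ → ℂ) := by
  unfold chy
  exact ((HT.ch_cont m).comp continuous_fst).mul (FT.continuous_ec.comp (continuous_snd.zsmul k))

private lemma chy_norm (m : κ →₀ ℤ) (k : ℤ) (z : YY κ) : ‖chy m k z‖ = 1 := by
  unfold chy
  rw [norm_mul, HT.ch_norm, FT.norm_ec, one_mul]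

private lemma ec_surj (w : ℂ) (hw : ‖w‖ = 1) : ∃ v : UnitAddCircle, ec v = w := by
  obtain ⟨v, hv⟩ := (AddCircle.homeomorphCircle (one_ne_zero : (1 : ℝ) ≠ 0)).surjective
    (⟨w, mem_sphere_zero_iff_norm.2 hw⟩ : Circle)
  refine ⟨v, ?_⟩
  unfold FT.ec
  rw [← AddCircle.homeomorphCircle_apply (one_ne_zero : (1 : ℝ) ≠ 0), hv]

private lemma ec_nsmul (n : ℕ) (v : UnitAddCircle) : ec (n • v) = ec v ^ n := by
  induction n with
  | zero => rw [zero_nsmul, FT.ec_zero, pow_zero]
  | succ n ih => rw [succ_nsmul, FT.ec_add, ih, pow_succ]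

private lemma ch_nsmul (m : κ →₀ ℤ) (n : ℕ) (x : TX κ) : ch m (n • x) = ch (n • m) x := by
  induction n with
  | zero =>
    rw [zero_nsmul, zero_nsmul, HT.ch_zero]
    have h := HT.ch_add_right m (0 : TX κ) 0
    rw [add_zero] at h
    have h1 : ch m (0 : TX κ) ≠ 0 := by
      rw [← norm_ne_zero_iff, HT.ch_norm]
      exact one_ne_zero
    exact (mul_right_cancel₀ h1 (by rw [one_mul]; exact h)).symm
  | succ n ih => rw [succ_nsmul, succ_nsmul, HT.ch_add_right, ih, HT.ch_add]

/-- the coefficient of the character `k` in the fibre -/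
private noncomputable def g0 (k : ℤ) (g : YY κ → ℂ) (x : TX κ) : ℂ :=
  ∫ y, g (x, y) * conj (ec (k • y)) ∂AddCircle.haarAddCircle

private lemma g0_meas (k : ℤ) (g : YY κ → ℂ) (hg : AEStronglyMeasurable g (mY κ)) :
    AEStronglyMeasurable (g0 k g) (mX κ) := by
  have h1 : AEStronglyMeasurable (fun z : YY κ => g z * conj (ec (k • z.2)))
      ((mX κ).prod AddCircle.haarAddCircle) :=
    hg.mul (Complex.continuous_conj.comp (FT.continuous_ec.comp (continuous_snd.zsmul k))).aestronglyMeasurable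
  exact h1.integral_prod_right'

private lemma g0_eq (k : ℤ) (g : YY κ → ℂ) (w : ℂ)
    (he : ∀ᵐ z ∂mY κ, g (SS α φ z) = w * g z) :
    ∀ᵐ x ∂mX κ, g0 k g (x + α) * ec (k • φ x) = w * g0 k g x := by
  have h1 := Measure.ae_ae_of_ae_prod he
  filter_upwards [h1] with x hx
  have h2 : g0 k g (x + α) = ∫ y, g (x + α, y + φ x) * conj (ec (k • (y + φ x))) ∂AddCircle.haarAddCircle :=
    (integral_add_right_eq_self (fun y => g (x + α, y) * conj (ec (k • y))) (φ x)).symm
  rw [h2, ← integral_mul_const]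
  unfold g0
  rw [← integral_const_mul]
  refine integral_congr_ae ?_
  filter_upwards [hx] with y hy
  have h3 : g (x + α, y + φ x) = w * g (x, y) := hy
  have h4 : conj (ec (k • φ x)) * ec (k • φ x) = 1 := by
    rw [← Complex.normSq_eq_conj_mul_self, Complex.normSq_eq_norm_sq, FT.norm_ec]
    simp
  rw [h3, smul_add, FT.ec_add, map_mul]
  calc w * g (x, y) * (conj (ec (k • y)) * conj (ec (k • φ x))) * ec (k • φ x)
      = w * (g (x, y) * conj (ec (k • y))) * (conj (ec (k • φ x)) * ec (k • φ x)) := by ring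
    _ = w * (g (x, y) * conj (ec (k • y))) := by rw [h4, mul_one]

private lemma integrable_of (g : YY κ → ℂ) (hg : MemLp g 2 (mY κ)) : Integrable g (mY κ) :=
  hg.integrable (by norm_num)

private lemma int_g0 (m : κ →₀ ℤ) (k : ℤ) (g : YY κ → ℂ) (hg : Integrable g (mY κ)) :
    ∫ z, chy m k z * conj (g z) ∂mY κ = ∫ x, ch m x * conj (g0 k g x) ∂mX κ := by
  have h1 : Integrable (fun z => chy m k z * conj (g z)) ((mX κ).prod AddCircle.haarAddCircle) := by
    have h2 : Integrable (fun z => conj (g z)) (mY κ) := by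
      have := (Complex.conjCLE : ℂ ≃L[ℝ] ℂ).toContinuousLinearMap.integrable_comp hg
      exact this
    exact h2.bdd_mul (chy_cont m k).aestronglyMeasurable (ae_of_all _ fun z => (chy_norm m k z).le)
  unfold mY
  rw [integral_prod _ h1]
  refine integral_congr_ae (ae_of_all _ fun x => ?_)
  simp only [g0]
  rw [← integral_conj, ← integral_const_mul]
  refine integral_congr_ae (ae_of_all _ fun y => ?_)
  simp only [chy, map_mul, Complex.conj_conj]
  ring

private lemma sol_of (hα : Irr α) (m : κ →₀ ℤ) (k : ℤ) (w : ℂ) (hw : ‖w‖ = 1) (g : YY κ → ℂ)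
    (hg : MemLp g 2 (mY κ)) (he : ∀ᵐ z ∂mY κ, g (SS α φ z) = w * g z)
    (hI : ∫ z, chy m k z * conj (g z) ∂mY κ ≠ 0) :
    ∃ (v : UnitAddCircle) (A : TX κ → UnitAddCircle), ec v = w ∧ Sol α (fun t => k • φ t - v) A := by
  obtain ⟨v, hv⟩ := ec_surj w hw
  have h1 := g0_eq k g w he
  have h2 : ¬ g0 k g =ᵐ[mX κ] 0 := by
    intro h
    apply hI
    rw [int_g0 m k g (integrable_of g hg)]
    rw [← integral_zero (TX κ) ℂ (μ := mX κ)]
    refine integral_congr_ae ?_
    filter_upwards [h] with x hx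
    rw [hx]
    simp
  obtain ⟨A, r, _, hA, _⟩ := arg_exists hα (fun t => k • φ t) v (g0 k g)
    (g0_meas k g hg.aestronglyMeasurable) (by rw [hv]; exact h1) h2
  exact ⟨v, A, hv, hA⟩

theorem eig_char (hα : Irr α) (_hφ : Continuous φ) (hno : NoEig α φ) (m : κ →₀ ℤ) (k : ℤ) (hk : k ≠ 0) (w : ℂ) (hw : ‖w‖ = 1)
    (g : YY κ → ℂ) (hg : MemLp g 2 (mY κ)) (he : ∀ᵐ z ∂mY κ, g (SS α φ z) = w * g z) :
    ∫ z, chy m k z * conj (g z) ∂mY κ = 0 := by
  by_contra hI
  obtain ⟨v, A, _, hA⟩ := sol_of hα m k w hw g hg he hI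
  exact hno k hk v A hA

theorem eig_rat (hα : Irr α) (hφ : Continuous φ) (hE : ErgF α φ) (m : κ →₀ ℤ) (k : ℤ) (hmk : m ≠ 0 ∨ k ≠ 0) (w : ℂ)
    (b : ℕ) (hb : 0 < b) (hw : w ^ b = 1) (g : YY κ → ℂ) (hg : MemLp g 2 (mY κ)) (he : ∀ᵐ z ∂mY κ, g (SS α φ z) = w * g z) :
    ∫ z, chy m k z * conj (g z) ∂mY κ = 0 := by
  have hw1 : ‖w‖ = 1 := Complex.norm_eq_one_of_pow_eq_one hw hb.ne'
  rcases eq_or_ne k 0 with rfl | hk
  · have hm : m ≠ 0 := hmk.resolve_right fun h => h rfl
    have hS : MeasurePreserving ((SS α φ)^[b]) (mY κ) (mY κ) := (SS_pres hφ).iterate b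
    have hgb : ∀ n : ℕ, ∀ᵐ z ∂mY κ, g ((SS α φ)^[n] z) = w ^ n * g z := by
      intro n
      induction n with
      | zero => exact ae_of_all _ fun z => by simp
      | succ n ih =>
        have h1 := ((SS_pres (α := α) hφ).quasiMeasurePreserving).ae ih
        filter_upwards [h1, he] with z hz hz'
        rw [Function.iterate_succ_apply, hz, hz', pow_succ]
        ring
    have h2 : ∫ z, chy m 0 z * conj (g z) ∂mY κ =
        ch m (b • α) * ∫ z, chy m 0 z * conj (g z) ∂mY κ := by
      have hmeas : AEStronglyMeasurable (fun z => chy m 0 z * conj (g z)) (mY κ) :=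
        (chy_cont m 0).aestronglyMeasurable.mul (Complex.continuous_conj.comp_aestronglyMeasurable
          hg.aestronglyMeasurable)
      calc ∫ z, chy m 0 z * conj (g z) ∂mY κ
          = ∫ z, chy m 0 ((SS α φ)^[b] z) * conj (g ((SS α φ)^[b] z)) ∂mY κ := by
            have h3 : AEStronglyMeasurable (fun z => chy m 0 z * conj (g z))
                (Measure.map ((SS α φ)^[b]) (mY κ)) := by rw [hS.map_eq]; exact hmeas
            have h4 := integral_map hS.measurable.aemeasurable h3
            rw [hS.map_eq] at h4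
            exact h4
        _ = ∫ z, ch m (b • α) * (chy m 0 z * conj (g z)) ∂mY κ := by
            refine integral_congr_ae ?_
            filter_upwards [hgb b] with z hz
            rw [hz, hw, one_mul, SS_iter]
            simp only [chy, zero_smul, FT.ec_zero, mul_one]
            rw [HT.ch_add_right]
            ring
        _ = _ := integral_const_mul _ _
    have h5 : ch m (b • α) ≠ 1 := by
      rw [ch_nsmul]
      refine hα _ ?_
      intro h
      rcases smul_eq_zero.1 h with h | h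
      · exact hb.ne' h
      · exact hm h
    have h6 : (1 - ch m (b • α)) * ∫ z, chy m 0 z * conj (g z) ∂mY κ = 0 := by
      rw [sub_mul, one_mul, ← h2, sub_self]
    rcases mul_eq_zero.1 h6 with h | h
    · exact absurd (sub_eq_zero.1 h).symm h5
    · exact h
  · by_contra hI
    obtain ⟨v, A, hv, hA, hA'⟩ := sol_of hα m k w hw1 g hg he hI
    have hbv : b • v = 0 := by
      apply FT.ec_eq_one
      rw [ec_nsmul, hv, hw]
    refine hE (b * k) (mul_ne_zero (by exact_mod_cast hb.ne') hk) (fun t => b • A t)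
      ⟨hA.const_smul b, ?_⟩
    filter_upwards [hA'] with t ht
    rw [← smul_sub, ht, smul_sub, hbv, sub_zero, mul_smul, natCast_zsmul]

end Pool.Agent.Lib.MP_9fe581_an.TW
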