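import Pool.Agent.Lib.MP_9fe581_an.TW.Defs
import Pool.Agent.Lib.MP_9fe581_an.FT.Dens

/-!
Uniform approximation on `YY κ` and on `YY κ × YY κ` by characters.
-/

set_option autoImplicit false
set_option linter.unusedSectionVars false

open Finset MeasureTheory Filter Topology
open scoped ComplexConjugate Matrix

namespace Pool.Agent.Lib.MP_9fe581_an.TW

open Pool.Agent.Lib.MP_9fe581_an.HT (TX mX ch ptq ch_cont ch_norm ch_zero ch_add ch_neg)
open Pool.Agent.Lib.MP_9fe581_an.FT (ec ec_add ec_zero ec_neg ec_injective continuous_ec)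

/-- linear combinations of the members of a family are finite sums -/
private theorem span_sum {K J : Type} [TopologicalSpace K] (e : J → K → ℂ) (A : Set C(K, ℂ))
    (hA : ∀ f ∈ A, ∃ r, ∀ z, f z = e r z) (p : C(K, ℂ)) (hp : p ∈ Submodule.span ℂ A) :
    ∃ (R : Finset J) (c : J → ℂ), (∀ r, r ∉ R → c r = 0) ∧ ∀ z, p z = ∑ r ∈ R, c r * e r z := by
  classical
  induction hp using Submodule.span_induction with
  | mem g hg =>
    obtain ⟨m, hm⟩ := hA g hg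
    refine ⟨{m}, fun k => if k = m then 1 else 0, fun k hk => ?_, fun x => ?_⟩
    · rw [mem_singleton] at hk
      simp [hk]
    · rw [hm x]
      simp
  | zero => exact ⟨∅, fun _ => 0, fun _ _ => rfl, fun x => by simp⟩
  | add g h _ _ hg hh =>
    obtain ⟨S, c, h1, h2⟩ := hg
    obtain ⟨S', c', h1', h2'⟩ := hh
    refine ⟨S ∪ S', fun m => c m + c' m, fun m hm => ?_, fun x => ?_⟩
    · rw [mem_union, not_or] at hm
      simp only
      rw [h1 m hm.1, h1' m hm.2, add_zero]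
    · have e1 : ∑ m ∈ S ∪ S', c m * e m x = ∑ m ∈ S, c m * e m x :=
        (sum_subset subset_union_left fun m _ hm => by rw [h1 m hm, zero_mul]).symm
      have e2 : ∑ m ∈ S ∪ S', c' m * e m x = ∑ m ∈ S', c' m * e m x :=
        (sum_subset subset_union_right fun m _ hm => by rw [h1' m hm, zero_mul]).symm
      rw [ContinuousMap.add_apply, h2, h2', ← e1, ← e2, ← sum_add_distrib]
      exact sum_congr rfl fun m _ => by ring
  | smul a g _ hg =>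
    obtain ⟨S, c, h1, h2⟩ := hg
    refine ⟨S, fun m => a * c m, fun m hm => by simp only; rw [h1 m hm, mul_zero], fun x => ?_⟩
    rw [ContinuousMap.smul_apply, h2, smul_eq_mul, mul_sum]
    exact sum_congr rfl fun m _ => by ring

variable {κ : Type} [Fintype κ] [DecidableEq κ]

private theorem chy_add (m m' : κ →₀ ℤ) (k k' : ℤ) (z : YY κ) :
    chy (m + m') (k + k') z = chy m k z * chy m' k' z := by
  unfold chy
  rw [ch_add, add_smul, ec_add]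
  ring

private theorem chy_neg (m : κ →₀ ℤ) (k : ℤ) (z : YY κ) : chy (-m) (-k) z = conj (chy m k z) := by
  unfold chy
  rw [ch_neg, neg_smul, ec_neg, map_mul]

private theorem chy_zero (z : YY κ) : chy (0 : κ →₀ ℤ) 0 z = 1 := by
  unfold chy
  rw [ch_zero, zero_smul, ec_zero, mul_one]

private theorem chy_c (m : κ →₀ ℤ) (k : ℤ) : Continuous (chy m k) := by
  unfold chy
  exact ((ch_cont m).comp continuous_fst).mul (continuous_ec.comp (continuous_snd.zsmul k))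

private theorem chy_sep (x y : YY κ) (h : x ≠ y) : ∃ (m : κ →₀ ℤ) (k : ℤ), chy m k x ≠ chy m k y := by
  by_cases h1 : x.1 = y.1
  · refine ⟨0, 1, fun hc => h (Prod.ext h1 ?_)⟩
    unfold chy at hc
    rw [ch_zero, ch_zero, one_smul, one_smul, one_mul, one_mul] at hc
    exact ec_injective hc
  · obtain ⟨f, ⟨m, hm⟩, hne⟩ := FT.chX_sep κ x.1 y.1 h1
    refine ⟨m, 0, fun hc => hne ?_⟩
    unfold chy at hc
    rw [zero_smul, zero_smul, ec_zero, mul_one, mul_one] at hc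
    rw [hm, hm]
    exact hc

/-- the characters of `YY κ` -/
private def AY (κ : Type) [Fintype κ] [DecidableEq κ] : Submonoid C(YY κ, ℂ) where
  carrier := {f | ∃ r : (κ →₀ ℤ) × ℤ, ∀ z, f z = chy r.1 r.2 z}
  one_mem' := ⟨(0, 0), fun z => by rw [chy_zero]; rfl⟩
  mul_mem' := by
    rintro f g ⟨r, hr⟩ ⟨r', hr'⟩
    refine ⟨(r.1 + r'.1, r.2 + r'.2), fun z => ?_⟩
    rw [ContinuousMap.mul_apply, hr, hr', chy_add]

/-- the characters of `YY κ × YY κ` -/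
private noncomputable def eYY (r : (κ →₀ ℤ) × (κ →₀ ℤ) × ℤ × ℤ) (z : YY κ × YY κ) : ℂ :=
  chy r.1 r.2.2.1 z.1 * conj (chy r.2.1 r.2.2.2 z.2)

private theorem eYY_pf (r : (κ →₀ ℤ) × (κ →₀ ℤ) × ℤ × ℤ) (z : YY κ × YY κ) :
    eYY r z = pf (ch r.1) r.2.2.1 z.1 * conj (pf (ch r.2.1) r.2.2.2 z.2) := rfl

private theorem eYY_zero (z : YY κ × YY κ) : eYY (0, 0, 0, 0) z = 1 := by
  unfold eYY
  rw [chy_zero, chy_zero, map_one, one_mul]

private theorem eYY_add (r r' : (κ →₀ ℤ) × (κ →₀ ℤ) × ℤ × ℤ) (z : YY κ × YY κ) :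
    eYY (r.1 + r'.1, r.2.1 + r'.2.1, r.2.2.1 + r'.2.2.1, r.2.2.2 + r'.2.2.2) z =
      eYY r z * eYY r' z := by
  unfold eYY
  rw [chy_add, chy_add, map_mul]
  ring

private theorem eYY_neg (r : (κ →₀ ℤ) × (κ →₀ ℤ) × ℤ × ℤ) (z : YY κ × YY κ) :
    eYY (-r.1, -r.2.1, -r.2.2.1, -r.2.2.2) z = conj (eYY r z) := by
  unfold eYY
  rw [chy_neg, chy_neg, map_mul]

private theorem eYY_c (r : (κ →₀ ℤ) × (κ →₀ ℤ) × ℤ × ℤ) : Continuous (eYY r) := by
  unfold eYY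
  exact ((chy_c _ _).comp continuous_fst).mul
    (Complex.continuous_conj.comp ((chy_c _ _).comp continuous_snd))

private theorem eYY_sep (x y : YY κ × YY κ) (h : x ≠ y) :
    ∃ r : (κ →₀ ℤ) × (κ →₀ ℤ) × ℤ × ℤ, eYY r x ≠ eYY r y := by
  by_cases h1 : x.1 = y.1
  · have h2 : x.2 ≠ y.2 := fun h2 => h (Prod.ext h1 h2)
    obtain ⟨m, k, hne⟩ := chy_sep x.2 y.2 h2
    refine ⟨(0, m, 0, k), fun hc => hne ?_⟩
    unfold eYY at hc
    rw [chy_zero, chy_zero, one_mul, one_mul] at hc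
    exact (starRingEnd ℂ).injective hc
  · obtain ⟨m, k, hne⟩ := chy_sep x.1 y.1 h1
    refine ⟨(m, 0, k, 0), fun hc => hne ?_⟩
    unfold eYY at hc
    rw [chy_zero, chy_zero, map_one, mul_one, mul_one] at hc
    exact hc

private def AYY (κ : Type) [Fintype κ] [DecidableEq κ] : Submonoid C(YY κ × YY κ, ℂ) where
  carrier := {f | ∃ r : (κ →₀ ℤ) × (κ →₀ ℤ) × ℤ × ℤ, ∀ z, f z = eYY r z}
  one_mem' := ⟨(0, 0, 0, 0), fun z => by rw [eYY_zero]; rfl⟩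
  mul_mem' := by
    rintro f g ⟨r, hr⟩ ⟨r', hr'⟩
    refine ⟨(r.1 + r'.1, r.2.1 + r'.2.1, r.2.2.1 + r'.2.2.1, r.2.2.2 + r'.2.2.2), fun z => ?_⟩
    rw [ContinuousMap.mul_apply, hr, hr', eYY_add]

private theorem AYY_star : ∀ f ∈ AYY κ, star f ∈ AYY κ := by
  rintro f ⟨r, hr⟩
  refine ⟨(-r.1, -r.2.1, -r.2.2.1, -r.2.2.2), fun z => ?_⟩
  rw [eYY_neg, ← hr]
  rfl

private theorem AYY_sep : ∀ x y : YY κ × YY κ, x ≠ y → ∃ f ∈ AYY κ, f x ≠ f y := by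
  intro x y h
  obtain ⟨r, hne⟩ := eYY_sep x y h
  exact ⟨⟨eYY r, eYY_c r⟩, ⟨r, fun _ => rfl⟩, hne⟩

theorem dense_Y (F : C(YY κ, ℂ)) (ε : ℝ) (hε : 0 < ε) : ∃ (R : Finset ℤ) (f : ℤ → TX κ → ℂ), (0 : ℤ) ∈ R ∧ (∀ k, Continuous (f k)) ∧
    ∀ z, ‖F z - ∑ k ∈ R, pf (f k) k z‖ ≤ ε := by
  classical
  have hstar : ∀ f ∈ AY κ, star f ∈ AY κ := by
    rintro f ⟨r, hr⟩
    refine ⟨(-r.1, -r.2), fun z => ?_⟩
    rw [chy_neg, ← hr]
    rfl
  have hsep : ∀ x y : YY κ, x ≠ y → ∃ f ∈ AY κ, f x ≠ f y := by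
    intro x y h
    obtain ⟨m, k, hne⟩ := chy_sep x y h
    exact ⟨⟨chy m k, chy_c m k⟩, ⟨(m, k), fun _ => rfl⟩, hne⟩
  obtain ⟨p, hp, hpe⟩ := FT.dens_span (AY κ) hstar hsep F ε hε
  obtain ⟨R, c, -, h2⟩ := span_sum (J := (κ →₀ ℤ) × ℤ) (fun r z => chy r.1 r.2 z)
    (AY κ : Set C(YY κ, ℂ)) (fun f hf => hf) p hp
  refine ⟨insert 0 (R.image (fun r => r.2)),
    fun k x => ∑ r ∈ R.filter (fun r => r.2 = k), c r * ch r.1 x, mem_insert_self _ _,
    fun k => continuous_finsetSum _ fun r _ => continuous_const.mul (ch_cont r.1), fun z => ?_⟩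
  have h3 : ∑ k ∈ insert 0 (R.image (fun r => r.2)),
      pf (fun x => ∑ r ∈ R.filter (fun r => r.2 = k), c r * ch r.1 x) k z = p z := by
    rw [h2]
    have h4 : ∀ k, pf (fun x => ∑ r ∈ R.filter (fun r => r.2 = k), c r * ch r.1 x) k z =
        ∑ r ∈ R.filter (fun r => r.2 = k), c r * chy r.1 r.2 z := by
      intro k
      unfold pf chy
      rw [sum_mul]
      refine sum_congr rfl fun r hr => ?_
      rw [(mem_filter.mp hr).2]
      ring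
    rw [sum_congr rfl fun k _ => h4 k]
    refine sum_fiberwise_of_maps_to (fun r hr => mem_insert_of_mem (mem_image_of_mem _ hr)) _
  rw [h3]
  exact (ContinuousMap.norm_coe_le_norm (F - p) z).trans hpe.le

theorem dense_YY (F : C(YY κ × YY κ, ℂ)) (ε : ℝ) (hε : 0 < ε) :
    ∃ (R : Finset ((κ →₀ ℤ) × (κ →₀ ℤ) × ℤ × ℤ)) (c : (κ →₀ ℤ) × (κ →₀ ℤ) × ℤ × ℤ → ℂ),
      ∀ z, ‖F z - ∑ r ∈ R, c r * (pf (ch r.1) r.2.2.1 z.1 * conj (pf (ch r.2.1) r.2.2.2 z.2))‖ ≤ ε := by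
  obtain ⟨p, hp, hpe⟩ := FT.dens_span (AYY κ) AYY_star AYY_sep F ε hε
  have hA : ∀ f ∈ (AYY κ : Set C(YY κ × YY κ, ℂ)), ∃ r, ∀ z, f z = eYY r z := by
    rintro f ⟨r, hr⟩
    exact ⟨r, hr⟩
  obtain ⟨R, c, -, h2⟩ := span_sum (J := (κ →₀ ℤ) × (κ →₀ ℤ) × ℤ × ℤ) eYY
    (AYY κ : Set C(YY κ × YY κ, ℂ)) hA p hp
  refine ⟨R, c, fun z => ?_⟩
  have h3 : ∑ r ∈ R, c r * (pf (ch r.1) r.2.2.1 z.1 * conj (pf (ch r.2.1) r.2.2.2 z.2)) = p z := by
    rw [h2 z]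
    exact sum_congr rfl fun r _ => by rw [eYY_pf]
  rw [h3]
  have h4 := ContinuousMap.norm_coe_le_norm (F - p) z
  rw [ContinuousMap.sub_apply] at h4
  exact h4.trans hpe.le

end Pool.Agent.Lib.MP_9fe581_an.TW
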