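import Pool.Agent.Lib.MP_9fe581_an.TW.Lam

/-!
# TW / M1Int: the joining `m1 q g h` on product functions
-/

set_option autoImplicit false
set_option linter.unusedSectionVars false
set_option linter.unusedVariables false

open Finset MeasureTheory Filter Topology
open scoped ComplexConjugate Matrix

namespace Pool.Agent.Lib.MP_9fe581_an.TW

open Pool.Agent.Lib.MP_9fe581_an.HT (TX mX ch ptq)
open Pool.Agent.Lib.MP_9fe581_an.FT (ec)

variable {κ : Type} [Fintype κ] [DecidableEq κ]

private theorem bYYo : BorelSpace (YY κ × YY κ) := by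
  have h1 : BorelSpace (YY κ) := Prod.borelSpace
  exact Prod.borelSpace

private theorem mo_circ (k : ℤ) : ∫ y, ec (k • y) ∂AddCircle.haarAddCircle (T := 1) = if k = 0 then 1 else 0 := by
  split_ifs with hk
  · subst hk
    simp only [zero_smul, FT.ec_zero]
    simp
  · have hk' : (k : ℝ) ≠ 0 := by exact_mod_cast hk
    refine integral_eq_zero_of_add_right_eq_neg (g := ((1 / (2 * (k : ℝ)) : ℝ) : UnitAddCircle)) fun x => ?_
    have h1 : k • ((1 / (2 * (k : ℝ)) : ℝ) : UnitAddCircle) = ((1 / 2 : ℝ) : UnitAddCircle) := by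
      rw [← AddCircle.coe_zsmul, zsmul_eq_mul]
      congr 1
      field_simp
    rw [smul_add, FT.ec_add, h1, FT.ec_coe]
    have h2 : ((2 * Real.pi * (1 / 2) : ℝ) : ℂ) * Complex.I = Real.pi * Complex.I := by
      push_cast
      ring
    rw [h2, Complex.exp_pi_mul_I, mul_neg_one]

private theorem mo_prod (F : TX κ → ℂ) (k : ℤ) : ∫ z, F z.1 * ec (k • z.2) ∂mY κ = if k = 0 then ∫ x, F x ∂mX κ else 0 := by
  unfold mY
  rw [integral_prod_mul (μ := mX κ) (ν := AddCircle.haarAddCircle) F (fun y => ec (k • y)), mo_circ]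
  split_ifs <;> simp

private theorem mo_conj (l : ℤ) (y : UnitAddCircle) : conj (ec (l • y)) = ec ((-l) • y) := by
  rw [neg_smul, FT.ec_neg]

private theorem mo_mul (k l : ℤ) (y : UnitAddCircle) : ec (k • y) * ec (l • y) = ec ((k + l) • y) := by
  rw [add_smul, FT.ec_add]

private theorem mo_pf {f : TX κ → ℂ} (hf : Continuous f) (k : ℤ) : Continuous (pf f k) := by
  unfold pf
  exact (hf.comp continuous_fst).mul (FT.continuous_ec.comp (continuous_snd.zsmul k))

private theorem mo_mm (g : ℤ) {h : TX κ → TX κ → UnitAddCircle} (hh : ∀ s, Measurable (h s)) (s : TX κ) :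
    Measurable (fun w : YY κ × UnitAddCircle => (w.1, ((w.1.1 + s, w.1.2 + rt g (h s w.1.1) + w.2) : YY κ))) := by
  have h1 : Measurable (fun w : YY κ × UnitAddCircle => rt g (h s w.1.1)) :=
    (rt_meas g).comp ((hh s).comp (measurable_fst.comp measurable_fst))
  have h2 : Measurable (fun w : YY κ × UnitAddCircle => w.1.1 + s) :=
    (measurable_fst.comp measurable_fst).add_const s
  have h3 : Measurable (fun w : YY κ × UnitAddCircle => w.1.2 + rt g (h s w.1.1) + w.2) :=
    ((measurable_snd.comp measurable_fst).add h1).add measurable_snd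
  exact measurable_fst.prodMk (h2.prodMk h3)

theorem m1_prob {q : ℕ} (hq : 0 < q) (g : ℤ) {h : TX κ → TX κ → UnitAddCircle} (hh : ∀ s, Measurable (h s)) :
    IsProbabilityMeasure (m1 q g h) := by
  have hl := lam_prob g
  constructor
  unfold m1
  have h1 : ∀ i : κ → Fin q, Measure.map (fun w : YY κ × UnitAddCircle => (w.1, (w.1.1 + ptq q i, w.1.2 + rt g (h (ptq q i) w.1.1) + w.2)))
      ((mY κ).prod (lam g)) Set.univ = 1 := by
    intro i
    rw [Measure.map_apply (mo_mm g hh (ptq q i)) MeasurableSet.univ, Set.preimage_univ, measure_univ]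
  rw [Measure.smul_apply, Measure.finsetSum_apply]
  simp only [h1, Finset.sum_const, Finset.card_univ, Fintype.card_fun, Fintype.card_fin, nsmul_eq_mul, mul_one, smul_eq_mul]
  push_cast
  exact ENNReal.inv_mul_cancel (pow_ne_zero _ (by exact_mod_cast hq.ne')) (ENNReal.pow_ne_top (ENNReal.natCast_ne_top q))

private theorem mo_int {f f' : TX κ → ℂ} (hf : Continuous f) (hf' : Continuous f') (k l : ℤ) (μ : Measure (YY κ × YY κ))
    [IsFiniteMeasure μ] : Integrable (fun z : YY κ × YY κ => pf f k z.1 * conj (pf f' l z.2)) μ := by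
  have hb2 := bYYo (κ := κ)
  have hc : Continuous (fun z : YY κ × YY κ => pf f k z.1 * conj (pf f' l z.2)) :=
    ((mo_pf hf k).comp continuous_fst).mul (Complex.continuous_conj.comp ((mo_pf hf' l).comp continuous_snd))
  obtain ⟨C, hC⟩ := (isCompact_univ (X := YY κ × YY κ)).exists_bound_of_continuousOn hc.continuousOn
  exact Integrable.of_bound hc.aestronglyMeasurable C (ae_of_all _ fun z => hC z (Set.mem_univ z))

private theorem mo_one (g : ℤ) {h : TX κ → TX κ → UnitAddCircle} (hh : ∀ s, Measurable (h s)) (f f' : TX κ → ℂ)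
    (hf : Continuous f) (hf' : Continuous f') (k l : ℤ) (s : TX κ) :
    ∫ z, pf f k z.1 * conj (pf f' l z.2)
      ∂Measure.map (fun w : YY κ × UnitAddCircle => (w.1, ((w.1.1 + s, w.1.2 + rt g (h s w.1.1) + w.2) : YY κ))) ((mY κ).prod (lam g)) =
      if k = l ∧ g ∣ k then ∫ x, f x * conj (f' (x + s) * ec ((k / g) • h s x)) ∂mX κ else 0 := by
  have hl := lam_prob g
  have hb2 := bYYo (κ := κ)
  have hc : Continuous (fun z : YY κ × YY κ => pf f k z.1 * conj (pf f' l z.2)) :=
    ((mo_pf hf k).comp continuous_fst).mul (Complex.continuous_conj.comp ((mo_pf hf' l).comp continuous_snd))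
  rw [integral_map (mo_mm g hh s).aemeasurable hc.aestronglyMeasurable]
  have h2 : ∀ w : YY κ × UnitAddCircle, pf f k w.1 * conj (pf f' l (w.1.1 + s, w.1.2 + rt g (h s w.1.1) + w.2)) =
      ((f w.1.1 * conj (f' (w.1.1 + s) * ec (l • rt g (h s w.1.1)))) * ec ((k - l) • w.1.2)) * ec ((-l) • w.2) := by
    intro w
    unfold pf
    simp only
    rw [smul_add, smul_add, FT.ec_add, FT.ec_add, map_mul, map_mul, map_mul, map_mul, sub_eq_add_neg, ← mo_mul, ← mo_conj l w.1.2,
      ← mo_conj l w.2]
    ring
  simp only [h2]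
  rw [integral_prod_mul (μ := mY κ) (ν := lam g)
    (fun z => (f z.1 * conj (f' (z.1 + s) * ec (l • rt g (h s z.1)))) * ec ((k - l) • z.2)) (fun y => ec ((-l) • y)),
    mo_prod (fun x => f x * conj (f' (x + s) * ec (l • rt g (h s x)))) (k - l), lam_ec]
  by_cases hkl : k = l
  · subst hkl
    rw [if_pos (sub_self k)]
    by_cases hd : g ∣ k
    · have h5 : k = k ∧ g ∣ k := ⟨rfl, hd⟩
      have h6 : g ∣ -k := (dvd_neg).mpr hd
      rw [if_pos h5, if_pos h6, mul_one]
      refine integral_congr_ae (ae_of_all _ fun x => ?_)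
      simp only
      have h3 : ec (k • rt g (h s x)) = ec ((k / g) • h s x) := by
        by_cases hg : g = 0
        · subst hg
          have hk0 : k = 0 := by simpa using hd
          subst hk0
          simp
        · congr 1
          conv_rhs => rw [← rt_mul g hg (h s x)]
          rw [smul_smul, Int.ediv_mul_cancel hd]
      rw [h3]
    · have h3 : ¬ (k = k ∧ g ∣ k) := fun h => hd h.2
      have h4 : ¬ (g ∣ -k) := fun h => hd ((dvd_neg).mp h)
      rw [if_neg h3, if_neg h4, mul_zero]
  · have h3 : ¬ (k = l ∧ g ∣ k) := fun h => hkl h.1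
    have h4 : ¬ (k - l = 0) := fun h => hkl (sub_eq_zero.mp h)
    rw [if_neg h3, if_neg h4, zero_mul]

theorem m1_int {q : ℕ} (hq : 0 < q) (g : ℤ) {h : TX κ → TX κ → UnitAddCircle} (hh : ∀ s, Measurable (h s)) (f f' : TX κ → ℂ)
    (hf : Continuous f) (hf' : Continuous f') (k l : ℤ) :
    ∫ z, pf f k z.1 * conj (pf f' l z.2) ∂m1 q g h =
      if k = l ∧ g ∣ k then ∫ x, f x * conj (Eo q h (k / g) f' x) ∂mX κ else 0 := by
  have hl := lam_prob g
  unfold m1
  rw [integral_smul_measure, integral_finsetSum_measure]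
  · rw [Finset.sum_congr rfl fun i _ => mo_one g hh f f' hf hf' k l (ptq q i)]
    rw [ENNReal.toReal_inv, ENNReal.toReal_pow, ENNReal.toReal_natCast, Complex.real_smul]
    by_cases hd : k = l ∧ g ∣ k
    · simp only [if_pos hd]
      obtain ⟨C, hC⟩ := (isCompact_univ (X := TX κ)).exists_bound_of_continuousOn hf.continuousOn
      obtain ⟨C', hC'⟩ := (isCompact_univ (X := TX κ)).exists_bound_of_continuousOn hf'.continuousOn
      have hint : ∀ i ∈ (Finset.univ : Finset (κ → Fin q)),
          Integrable (fun x => f x * conj (f' (x + ptq q i) * ec ((k / g) • h (ptq q i) x))) (mX κ) := by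
        intro i _
        have hm : Measurable (fun x => f x * conj (f' (x + ptq q i) * ec ((k / g) • h (ptq q i) x))) := by
          have e1 : Measurable (fun x : TX κ => f' (x + ptq q i)) := (hf'.comp (continuous_id.add continuous_const)).measurable
          have e2 : Measurable (fun x : TX κ => ec ((k / g) • h (ptq q i) x)) :=
            (FT.continuous_ec.comp (continuous_id.zsmul (k / g))).measurable.comp (hh (ptq q i))
          exact hf.measurable.mul (Complex.continuous_conj.measurable.comp (e1.mul e2))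
        refine Integrable.of_bound hm.aestronglyMeasurable (C * C') (ae_of_all _ fun x => ?_)
        rw [norm_mul, RCLike.norm_conj, norm_mul, FT.norm_ec, mul_one]
        exact mul_le_mul (hC x (Set.mem_univ x)) (hC' _ (Set.mem_univ _)) (norm_nonneg _) ((norm_nonneg _).trans (hC x (Set.mem_univ x)))
      rw [← integral_finsetSum _ hint, ← integral_const_mul]
      refine integral_congr_ae (ae_of_all _ fun x => ?_)
      simp only
      unfold Eo
      rw [map_mul, map_sum, Finset.mul_sum, Finset.mul_sum, Finset.mul_sum]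
      refine Finset.sum_congr rfl fun i _ => ?_
      rw [map_div₀, map_one, map_pow, Complex.conj_natCast]
      push_cast
      ring
    · simp only [if_neg hd, Finset.sum_const_zero, mul_zero]
  · intro i _
    have : IsProbabilityMeasure
        (Measure.map (fun w : YY κ × UnitAddCircle => (w.1, (w.1.1 + ptq q i, w.1.2 + rt g (h (ptq q i) w.1.1) + w.2)))
          ((mY κ).prod (lam g))) :=
      Measure.isProbabilityMeasure_map (mo_mm g hh (ptq q i)).aemeasurable
    exact mo_int hf hf' k l _

end Pool.Agent.Lib.MP_9fe581_an.TW
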