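import Pool.Agent.Lib.MP_9fe581_an.TW.Defs

/-!
# TW / M2Int: the joinings `m2 q`, `mi1`, `mi2` on product functions
-/

set_option autoImplicit false
set_option linter.unusedSectionVars false
set_option linter.unusedVariables false

open Finset MeasureTheory Filter Topology
open scoped ComplexConjugate Matrix

namespace Pool.Agent.Lib.MP_9fe581_an.TW

open Pool.Agent.Lib.MP_9fe581_an.HT (TX mX ch ptq)
open Pool.Agent.Lib.MP_9fe581_an.FT (ec)

variable {κ : Type} [Fintype κ] [DecidableEq κ]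

private theorem bYY : BorelSpace (YY κ × YY κ) := by
  have h1 : BorelSpace (YY κ) := Prod.borelSpace
  exact Prod.borelSpace

private theorem mt_root (k : ℤ) (q : ℕ) (hq : 0 < q) :
    ∑ a : Fin q, ec (k • ((((a : ℕ) : ℝ) / (q : ℝ) : ℝ) : UnitAddCircle)) =
      if (q : ℤ) ∣ k then (q : ℂ) else 0 := by
  have hq0 : (q : ℝ) ≠ 0 := by exact_mod_cast hq.ne'
  set ζ : ℂ := ec (((k : ℝ) / (q : ℝ) : ℝ) : UnitAddCircle) with hζ
  have hpow : ∀ n : ℕ, ec (k • ((((n : ℕ) : ℝ) / (q : ℝ) : ℝ) : UnitAddCircle)) = ζ ^ n := by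
    intro n
    rw [hζ, FT.ec_coe, ← Complex.exp_nat_mul, ← AddCircle.coe_zsmul, FT.ec_coe]
    congr 1
    rw [zsmul_eq_mul]
    push_cast
    ring
  have h1 : ∑ a : Fin q, ec (k • ((((a : ℕ) : ℝ) / (q : ℝ) : ℝ) : UnitAddCircle)) =
      ∑ n ∈ range q, ζ ^ n := by
    rw [Finset.sum_range]
    exact Finset.sum_congr rfl fun a _ => hpow a
  rw [h1]
  by_cases hk : (q : ℤ) ∣ k
  · rw [if_pos hk]
    obtain ⟨c, rfl⟩ := hk
    have h2 : ζ = 1 := by
      rw [hζ, ← FT.ec_zero]
      congr 1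
      have h3 : (((q : ℤ) * c : ℤ) : ℝ) / (q : ℝ) = (c : ℝ) * 1 := by
        push_cast
        field_simp
      rw [h3, ← zsmul_eq_mul, AddCircle.coe_zsmul, AddCircle.coe_period, smul_zero]
    rw [h2]
    simp
  · rw [if_neg hk]
    have h2 : ζ ≠ 1 := by
      intro h3
      have h4 := FT.ec_eq_one h3
      rw [AddCircle.coe_eq_zero_iff] at h4
      obtain ⟨c, hc⟩ := h4
      apply hk
      refine ⟨c, ?_⟩
      rw [zsmul_eq_mul, mul_one] at hc
      have h5 : (k : ℝ) = (q : ℝ) * (c : ℝ) := by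
        rw [hc]
        field_simp
      exact_mod_cast h5
    have h3 : ζ ^ q = 1 := by
      rw [hζ, FT.ec_coe, ← Complex.exp_nat_mul]
      rw [Complex.exp_eq_one_iff]
      refine ⟨k, ?_⟩
      have hqc : (q : ℂ) ≠ 0 := by exact_mod_cast hq.ne'
      push_cast
      field_simp
    have h4 := geom_sum_mul ζ q
    rw [h3, sub_self] at h4
    exact (mul_eq_zero.mp h4).resolve_right (sub_ne_zero.mpr h2)

private theorem mt_circ (k : ℤ) : ∫ y, ec (k • y) ∂AddCircle.haarAddCircle (T := 1) = if k = 0 then 1 else 0 := by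
  split_ifs with hk
  · subst hk
    simp only [zero_smul, FT.ec_zero]
    simp
  · have hk' : (k : ℝ) ≠ 0 := by exact_mod_cast hk
    refine integral_eq_zero_of_add_right_eq_neg (g := ((1 / (2 * (k : ℝ)) : ℝ) : UnitAddCircle)) fun x => ?_
    have h1 : k • ((1 / (2 * (k : ℝ)) : ℝ) : UnitAddCircle) = ((1 / 2 : ℝ) : UnitAddCircle) := by
      rw [← AddCircle.coe_zsmul, zsmul_eq_mul]
      congr 1
      field_simp
    rw [smul_add, FT.ec_add, h1, FT.ec_coe]
    have h2 : ((2 * Real.pi * (1 / 2) : ℝ) : ℂ) * Complex.I = Real.pi * Complex.I := by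
      push_cast
      ring
    rw [h2, Complex.exp_pi_mul_I, mul_neg_one]

private theorem mt_prod (F : TX κ → ℂ) (k : ℤ) : ∫ z, F z.1 * ec (k • z.2) ∂mY κ = if k = 0 then ∫ x, F x ∂mX κ else 0 := by
  unfold mY
  rw [integral_prod_mul (μ := mX κ) (ν := AddCircle.haarAddCircle) F (fun y => ec (k • y)), mt_circ]
  split_ifs <;> simp

private theorem ec_conj_smul (l : ℤ) (y : UnitAddCircle) : conj (ec (l • y)) = ec ((-l) • y) := by
  rw [neg_smul, FT.ec_neg]

private theorem ec_smul_mul (k l : ℤ) (y : UnitAddCircle) : ec (k • y) * ec (l • y) = ec ((k + l) • y) := by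
  rw [add_smul, FT.ec_add]

private theorem pf_meas {f : TX κ → ℂ} (hf : Continuous f) (k : ℤ) : Continuous (pf f k) := by
  unfold pf
  exact (hf.comp continuous_fst).mul (FT.continuous_ec.comp (continuous_snd.zsmul k))

theorem m2_prob {q : ℕ} (hq : 0 < q) : IsProbabilityMeasure (m2 q : Measure (YY κ × YY κ)) := by
  constructor
  unfold m2
  have h1 : ∀ i : Fin q, Measure.map (fun z : YY κ => (z, (z.1, z.2 + ((((i : ℕ) : ℝ) / (q : ℝ) : ℝ) : UnitAddCircle)))) (mY κ)
      Set.univ = 1 := by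
    intro i
    rw [Measure.map_apply (by fun_prop) MeasurableSet.univ, Set.preimage_univ, measure_univ]
  rw [Measure.smul_apply, Measure.finsetSum_apply]
  simp only [h1, Finset.sum_const, Finset.card_univ, Fintype.card_fin, nsmul_eq_mul, mul_one, smul_eq_mul]
  exact ENNReal.inv_mul_cancel (by exact_mod_cast hq.ne') (ENNReal.natCast_ne_top q)

theorem mi1_prob : IsProbabilityMeasure (mi1 : Measure (YY κ × YY κ)) := by
  unfold mi1
  infer_instance

theorem mi2_prob : IsProbabilityMeasure (mi2 : Measure (YY κ × YY κ)) := by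
  unfold mi2
  exact Measure.isProbabilityMeasure_map (by fun_prop)

private theorem pp_int {f f' : TX κ → ℂ} (hf : Continuous f) (hf' : Continuous f') (k l : ℤ) (μ : Measure (YY κ × YY κ))
    [IsFiniteMeasure μ] : Integrable (fun z : YY κ × YY κ => pf f k z.1 * conj (pf f' l z.2)) μ := by
  have hb2 := bYY (κ := κ)
  have hc : Continuous (fun z : YY κ × YY κ => pf f k z.1 * conj (pf f' l z.2)) :=
    ((pf_meas hf k).comp continuous_fst).mul (Complex.continuous_conj.comp ((pf_meas hf' l).comp continuous_snd))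
  obtain ⟨C, hC⟩ := (isCompact_univ (X := YY κ × YY κ)).exists_bound_of_continuousOn hc.continuousOn
  exact Integrable.of_bound hc.aestronglyMeasurable C (ae_of_all _ fun z => hC z (Set.mem_univ z))

theorem m2_int {q : ℕ} (hq : 0 < q) (f f' : TX κ → ℂ) (hf : Continuous f) (hf' : Continuous f') (k l : ℤ) :
    ∫ z, pf f k z.1 * conj (pf f' l z.2) ∂m2 q = if k = l ∧ (q : ℤ) ∣ k then ∫ x, f x * conj (f' x) ∂mX κ else 0 := by
  have hb2 := bYY (κ := κ)
  have hc : Continuous (fun z : YY κ × YY κ => pf f k z.1 * conj (pf f' l z.2)) :=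
    ((pf_meas hf k).comp continuous_fst).mul (Complex.continuous_conj.comp ((pf_meas hf' l).comp continuous_snd))
  unfold m2
  rw [integral_smul_measure, integral_finsetSum_measure]
  · have h1 : ∀ i : Fin q, ∫ z, pf f k z.1 * conj (pf f' l z.2)
        ∂Measure.map (fun z : YY κ => (z, (z.1, z.2 + ((((i : ℕ) : ℝ) / (q : ℝ) : ℝ) : UnitAddCircle)))) (mY κ) =
        conj (ec (l • ((((i : ℕ) : ℝ) / (q : ℝ) : ℝ) : UnitAddCircle))) * (if k = l then ∫ x, f x * conj (f' x) ∂mX κ else 0) := by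
      intro i
      rw [integral_map (by fun_prop) hc.aestronglyMeasurable]
      have h2 : ∀ z : YY κ, pf f k z * conj (pf f' l (z.1, z.2 + ((((i : ℕ) : ℝ) / (q : ℝ) : ℝ) : UnitAddCircle))) =
          conj (ec (l • ((((i : ℕ) : ℝ) / (q : ℝ) : ℝ) : UnitAddCircle))) * ((f z.1 * conj (f' z.1)) * ec ((k - l) • z.2)) := by
        intro z
        unfold pf
        rw [smul_add, FT.ec_add, map_mul, map_mul, sub_eq_add_neg, ← ec_smul_mul, ← ec_conj_smul l z.2]
        ring
      simp only [h2]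
      rw [integral_const_mul, mt_prod (fun x => f x * conj (f' x)) (k - l)]
      simp only [sub_eq_zero]
    rw [Finset.sum_congr rfl fun i _ => h1 i, ← Finset.sum_mul, ← map_sum, mt_root l q hq]
    have hqc : (q : ℂ) ≠ 0 := by exact_mod_cast hq.ne'
    rw [ENNReal.toReal_inv, ENNReal.toReal_natCast, Complex.real_smul]
    by_cases hkl : k = l
    · subst hkl
      by_cases hd : (q : ℤ) ∣ k
      · rw [if_pos hd, if_pos rfl, if_pos ⟨rfl, hd⟩, Complex.conj_natCast]
        push_cast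
        rw [← mul_assoc, inv_mul_cancel₀ hqc, one_mul]
      · have h3 : ¬ (k = k ∧ (q : ℤ) ∣ k) := fun h => hd h.2
        rw [if_neg hd, if_neg h3, map_zero, zero_mul, mul_zero]
    · have h3 : ¬ (k = l ∧ (q : ℤ) ∣ k) := fun h => hkl h.1
      rw [if_neg hkl, if_neg h3, mul_zero, mul_zero]
  · intro i _
    have : IsProbabilityMeasure
        (Measure.map (fun z : YY κ => (z, (z.1, z.2 + ((((i : ℕ) : ℝ) / (q : ℝ) : ℝ) : UnitAddCircle)))) (mY κ)) :=
      Measure.isProbabilityMeasure_map (by fun_prop)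
    exact pp_int hf hf' k l _

theorem mi1_int (f f' : TX κ → ℂ) (hf : Continuous f) (hf' : Continuous f') (k l : ℤ) :
    ∫ z, pf f k z.1 * conj (pf f' l z.2) ∂mi1 = if k = 0 ∧ l = 0 then (∫ x, f x ∂mX κ) * conj (∫ x, f' x ∂mX κ) else 0 := by
  unfold mi1
  rw [integral_prod_mul (μ := mY κ) (ν := mY κ) (pf f k) (fun z => conj (pf f' l z)), integral_conj]
  have h1 : ∫ z, pf f k z ∂mY κ = if k = 0 then ∫ x, f x ∂mX κ else 0 := mt_prod f k
  have h2 : ∫ z, pf f' l z ∂mY κ = if l = 0 then ∫ x, f' x ∂mX κ else 0 := mt_prod f' l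
  rw [h1, h2]
  by_cases hk : k = 0
  · by_cases hl : l = 0
    · rw [if_pos hk, if_pos hl, if_pos ⟨hk, hl⟩]
    · have h3 : ¬ (k = 0 ∧ l = 0) := fun h => hl h.2
      rw [if_neg hl, if_neg h3, map_zero, mul_zero]
  · have h3 : ¬ (k = 0 ∧ l = 0) := fun h => hk h.1
    rw [if_neg hk, if_neg h3, zero_mul]

theorem mi2_int (f f' : TX κ → ℂ) (hf : Continuous f) (hf' : Continuous f') (k l : ℤ) :
    ∫ z, pf f k z.1 * conj (pf f' l z.2) ∂mi2 = if k = 0 ∧ l = 0 then ∫ x, f x * conj (f' x) ∂mX κ else 0 := by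
  have hb2 := bYY (κ := κ)
  have hc : Continuous (fun z : YY κ × YY κ => pf f k z.1 * conj (pf f' l z.2)) :=
    ((pf_meas hf k).comp continuous_fst).mul (Complex.continuous_conj.comp ((pf_meas hf' l).comp continuous_snd))
  unfold mi2
  rw [integral_map (by fun_prop) hc.aestronglyMeasurable]
  have h1 : ∀ w : YY κ × UnitAddCircle, pf f k w.1 * conj (pf f' l (w.1.1, w.2)) =
      ((f w.1.1 * conj (f' w.1.1)) * ec (k • w.1.2)) * ec ((-l) • w.2) := by
    intro w
    unfold pf
    rw [map_mul, ec_conj_smul]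
    ring
  simp only [h1]
  rw [integral_prod_mul (μ := mY κ) (ν := AddCircle.haarAddCircle) (fun z => (f z.1 * conj (f' z.1)) * ec (k • z.2))
    (fun y => ec ((-l) • y)), mt_prod (fun x => f x * conj (f' x)) k, mt_circ]
  by_cases hk : k = 0
  · by_cases hl : l = 0
    · rw [if_pos hk, if_pos (by rw [hl, neg_zero]), if_pos ⟨hk, hl⟩, mul_one]
    · have h3 : ¬ (k = 0 ∧ l = 0) := fun h => hl h.2
      have h4 : ¬ (-l = 0) := fun h => hl (by simpa using h)
      rw [if_neg h4, if_neg h3, mul_zero]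
  · have h3 : ¬ (k = 0 ∧ l = 0) := fun h => hk h.1
    rw [if_neg hk, if_neg h3, zero_mul]

end Pool.Agent.Lib.MP_9fe581_an.TW
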