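import Pool.Agent.Lib.MP_9fe581_an.TW.Eo
import Pool.Agent.Lib.MP_9fe581_an.TW.M1Int
import Pool.Agent.Lib.MP_9fe581_an.TW.M2Int
import Pool.Agent.Lib.MP_9fe581_an.TW.DenseY

/-!
# TW / Form: the quadratic forms of the joinings and their positivity
-/

set_option autoImplicit false
set_option linter.unusedSectionVars false

open Finset MeasureTheory Filter Topology
open scoped ComplexConjugate Matrix

namespace Pool.Agent.Lib.MP_9fe581_an.TW

open Pool.Agent.Lib.MP_9fe581_an.HT (TX mX ch ptq)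
open Pool.Agent.Lib.MP_9fe581_an.FT (ec)

variable {κ : Type} [Fintype κ] [DecidableEq κ] {α : TX κ} {φ : TX κ → UnitAddCircle}

private theorem fm_oms : OpensMeasurableSpace (YY κ × YY κ) := Prod.opensMeasurableSpace

private theorem fm_pf {f : TX κ → ℂ} (hf : Continuous f) (k : ℤ) : Continuous (pf f k) := by
  unfold pf
  exact (hf.comp continuous_fst).mul (FT.continuous_ec.comp (continuous_snd.zsmul k))

private theorem fm_int {X : Type} [TopologicalSpace X] [CompactSpace X] [MeasurableSpace X] [OpensMeasurableSpace X]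
    (P : Measure X) [IsFiniteMeasure P] {f : X → ℂ} (hf : Continuous f) : Integrable f P :=
  hf.integrable_of_hasCompactSupport (HasCompactSupport.of_compactSpace f)

private theorem fm_bdd {f : TX κ → ℂ} (hf : Continuous f) : ∃ c : ℝ, ∀ x, ‖f x‖ ≤ c :=
  ⟨‖BoundedContinuousFunction.mkOfCompact ⟨f, hf⟩‖,
    fun x => (BoundedContinuousFunction.mkOfCompact ⟨f, hf⟩).norm_coe_le_norm x⟩

private theorem fm_expand (P : Measure (YY κ × YY κ)) [IsProbabilityMeasure P] (R : Finset ℤ) (f : ℤ → TX κ → ℂ)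
    (hf : ∀ k, Continuous (f k)) :
    ∫ z, (∑ k ∈ R, pf (f k) k z.1) * conj (∑ k ∈ R, pf (f k) k z.2) ∂P =
      ∑ k ∈ R, ∑ l ∈ R, ∫ z, pf (f k) k z.1 * conj (pf (f l) l z.2) ∂P := by
  have : OpensMeasurableSpace (YY κ × YY κ) := fm_oms
  have h1 : ∀ z : YY κ × YY κ, (∑ k ∈ R, pf (f k) k z.1) * conj (∑ k ∈ R, pf (f k) k z.2) =
      ∑ k ∈ R, ∑ l ∈ R, pf (f k) k z.1 * conj (pf (f l) l z.2) := fun z => by
    rw [map_sum, Finset.sum_mul_sum]
  have h2 : ∀ k l, Integrable (fun z : YY κ × YY κ => pf (f k) k z.1 * conj (pf (f l) l z.2)) P := fun k l =>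
    fm_int P (((fm_pf (hf k) k).comp continuous_fst).mul
      (Complex.continuous_conj.comp ((fm_pf (hf l) l).comp continuous_snd)))
  simp_rw [h1]
  rw [integral_finsetSum _ fun k _ => integrable_finsetSum _ fun l _ => h2 k l]
  exact sum_congr rfl fun k _ => integral_finsetSum _ fun l _ => h2 k l

private theorem fm_diag (R : Finset ℤ) (D : ℤ → Prop) [DecidablePred D] (a : ℤ → ℤ → ℂ) :
    ∑ k ∈ R, ∑ l ∈ R, (if k = l ∧ D k then a k l else 0) = ∑ k ∈ R, if D k then a k k else 0 := by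
  refine sum_congr rfl fun k hk => ?_
  by_cases hD : D k
  · simp only [hD, and_true, if_true]
    rw [Finset.sum_ite_eq R k (fun l => a k l), if_pos hk]
  · simp [hD]

private theorem fm_zero (R : Finset ℤ) (h0 : (0 : ℤ) ∈ R) (a : ℤ → ℤ → ℂ) :
    ∑ k ∈ R, ∑ l ∈ R, (if k = 0 ∧ l = 0 then a k l else 0) = a 0 0 := by
  rw [Finset.sum_eq_single_of_mem 0 h0 fun k _ hk => by simp [hk]]
  rw [Finset.sum_eq_single_of_mem 0 h0 fun l _ hl => by simp [hl]]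
  simp

theorem form1 {q : ℕ} (hq : 0 < q) {g : ℤ} {h : TX κ → TX κ → UnitAddCircle} (hG : GH α φ q g h) (R : Finset ℤ) (h0 : (0 : ℤ) ∈ R)
    (f : ℤ → TX κ → ℂ) (hf : ∀ k, Continuous (f k)) :
    ∫ z, (∑ k ∈ R, pf (f k) k z.1) * conj (∑ k ∈ R, pf (f k) k z.2) ∂m1 q g h -
      ∫ z, (∑ k ∈ R, pf (f k) k z.1) * conj (∑ k ∈ R, pf (f k) k z.2) ∂mi1 =
      ((∫ x, ‖Eo q h 0 (fun x => f 0 x - ∫ y, f 0 y ∂mX κ) x‖ ^ 2 ∂mX κ +
        ∑ k ∈ (R.erase 0).filter (fun k => g ∣ k), ∫ x, ‖Eo q h (k / g) (f k) x‖ ^ 2 ∂mX κ : ℝ) : ℂ) := by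
  have hp1 := m1_prob hq g hG.meas
  have hp2 : IsProbabilityMeasure (mi1 : Measure (YY κ × YY κ)) := mi1_prob
  rw [fm_expand _ R f hf, fm_expand _ R f hf]
  simp_rw [m1_int hq g hG.meas _ _ (hf _) (hf _), mi1_int _ _ (hf _) (hf _)]
  rw [fm_diag R (fun k => g ∣ k), fm_zero R h0 fun k l => (∫ x, f k x ∂mX κ) * conj (∫ x, f l x ∂mX κ)]
  have h1 : ∀ k, ∫ x, f k x * conj (Eo q h (k / g) (f k) x) ∂mX κ = ((∫ x, ‖Eo q h (k / g) (f k) x‖ ^ 2 ∂mX κ : ℝ) : ℂ) := by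
    intro k
    obtain ⟨c, hc⟩ := fm_bdd (hf k)
    exact Eo_sq hq hG _ _ (hf k).measurable c hc
  simp_rw [h1]
  rw [← Finset.add_sum_erase R _ h0, if_pos (dvd_zero g), Int.zero_ediv, ← Finset.sum_filter]
  obtain ⟨c, hc⟩ := fm_bdd (hf 0)
  rw [Eo_mean hq h _ (hf 0).measurable c hc, Complex.mul_conj, Complex.normSq_eq_norm_sq]
  push_cast
  ring

theorem form2 {q : ℕ} (hq : 0 < q) (R : Finset ℤ) (h0 : (0 : ℤ) ∈ R) (f : ℤ → TX κ → ℂ) (hf : ∀ k, Continuous (f k)) :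
    ∫ z, (∑ k ∈ R, pf (f k) k z.1) * conj (∑ k ∈ R, pf (f k) k z.2) ∂m2 q -
      ∫ z, (∑ k ∈ R, pf (f k) k z.1) * conj (∑ k ∈ R, pf (f k) k z.2) ∂mi2 =
      ((∑ k ∈ (R.erase 0).filter (fun k => (q : ℤ) ∣ k), ∫ x, ‖f k x‖ ^ 2 ∂mX κ : ℝ) : ℂ) := by
  have hp1 : IsProbabilityMeasure (m2 q : Measure (YY κ × YY κ)) := m2_prob hq
  have hp2 : IsProbabilityMeasure (mi2 : Measure (YY κ × YY κ)) := mi2_prob
  rw [fm_expand _ R f hf, fm_expand _ R f hf]
  simp_rw [m2_int hq _ _ (hf _) (hf _), mi2_int _ _ (hf _) (hf _)]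
  rw [fm_diag R (fun k => (q : ℤ) ∣ k), fm_zero R h0 fun k l => ∫ x, f k x * conj (f l x) ∂mX κ]
  have h1 : ∀ k, ∫ x, f k x * conj (f k x) ∂mX κ = ((∫ x, ‖f k x‖ ^ 2 ∂mX κ : ℝ) : ℂ) := by
    intro k
    rw [← integral_complex_ofReal]
    refine integral_congr_ae (ae_of_all _ fun x => ?_)
    simp only
    rw [Complex.mul_conj, Complex.normSq_eq_norm_sq]
  simp_rw [h1]
  rw [← Finset.add_sum_erase R _ h0, if_pos (dvd_zero _), ← Finset.sum_filter, add_sub_cancel_left]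
  push_cast
  rfl

private theorem fm_approx (P : Measure (YY κ × YY κ)) [IsProbabilityMeasure P] (F : C(YY κ, ℂ)) (G : YY κ → ℂ)
    (hG : Continuous G) (δ : ℝ) (hδ : 0 ≤ δ) (hd : ∀ z, ‖F z - G z‖ ≤ δ) :
    |HX.jq P F - (∫ z, G z.1 * conj (G z.2) ∂P).re| ≤ δ * (2 * ‖F‖ + δ) := by
  have : OpensMeasurableSpace (YY κ × YY κ) := fm_oms
  have hF1 : ∀ z, ‖F z‖ ≤ ‖F‖ := F.norm_coe_le_norm
  have i1 : Integrable (fun z : YY κ × YY κ => F z.1 * conj (F z.2)) P :=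
    fm_int P ((F.continuous.comp continuous_fst).mul (Complex.continuous_conj.comp (F.continuous.comp continuous_snd)))
  have i2 : Integrable (fun z : YY κ × YY κ => G z.1 * conj (G z.2)) P :=
    fm_int P ((hG.comp continuous_fst).mul (Complex.continuous_conj.comp (hG.comp continuous_snd)))
  unfold HX.jq
  rw [← Complex.sub_re, ← integral_sub i1 i2]
  refine (Complex.abs_re_le_norm _).trans ?_
  refine (norm_integral_le_of_norm_le_const (C := δ * (2 * ‖F‖ + δ)) (ae_of_all _ fun z => ?_)).trans ?_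
  · have e : F z.1 * conj (F z.2) - G z.1 * conj (G z.2) =
        (F z.1 - G z.1) * conj (F z.2) + G z.1 * conj (F z.2 - G z.2) := by
      rw [map_sub]; ring
    rw [e]
    refine (norm_add_le _ _).trans ?_
    rw [norm_mul, norm_mul, Complex.norm_conj, Complex.norm_conj]
    have hG1 : ‖G z.1‖ ≤ ‖F‖ + δ := by
      calc ‖G z.1‖ = ‖F z.1 - (F z.1 - G z.1)‖ := by congr 1; ring
        _ ≤ ‖F z.1‖ + ‖F z.1 - G z.1‖ := norm_sub_le _ _
        _ ≤ ‖F‖ + δ := add_le_add (hF1 _) (hd _)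
    have a1 : ‖F z.1 - G z.1‖ * ‖F z.2‖ ≤ δ * ‖F‖ := mul_le_mul (hd _) (hF1 _) (norm_nonneg _) hδ
    have a2 : ‖G z.1‖ * ‖F z.2 - G z.2‖ ≤ (‖F‖ + δ) * δ :=
      mul_le_mul hG1 (hd _) (norm_nonneg _) (add_nonneg (norm_nonneg _) hδ)
    calc _ ≤ δ * ‖F‖ + (‖F‖ + δ) * δ := add_le_add a1 a2
      _ = _ := by ring
  · simp

private theorem fm_pos (P P' : Measure (YY κ × YY κ)) [IsProbabilityMeasure P] [IsProbabilityMeasure P'] (F : C(YY κ, ℂ))
    (h : ∀ (R : Finset ℤ) (f : ℤ → TX κ → ℂ), (0 : ℤ) ∈ R → (∀ k, Continuous (f k)) →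
      (∫ z, (∑ k ∈ R, pf (f k) k z.1) * conj (∑ k ∈ R, pf (f k) k z.2) ∂P').re ≤
        (∫ z, (∑ k ∈ R, pf (f k) k z.1) * conj (∑ k ∈ R, pf (f k) k z.2) ∂P).re) :
    HX.jq P' F ≤ HX.jq P F := by
  have key : ∀ δ : ℝ, 0 < δ → HX.jq P' F ≤ HX.jq P F + 2 * (δ * (2 * ‖F‖ + δ)) := by
    intro δ hδ
    obtain ⟨R, f, h0, hf, hd⟩ := dense_Y F δ hδ
    have hc : Continuous (fun z : YY κ => ∑ k ∈ R, pf (f k) k z) := continuous_finsetSum _ fun k _ => fm_pf (hf k) k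
    have e1 := abs_le.1 (fm_approx P F _ hc δ hδ.le hd)
    have e2 := abs_le.1 (fm_approx P' F _ hc δ hδ.le hd)
    have e3 := h R f h0 hf
    linarith [e1.1, e1.2, e2.1, e2.2]
  have hlim : Tendsto (fun δ : ℝ => HX.jq P F + 2 * (δ * (2 * ‖F‖ + δ))) (𝓝[>] 0) (𝓝 (HX.jq P F)) := by
    have : Tendsto (fun δ : ℝ => HX.jq P F + 2 * (δ * (2 * ‖F‖ + δ))) (𝓝 0) (𝓝 (HX.jq P F + 2 * (0 * (2 * ‖F‖ + 0)))) := by
      apply Continuous.tendsto
      fun_prop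
    rw [zero_mul, mul_zero, add_zero] at this
    exact this.mono_left nhdsWithin_le_nhds
  refine ge_of_tendsto hlim ?_
  filter_upwards [self_mem_nhdsWithin] with δ hδ
  exact key δ hδ

theorem pos1 {q : ℕ} (hq : 0 < q) {g : ℤ} {h : TX κ → TX κ → UnitAddCircle} (hG : GH α φ q g h) (F : C(YY κ, ℂ)) :
    HX.jq mi1 F ≤ HX.jq (m1 q g h) F := by
  have hp1 := m1_prob hq g hG.meas
  have hp2 : IsProbabilityMeasure (mi1 : Measure (YY κ × YY κ)) := mi1_prob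
  refine fm_pos _ _ F fun R f h0 hf => ?_
  rw [← sub_nonneg, ← Complex.sub_re, form1 hq hG R h0 f hf, Complex.ofReal_re]
  exact add_nonneg (integral_nonneg fun x => by positivity)
    (sum_nonneg fun k _ => integral_nonneg fun x => by positivity)

theorem pos2 {q : ℕ} (hq : 0 < q) (F : C(YY κ, ℂ)) : HX.jq (mi2 : Measure (YY κ × YY κ)) F ≤ HX.jq (m2 q) F := by
  have hp1 : IsProbabilityMeasure (m2 q : Measure (YY κ × YY κ)) := m2_prob hq
  have hp2 : IsProbabilityMeasure (mi2 : Measure (YY κ × YY κ)) := mi2_prob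
  refine fm_pos _ _ F fun R f h0 hf => ?_
  rw [← sub_nonneg, ← Complex.sub_re, form2 hq R h0 f hf, Complex.ofReal_re]
  exact sum_nonneg fun k _ => integral_nonneg fun x => by positivity

end Pool.Agent.Lib.MP_9fe581_an.TW
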