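import Pool.Agent.Lib.MP_9fe581_an.TW.Tor

/-!
# TW row E1: the averaging operator `Eo`
-/

set_option autoImplicit false
set_option linter.unusedSectionVars false
set_option linter.unusedVariables false

open Finset MeasureTheory Filter Topology
open scoped ComplexConjugate Matrix

namespace Pool.Agent.Lib.MP_9fe581_an.TW

open Pool.Agent.Lib.MP_9fe581_an.HT (TX mX ch ptq)
open Pool.Agent.Lib.MP_9fe581_an.FT (ec)

variable {κ : Type} [Fintype κ] [DecidableEq κ] {α : TX κ} {φ : TX κ → UnitAddCircle}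

private theorem zsm_meas {X : Type} [MeasurableSpace X] {f : X → UnitAddCircle} (hf : Measurable f) (m : ℤ) :
    Measurable (fun x => m • f x) := (continuous_zsmul m).measurable.comp hf

private theorem ec_meas {X : Type} [MeasurableSpace X] {f : X → UnitAddCircle} (hf : Measurable f) :
    Measurable (fun x => ec (f x)) := FT.continuous_ec.measurable.comp hf

theorem Eo_meas {q : ℕ} {h : TX κ → TX κ → UnitAddCircle} (hh : ∀ s, Measurable (h s)) (m : ℤ) (f : TX κ → ℂ)
    (hf : Measurable f) : Measurable (Eo q h m f) := by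
  unfold Eo
  refine Measurable.const_mul ?_ _
  refine Finset.measurable_sum _ fun i _ => ?_
  exact (hf.comp (measurable_id.add_const _)).mul (ec_meas (zsm_meas (hh _) m))

private theorem card_fin (q : ℕ) : Fintype.card (κ → Fin q) = q ^ Fintype.card κ := by
  rw [Fintype.card_fun, Fintype.card_fin]

private theorem cq_ne {q : ℕ} (hq : 0 < q) : ((q : ℂ) ^ Fintype.card κ) ≠ 0 :=
  pow_ne_zero _ (Nat.cast_ne_zero.2 hq.ne')

private theorem avg_const {q : ℕ} (hq : 0 < q) (c : ℂ) :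
    (1 / (q : ℂ) ^ Fintype.card κ) * ∑ _i : κ → Fin q, c = c := by
  rw [Finset.sum_const, Finset.card_univ, card_fin, nsmul_eq_mul, Nat.cast_pow, ← mul_assoc,
    one_div, inv_mul_cancel₀ (cq_ne hq), one_mul]

theorem Eo_le {q : ℕ} (hq : 0 < q) {h : TX κ → TX κ → UnitAddCircle} (m : ℤ) (f : TX κ → ℂ) (c : ℝ) (hc : ∀ x, ‖f x‖ ≤ c)
    (x : TX κ) : ‖Eo q h m f x‖ ≤ c := by
  unfold Eo
  have hqr : (0 : ℝ) < (q : ℝ) ^ Fintype.card κ := by positivity
  rw [norm_mul, norm_div, norm_one, norm_pow, Complex.norm_natCast]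
  have h1 : ‖∑ i : κ → Fin q, f (x + ptq q i) * ec (m • h (ptq q i) x)‖ ≤ (q : ℝ) ^ Fintype.card κ * c := by
    refine (norm_sum_le _ _).trans ?_
    have h2 : ∀ i ∈ (Finset.univ : Finset (κ → Fin q)), ‖f (x + ptq q i) * ec (m • h (ptq q i) x)‖ ≤ c := by
      intro i _
      rw [norm_mul, FT.norm_ec, mul_one]
      exact hc _
    refine (Finset.sum_le_card_nsmul _ _ _ h2).trans (le_of_eq ?_)
    rw [Finset.card_univ, card_fin, nsmul_eq_mul, Nat.cast_pow]
  calc 1 / (q : ℝ) ^ Fintype.card κ * ‖∑ i : κ → Fin q, f (x + ptq q i) * ec (m • h (ptq q i) x)‖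
      ≤ 1 / (q : ℝ) ^ Fintype.card κ * ((q : ℝ) ^ Fintype.card κ * c) := by
        exact mul_le_mul_of_nonneg_left h1 (by positivity)
    _ = c := by field_simp

private theorem bd_int (f : TX κ → ℂ) (hf : Measurable f) (c : ℝ) (hc : ∀ x, ‖f x‖ ≤ c) : Integrable f (mX κ) :=
  Integrable.of_bound hf.aestronglyMeasurable c (Filter.Eventually.of_forall hc)

theorem Eo_sq {q : ℕ} (hq : 0 < q) {g : ℤ} {h : TX κ → TX κ → UnitAddCircle} (hG : GH α φ q g h) (m : ℤ) (f : TX κ → ℂ)
    (hf : Measurable f) (c : ℝ) (hc : ∀ x, ‖f x‖ ≤ c) :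
    ∫ x, f x * conj (Eo q h m f x) ∂mX κ = ((∫ x, ‖Eo q h m f x‖ ^ 2 ∂mX κ : ℝ) : ℂ) := by
  have hc0 : 0 ≤ c := (norm_nonneg _).trans (hc 0)
  set c0 : ℂ := 1 / (q : ℂ) ^ Fintype.card κ with hc0d
  have hc0c : conj c0 = c0 := by
    rw [hc0d, map_div₀, map_one, map_pow, Complex.conj_natCast]
  set a : (κ → Fin q) → TX κ → ℂ := fun i x => f (x + ptq q i) * ec (m • h (ptq q i) x) with ha
  have ham : ∀ i, Measurable (a i) := fun i =>
    (hf.comp (measurable_id.add_const _)).mul (ec_meas (zsm_meas (hG.meas _) m))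
  have hab : ∀ i x, ‖a i x‖ ≤ c := by
    intro i x
    simp only [ha, norm_mul, FT.norm_ec, mul_one]
    exact hc _
  have hE : ∀ x, Eo q h m f x = c0 * ∑ i, a i x := fun x => rfl
  set J : TX κ → ℂ := fun t => ∫ y, f y * conj (f (y + t) * ec (m • h t y)) ∂mX κ with hJ
  have hij : ∀ i j : κ → Fin q, ∫ x, a i x * conj (a j x) ∂mX κ = J (ptq q j + -ptq q i) := by
    intro i j
    have hti : q • (ptq q j + -ptq q i : TX κ) = 0 := by
      rw [smul_add, smul_neg, tor_ptq q hq, tor_ptq q hq, neg_zero, add_zero]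
    have hsum : (ptq q j + -ptq q i : TX κ) + ptq q i = ptq q j := by abel
    have hco := hG.coc (ptq q j + -ptq q i) (ptq q i) hti (tor_ptq q hq i)
    rw [hsum] at hco
    have h1 : ∫ x, a i x * conj (a j x) ∂mX κ = ∫ x, (fun y => f y * conj (f (y + (ptq q j + -ptq q i)) *
        ec (m • h (ptq q j + -ptq q i) y))) (x + ptq q i) ∂mX κ := by
      refine integral_congr_ae ?_
      filter_upwards [hco] with x hx
      simp only [ha]
      rw [hx, smul_add, FT.ec_add]
      have h2 : x + ptq q i + (ptq q j + -ptq q i) = x + ptq q j := by abel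
      rw [h2]
      have h3 : ec (m • h (ptq q i) x) * conj (ec (m • h (ptq q i) x)) = 1 := by
        rw [← FT.ec_neg, ← FT.ec_add, add_neg_cancel, FT.ec_zero]
      simp only [map_mul]
      linear_combination (f (x + ptq q i) * conj (f (x + ptq q j)) *
        conj (ec (m • h (ptq q j + -ptq q i) (x + ptq q i)))) * h3
    rw [h1, integral_add_right_eq_self (fun y => f y * conj (f (y + (ptq q j + -ptq q i)) *
        ec (m • h (ptq q j + -ptq q i) y))) (ptq q i)]
  have hsumJ : ∀ i : κ → Fin q, ∑ j : κ → Fin q, J (ptq q j + -ptq q i) = ∑ j : κ → Fin q, J (ptq q j) := by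
    intro i
    refine sum_add q hq (-ptq q i) ?_ J
    rw [smul_neg, tor_ptq q hq, neg_zero]
  have hint : ∀ i j : κ → Fin q, Integrable (fun x => a i x * conj (a j x)) (mX κ) := by
    intro i j
    refine bd_int _ ((ham i).mul (Complex.continuous_conj.measurable.comp (ham j))) (c * c) fun x => ?_
    rw [norm_mul, RCLike.norm_conj]
    exact mul_le_mul (hab i x) (hab j x) (norm_nonneg _) hc0
  have hR : ((∫ x, ‖Eo q h m f x‖ ^ 2 ∂mX κ : ℝ) : ℂ) = c0 * ∑ j : κ → Fin q, J (ptq q j) := by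
    rw [← integral_complex_ofReal]
    have h1 : ∀ x, ((‖Eo q h m f x‖ ^ 2 : ℝ) : ℂ) = (c0 * c0) * ∑ i, ∑ j, a i x * conj (a j x) := by
      intro x
      rw [← Complex.normSq_eq_norm_sq, ← Complex.mul_conj, hE, map_mul, hc0c, map_sum,
        ← Finset.sum_mul_sum]
      ring
    simp only [h1]
    rw [integral_const_mul, integral_finsetSum _ fun i _ => integrable_finsetSum _ fun j _ => hint i j]
    have h2 : ∀ i : κ → Fin q, ∫ x, ∑ j, a i x * conj (a j x) ∂mX κ = ∑ j : κ → Fin q, J (ptq q j) := by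
      intro i
      rw [integral_finsetSum _ fun j _ => hint i j, ← hsumJ i]
      exact Finset.sum_congr rfl fun j _ => hij i j
    simp only [h2]
    rw [mul_assoc, hc0d, avg_const hq]
  rw [hR]
  have h1 : ∀ x, f x * conj (Eo q h m f x) = c0 * ∑ i, f x * conj (a i x) := by
    intro x
    rw [hE, map_mul, hc0c, map_sum, ← Finset.mul_sum]
    ring
  simp only [h1]
  rw [integral_const_mul, integral_finsetSum]
  intro i _
  refine bd_int _ (hf.mul (Complex.continuous_conj.measurable.comp (ham i))) (c * c) fun x => ?_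
  rw [norm_mul, RCLike.norm_conj]
  exact mul_le_mul (hc x) (hab i x) (norm_nonneg _) hc0

theorem Eo_comm {q : ℕ} (hq : 0 < q) {g : ℤ} {h : TX κ → TX κ → UnitAddCircle} (hG : GH α φ q g h) (hφ : Continuous φ) (m : ℤ)
    (f f' : TX κ → ℂ) (hf : Measurable f) (hf' : Measurable f') (c : ℝ) (hc : ∀ x, ‖f x‖ ≤ c) (hc' : ∀ x, ‖f' x‖ ≤ c) :
    ∫ x, (f (x + α) * ec ((m * g) • φ x)) * conj (Eo q h m (fun x => f' (x + α) * ec ((m * g) • φ x)) x) ∂mX κ =
      ∫ x, f x * conj (Eo q h m f' x) ∂mX κ := by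
  rw [← integral_add_right_eq_self (fun x => f x * conj (Eo q h m f' x)) α]
  refine integral_congr_ae ?_
  have hco : ∀ᵐ x ∂mX κ, ∀ i : κ → Fin q, h (ptq q i) (x + α) - h (ptq q i) x = g • (φ (x + ptq q i) - φ x) :=
    ae_all_iff.2 fun i => hG.coh (ptq q i) (tor_ptq q hq i)
  filter_upwards [hco] with x hx
  have h1 : Eo q h m (fun x => f' (x + α) * ec ((m * g) • φ x)) x = ec ((m * g) • φ x) * Eo q h m f' (x + α) := by
    unfold Eo
    rw [mul_left_comm (ec ((m * g) • φ x)), Finset.mul_sum univ _ (ec ((m * g) • φ x))]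
    congr 1
    refine Finset.sum_congr rfl fun i _ => ?_
    have h2 : (m * g) • φ (x + ptq q i) + m • h (ptq q i) x = (m * g) • φ x + m • h (ptq q i) (x + α) := by
      have h3 : m • (h (ptq q i) (x + α) - h (ptq q i) x) = (m * g) • (φ (x + ptq q i) - φ x) := by
        rw [hx i, smul_smul]
      rw [smul_sub, smul_sub] at h3
      have h4 : m • h (ptq q i) (x + α) = (m * g) • φ (x + ptq q i) - (m * g) • φ x + m • h (ptq q i) x := by
        rw [← h3]; abel
      rw [h4]; abel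
    have h5 : ec ((m * g) • φ (x + ptq q i)) * ec (m • h (ptq q i) x) =
        ec ((m * g) • φ x) * ec (m • h (ptq q i) (x + α)) := by
      rw [← FT.ec_add, ← FT.ec_add, h2]
    have h6 : x + ptq q i + α = x + α + ptq q i := by abel
    beta_reduce
    rw [h6]
    linear_combination f' (x + α + ptq q i) * h5
  rw [h1, map_mul]
  have h3 : ec ((m * g) • φ x) * conj (ec ((m * g) • φ x)) = 1 := by
    rw [← FT.ec_neg, ← FT.ec_add, add_neg_cancel, FT.ec_zero]
  linear_combination (f (x + α) * conj (Eo q h m f' (x + α))) * h3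

theorem Eo_zero {q : ℕ} (hq : 0 < q) (h : TX κ → TX κ → UnitAddCircle) (f : TX κ → ℂ) (x : TX κ) :
    Eo q h 0 f x = (1 / (q : ℂ) ^ Fintype.card κ) * ∑ i : κ → Fin q, f (x + ptq q i) := by
  unfold Eo
  simp only [zero_smul, FT.ec_zero, mul_one]

/-- mean zero part -/
theorem Eo_mean {q : ℕ} (hq : 0 < q) (h : TX κ → TX κ → UnitAddCircle) (f : TX κ → ℂ) (hf : Measurable f) (c : ℝ)
    (hc : ∀ x, ‖f x‖ ≤ c) :
    ∫ x, ‖Eo q h 0 (fun x => f x - ∫ y, f y ∂mX κ) x‖ ^ 2 ∂mX κ = ∫ x, ‖Eo q h 0 f x‖ ^ 2 ∂mX κ - ‖∫ x, f x ∂mX κ‖ ^ 2 := by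
  have hfi : Integrable f (mX κ) := bd_int f hf c hc
  set I : ℂ := ∫ x, f x ∂mX κ with hI
  set E : TX κ → ℂ := fun x => (1 / (q : ℂ) ^ Fintype.card κ) * ∑ i : κ → Fin q, f (x + ptq q i) with hE
  have hEm : Measurable E := by
    refine Measurable.const_mul ?_ _
    exact Finset.measurable_sum _ fun i _ => hf.comp (measurable_id.add_const _)
  have h0 : ∀ x, Eo q h 0 f x = E x := fun x => Eo_zero hq h f x
  have hEb : ∀ x, ‖E x‖ ≤ c := fun x => by
    rw [← h0]; exact Eo_le hq 0 f c hc x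
  have h1 : ∀ x, Eo q h 0 (fun x => f x - I) x = E x - I := by
    intro x
    rw [Eo_zero hq]
    simp only [Finset.sum_sub_distrib, mul_sub]
    rw [avg_const hq]
  have hEi : Integrable E (mX κ) := bd_int E hEm c hEb
  have hEI : ∫ x, E x ∂mX κ = I := by
    simp only [hE]
    rw [integral_const_mul, integral_finsetSum]
    · have h2 : ∀ i : κ → Fin q, ∫ x, f (x + ptq q i) ∂mX κ = I := fun i =>
        integral_add_right_eq_self f (ptq q i)
      simp only [h2]
      exact avg_const hq I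
    · intro i _
      exact bd_int _ (hf.comp (measurable_id.add_const _)) c fun x => hc _
  simp only [h0, h1]
  have h3 : ∀ x, ‖E x - I‖ ^ 2 = ‖E x‖ ^ 2 - (2 * (E x * conj I).re) + ‖I‖ ^ 2 := by
    intro x
    generalize E x = u
    have h4 : ((‖u - I‖ ^ 2 : ℝ) : ℂ) = ((‖u‖ ^ 2 : ℝ) : ℂ) - (u * conj I + conj (u * conj I)) +
        ((‖I‖ ^ 2 : ℝ) : ℂ) := by
      rw [← Complex.normSq_eq_norm_sq, ← Complex.normSq_eq_norm_sq, ← Complex.normSq_eq_norm_sq,
        ← Complex.mul_conj, ← Complex.mul_conj, ← Complex.mul_conj, map_sub, map_mul, Complex.conj_conj]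
      ring
    rw [Complex.add_conj] at h4
    have h5 : ((‖u - I‖ ^ 2 : ℝ) : ℂ) = ((‖u‖ ^ 2 - (2 * (u * conj I).re) + ‖I‖ ^ 2 : ℝ) : ℂ) := by
      rw [h4]; push_cast; ring
    exact_mod_cast h5
  simp only [h3]
  have hi1 : Integrable (fun x => ‖E x‖ ^ 2) (mX κ) := by
    refine Integrable.of_bound (hEm.norm.pow_const 2).aestronglyMeasurable (c ^ 2)
      (Filter.Eventually.of_forall fun x => ?_)
    rw [Real.norm_eq_abs, abs_of_nonneg (by positivity)]
    exact pow_le_pow_left₀ (norm_nonneg _) (hEb x) 2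
  have hi2 : Integrable (fun x => E x * conj I) (mX κ) := hEi.mul_const _
  have hi3 : Integrable (fun x => 2 * (E x * conj I).re) (mX κ) := by
    have := hi2.re.const_mul 2
    exact this
  have hi4 : Integrable (fun x => ‖E x‖ ^ 2 - 2 * (E x * conj I).re) (mX κ) := hi1.sub hi3
  rw [integral_add hi4 (integrable_const _), integral_sub hi1 hi3, integral_const_mul]
  have h6 : ∫ x, (E x * conj I).re ∂mX κ = ‖I‖ ^ 2 := by
    have h7 : ∫ x, (E x * conj I).re ∂mX κ = (∫ x, E x * conj I ∂mX κ).re := by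
      exact integral_re hi2
    rw [h7, integral_mul_const, hEI, Complex.mul_conj, Complex.ofReal_re, Complex.normSq_eq_norm_sq]
  rw [h6]
  simp
  ring

end Pool.Agent.Lib.MP_9fe581_an.TW
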