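import Pool.Agent.Lib.MP_9fe581_an.TW.Defs
import Pool.Agent.Lib.MP_9fe581_an.TW.Eo
import Pool.Agent.Lib.MP_9fe581_an.TW.M1Int
import Pool.Agent.Lib.MP_9fe581_an.TW.M2Int
import Pool.Agent.Lib.MP_9fe581_an.FT.Dens
import Pool.Agent.Lib.MP_9fe581_an.HT.Char

/-!
# TW / Inv: the joinings are invariant (row M4)
-/

set_option autoImplicit false
set_option linter.unusedSectionVars false

open Finset MeasureTheory Filter Topology
open scoped ComplexConjugate Matrix

namespace Pool.Agent.Lib.MP_9fe581_an.TW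

open Pool.Agent.Lib.MP_9fe581_an.HT (TX mX ch ptq)
open Pool.Agent.Lib.MP_9fe581_an.FT (ec)

section base

variable {κ : Type} [Fintype κ] [DecidableEq κ] {α : TX κ} {φ : TX κ → UnitAddCircle}

private instance instBorelX : BorelSpace (TX κ) := by infer_instance
private instance instBorelY : BorelSpace (YY κ) := Prod.borelSpace
private instance instBorelYY : BorelSpace (YY κ × YY κ) := Prod.borelSpace

omit [DecidableEq κ] in
private theorem pf_cont {f : TX κ → ℂ} (hf : Continuous f) (k : ℤ) : Continuous (pf f k : YY κ → ℂ) := by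
  unfold pf
  exact (hf.comp continuous_fst).mul (FT.continuous_ec.comp (continuous_snd.zsmul k))

/-- the characters of `YY κ × YY κ` -/
private noncomputable def chYY (κ : Type) [Fintype κ] [DecidableEq κ] : Submonoid C((YY κ × YY κ), ℂ) where
  carrier := {f | ∃ (m m' : κ →₀ ℤ) (k l : ℤ), ∀ z, f z = pf (ch m) k z.1 * conj (pf (ch m') l z.2)}
  one_mem' := ⟨0, 0, 0, 0, fun z => by
    simp [pf, HT.ch_zero, FT.ec_zero]⟩
  mul_mem' := by
    rintro f f' ⟨m, n, k, l, hf⟩ ⟨m', n', k', l', hf'⟩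
    refine ⟨m + m', n + n', k + k', l + l', fun z => ?_⟩
    rw [ContinuousMap.mul_apply, hf, hf']
    simp only [pf, HT.ch_add, add_smul, FT.ec_add, map_mul]
    ring

private theorem chYY_star : ∀ f ∈ chYY κ, star f ∈ chYY κ := by
  rintro f ⟨m, n, k, l, hf⟩
  refine ⟨-m, -n, -k, -l, fun z => ?_⟩
  have e : (star f) z = conj (f z) := rfl
  rw [e, hf]
  simp only [pf, HT.ch_neg, neg_smul, FT.ec_neg, map_mul]

private theorem chYY_sep : ∀ x y : YY κ × YY κ, x ≠ y → ∃ f ∈ chYY κ, f x ≠ f y := by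
  intro x y hxy
  have hc : ∀ (m m' : κ →₀ ℤ) (k l : ℤ), Continuous fun z : YY κ × YY κ =>
      pf (ch m) k z.1 * conj (pf (ch m') l z.2) := fun m m' k l =>
    ((pf_cont (HT.ch_cont m) k).comp continuous_fst).mul
      (Complex.continuous_conj.comp ((pf_cont (HT.ch_cont m') l).comp continuous_snd))
  have key : ∀ (m m' : κ →₀ ℤ) (k l : ℤ), pf (ch m) k x.1 * conj (pf (ch m') l x.2) ≠ pf (ch m) k y.1 * conj (pf (ch m') l y.2) →
      ∃ f ∈ chYY κ, f x ≠ f y := fun m m' k l hne => ⟨⟨_, hc m m' k l⟩, ⟨m, m', k, l, fun _ => rfl⟩, hne⟩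
  have hsg : ∀ (i : κ) (t : TX κ), ch (Finsupp.single i (1 : ℤ)) t = ec (t i) := fun i t => by
    unfold ch
    rw [FT.pr_single_one]
  by_contra hcon
  apply hxy
  have h1 : ∀ (m m' : κ →₀ ℤ) (k l : ℤ), pf (ch m) k x.1 * conj (pf (ch m') l x.2) = pf (ch m) k y.1 * conj (pf (ch m') l y.2) := by
    intro m m' k l
    by_contra hne
    exact hcon (key m m' k l hne)
  refine Prod.ext (Prod.ext (funext fun i => ?_) ?_) (Prod.ext (funext fun i => ?_) ?_)
  · have h2 := h1 (Finsupp.single i 1) 0 0 0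
    simp only [pf, HT.ch_zero, hsg, zero_smul, FT.ec_zero, mul_one, map_one] at h2
    exact FT.ec_injective h2
  · have h2 := h1 0 0 1 0
    simp only [pf, HT.ch_zero, zero_smul, one_smul, FT.ec_zero, mul_one, one_mul, map_one] at h2
    exact FT.ec_injective h2
  · have h2 := h1 0 (Finsupp.single i 1) 0 0
    simp only [pf, HT.ch_zero, hsg, zero_smul, FT.ec_zero, mul_one, one_mul] at h2
    exact FT.ec_injective ((starRingEnd ℂ).injective h2)
  · have h2 := h1 0 0 0 1
    simp only [pf, HT.ch_zero, zero_smul, one_smul, FT.ec_zero, mul_one, one_mul] at h2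
    exact FT.ec_injective ((starRingEnd ℂ).injective h2)

theorem ext_YY (P P' : Measure (YY κ × YY κ)) [IsFiniteMeasure P] [IsFiniteMeasure P']
    (h : ∀ (m m' : κ →₀ ℤ) (k l : ℤ), ∫ z, pf (ch m) k z.1 * conj (pf (ch m') l z.2) ∂P =
      ∫ z, pf (ch m) k z.1 * conj (pf (ch m') l z.2) ∂P') : P = P' := by
  refine FT.meas_ext (chYY κ) chYY_star chYY_sep P P' ?_
  rintro f ⟨m, n, k, l, hf⟩
  have e : (fun z => f z) = fun z => pf (ch m) k z.1 * conj (pf (ch n) l z.2) := funext hf
  rw [e]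
  exact h m n k l

omit [Fintype κ] [DecidableEq κ] in
private theorem SS_cont' (hφ : Continuous φ) : Continuous (SS α φ) := by
  unfold SS
  exact (continuous_fst.add continuous_const).prodMk (continuous_snd.add (hφ.comp continuous_fst))

omit [Fintype κ] [DecidableEq κ] in
private theorem pf_SS (f : TX κ → ℂ) (k : ℤ) (z : YY κ) :
    pf f k (SS α φ z) = pf (fun x => f (x + α) * ec (k • φ x)) k z := by
  simp only [pf, SS, smul_add, FT.ec_add]
  ring

omit [DecidableEq κ] in
private theorem tr_cont (hφ : Continuous φ) {f : TX κ → ℂ} (hf : Continuous f) (k : ℤ) :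
    Continuous fun x => f (x + α) * ec (k • φ x) :=
  (hf.comp (continuous_id.add continuous_const)).mul (FT.continuous_ec.comp (hφ.zsmul k))

/-- the reduction to characters -/
private theorem inv_of (hφ : Continuous φ) (P : Measure (YY κ × YY κ)) [IsFiniteMeasure P]
    (h : ∀ (m m' : κ →₀ ℤ) (k l : ℤ),
      ∫ z, pf (fun x => ch m (x + α) * ec (k • φ x)) k z.1 * conj (pf (fun x => ch m' (x + α) * ec (l • φ x)) l z.2) ∂P =
      ∫ z, pf (ch m) k z.1 * conj (pf (ch m') l z.2) ∂P) :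
    MeasurePreserving (Prod.map (SS α φ) (SS α φ)) P P := by
  have hT : Continuous (Prod.map (SS α φ) (SS α φ)) := (SS_cont' hφ).prodMap (SS_cont' hφ)
  refine ⟨hT.measurable, ?_⟩
  have _ : IsFiniteMeasure (Measure.map (Prod.map (SS α φ) (SS α φ)) P) := Measure.isFiniteMeasure_map _ _
  refine ext_YY _ _ fun m m' k l => ?_
  rw [← h m m' k l]
  have hc : Continuous fun z : YY κ × YY κ => pf (ch m) k z.1 * conj (pf (ch m') l z.2) :=
    ((pf_cont (HT.ch_cont m) k).comp continuous_fst).mul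
      (Complex.continuous_conj.comp ((pf_cont (HT.ch_cont m') l).comp continuous_snd))
  rw [integral_map hT.measurable.aemeasurable hc.measurable.aestronglyMeasurable]
  refine integral_congr_ae (Eventually.of_forall fun z => ?_)
  simp only [Prod.map_fst, Prod.map_snd, pf_SS]

theorem m1_inv (hφ : Continuous φ) {q : ℕ} (hq : 0 < q) {g : ℤ} {h : TX κ → TX κ → UnitAddCircle} (hG : GH α φ q g h) :
    MeasurePreserving (Prod.map (SS α φ) (SS α φ)) (m1 q g h) (m1 q g h) := by
  have _ := m1_prob hq g hG.meas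
  refine inv_of hφ _ fun m m' k l => ?_
  rw [m1_int hq g hG.meas _ _ (tr_cont hφ (HT.ch_cont m) k) (tr_cont hφ (HT.ch_cont m') l),
    m1_int hq g hG.meas _ _ (HT.ch_cont m) (HT.ch_cont m')]
  split_ifs with hkl
  · obtain ⟨rfl, hg⟩ := hkl
    have e : k = k / g * g := (Int.ediv_mul_cancel hg).symm
    have h1 := Eo_comm hq hG hφ (k / g) (ch m) (ch m') (HT.ch_cont m).measurable (HT.ch_cont m').measurable 1
      (fun x => (HT.ch_norm m x).le) (fun x => (HT.ch_norm m' x).le)
    rw [← e] at h1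
    exact h1
  · rfl

private theorem conj_mul_tr (f f' : TX κ → ℂ) (k : ℤ) :
    ∫ x, (f (x + α) * ec (k • φ x)) * conj (f' (x + α) * ec (k • φ x)) ∂mX κ = ∫ x, f x * conj (f' x) ∂mX κ := by
  have e : ∀ x, (f (x + α) * ec (k • φ x)) * conj (f' (x + α) * ec (k • φ x)) = f (x + α) * conj (f' (x + α)) := by
    intro x
    have h1 : ec (k • φ x) * conj (ec (k • φ x)) = 1 := by
      rw [Complex.mul_conj, Complex.normSq_eq_norm_sq, FT.norm_ec]
      simp
    calc (f (x + α) * ec (k • φ x)) * conj (f' (x + α) * ec (k • φ x)) =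
        f (x + α) * conj (f' (x + α)) * (ec (k • φ x) * conj (ec (k • φ x))) := by
          rw [map_mul]
          ring
      _ = _ := by rw [h1, mul_one]
  rw [integral_congr_ae (Eventually.of_forall e)]
  exact integral_add_right_eq_self (fun x => f x * conj (f' x)) α

theorem m2_inv (hφ : Continuous φ) {q : ℕ} (hq : 0 < q) :
    MeasurePreserving (Prod.map (SS α φ) (SS α φ)) (m2 q : Measure (YY κ × YY κ)) (m2 q) := by
  have _ : IsProbabilityMeasure (m2 q : Measure (YY κ × YY κ)) := m2_prob hq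
  refine inv_of hφ _ fun m m' k l => ?_
  rw [m2_int hq _ _ (tr_cont hφ (HT.ch_cont m) k) (tr_cont hφ (HT.ch_cont m') l),
    m2_int hq _ _ (HT.ch_cont m) (HT.ch_cont m')]
  split_ifs with hkl
  · obtain ⟨rfl, hg⟩ := hkl
    exact conj_mul_tr _ _ _
  · rfl

theorem mi1_inv (hφ : Continuous φ) :
    MeasurePreserving (Prod.map (SS α φ) (SS α φ)) (mi1 : Measure (YY κ × YY κ)) mi1 := by
  have _ : IsProbabilityMeasure (mi1 : Measure (YY κ × YY κ)) := mi1_prob
  refine inv_of hφ _ fun m m' k l => ?_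
  rw [mi1_int _ _ (tr_cont hφ (HT.ch_cont m) k) (tr_cont hφ (HT.ch_cont m') l),
    mi1_int _ _ (HT.ch_cont m) (HT.ch_cont m')]
  split_ifs with hkl
  · obtain ⟨rfl, rfl⟩ := hkl
    have e : ∀ m : κ →₀ ℤ, ∫ x, ch m (x + α) * ec ((0 : ℤ) • φ x) ∂mX κ = ∫ x, ch m x ∂mX κ := by
      intro m
      simp only [zero_smul, FT.ec_zero, mul_one]
      exact integral_add_right_eq_self (fun x => ch m x) α
    rw [e, e]
  · rfl

theorem mi2_inv (hφ : Continuous φ) :
    MeasurePreserving (Prod.map (SS α φ) (SS α φ)) (mi2 : Measure (YY κ × YY κ)) mi2 := by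
  have _ : IsProbabilityMeasure (mi2 : Measure (YY κ × YY κ)) := mi2_prob
  refine inv_of hφ _ fun m m' k l => ?_
  rw [mi2_int _ _ (tr_cont hφ (HT.ch_cont m) k) (tr_cont hφ (HT.ch_cont m') l),
    mi2_int _ _ (HT.ch_cont m) (HT.ch_cont m')]
  split_ifs with hkl
  · obtain ⟨rfl, rfl⟩ := hkl
    exact conj_mul_tr _ _ _
  · rfl

end base

end Pool.Agent.Lib.MP_9fe581_an.TW
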