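import Mathlib

/-!
# TW, row A3: Wiener's lemma for isometries (no measures on the circle)
-/

set_option autoImplicit false

open Finset MeasureTheory Filter Topology
open scoped ComplexConjugate

namespace Pool.Agent.Lib.MP_9fe581_an.TW

section abs

variable {H : Type*} [NormedAddCommGroup H] [InnerProductSpace ℂ H]

private theorem wn_geom (q : ℕ) (n m : ℕ) (hn : n < q) (hm : m < q) (ζ : ℂ) (hζ : IsPrimitiveRoot ζ q)
    (h1 : ‖ζ‖ = 1) :
    ∑ k ∈ range q, conj ((conj (ζ ^ k)) ^ n) * (conj (ζ ^ k)) ^ m = if n = m then (q : ℂ) else 0 := by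
  have hcc : ζ * conj ζ = 1 := by
    rw [Complex.mul_conj, Complex.normSq_eq_norm_sq, h1]; simp
  have h2 : ∀ k, conj ((conj (ζ ^ k)) ^ n) * (conj (ζ ^ k)) ^ m = (ζ ^ n * (conj ζ) ^ m) ^ k := by
    intro k
    simp only [map_pow, Complex.conj_conj]
    rw [mul_pow, ← pow_mul, ← pow_mul, ← pow_mul, ← pow_mul, mul_comm k n, mul_comm k m]
  simp_rw [h2]
  split_ifs with h
  · subst h
    rw [← mul_pow, hcc]; simp
  · set η := ζ ^ n * (conj ζ) ^ m with hη
    have hηq : η ^ q = 1 := by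
      rw [hη, mul_pow, ← pow_mul, ← pow_mul, mul_comm n q, mul_comm m q, pow_mul, pow_mul, hζ.pow_eq_one,
        ← map_pow, hζ.pow_eq_one]
      simp
    have hη1 : η ≠ 1 := by
      intro h3
      apply h
      apply hζ.pow_inj hn hm
      calc ζ ^ n = ζ ^ n * ((ζ * conj ζ) ^ m) := by rw [hcc]; simp
        _ = (ζ ^ n * (conj ζ) ^ m) * ζ ^ m := by rw [mul_pow]; ring
        _ = ζ ^ m := by rw [← hη, h3, one_mul]
    have h4 := geom_sum_mul η q
    rw [hηq, sub_self] at h4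
    rcases mul_eq_zero.1 h4 with h5 | h5
    · exact h5
    · exact absurd (sub_eq_zero.1 h5) hη1

private theorem wn_parseval (q N : ℕ) (hN : N ≤ q) (ζ : ℂ) (hζ : IsPrimitiveRoot ζ q) (h1 : ‖ζ‖ = 1) (v : ℕ → H) :
    ∑ k ∈ range q, ‖∑ n ∈ range N, (conj (ζ ^ k)) ^ n • v n‖ ^ 2 = q * ∑ n ∈ range N, ‖v n‖ ^ 2 := by
  have h2 : ((∑ k ∈ range q, ‖∑ n ∈ range N, (conj (ζ ^ k)) ^ n • v n‖ ^ 2 : ℝ) : ℂ) =
      ((q * ∑ n ∈ range N, ‖v n‖ ^ 2 : ℝ) : ℂ) := by
    have h3 : ∀ k, ((‖∑ n ∈ range N, (conj (ζ ^ k)) ^ n • v n‖ ^ 2 : ℝ) : ℂ) =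
        ∑ n ∈ range N, ∑ m ∈ range N, conj ((conj (ζ ^ k)) ^ n) * (conj (ζ ^ k)) ^ m * inner ℂ (v n) (v m) := by
      intro k
      have h4 := inner_self_eq_norm_sq_to_K (𝕜 := ℂ) (∑ n ∈ range N, (conj (ζ ^ k)) ^ n • v n)
      rw [sum_inner] at h4
      simp_rw [inner_sum, inner_smul_left, inner_smul_right] at h4
      have h4' : ((‖∑ n ∈ range N, (conj (ζ ^ k)) ^ n • v n‖ ^ 2 : ℝ) : ℂ) =
          ∑ n ∈ range N, ∑ m ∈ range N, conj ((conj (ζ ^ k)) ^ n) * ((conj (ζ ^ k)) ^ m * inner ℂ (v n) (v m)) := by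
        rw [h4]; push_cast; rfl
      rw [h4']
      exact Finset.sum_congr rfl fun n _ => Finset.sum_congr rfl fun m _ => by ring
    rw [Complex.ofReal_sum]
    simp_rw [h3]
    rw [Finset.sum_comm]
    push_cast
    rw [Finset.mul_sum]
    refine Finset.sum_congr rfl fun n hn => ?_
    rw [Finset.sum_comm]
    have h5 : ∀ m ∈ range N, ∑ k ∈ range q, conj ((conj (ζ ^ k)) ^ n) * (conj (ζ ^ k)) ^ m * inner ℂ (v n) (v m) =
        if n = m then (q : ℂ) * inner ℂ (v n) (v m) else 0 := by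
      intro m hm
      rw [← Finset.sum_mul, wn_geom q n m (lt_of_lt_of_le (Finset.mem_range.1 hn) hN)
        (lt_of_lt_of_le (Finset.mem_range.1 hm) hN) ζ hζ h1]
      split_ifs <;> simp
    rw [Finset.sum_congr rfl h5, Finset.sum_ite_eq, if_pos hn, inner_self_eq_norm_sq_to_K]
    rfl
  exact_mod_cast h2

/-- the square of the norm as an exponential sum -/
private theorem wn_sq (V : H →ₗᵢ[ℂ] H) (f : H) (N : ℕ) (w : ℂ) (hw : ‖w‖ = 1) :
    ‖∑ n ∈ range N, (conj w) ^ n • (V ^ n) f‖ ^ 2 =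
      ‖∑ s ∈ range (2 * N), (conj w) ^ s • ∑ p ∈ (range N ×ˢ range N) with p.1 + (N - p.2) = s,
        inner ℂ ((V ^ p.2) f) ((V ^ p.1) f)‖ := by
  have hcc : w * conj w = 1 := by
    rw [Complex.mul_conj, Complex.normSq_eq_norm_sq, hw]; simp
  have h4 := inner_self_eq_norm_sq_to_K (𝕜 := ℂ) (∑ n ∈ range N, (conj w) ^ n • (V ^ n) f)
  have h5 : (conj w) ^ N * inner ℂ (∑ n ∈ range N, (conj w) ^ n • (V ^ n) f) (∑ n ∈ range N, (conj w) ^ n • (V ^ n) f) =
      ∑ s ∈ range (2 * N), (conj w) ^ s • ∑ p ∈ (range N ×ˢ range N) with p.1 + (N - p.2) = s,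
        inner ℂ ((V ^ p.2) f) ((V ^ p.1) f) := by
    rw [sum_inner]
    simp_rw [inner_sum, inner_smul_left, inner_smul_right, Finset.mul_sum, smul_eq_mul, Finset.mul_sum]
    rw [Finset.sum_comm, ← Finset.sum_product']
    rw [← Finset.sum_fiberwise_of_maps_to (s := range N ×ˢ range N) (t := range (2 * N)) (g := fun p => p.1 + (N - p.2))]
    · refine Finset.sum_congr rfl fun s _ => Finset.sum_congr rfl fun p hp => ?_
      rw [Finset.mem_filter, Finset.mem_product, Finset.mem_range, Finset.mem_range] at hp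
      obtain ⟨⟨h6, h7⟩, h8⟩ := hp
      rw [← h8, pow_add]
      have h9 : (conj w) ^ N = (conj w) ^ (N - p.2) * (conj w) ^ p.2 := by
        rw [← pow_add]; congr 1; omega
      rw [h9]
      simp only [map_pow, Complex.conj_conj]
      calc (conj w) ^ (N - p.2) * (conj w) ^ p.2 * (w ^ p.2 * ((conj w) ^ p.1 * inner ℂ ((V ^ p.2) f) ((V ^ p.1) f)))
          = (w * conj w) ^ p.2 * ((conj w) ^ p.1 * (conj w) ^ (N - p.2) * inner ℂ ((V ^ p.2) f) ((V ^ p.1) f)) := by
            rw [mul_pow]; ring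
        _ = _ := by rw [hcc]; ring
    · intro p hp
      rw [Finset.mem_product, Finset.mem_range, Finset.mem_range] at hp
      rw [Finset.mem_range]; omega
  rw [← h5, norm_mul, norm_pow, RCLike.norm_conj, hw, one_pow, one_mul, h4]
  simp

private theorem wn_coef (V : H →ₗᵢ[ℂ] H) (f : H) (N j : ℕ) (hj : j < N) :
    ∑ p ∈ (range N ×ˢ range N) with p.1 + (N - p.2) = N + j, inner ℂ ((V ^ p.2) f) ((V ^ p.1) f) =
      ((N - j : ℕ) : ℂ) * inner ℂ f ((V ^ j) f) := by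
  have h1 : ∑ p ∈ (range N ×ˢ range N) with p.1 + (N - p.2) = N + j, inner ℂ ((V ^ p.2) f) ((V ^ p.1) f) =
      ∑ m ∈ range (N - j), inner ℂ ((V ^ m) f) ((V ^ (m + j)) f) := by
    refine Finset.sum_nbij' (fun p => p.2) (fun m => (m + j, m)) ?_ ?_ ?_ ?_ ?_
    · intro p hp
      rw [Finset.mem_filter, Finset.mem_product, Finset.mem_range, Finset.mem_range] at hp
      rw [Finset.mem_range]; omega
    · intro m hm
      rw [Finset.mem_range] at hm
      rw [Finset.mem_filter, Finset.mem_product, Finset.mem_range, Finset.mem_range]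
      simp only
      omega
    · intro p hp
      rw [Finset.mem_filter, Finset.mem_product, Finset.mem_range, Finset.mem_range] at hp
      ext
      · simp only; omega
      · rfl
    · intro m _; rfl
    · intro p hp
      rw [Finset.mem_filter, Finset.mem_product, Finset.mem_range, Finset.mem_range] at hp
      have : p.2 + j = p.1 := by omega
      rw [this]
  rw [h1]
  have h2 : ∀ m ∈ range (N - j), inner ℂ ((V ^ m) f) ((V ^ (m + j)) f) = inner ℂ f ((V ^ j) f) := by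
    intro m _
    rw [pow_add]
    exact (V ^ m).inner_map_map f ((V ^ j) f)
  rw [Finset.sum_congr rfl h2, Finset.sum_const, Finset.card_range, nsmul_eq_mul]

private theorem wn_lower (V : H →ₗᵢ[ℂ] H) (f : H) (hf : ‖f‖ ≤ 1) (K : ℕ) (hK : 0 < K) :
    ∃ w : ℂ, ‖w‖ = 1 ∧ ((∑ j ∈ range K, ‖inner ℂ f ((V ^ j) f)‖) ^ 2) / 2 ≤
      ‖∑ n ∈ range (2 * K), (conj w) ^ n • (V ^ n) f‖ ^ 2 := by
  set N := 2 * K with hN
  set q := 2 * N with hq
  have hq0 : q ≠ 0 := by omega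
  set ζ : ℂ := Complex.exp (2 * Real.pi * Complex.I / q) with hζd
  have hζ : IsPrimitiveRoot ζ q := Complex.isPrimitiveRoot_exp q hq0
  have h1 : ‖ζ‖ = 1 := hζ.norm'_eq_one hq0
  have hw : ∀ k, ‖ζ ^ k‖ = 1 := fun k => by rw [norm_pow, h1, one_pow]
  set b : ℕ → ℝ := fun k => ‖∑ n ∈ range N, (conj (ζ ^ k)) ^ n • (V ^ n) f‖ ^ 2 with hb
  have hb0 : ∀ k, 0 ≤ b k := fun k => by positivity
  obtain ⟨k0, hk0, hmax⟩ := Finset.exists_max_image (range q) b ⟨0, Finset.mem_range.2 (by omega)⟩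
  refine ⟨ζ ^ k0, hw k0, ?_⟩
  change _ ≤ b k0
  set c : ℕ → ℂ := fun s => ∑ p ∈ (range N ×ˢ range N) with p.1 + (N - p.2) = s,
        inner ℂ ((V ^ p.2) f) ((V ^ p.1) f) with hc
  have hsum1 : ∑ k ∈ range q, b k ≤ q * N := by
    rw [hb]
    simp only
    rw [wn_parseval q N (by omega) ζ hζ h1 (fun n => (V ^ n) f)]
    have h3 : ∑ n ∈ range N, ‖(V ^ n) f‖ ^ 2 ≤ N := by
      have h4 : ∀ n ∈ range N, ‖(V ^ n) f‖ ^ 2 ≤ 1 := by
        intro n _
        rw [(V ^ n).norm_map]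
        exact pow_le_one₀ (norm_nonneg _) hf
      refine (Finset.sum_le_sum h4).trans ?_
      simp
    gcongr
  have hsum2 : ∑ k ∈ range q, b k ^ 2 = q * ∑ s ∈ range q, ‖c s‖ ^ 2 := by
    rw [← wn_parseval q q le_rfl ζ hζ h1 c]
    refine Finset.sum_congr rfl fun k _ => ?_
    rw [hb]
    simp only
    rw [wn_sq V f N (ζ ^ k) (hw k)]
  have hlow : (K : ℝ) ^ 2 * ∑ j ∈ range K, ‖inner ℂ f ((V ^ j) f)‖ ^ 2 ≤ ∑ s ∈ range q, ‖c s‖ ^ 2 := by
    have h5 : ∀ j ∈ range K, (K : ℝ) ^ 2 * ‖inner ℂ f ((V ^ j) f)‖ ^ 2 ≤ ‖c (N + j)‖ ^ 2 := by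
      intro j hj
      rw [Finset.mem_range] at hj
      have h6 : c (N + j) = ((N - j : ℕ) : ℂ) * inner ℂ f ((V ^ j) f) := wn_coef V f N j (by omega)
      rw [h6, norm_mul, mul_pow, Complex.norm_natCast]
      have h7 : (K : ℝ) ≤ ((N - j : ℕ) : ℝ) := by exact_mod_cast (show K ≤ N - j by omega)
      gcongr
    rw [Finset.mul_sum]
    refine (Finset.sum_le_sum h5).trans ?_
    rw [← Finset.sum_image (s := range K) (g := fun j => N + j) (f := fun s => ‖c s‖ ^ 2)
      (fun a _ b _ h => by simpa using h)]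
    refine Finset.sum_le_sum_of_subset_of_nonneg ?_ fun s _ _ => by positivity
    intro s hs
    rw [Finset.mem_image] at hs
    obtain ⟨j, hj, rfl⟩ := hs
    rw [Finset.mem_range] at hj ⊢
    omega
  have hle : ∑ k ∈ range q, b k ^ 2 ≤ b k0 * ∑ k ∈ range q, b k := by
    rw [Finset.mul_sum]
    refine Finset.sum_le_sum fun k hk => ?_
    rw [pow_two]
    exact mul_le_mul_of_nonneg_right (hmax k hk) (hb0 k)
  have hcs : (∑ j ∈ range K, ‖inner ℂ f ((V ^ j) f)‖) ^ 2 ≤ K * ∑ j ∈ range K, ‖inner ℂ f ((V ^ j) f)‖ ^ 2 := by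
    have := sq_sum_le_card_mul_sum_sq (s := range K) (f := fun j => ‖inner ℂ f ((V ^ j) f)‖)
    simpa using this
  set Sg := ∑ j ∈ range K, ‖inner ℂ f ((V ^ j) f)‖ ^ 2 with hSg
  have hqpos : (0 : ℝ) < q := by exact_mod_cast Nat.pos_of_ne_zero hq0
  have hKpos : (0 : ℝ) < K := by exact_mod_cast hK
  have hNK : (N : ℝ) = 2 * K := by rw [hN]; push_cast; ring
  have h8 : (q : ℝ) * ((K : ℝ) ^ 2 * Sg) ≤ b k0 * (q * N) := by
    calc (q : ℝ) * ((K : ℝ) ^ 2 * Sg) ≤ q * ∑ s ∈ range q, ‖c s‖ ^ 2 := by gcongr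
      _ = ∑ k ∈ range q, b k ^ 2 := hsum2.symm
      _ ≤ b k0 * ∑ k ∈ range q, b k := hle
      _ ≤ b k0 * (q * N) := by
          have := hb0 k0
          gcongr
  have h9 : (K : ℝ) * Sg ≤ 2 * b k0 := by
    rw [hNK] at h8
    have h10 : (q : ℝ) * K * (K * Sg) ≤ (q : ℝ) * K * (2 * b k0) := by linarith
    exact le_of_mul_le_mul_left h10 (by positivity)
  linarith

private theorem wn_double (V : H →ₗᵢ[ℂ] H) (f : H) (N : ℕ) (w : ℂ) (hw : ‖w‖ = 1) :
    ‖∑ n ∈ range (2 * N), (conj w) ^ n • (V ^ n) f‖ ≤ 2 * ‖∑ n ∈ range N, (conj w) ^ n • (V ^ n) f‖ := by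
  have h1 : ∑ n ∈ range (2 * N), (conj w) ^ n • (V ^ n) f =
      ∑ n ∈ range N, (conj w) ^ n • (V ^ n) f + (conj w) ^ N • (V ^ N) (∑ n ∈ range N, (conj w) ^ n • (V ^ n) f) := by
    rw [two_mul, Finset.sum_range_add]
    congr 1
    rw [map_sum, Finset.smul_sum]
    refine Finset.sum_congr rfl fun n _ => ?_
    rw [map_smul, smul_smul, ← pow_add, pow_add V N n]
    rfl
  rw [h1]
  refine (norm_add_le _ _).trans ?_
  rw [norm_smul, norm_pow, RCLike.norm_conj, hw, one_pow, one_mul, (V ^ N).norm_map]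
  exact le_of_eq (by ring)

private theorem wn_abs [CompleteSpace H] (V : H →ₗᵢ[ℂ] H) (f : H) (hf : ‖f‖ ≤ 1)
    (h : ∀ w : ℂ, ‖w‖ = 1 → ∀ g : H, V g = w • g → inner ℂ g f = 0) :
    Tendsto (fun N : ℕ => (1 / (N : ℝ)) * ∑ n ∈ range N, ‖inner ℂ f ((V ^ n) f)‖) atTop (𝓝 0) := by
  by_contra hcon
  rw [Metric.tendsto_atTop] at hcon
  push Not at hcon
  obtain ⟨ε, hε, hcon⟩ := hcon
  set S : ℂ → ℕ → H := fun w N => ∑ n ∈ range N, (conj w) ^ n • (V ^ n) f with hS
  set c : ℝ := ε / 6 with hc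
  have hcpos : 0 < c := by positivity
  set F : ℕ → Set ℂ := fun i => {w | ‖w‖ = 1 ∧ c * 2 ^ i ≤ ‖S w (2 ^ i)‖} with hF
  have hanti1 : ∀ i, F (i + 1) ⊆ F i := by
    intro i w hw
    refine ⟨hw.1, ?_⟩
    have h1 := hw.2
    have h2 := wn_double V f (2 ^ i) w hw.1
    rw [← pow_succ'] at h2
    have h3 : c * 2 ^ (i + 1) ≤ 2 * ‖S w (2 ^ i)‖ := h1.trans h2
    rw [pow_succ] at h3
    linarith
  have hanti : Antitone F := antitone_nat_of_succ_le hanti1
  have hne : ∀ i, (F i).Nonempty := by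
    intro i
    obtain ⟨N, hN, hN2⟩ := hcon (2 ^ i)
    have hNpos : 0 < N := lt_of_lt_of_le (by positivity) hN
    rw [Real.dist_eq, sub_zero, abs_of_nonneg (by positivity)] at hN2
    set l := Nat.log 2 N with hl
    have h1 : 2 ^ l ≤ N := Nat.pow_log_le_self 2 (by omega)
    have h2 : N < 2 ^ (l + 1) := Nat.lt_pow_succ_log_self (by norm_num) N
    have h3 : i < l + 1 := by
      by_contra h4
      have : 2 ^ (l + 1) ≤ 2 ^ i := Nat.pow_le_pow_right (by norm_num) (by omega)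
      omega
    obtain ⟨w, hw, hlow⟩ := wn_lower V f hf (2 ^ (l + 1)) (by positivity)
    have h4 : ∑ n ∈ range N, ‖inner ℂ f ((V ^ n) f)‖ ≤ ∑ n ∈ range (2 ^ (l + 1)), ‖inner ℂ f ((V ^ n) f)‖ :=
      Finset.sum_le_sum_of_subset_of_nonneg (Finset.range_subset_range.2 h2.le) fun _ _ _ => norm_nonneg _
    have hNr : (0 : ℝ) < N := by exact_mod_cast hNpos
    have h5 : ε * N ≤ ∑ n ∈ range N, ‖inner ℂ f ((V ^ n) f)‖ := by
      have h6 : ε * N ≤ (1 / (N : ℝ) * ∑ n ∈ range N, ‖inner ℂ f ((V ^ n) f)‖) * N := by gcongr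
      have h7 : (1 / (N : ℝ) * ∑ n ∈ range N, ‖inner ℂ f ((V ^ n) f)‖) * N = ∑ n ∈ range N, ‖inner ℂ f ((V ^ n) f)‖ := by
        field_simp
      linarith
    have h8 : (2 : ℝ) ^ l ≤ N := by exact_mod_cast h1
    have h9 : ε * 2 ^ l ≤ ∑ n ∈ range (2 ^ (l + 1)), ‖inner ℂ f ((V ^ n) f)‖ := by
      have : ε * 2 ^ l ≤ ε * N := by gcongr
      linarith
    have h10 : w ∈ F (l + 2) := by
      refine ⟨hw, ?_⟩
      have h11 : (c * 2 ^ (l + 2)) ^ 2 ≤ ‖S w (2 ^ (l + 2))‖ ^ 2 := by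
        have h12 : ‖S w (2 ^ (l + 2))‖ = ‖∑ n ∈ range (2 * 2 ^ (l + 1)), (conj w) ^ n • (V ^ n) f‖ := by
          rw [hS]; simp only
          rw [← pow_succ']
        rw [h12]
        refine le_trans ?_ hlow
        have h13 : (ε * 2 ^ l) ^ 2 ≤ (∑ n ∈ range (2 ^ (l + 1)), ‖inner ℂ f ((V ^ n) f)‖) ^ 2 :=
          pow_le_pow_left₀ (by positivity) h9 2
        have h14 : (c * 2 ^ (l + 2)) ^ 2 = (ε * 2 ^ l) ^ 2 * (16 / 36) := by
          rw [hc, pow_add]; ring
        rw [h14]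
        nlinarith [sq_nonneg (ε * 2 ^ l)]
      exact le_of_sq_le_sq h11 (norm_nonneg _) |> fun h => h
    exact ⟨w, hanti (by omega) h10⟩
  have hcl : ∀ i, IsClosed (F i) := by
    intro i
    have hcont : Continuous fun w => ‖S w (2 ^ i)‖ := by
      rw [hS]; simp only
      refine Continuous.norm (continuous_finsetSum _ fun n _ => ?_)
      exact (Complex.continuous_conj.pow n).smul continuous_const
    have : F i = {w : ℂ | ‖w‖ = 1} ∩ {w | c * 2 ^ i ≤ ‖S w (2 ^ i)‖} := rfl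
    rw [this]
    exact (isClosed_eq continuous_norm continuous_const).inter (isClosed_le continuous_const hcont)
  have hcpt : IsCompact (F 0) := by
    refine (isCompact_sphere (0 : ℂ) 1).of_isClosed_subset (hcl 0) ?_
    intro w hw
    rw [mem_sphere_zero_iff_norm]
    exact hw.1
  obtain ⟨w, hw⟩ := IsCompact.nonempty_iInter_of_sequence_nonempty_isCompact_isClosed F (fun i => hanti1 i) hne hcpt hcl
  rw [Set.mem_iInter] at hw
  have hw1 : ‖w‖ = 1 := (hw 0).1
  have hcc : w * conj w = 1 := by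
    rw [Complex.mul_conj, Complex.normSq_eq_norm_sq, hw1]; simp
  set U : H →L[ℂ] H := (conj w) • V.toContinuousLinearMap with hU
  have hU1 : ‖U‖ ≤ 1 := by
    refine ContinuousLinearMap.opNorm_le_bound _ zero_le_one fun g => ?_
    rw [hU, ContinuousLinearMap.smul_apply, norm_smul, RCLike.norm_conj, hw1]
    simp
  have hlim := U.tendsto_birkhoffAverage_orthogonalProjection hU1 f
  set p := (U.eqLocus (1 : H →L[ℂ] H)).orthogonalProjectionOnto f with hp
  have hfix : U (p : H) = p := p.2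
  have hVp : V (p : H) = w • (p : H) := by
    have h1 : w • U (p : H) = w • (p : H) := by rw [hfix]
    have h2 : ∀ x : H, w • U x = V x := by
      intro x
      rw [hU, ContinuousLinearMap.smul_apply, smul_smul, hcc, one_smul]
      rfl
    rw [← h2]; exact h1
  have h2 : inner ℂ (p : H) f = 0 := h w hw1 p hVp
  have h3 : p = 0 := by
    have h4 : inner ℂ p p = inner ℂ (p : H) f := Submodule.inner_orthogonalProjectionOnto_eq_of_mem_left p f
    rw [h2] at h4
    exact inner_self_eq_zero.1 h4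
  rw [h3] at hlim
  have h5 : Tendsto (fun i : ℕ => ‖birkhoffAverage ℂ U _root_.id (2 ^ i) f‖) atTop (𝓝 0) := by
    have h6 : Tendsto (fun i : ℕ => 2 ^ i) atTop (atTop : Filter ℕ) :=
      tendsto_pow_atTop_atTop_of_one_lt (by norm_num)
    have h7 := (hlim.comp h6).norm
    simpa using h7
  have hiter : ∀ n, U^[n] f = (conj w) ^ n • (V ^ n) f := by
    intro n
    induction n with
    | zero => simp
    | succ n ih =>
      rw [Function.iterate_succ_apply', ih, hU, ContinuousLinearMap.smul_apply, map_smul, smul_smul, ← pow_succ',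
        pow_succ' V n]
      rfl
  have h8 : ∀ i : ℕ, c ≤ ‖birkhoffAverage ℂ U _root_.id (2 ^ i) f‖ := by
    intro i
    have h9 : birkhoffAverage ℂ U _root_.id (2 ^ i) f = (((2 ^ i : ℕ) : ℂ))⁻¹ • S w (2 ^ i) := by
      simp only [birkhoffAverage, birkhoffSum, id_eq, hS]
      congr 1
      exact Finset.sum_congr rfl fun n _ => hiter n
    rw [h9, norm_smul, norm_inv, Complex.norm_natCast]
    have h10 := (hw i).2
    push_cast
    rw [inv_mul_eq_div, le_div_iff₀ (by positivity)]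
    exact h10
  have h11 := ge_of_tendsto' h5 h8
  linarith

end abs

theorem wiener {X : Type} [MeasurableSpace X] {μ : Measure X} [IsProbabilityMeasure μ] {T : X → X} (hT : MeasurePreserving T μ μ)
    (f : X → ℂ) (hf : AEStronglyMeasurable f μ) (hf1 : ∀ x, ‖f x‖ ≤ 1)
    (h : ∀ w : ℂ, ‖w‖ = 1 → ∀ g : X → ℂ, MemLp g 2 μ → (∀ᵐ x ∂μ, g (T x) = w * g x) → ∫ x, f x * conj (g x) ∂μ = 0) :
    Tendsto (fun N : ℕ => (1 / (N : ℝ)) * ∑ n ∈ range N, ‖∫ x, f (T^[n] x) * conj (f x) ∂μ‖) atTop (𝓝 0) := by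
  have hm : MemLp f 2 μ := MemLp.of_bound hf 1 (ae_of_all _ hf1)
  set V : Lp ℂ 2 μ →ₗᵢ[ℂ] Lp ℂ 2 μ := Lp.compMeasurePreservingₗᵢ ℂ T hT with hV
  set F : Lp ℂ 2 μ := hm.toLp f with hF
  have hF1 : ‖F‖ ≤ 1 := by
    have h1 := Lp.norm_le_of_ae_bound (f := F) (C := 1) zero_le_one (by
      filter_upwards [hm.coeFn_toLp] with x hx
      rw [hF, hx]; exact hf1 x)
    have h2 : measureUnivNNReal μ = 1 := by
      rw [measureUnivNNReal]; simp
    simpa [h2] using h1
  have hVn : ∀ n, ((V ^ n) F : X → ℂ) =ᵐ[μ] fun x => f (T^[n] x) := by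
    intro n
    induction n with
    | zero =>
      have h2 : (V ^ 0) F = F := rfl
      rw [h2]
      exact hm.coeFn_toLp
    | succ n ih =>
      have h2 : (V ^ (n + 1)) F = V ((V ^ n) F) := by rw [pow_succ']; rfl
      have h3 : V ((V ^ n) F) = Lp.compMeasurePreserving T hT ((V ^ n) F) := rfl
      rw [h2, h3]
      have h4 := Lp.coeFn_compMeasurePreserving ((V ^ n) F) hT
      have h5 := hT.quasiMeasurePreserving.ae_eq ih
      filter_upwards [h4, h5] with x hx hx2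
      rw [hx, hx2]
      simp only [Function.comp_apply, Function.iterate_succ]
  have hin : ∀ n, inner ℂ F ((V ^ n) F) = ∫ x, f (T^[n] x) * conj (f x) ∂μ := by
    intro n
    rw [L2.inner_def]
    refine integral_congr_ae ?_
    filter_upwards [hVn n, hm.coeFn_toLp] with x hx hx2
    rw [hx, hF, hx2]
    simp [mul_comm]
  have := wn_abs V F hF1 (by
    intro w hw g hg
    have h1 : ∀ᵐ x ∂μ, g (T x) = w * g x := by
      have h2 := Lp.coeFn_compMeasurePreserving g hT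
      have h3 : Lp.compMeasurePreserving T hT g = w • g := hg
      rw [h3] at h2
      filter_upwards [h2, Lp.coeFn_smul w g] with x hx hx2
      rw [hx2] at hx
      exact hx.symm
    have h4 := h w hw g (Lp.memLp g) h1
    rw [L2.inner_def, ← h4]
    refine integral_congr_ae ?_
    filter_upwards [hm.coeFn_toLp] with x hx
    rw [hF, hx]
    simp [mul_comm])
  refine this.congr fun N => ?_
  congr 1
  exact Finset.sum_congr rfl fun n _ => by rw [hin n]

end Pool.Agent.Lib.MP_9fe581_an.TW
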