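import Pool.Agent.Lib.MP_9fe581_an.TW.Defs
import Pool.Agent.Lib.MP_9fe581_an.TW.Wiener
import Pool.Agent.Lib.MP_9fe581_an.TW.EigY
import Pool.Agent.Lib.MP_9fe581_an.HT.Lim

/-!
# TW / LimE: the limit of the averaging operators
-/

set_option autoImplicit false

open Finset MeasureTheory Filter Topology
open scoped ComplexConjugate Matrix

namespace Pool.Agent.Lib.MP_9fe581_an.TW

open Pool.Agent.Lib.MP_9fe581_an.HT (TX mX ch ptq)
open Pool.Agent.Lib.MP_9fe581_an.FT (ec)


/-! ### two general lemmas -/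

private theorem tri_sum (β : ℕ → ℝ) (h0 : ∀ j, 0 ≤ β j) (N n : ℕ) (hn : n < N) :
    ∑ n' ∈ range N, β (n - n' + (n' - n)) ≤ 2 * ∑ j ∈ range N, β j := by
  rw [← sum_filter_add_sum_filter_not (range N) (fun n' => n' ≤ n)]
  have h1 : ∑ n' ∈ (range N).filter (fun n' => n' ≤ n), β (n - n' + (n' - n)) ≤ ∑ j ∈ range N, β j := by
    rw [← sum_image (f := β) (g := fun n' => n - n' + (n' - n))]
    · refine sum_le_sum_of_subset_of_nonneg ?_ fun i _ _ => h0 i
      intro j hj
      rw [mem_image] at hj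
      obtain ⟨a, ha, rfl⟩ := hj
      rw [mem_filter, mem_range] at ha
      rw [mem_range]
      omega
    · intro a ha b hb hab
      rw [mem_coe, mem_filter, mem_range] at ha hb
      simp only at hab
      omega
  have h2 : ∑ n' ∈ (range N).filter (fun n' => ¬ n' ≤ n), β (n - n' + (n' - n)) ≤ ∑ j ∈ range N, β j := by
    rw [← sum_image (f := β) (g := fun n' => n - n' + (n' - n))]
    · refine sum_le_sum_of_subset_of_nonneg ?_ fun i _ _ => h0 i
      intro j hj
      rw [mem_image] at hj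
      obtain ⟨a, ha, rfl⟩ := hj
      rw [mem_filter, mem_range] at ha
      rw [mem_range]
      omega
    · intro a ha b hb hab
      rw [mem_coe, mem_filter, mem_range] at ha hb
      simp only at hab
      omega
  linarith

private theorem am_gm {X : Type} [MeasurableSpace X] {μ : Measure X} [IsProbabilityMeasure μ] (G : X → ℝ)
    (h1 : Integrable G μ) (h2 : Integrable (fun x => G x ^ 2) μ) (δ : ℝ) (hδ : 0 < δ) :
    ∫ x, G x ∂μ ≤ δ / 2 + (1 / (2 * δ)) * ∫ x, G x ^ 2 ∂μ := by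
  have h3 : ∫ x, G x ∂μ ≤ ∫ x, (δ / 2 + (1 / (2 * δ)) * G x ^ 2) ∂μ := by
    refine integral_mono h1 ((integrable_const _).add (h2.const_mul _)) fun x => ?_
    simp only
    have h4 : δ / 2 + (1 / (2 * δ)) * G x ^ 2 - G x = (1 / (2 * δ)) * (G x - δ) ^ 2 := by
      field_simp
      ring
    have h5 : 0 ≤ (1 / (2 * δ)) * (G x - δ) ^ 2 := by positivity
    linarith
  refine h3.trans (le_of_eq ?_)
  rw [integral_add (integrable_const _) (h2.const_mul _), integral_const_mul]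
  simp

section base

variable {κ : Type} {α : TX κ} {φ : TX κ → UnitAddCircle}

/-! ### the operators -/

private theorem ph_cont (hφ : Continuous φ) (n : ℕ) : Continuous (ph α φ n) := by
  unfold ph
  exact continuous_finsetSum _ fun i _ => hφ.comp (continuous_id.add continuous_const)

private theorem ph_add (n j : ℕ) (x : TX κ) : ph α φ (n + j) x = ph α φ n x + ph α φ j (x + n • α) := by
  unfold ph
  rw [sum_range_add]
  congr 1
  refine sum_congr rfl fun i _ => ?_
  rw [add_smul, add_assoc]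

private noncomputable def Vn (α : TX κ) (φ : TX κ → UnitAddCircle) (m : κ →₀ ℤ) (k : ℤ) (n : ℕ) (x : TX κ) : ℂ :=
  ch m (x + n • α) * ec (k • ph α φ n x)

private theorem ec_mul_conj (w : UnitAddCircle) : ec w * conj (ec w) = 1 := by
  rw [Complex.mul_conj, Complex.normSq_eq_norm_sq, FT.norm_ec]
  simp

variable [Fintype κ] [DecidableEq κ]

private theorem Vn_cont (hφ : Continuous φ) (m : κ →₀ ℤ) (k : ℤ) (n : ℕ) : Continuous (Vn α φ m k n) := by
  unfold Vn
  have h1 : Continuous fun x : TX κ => k • ph α φ n x := (ph_cont hφ n).zsmul k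
  exact ((HT.ch_cont m).comp (continuous_id.add continuous_const)).mul (FT.continuous_ec.comp h1)

private theorem Vn_norm (m : κ →₀ ℤ) (k : ℤ) (n : ℕ) (x : TX κ) : ‖Vn α φ m k n x‖ = 1 := by
  unfold Vn
  rw [norm_mul, HT.ch_norm, FT.norm_ec, one_mul]

omit [Fintype κ] [DecidableEq κ] in
private theorem Vn_add (m : κ →₀ ℤ) (k : ℤ) (n j : ℕ) (x : TX κ) :
    Vn α φ m k (n + j) x * conj (Vn α φ m k n x) = Vn α φ m k j (x + n • α) * conj (ch m (x + n • α)) := by
  unfold Vn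
  rw [ph_add, smul_add, FT.ec_add, map_mul, add_smul, ← add_assoc]
  have h := ec_mul_conj (k • ph α φ n x)
  calc ch m (x + n • α + j • α) * (ec (k • ph α φ n x) * ec (k • ph α φ j (x + n • α))) *
      (conj (ch m (x + n • α)) * conj (ec (k • ph α φ n x)))
      = (ec (k • ph α φ n x) * conj (ec (k • ph α φ n x))) * (ch m (x + n • α + j • α) *
        ec (k • ph α φ j (x + n • α)) * conj (ch m (x + n • α))) := by ring
    _ = _ := by rw [h, one_mul]

/-- Gram matrix -/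
private theorem gram (m : κ →₀ ℤ) (k : ℤ) (n n' : ℕ) :
    ‖∫ x, Vn α φ m k n x * conj (Vn α φ m k n' x) ∂mX κ‖ =
      ‖∫ x, ch m (x + (n - n' + (n' - n)) • α) * ec (k • ph α φ (n - n' + (n' - n)) x) * conj (ch m x) ∂mX κ‖ := by
  have key : ∀ a j : ℕ, ∫ x, Vn α φ m k (a + j) x * conj (Vn α φ m k a x) ∂mX κ =
      ∫ x, ch m (x + j • α) * ec (k • ph α φ j x) * conj (ch m x) ∂mX κ := by
    intro a j
    simp only [Vn_add]
    have h := integral_add_right_eq_self (μ := mX κ) (fun x : TX κ => Vn α φ m k j x * conj (ch m x)) (a • α)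
    rw [h]
    rfl
  rcases le_total n' n with h | h
  · obtain ⟨j, rfl⟩ := Nat.exists_eq_add_of_le h
    rw [key n' j]
    have e : n' + j - n' + (n' - (n' + j)) = j := by omega
    rw [e]
  · obtain ⟨j, rfl⟩ := Nat.exists_eq_add_of_le h
    have e : n - (n + j) + (n + j - n) = j := by omega
    rw [e, ← key n j]
    have h2 : ∫ x, Vn α φ m k n x * conj (Vn α φ m k (n + j) x) ∂mX κ =
        conj (∫ x, Vn α φ m k (n + j) x * conj (Vn α φ m k n x) ∂mX κ) := by
      rw [← integral_conj]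
      refine integral_congr_ae (Eventually.of_forall fun x => ?_)
      simp only [map_mul, Complex.conj_conj]
      ring
    rw [h2, RCLike.norm_conj]

theorem decay (hα : Irr α) (hφ : Continuous φ) (hno : NoEig α φ) (m : κ →₀ ℤ) (k : ℤ) (hk : k ≠ 0) :
    Tendsto (fun N : ℕ => (1 / (N : ℝ)) * ∑ n ∈ range N,
      ‖∫ x, ch m (x + n • α) * ec (k • ph α φ n x) * conj (ch m x) ∂mX κ‖) atTop (𝓝 0) := by
  have hc : Continuous (chy m k : YY κ → ℂ) := by
    unfold chy
    have h1 : Continuous fun z : YY κ => k • z.2 := continuous_snd.zsmul k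
    exact ((HT.ch_cont m).comp continuous_fst).mul (FT.continuous_ec.comp h1)
  have hn : ∀ z : YY κ, ‖chy m k z‖ = 1 := by
    intro z
    unfold chy
    rw [norm_mul, HT.ch_norm, FT.norm_ec, one_mul]
  have h := wiener (SS_pres (α := α) hφ) (chy m k) hc.aestronglyMeasurable (fun z => (hn z).le)
    (fun w hw g hg he => eig_char hα hφ hno m k hk w hw g hg he)
  refine h.congr fun N => ?_
  congr 1
  refine sum_congr rfl fun n _ => ?_
  congr 1
  have h1 : ∀ z : YY κ, chy m k ((SS α φ)^[n] z) * conj (chy m k z) =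
      ch m (z.1 + n • α) * ec (k • ph α φ n z.1) * conj (ch m z.1) := by
    intro z
    rw [SS_iter]
    unfold chy
    simp only [smul_add, FT.ec_add, map_mul]
    have h2 := ec_mul_conj (k • z.2)
    calc ch m (z.1 + n • α) * (ec (k • z.2) * ec (k • ph α φ n z.1)) * (conj (ch m z.1) * conj (ec (k • z.2)))
        = (ec (k • z.2) * conj (ec (k • z.2))) * (ch m (z.1 + n • α) * ec (k • ph α φ n z.1) * conj (ch m z.1)) := by ring
      _ = _ := by rw [h2, one_mul]
  simp only [h1]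
  unfold mY
  rw [integral_fun_fst (μ := mX κ) (ν := AddCircle.haarAddCircle)
    (fun x : TX κ => ch m (x + n • α) * ec (k • ph α φ n x) * conj (ch m x))]
  simp

/-- the kernel -/
private noncomputable def Gk (α : TX κ) (φ : TX κ → UnitAddCircle) (m m' : κ →₀ ℤ) (k : ℤ) (N : ℕ) (x v : TX κ) : ℂ :=
  (1 / (N : ℂ)) * ∑ n ∈ range N, Vn α φ m k n x * conj (Vn α φ m' k n v)

omit [DecidableEq κ] in
private theorem Gk_cont' (hφ : Continuous φ) (m m' : κ →₀ ℤ) (k : ℤ) (N : ℕ) {Z : Type} [TopologicalSpace Z] (a b : Z → TX κ)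
    (ha : Continuous a) (hb : Continuous b) : Continuous fun z => Gk α φ m m' k N (a z) (b z) := by
  classical
  unfold Gk
  refine continuous_const.mul (continuous_finsetSum _ fun n _ => ?_)
  exact ((Vn_cont hφ m k n).comp ha).mul (Complex.continuous_conj.comp ((Vn_cont hφ m' k n).comp hb))

private theorem Gk_norm (m m' : κ →₀ ℤ) (k : ℤ) (N : ℕ) (x v : TX κ) : ‖Gk α φ m m' k N x v‖ ≤ 1 := by
  unfold Gk
  rcases Nat.eq_zero_or_pos N with h | h
  · subst h
    simp
  have h0 : (0 : ℝ) < N := by exact_mod_cast h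
  rw [norm_mul, norm_div, norm_one, Complex.norm_natCast]
  have h1 : ‖∑ n ∈ range N, Vn α φ m k n x * conj (Vn α φ m' k n v)‖ ≤ N := by
    refine (norm_sum_le _ _).trans ?_
    have h2 : ∀ n ∈ range N, ‖Vn α φ m k n x * conj (Vn α φ m' k n v)‖ ≤ 1 := by
      intro n _
      rw [norm_mul, RCLike.norm_conj, Vn_norm, Vn_norm, one_mul]
    refine (sum_le_sum h2).trans ?_
    simp
  calc 1 / (N : ℝ) * ‖∑ n ∈ range N, Vn α φ m k n x * conj (Vn α φ m' k n v)‖ ≤ 1 / (N : ℝ) * N := by gcongr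
    _ = 1 := by field_simp

/-- the Hilbert - Schmidt norm of the kernel -/
private theorem Gk_hs (hφ : Continuous φ) (m m' : κ →₀ ℤ) (k : ℤ) (N : ℕ) (hN : 0 < N) :
    ∫ z : TX κ × TX κ, ‖Gk α φ m m' k N z.1 z.2‖ ^ 2 ∂(mX κ).prod (mX κ) ≤ (2 / (N : ℝ)) * ∑ j ∈ range N,
      ‖∫ x, ch m (x + j • α) * ec (k • ph α φ j x) * conj (ch m x) ∂mX κ‖ := by
  have h0 : (0 : ℝ) < N := by exact_mod_cast hN
  have hb2 := HT.borel2 (κ := κ)
  -- complex form
  have e1 : ((∫ z : TX κ × TX κ, ‖Gk α φ m m' k N z.1 z.2‖ ^ 2 ∂(mX κ).prod (mX κ) : ℝ) : ℂ) =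
      (1 / (N : ℂ)) ^ 2 * ∑ n ∈ range N, ∑ n' ∈ range N,
        (∫ x, Vn α φ m k n x * conj (Vn α φ m k n' x) ∂mX κ) * (∫ v, conj (Vn α φ m' k n v) * Vn α φ m' k n' v ∂mX κ) := by
    have e0 : ((∫ z : TX κ × TX κ, ‖Gk α φ m m' k N z.1 z.2‖ ^ 2 ∂(mX κ).prod (mX κ) : ℝ) : ℂ) =
        ∫ z : TX κ × TX κ, ((‖Gk α φ m m' k N z.1 z.2‖ ^ 2 : ℝ) : ℂ) ∂(mX κ).prod (mX κ) := integral_ofReal.symm
    rw [e0]
    have e2 : ∀ z : TX κ × TX κ, ((‖Gk α φ m m' k N z.1 z.2‖ ^ 2 : ℝ) : ℂ) = (1 / (N : ℂ)) ^ 2 * ∑ n ∈ range N, ∑ n' ∈ range N,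
        (Vn α φ m k n z.1 * conj (Vn α φ m k n' z.1)) * (conj (Vn α φ m' k n z.2) * Vn α φ m' k n' z.2) := by
      intro z
      have e3 : ((‖Gk α φ m m' k N z.1 z.2‖ ^ 2 : ℝ) : ℂ) = Gk α φ m m' k N z.1 z.2 * conj (Gk α φ m m' k N z.1 z.2) := by
        rw [Complex.mul_conj, Complex.normSq_eq_norm_sq]
      rw [e3]
      unfold Gk
      rw [map_mul, map_div₀, map_one, Complex.conj_natCast, map_sum]
      rw [mul_mul_mul_comm, sum_mul_sum, sq]
      congr 1
      refine sum_congr rfl fun n _ => sum_congr rfl fun n' _ => ?_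
      rw [map_mul, Complex.conj_conj]
      ring
    simp only [e2]
    rw [integral_const_mul]
    congr 1
    have hc : ∀ n n' : ℕ, Continuous fun z : TX κ × TX κ =>
        (Vn α φ m k n z.1 * conj (Vn α φ m k n' z.1)) * (conj (Vn α φ m' k n z.2) * Vn α φ m' k n' z.2) := by
      intro n n'
      have c1 := (Vn_cont (α := α) hφ m k n).comp (continuous_fst (X := TX κ) (Y := TX κ))
      have c2 := (Vn_cont (α := α) hφ m k n').comp (continuous_fst (X := TX κ) (Y := TX κ))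
      have c3 := (Vn_cont (α := α) hφ m' k n).comp (continuous_snd (X := TX κ) (Y := TX κ))
      have c4 := (Vn_cont (α := α) hφ m' k n').comp (continuous_snd (X := TX κ) (Y := TX κ))
      exact (c1.mul (Complex.continuous_conj.comp c2)).mul ((Complex.continuous_conj.comp c3).mul c4)
    rw [integral_finsetSum _ fun n _ => integrable_finsetSum _ fun n' _ => HT.sqsi_int (hc n n') _]
    refine sum_congr rfl fun n _ => ?_
    rw [integral_finsetSum _ fun n' _ => HT.sqsi_int (hc n n') _]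
    refine sum_congr rfl fun n' _ => ?_
    exact integral_prod_mul (μ := mX κ) (ν := mX κ) (fun x => Vn α φ m k n x * conj (Vn α φ m k n' x))
      (fun v => conj (Vn α φ m' k n v) * Vn α φ m' k n' v)
  have e5 : ∫ z : TX κ × TX κ, ‖Gk α φ m m' k N z.1 z.2‖ ^ 2 ∂(mX κ).prod (mX κ) =
      ‖(1 / (N : ℂ)) ^ 2 * ∑ n ∈ range N, ∑ n' ∈ range N,
        (∫ x, Vn α φ m k n x * conj (Vn α φ m k n' x) ∂mX κ) * (∫ v, conj (Vn α φ m' k n v) * Vn α φ m' k n' v ∂mX κ)‖ := by
    rw [← e1, Complex.norm_real, Real.norm_eq_abs, abs_of_nonneg]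
    exact integral_nonneg fun z => by positivity
  rw [e5, norm_mul, norm_pow, norm_div, norm_one, Complex.norm_natCast]
  set β : ℕ → ℝ := fun j => ‖∫ x, ch m (x + j • α) * ec (k • ph α φ j x) * conj (ch m x) ∂mX κ‖ with hβ
  have h1 : ‖∑ n ∈ range N, ∑ n' ∈ range N,
        (∫ x, Vn α φ m k n x * conj (Vn α φ m k n' x) ∂mX κ) * (∫ v, conj (Vn α φ m' k n v) * Vn α φ m' k n' v ∂mX κ)‖ ≤
      ∑ n ∈ range N, ∑ n' ∈ range N, β (n - n' + (n' - n)) := by
    refine (norm_sum_le _ _).trans (sum_le_sum fun n _ => (norm_sum_le _ _).trans (sum_le_sum fun n' _ => ?_))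
    rw [norm_mul, gram]
    have h2 : ‖∫ v, conj (Vn α φ m' k n v) * Vn α φ m' k n' v ∂mX κ‖ ≤ 1 := by
      refine (norm_integral_le_of_norm_le_const (C := 1) (Eventually.of_forall fun v => ?_)).trans ?_
      · rw [norm_mul, RCLike.norm_conj, Vn_norm, Vn_norm, one_mul]
      · simp
    calc β (n - n' + (n' - n)) * ‖∫ v, conj (Vn α φ m' k n v) * Vn α φ m' k n' v ∂mX κ‖
        ≤ β (n - n' + (n' - n)) * 1 := mul_le_mul_of_nonneg_left h2 (norm_nonneg _)
      _ = _ := mul_one _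
  have h3 : ∑ n ∈ range N, ∑ n' ∈ range N, β (n - n' + (n' - n)) ≤ ∑ n ∈ range N, 2 * ∑ j ∈ range N, β j :=
    sum_le_sum fun n hn => tri_sum β (fun j => norm_nonneg _) N n (mem_range.mp hn)
  have h4 : ∑ n ∈ range N, 2 * ∑ j ∈ range N, β j = N * (2 * ∑ j ∈ range N, β j) := by
    rw [sum_const, card_range, nsmul_eq_mul]
  calc (1 / (N : ℝ)) ^ 2 * ‖∑ n ∈ range N, ∑ n' ∈ range N,
        (∫ x, Vn α φ m k n x * conj (Vn α φ m k n' x) ∂mX κ) * (∫ v, conj (Vn α φ m' k n v) * Vn α φ m' k n' v ∂mX κ)‖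
      ≤ (1 / (N : ℝ)) ^ 2 * (N * (2 * ∑ j ∈ range N, β j)) := by
        refine mul_le_mul_of_nonneg_left (h1.trans (h3.trans h4.le)) (by positivity)
    _ = (2 / (N : ℝ)) * ∑ j ∈ range N, β j := by
        field_simp

omit [DecidableEq κ] in
/-- telescoping -/
private theorem h_iter (k : ℤ) (s : TX κ) (hs : TX κ → UnitAddCircle)
    (he : ∀ᵐ x ∂mX κ, hs (x + α) - hs x = k • (φ (x + s) - φ x)) (n : ℕ) :
    ∀ᵐ x ∂mX κ, hs (x + n • α) - hs x = k • (ph α φ n (x + s) - ph α φ n x) := by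
  induction n with
  | zero =>
    refine Eventually.of_forall fun x => ?_
    simp [ph]
  | succ n ih =>
    have h1 : ∀ᵐ x ∂mX κ, hs (x + n • α + α) - hs (x + n • α) = k • (φ (x + n • α + s) - φ (x + n • α)) :=
      (measurePreserving_add_right (mX κ) (n • α)).quasiMeasurePreserving.ae he
    filter_upwards [ih, h1] with x h2 h3
    have e1 : x + (n + 1) • α = x + n • α + α := by rw [add_smul, one_smul, add_assoc]
    have e2 : ∀ y, ph α φ (n + 1) y = ph α φ n y + φ (y + n • α) := by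
      intro y
      unfold ph
      rw [sum_range_succ]
    rw [e1, e2, e2]
    have e3 : x + s + n • α = x + n • α + s := by abel
    rw [e3]
    calc hs (x + n • α + α) - hs x = (hs (x + n • α + α) - hs (x + n • α)) + (hs (x + n • α) - hs x) := by abel
      _ = k • (φ (x + n • α + s) - φ (x + n • α)) + k • (ph α φ n (x + s) - ph α φ n x) := by rw [h2, h3]
      _ = _ := by
        rw [← smul_add]
        congr 1
        abel

private theorem I_step (hφ : Continuous φ) (m m' : κ →₀ ℤ) (k : ℤ) (s : TX κ) (hs : TX κ → UnitAddCircle) (hm : Measurable hs)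
    (he : ∀ᵐ x ∂mX κ, hs (x + α) - hs x = k • (φ (x + s) - φ x)) (n : ℕ) :
    ∫ x, ch m x * conj (ch m' (x + s) * ec (hs x)) ∂mX κ =
      ∫ x, conj (ec (hs x)) * (Vn α φ m k n x * conj (Vn α φ m' k n (x + s))) ∂mX κ := by
  have h1 := integral_add_right_eq_self (μ := mX κ) (fun x : TX κ => ch m x * conj (ch m' (x + s) * ec (hs x))) (n • α)
  rw [← h1]
  refine integral_congr_ae ?_
  filter_upwards [h_iter k s hs he n] with x hx
  have e1 : hs (x + n • α) = hs x + k • ph α φ n (x + s) + -(k • ph α φ n x) := by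
    have : hs (x + n • α) = (hs (x + n • α) - hs x) + hs x := by abel
    rw [this, hx, smul_sub]
    abel
  have e3 : x + n • α + s = x + s + n • α := by abel
  unfold Vn
  rw [e1, FT.ec_add, FT.ec_add, FT.ec_neg, e3]
  simp only [map_mul, Complex.conj_conj]
  ring

private theorem I_bound (hφ : Continuous φ) (m m' : κ →₀ ℤ) (k : ℤ) (s : TX κ) (hs : TX κ → UnitAddCircle) (hm : Measurable hs)
    (he : ∀ᵐ x ∂mX κ, hs (x + α) - hs x = k • (φ (x + s) - φ x)) (N : ℕ) (hN : 0 < N) :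
    ‖∫ x, ch m x * conj (ch m' (x + s) * ec (hs x)) ∂mX κ‖ ≤ ∫ x, ‖Gk α φ m m' k N x (x + s)‖ ∂mX κ := by
  have h0 : (N : ℂ) ≠ 0 := by exact_mod_cast hN.ne'
  have hec : Measurable fun x => conj (ec (hs x)) :=
    (Complex.continuous_conj.measurable).comp (FT.continuous_ec.measurable.comp hm)
  have hint : ∀ n : ℕ, Integrable (fun x => conj (ec (hs x)) * (Vn α φ m k n x * conj (Vn α φ m' k n (x + s)))) (mX κ) := by
    intro n
    have c1 : Continuous fun x : TX κ => Vn α φ m k n x * conj (Vn α φ m' k n (x + s)) :=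
      (Vn_cont hφ m k n).mul (Complex.continuous_conj.comp ((Vn_cont hφ m' k n).comp (continuous_id.add continuous_const)))
    refine Integrable.of_bound (hec.mul c1.measurable).aestronglyMeasurable 1 (Eventually.of_forall fun x => ?_)
    rw [norm_mul, norm_mul, RCLike.norm_conj, RCLike.norm_conj, FT.norm_ec, Vn_norm, Vn_norm]
    norm_num
  have e1 : ∫ x, ch m x * conj (ch m' (x + s) * ec (hs x)) ∂mX κ =
      ∫ x, conj (ec (hs x)) * Gk α φ m m' k N x (x + s) ∂mX κ := by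
    have e2 : ∀ x, conj (ec (hs x)) * Gk α φ m m' k N x (x + s) =
        (1 / (N : ℂ)) * ∑ n ∈ range N, conj (ec (hs x)) * (Vn α φ m k n x * conj (Vn α φ m' k n (x + s))) := by
      intro x
      unfold Gk
      rw [← mul_sum]
      ring
    simp only [e2]
    rw [integral_const_mul, integral_finsetSum _ fun n _ => hint n]
    have e3 : ∀ n ∈ range N, ∫ x, conj (ec (hs x)) * (Vn α φ m k n x * conj (Vn α φ m' k n (x + s))) ∂mX κ =
        ∫ x, ch m x * conj (ch m' (x + s) * ec (hs x)) ∂mX κ := fun n _ => (I_step hφ m m' k s hs hm he n).symm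
    rw [sum_congr rfl e3, sum_const, card_range, nsmul_eq_mul]
    field_simp
  rw [e1]
  refine (norm_integral_le_integral_norm _).trans (le_of_eq ?_)
  refine integral_congr_ae (Eventually.of_forall fun x => ?_)
  simp only
  rw [norm_mul, RCLike.norm_conj, FT.norm_ec, one_mul]

theorem limE (hα : Irr α) (hφ : Continuous φ) (hno : NoEig α φ) (m m' : κ →₀ ℤ) (k : ℤ) (hk : k ≠ 0) (ε : ℝ) (hε : 0 < ε) :
    ∃ q0 : ℕ, ∀ q ≥ q0, ∀ h : TX κ → TX κ → UnitAddCircle, (∀ s, Measurable (h s)) →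
      (∀ s, q • s = 0 → ∀ᵐ x ∂mX κ, h s (x + α) - h s x = k • (φ (x + s) - φ x)) →
      ‖∫ x, ch m x * conj ((1 / (q : ℂ) ^ Fintype.card κ) * ∑ i : κ → Fin q, ch m' (x + ptq q i) * ec (h (ptq q i) x)) ∂mX κ‖ ≤ ε := by
  have hb2 := HT.borel2 (κ := κ)
  -- choice of N
  have hd := decay hα hφ hno m k hk
  have hd1 := (hd.eventually_lt_const (show (0 : ℝ) < ε ^ 2 / 8 by positivity)).and (eventually_gt_atTop 0)
  obtain ⟨N, hN1, hN⟩ := hd1.exists
  have h0 : (0 : ℝ) < N := by exact_mod_cast hN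
  -- the function F
  set F : TX κ → ℝ := fun u => ∫ x, ‖Gk α φ m m' k N x (x + u)‖ ∂mX κ with hF
  have cG : Continuous fun z : TX κ × TX κ => ((‖Gk α φ m m' k N z.2 (z.2 + z.1)‖ : ℝ) : ℂ) :=
    Complex.continuous_ofReal.comp (Gk_cont' hφ m m' k N _ _ continuous_snd (continuous_snd.add continuous_fst)).norm
  have cF : Continuous fun u => ((F u : ℝ) : ℂ) := by
    have h1 := HT.sqsi_cont (F := fun z : TX κ × TX κ => ((‖Gk α φ m m' k N z.2 (z.2 + z.1)‖ : ℝ) : ℂ)) cG (mX κ)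
    refine h1.congr fun u => ?_
    simp only [hF]
    exact integral_ofReal
  have hFI : ∫ u, F u ∂mX κ ≤ ε / 2 := by
    have cR : Continuous fun z : TX κ × TX κ => ‖Gk α φ m m' k N z.2 (z.2 + z.1)‖ :=
      (Gk_cont' hφ m m' k N _ _ continuous_snd (continuous_snd.add continuous_fst)).norm
    have cR2 : Continuous fun z : TX κ × TX κ => ‖Gk α φ m m' k N z.1 z.2‖ :=
      (Gk_cont' hφ m m' k N _ _ continuous_fst continuous_snd).norm
    have iR : Integrable (fun z : TX κ × TX κ => ‖Gk α φ m m' k N z.2 (z.2 + z.1)‖) ((mX κ).prod (mX κ)) := by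
      refine Integrable.of_bound cR.aestronglyMeasurable 1 (Eventually.of_forall fun z => ?_)
      rw [Real.norm_eq_abs, abs_of_nonneg (norm_nonneg _)]
      exact Gk_norm m m' k N _ _
    have iR2 : Integrable (fun z : TX κ × TX κ => ‖Gk α φ m m' k N z.1 z.2‖) ((mX κ).prod (mX κ)) := by
      refine Integrable.of_bound cR2.aestronglyMeasurable 1 (Eventually.of_forall fun z => ?_)
      rw [Real.norm_eq_abs, abs_of_nonneg (norm_nonneg _)]
      exact Gk_norm m m' k N _ _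
    have iR3 : Integrable (fun z : TX κ × TX κ => ‖Gk α φ m m' k N z.1 z.2‖ ^ 2) ((mX κ).prod (mX κ)) := by
      refine Integrable.of_bound (cR2.pow 2).aestronglyMeasurable 1 (Eventually.of_forall fun z => ?_)
      rw [Real.norm_eq_abs, abs_of_nonneg (by positivity)]
      exact pow_le_one₀ (norm_nonneg _) (Gk_norm m m' k N _ _)
    have e1 : ∫ u, F u ∂mX κ = ∫ z : TX κ × TX κ, ‖Gk α φ m m' k N z.1 z.2‖ ∂(mX κ).prod (mX κ) := by
      have s1 : ∫ u, F u ∂mX κ = ∫ x, ∫ u, ‖Gk α φ m m' k N x (x + u)‖ ∂mX κ ∂mX κ := by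
        simp only [hF]
        exact integral_integral_swap iR
      rw [s1, integral_prod _ iR2]
      refine integral_congr_ae (Eventually.of_forall fun x => ?_)
      exact integral_add_left_eq_self (μ := mX κ) (fun v => ‖Gk α φ m m' k N x v‖) x
    rw [e1]
    have h2 := am_gm _ iR2 iR3 (ε / 2) (by positivity)
    have h3 := Gk_hs (α := α) hφ m m' k N hN
    have h4 : (2 / (N : ℝ)) * ∑ j ∈ range N, ‖∫ x, ch m (x + j • α) * ec (k • ph α φ j x) * conj (ch m x) ∂mX κ‖ =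
        2 * ((1 / (N : ℝ)) * ∑ j ∈ range N, ‖∫ x, ch m (x + j • α) * ec (k • ph α φ j x) * conj (ch m x) ∂mX κ‖) := by ring
    rw [h4] at h3
    have h5 : ∫ z : TX κ × TX κ, ‖Gk α φ m m' k N z.1 z.2‖ ^ 2 ∂(mX κ).prod (mX κ) ≤ ε ^ 2 / 4 := by linarith
    have h6 : 1 / (2 * (ε / 2)) * ∫ z : TX κ × TX κ, ‖Gk α φ m m' k N z.1 z.2‖ ^ 2 ∂(mX κ).prod (mX κ) ≤
        1 / (2 * (ε / 2)) * (ε ^ 2 / 4) := mul_le_mul_of_nonneg_left h5 (by positivity)
    have h7 : 1 / (2 * (ε / 2)) * (ε ^ 2 / 4) = ε / 4 := by field_simp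
    linarith
  -- Riemann sums
  have hr := HT.riemann (fun u => ((F u : ℝ) : ℂ)) cF
  have hr1 := ((Metric.tendsto_nhds.mp hr) (ε / 2) (by positivity)).and (eventually_gt_atTop 0)
  obtain ⟨q0, hq0⟩ := eventually_atTop.mp hr1
  refine ⟨q0, fun q hq h hm he => ?_⟩
  obtain ⟨h1, hqp⟩ := hq0 q hq
  have hqr : (0 : ℝ) < (q : ℝ) ^ Fintype.card κ := pow_pos (by exact_mod_cast hqp) _
  have htor : ∀ i : κ → Fin q, q • (ptq q i : TX κ) = 0 := by
    intro i
    funext l
    unfold ptq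
    rw [Pi.smul_apply, ← AddCircle.coe_nsmul, nsmul_eq_mul, Pi.zero_apply]
    have : (q : ℝ) * (((i l : ℕ) : ℝ) / (q : ℝ)) = ((i l : ℕ) : ℝ) := by
      have : (q : ℝ) ≠ 0 := by exact_mod_cast hqp.ne'
      field_simp
    rw [this, AddCircle.coe_eq_zero_iff]
    exact ⟨(i l : ℕ), by simp⟩
  have hb : ∀ i : κ → Fin q, ‖∫ x, ch m x * conj (ch m' (x + ptq q i) * ec (h (ptq q i) x)) ∂mX κ‖ ≤ F (ptq q i) := fun i =>
    I_bound hφ m m' k (ptq q i) (h (ptq q i)) (hm _) (he _ (htor i)) N hN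
  have hint : ∀ i : κ → Fin q, Integrable (fun x => ch m x * conj (ch m' (x + ptq q i) * ec (h (ptq q i) x))) (mX κ) := by
    intro i
    have c1 : Measurable fun x : TX κ => ch m x * conj (ch m' (x + ptq q i) * ec (h (ptq q i) x)) := by
      have c2 : Measurable fun x : TX κ => ch m x := (HT.ch_cont m).measurable
      have c3 : Measurable fun x : TX κ => ch m' (x + ptq q i) :=
        ((HT.ch_cont m').comp (continuous_id.add continuous_const)).measurable
      have c4 : Measurable fun x : TX κ => ec (h (ptq q i) x) := FT.continuous_ec.measurable.comp (hm _)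
      exact c2.mul (Complex.continuous_conj.measurable.comp (c3.mul c4))
    refine Integrable.of_bound c1.aestronglyMeasurable 1 (Eventually.of_forall fun x => ?_)
    rw [norm_mul, RCLike.norm_conj, norm_mul, HT.ch_norm, HT.ch_norm, FT.norm_ec]
    norm_num
  have e1 : ∫ x, ch m x * conj ((1 / (q : ℂ) ^ Fintype.card κ) * ∑ i : κ → Fin q, ch m' (x + ptq q i) * ec (h (ptq q i) x)) ∂mX κ =
      (1 / (q : ℂ) ^ Fintype.card κ) * ∑ i : κ → Fin q, ∫ x, ch m x * conj (ch m' (x + ptq q i) * ec (h (ptq q i) x)) ∂mX κ := by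
    rw [← integral_finsetSum _ fun i _ => hint i, ← integral_const_mul]
    refine integral_congr_ae (Eventually.of_forall fun x => ?_)
    simp only [map_mul, map_div₀, map_one, map_pow, Complex.conj_natCast, map_sum]
    rw [← mul_sum]
    ring
  rw [e1, norm_mul, norm_div, norm_one, norm_pow, Complex.norm_natCast]
  have h2 : ‖∑ i : κ → Fin q, ∫ x, ch m x * conj (ch m' (x + ptq q i) * ec (h (ptq q i) x)) ∂mX κ‖ ≤
      ∑ i : κ → Fin q, F (ptq q i) := (norm_sum_le _ _).trans (sum_le_sum fun i _ => hb i)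
  have h3 : (1 / (q : ℝ) ^ Fintype.card κ) * ∑ i : κ → Fin q, F (ptq q i) ≤ ∫ u, F u ∂mX κ + ε / 2 := by
    have e2 : (1 / (q : ℂ) ^ Fintype.card κ) * ∑ i : κ → Fin q, ((F (ptq q i) : ℝ) : ℂ) =
        (((1 / (q : ℝ) ^ Fintype.card κ) * ∑ i : κ → Fin q, F (ptq q i) : ℝ) : ℂ) := by push_cast; rfl
    have e3 : ∫ u, ((F u : ℝ) : ℂ) ∂mX κ = ((∫ u, F u ∂mX κ : ℝ) : ℂ) := integral_ofReal
    rw [e2, e3, Complex.dist_eq, ← Complex.ofReal_sub, Complex.norm_real, Real.norm_eq_abs] at h1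
    have := (abs_lt.mp h1).2
    linarith
  calc 1 / (q : ℝ) ^ Fintype.card κ * ‖∑ i : κ → Fin q, ∫ x, ch m x * conj (ch m' (x + ptq q i) * ec (h (ptq q i) x)) ∂mX κ‖
      ≤ 1 / (q : ℝ) ^ Fintype.card κ * ∑ i : κ → Fin q, F (ptq q i) := mul_le_mul_of_nonneg_left h2 (by positivity)
    _ ≤ ∫ u, F u ∂mX κ + ε / 2 := h3
    _ ≤ ε := by linarith

end base

end Pool.Agent.Lib.MP_9fe581_an.TW
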