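import Pool.Agent.Lib.MP_9fe581_an.TW.M1Int
import Pool.Agent.Lib.MP_9fe581_an.TW.M2Int
import Pool.Agent.Lib.MP_9fe581_an.TW.DenseY
import Pool.Agent.Lib.MP_9fe581_an.TW.LimE
import Pool.Agent.Lib.MP_9fe581_an.HT.Lim

/-!
# TW / Lim: the joinings `m1`, `m2` converge

`dense_YY`, then products of characters.
-/

set_option autoImplicit false
set_option linter.unusedSectionVars false

open Finset MeasureTheory Filter Topology
open scoped ComplexConjugate Matrix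

namespace Pool.Agent.Lib.MP_9fe581_an.TW

open Pool.Agent.Lib.MP_9fe581_an.HT (TX mX ch ptq)
open Pool.Agent.Lib.MP_9fe581_an.FT (ec)

variable {κ : Type} [Fintype κ] [DecidableEq κ] {α : TX κ} {φ : TX κ → UnitAddCircle}

private theorem bor1 : BorelSpace (YY κ) := Prod.borelSpace

attribute [local instance] bor1

private theorem bor2 : BorelSpace (YY κ × YY κ) := Prod.borelSpace

attribute [local instance] bor2

/-- a product of two characters -/
private noncomputable def pc (r : (κ →₀ ℤ) × (κ →₀ ℤ) × ℤ × ℤ) (z : YY κ × YY κ) : ℂ :=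
  pf (ch r.1) r.2.2.1 z.1 * conj (pf (ch r.2.1) r.2.2.2 z.2)

private theorem pf_cont (f : TX κ → ℂ) (hf : Continuous f) (k : ℤ) : Continuous (pf f k) := by
  unfold pf
  exact (hf.comp continuous_fst).mul (FT.continuous_ec.comp (continuous_snd.zsmul k))

private theorem pc_cont (r : (κ →₀ ℤ) × (κ →₀ ℤ) × ℤ × ℤ) : Continuous (pc r) := by
  unfold pc
  exact ((pf_cont _ (HT.ch_cont _) _).comp continuous_fst).mul
    (Complex.continuous_conj.comp ((pf_cont _ (HT.ch_cont _) _).comp continuous_snd))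

/-- from products of characters to continuous functions -/
private theorem red {I : Type} (M : ℕ → I → Measure (YY κ × YY κ)) (P : ℕ → I → Prop) (L : Measure (YY κ × YY κ))
    (hM : ∀ q i, 0 < q → P q i → IsProbabilityMeasure (M q i)) (hL : IsProbabilityMeasure L)
    (hpc : ∀ (r : (κ →₀ ℤ) × (κ →₀ ℤ) × ℤ × ℤ) (δ : ℝ), 0 < δ → ∃ q0 : ℕ, ∀ q ≥ q0, ∀ i, 0 < q → P q i →
      ‖∫ z, pc r z ∂M q i - ∫ z, pc r z ∂L‖ ≤ δ)
    (F : C(YY κ × YY κ, ℂ)) (ε : ℝ) (hε : 0 < ε) :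
    ∃ q0 : ℕ, ∀ q ≥ q0, ∀ i, P q i → ‖∫ z, F z ∂M q i - ∫ z, F z ∂L‖ ≤ ε := by
  obtain ⟨R, c, hR⟩ := dense_YY F (ε / 3) (by positivity)
  obtain ⟨G, hG⟩ : ∃ G : YY κ × YY κ → ℂ, G = fun z => ∑ r ∈ R, c r * pc r z := ⟨_, rfl⟩
  have hGc : Continuous G := by
    rw [hG]
    exact continuous_finsetSum _ fun r _ => continuous_const.mul (pc_cont r)
  obtain ⟨δ, hδ⟩ : ∃ δ : ℝ, δ = ε / (3 * (∑ r ∈ R, ‖c r‖ + 1)) := ⟨_, rfl⟩
  have hS0 : 0 ≤ ∑ r ∈ R, ‖c r‖ := sum_nonneg fun _ _ => norm_nonneg _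
  have hδ0 : 0 < δ := by
    rw [hδ]
    positivity
  choose q0 hq0 using fun r => hpc r δ hδ0
  have hbound : ∀ μ : Measure (YY κ × YY κ), IsProbabilityMeasure μ → ‖∫ z, F z ∂μ - ∫ z, G z ∂μ‖ ≤ ε / 3 := by
    intro μ hμ
    rw [← integral_sub (HT.sqsi_int F.continuous μ) (HT.sqsi_int hGc μ)]
    have h1 := norm_integral_le_of_norm_le_const (μ := μ) (f := fun z => F z - G z) (C := ε / 3)
      (Eventually.of_forall fun z => by
        rw [hG]
        exact hR z)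
    rwa [probReal_univ, mul_one] at h1
  have hsum : ∀ μ : Measure (YY κ × YY κ), IsProbabilityMeasure μ → ∫ z, G z ∂μ = ∑ r ∈ R, c r * ∫ z, pc r z ∂μ := by
    intro μ hμ
    rw [hG, integral_finsetSum]
    · exact sum_congr rfl fun r _ => integral_const_mul _ _
    · intro r _
      exact (HT.sqsi_int (pc_cont r) μ).const_mul _
  refine ⟨R.sup q0 + 1, fun q hq i hP => ?_⟩
  have hq' : 0 < q := by omega
  have hMp := hM q i hq' hP
  have h2 : ‖∫ z, G z ∂M q i - ∫ z, G z ∂L‖ ≤ ε / 3 := by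
    rw [hsum _ hMp, hsum _ hL, ← sum_sub_distrib]
    refine (norm_sum_le _ _).trans ?_
    have h3 : ∀ r ∈ R, ‖c r * ∫ z, pc r z ∂M q i - c r * ∫ z, pc r z ∂L‖ ≤ ‖c r‖ * δ := by
      intro r hr
      rw [← mul_sub, norm_mul]
      refine mul_le_mul_of_nonneg_left (hq0 r q ?_ i hq' hP) (norm_nonneg _)
      have : q0 r ≤ R.sup q0 := le_sup hr
      omega
    refine (sum_le_sum h3).trans ?_
    rw [← sum_mul, hδ]
    have h4 : (∑ r ∈ R, ‖c r‖) * (ε / (3 * (∑ r ∈ R, ‖c r‖ + 1))) = (ε / 3) * ((∑ r ∈ R, ‖c r‖) / (∑ r ∈ R, ‖c r‖ + 1)) := by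
      field_simp
    rw [h4]
    refine mul_le_of_le_one_right (by positivity) ?_
    rw [div_le_one (by positivity)]
    linarith
  have h5 := hbound _ hMp
  have h6 := hbound L hL
  have h7 : ∫ z, F z ∂M q i - ∫ z, F z ∂L = (∫ z, F z ∂M q i - ∫ z, G z ∂M q i) + (∫ z, G z ∂M q i - ∫ z, G z ∂L) -
      (∫ z, F z ∂L - ∫ z, G z ∂L) := by ring
  rw [h7]
  refine (norm_sub_le _ _).trans ?_
  have h8 := norm_add_le (∫ z, F z ∂M q i - ∫ z, G z ∂M q i) (∫ z, G z ∂M q i - ∫ z, G z ∂L)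
  linarith

private theorem ndvd {k : ℤ} (hk : k ≠ 0) {q : ℕ} (hq : k.natAbs < q) : ¬ (q : ℤ) ∣ k := by
  intro hd
  have h1 := Int.le_of_dvd (abs_pos.mpr hk) ((dvd_abs _ _).mpr hd)
  rw [Int.abs_eq_natAbs] at h1
  omega

private theorem Eo_ch0 (q : ℕ) (h : TX κ → TX κ → UnitAddCircle) (m' : κ →₀ ℤ) (x : TX κ) :
    Eo q h 0 (ch m') x = ch m' x * ((1 / (q : ℂ) ^ Fintype.card κ) * ∑ i : κ → Fin q, ch m' (ptq q i)) := by
  have h1 : ch m' x * ((1 / (q : ℂ) ^ Fintype.card κ) * ∑ i : κ → Fin q, ch m' (ptq q i)) =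
      (1 / (q : ℂ) ^ Fintype.card κ) * ∑ i : κ → Fin q, ch m' x * ch m' (ptq q i) := by
    rw [mul_left_comm, mul_sum]
  rw [h1]
  unfold Eo
  congr 1
  refine sum_congr rfl fun i _ => ?_
  rw [zero_smul, FT.ec_zero, mul_one, HT.ch_add_right]

theorem lim_m1 (hα : Irr α) (hφ : Continuous φ) (F : C(YY κ × YY κ, ℂ)) (ε : ℝ) (hε : 0 < ε) :
    ∃ q0 : ℕ, ∀ q ≥ q0, ∀ (g : ℤ) (h : TX κ → TX κ → UnitAddCircle), GH α φ q g h → (g = 0 ∨ NoEig α φ) →
      ‖∫ z, F z ∂m1 q g h - ∫ z, F z ∂mi1‖ ≤ ε := by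
  have hred := red (κ := κ) (fun q (i : ℤ × (TX κ → TX κ → UnitAddCircle)) => m1 q i.1 i.2)
    (fun q i => GH α φ q i.1 i.2 ∧ (i.1 = 0 ∨ NoEig α φ)) mi1 (fun q i hq hP => m1_prob hq i.1 hP.1.meas) mi1_prob
    ?_ F ε hε
  · obtain ⟨q0, hq0⟩ := hred
    exact ⟨q0, fun q hq g h hG hg => hq0 q hq (g, h) ⟨hG, hg⟩⟩
  rintro ⟨m, m', k, l⟩ δ hδ
  have e0 : ∀ μ : Measure (YY κ × YY κ), ∫ z, pc (m, m', k, l) z ∂μ =
      ∫ z, pf (ch m) k z.1 * conj (pf (ch m') l z.2) ∂μ := fun μ => rfl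
  simp only [e0]
  by_cases hkl : k = l
  swap
  · refine ⟨0, fun q _ i hq hP => ?_⟩
    rw [m1_int hq i.1 hP.1.meas _ _ (HT.ch_cont m) (HT.ch_cont m'), mi1_int _ _ (HT.ch_cont m) (HT.ch_cont m'),
      if_neg (fun h => hkl h.1), if_neg (fun h => hkl (h.1.trans h.2.symm)), sub_zero, norm_zero]
    exact hδ.le
  subst hkl
  by_cases hk : k = 0
  · subst hk
    refine ⟨(m'.support.sup fun i => (m' i).natAbs) + 1, fun q hq' i hq hP => ?_⟩
    rw [m1_int hq i.1 hP.1.meas _ _ (HT.ch_cont m) (HT.ch_cont m'), mi1_int _ _ (HT.ch_cont m) (HT.ch_cont m'),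
      if_pos ⟨rfl, dvd_zero _⟩, if_pos ⟨rfl, rfl⟩, Int.zero_ediv]
    have e1 : ∫ x, ch m x * conj (Eo q i.2 0 (ch m') x) ∂mX κ = (∫ x, ch m x ∂mX κ) * conj (∫ x, ch m' x ∂mX κ) := by
      by_cases hm' : m' = 0
      · subst hm'
        have e2 : ∀ x, Eo q i.2 0 (ch (0 : κ →₀ ℤ)) x = 1 := by
          intro x
          rw [Eo_ch0, HT.ch_zero, one_mul]
          simp only [HT.ch_zero, sum_const, card_univ, Fintype.card_fun, Fintype.card_fin, nsmul_eq_mul, mul_one]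
          push_cast
          have : (q : ℂ) ^ Fintype.card κ ≠ 0 := pow_ne_zero _ (by exact_mod_cast hq.ne')
          field_simp
        simp only [e2, map_one, mul_one]
        rw [HT.ch_int (0 : κ →₀ ℤ), if_pos rfl, map_one, mul_one]
      · obtain ⟨a, ha⟩ : ∃ a, m' a ≠ 0 := by
          by_contra hcon
          push Not at hcon
          exact hm' (Finsupp.ext hcon)
        have ha2 : (m' a).natAbs ≤ m'.support.sup fun i => (m' i).natAbs :=
          le_sup (f := fun i => (m' i).natAbs) (Finsupp.mem_support_iff.mpr ha)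
        have e2 : ∀ x, Eo q i.2 0 (ch m') x = 0 := by
          intro x
          rw [Eo_ch0, HT.lim_avg q hq m' a (ndvd ha (by omega)), mul_zero, mul_zero]
        simp only [e2, map_zero, mul_zero, integral_zero]
        rw [HT.ch_int m', if_neg hm', map_zero, mul_zero]
    rw [e1, sub_self, norm_zero]
    exact hδ.le
  · by_cases hno : NoEig α φ
    · obtain ⟨q0, hq0⟩ := limE hα hφ hno m m' k hk δ hδ
      refine ⟨q0, fun q hq' i hq hP => ?_⟩
      rw [m1_int hq i.1 hP.1.meas _ _ (HT.ch_cont m) (HT.ch_cont m'), mi1_int _ _ (HT.ch_cont m) (HT.ch_cont m'),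
        if_neg (fun h => hk h.1 : ¬ (k = 0 ∧ k = 0)), sub_zero]
      split_ifs with hd
      · have h1 := hq0 q hq' (fun s x => (k / i.1) • i.2 s x) (fun s => (continuous_zsmul (k / i.1)).measurable.comp (hP.1.meas s)) (fun s hs => by
          filter_upwards [hP.1.coh s hs] with x hx
          rw [← smul_sub, hx, smul_smul, Int.ediv_mul_cancel hd.2])
        exact h1
      · rw [norm_zero]
        exact hδ.le
    · refine ⟨0, fun q _ i hq hP => ?_⟩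
      have hg : i.1 = 0 := hP.2.resolve_right hno
      rw [m1_int hq i.1 hP.1.meas _ _ (HT.ch_cont m) (HT.ch_cont m'), mi1_int _ _ (HT.ch_cont m) (HT.ch_cont m'),
        if_neg (fun h => hk h.1 : ¬ (k = 0 ∧ k = 0)), if_neg, sub_zero, norm_zero]
      · exact hδ.le
      · rintro ⟨_, hd⟩
        rw [hg, zero_dvd_iff] at hd
        exact hk hd

theorem lim_m2 (F : C(YY κ × YY κ, ℂ)) (ε : ℝ) (hε : 0 < ε) :
    ∃ q0 : ℕ, ∀ q ≥ q0, ‖∫ z, F z ∂m2 q - ∫ z, F z ∂mi2‖ ≤ ε := by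
  have hred := red (κ := κ) (fun q (_ : Unit) => m2 q) (fun _ _ => True) mi2 (fun q i hq hP => m2_prob hq) mi2_prob
    ?_ F ε hε
  · obtain ⟨q0, hq0⟩ := hred
    exact ⟨q0, fun q hq => hq0 q hq () trivial⟩
  rintro ⟨m, m', k, l⟩ δ hδ
  have e0 : ∀ μ : Measure (YY κ × YY κ), ∫ z, pc (m, m', k, l) z ∂μ =
      ∫ z, pf (ch m) k z.1 * conj (pf (ch m') l z.2) ∂μ := fun μ => rfl
  simp only [e0]
  refine ⟨k.natAbs + 1, fun q hq' i hq hP => ?_⟩
  rw [m2_int hq _ _ (HT.ch_cont m) (HT.ch_cont m'), mi2_int _ _ (HT.ch_cont m) (HT.ch_cont m')]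
  have h1 : (k = l ∧ (q : ℤ) ∣ k) ↔ (k = 0 ∧ l = 0) := by
    constructor
    · rintro ⟨h1, h2⟩
      have hk : k = 0 := by
        by_contra hk
        exact ndvd hk (by omega) h2
      exact ⟨hk, h1 ▸ hk⟩
    · rintro ⟨h1, h2⟩
      exact ⟨h1.trans h2.symm, h1 ▸ dvd_zero _⟩
  rw [if_congr h1 rfl rfl, sub_self, norm_zero]
  exact hδ.le

end Pool.Agent.Lib.MP_9fe581_an.TW
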