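import Pool.Agent.Lib.MP_9fe581_an.TW.SysDefs
import Pool.Agent.Lib.MP_9fe581_an.HT.Char
import Pool.Agent.Lib.MP_9fe581_an.HX.DefsQ

/-!
# TW: group extensions of circle extensions of rotations, definitions

Base `YY κ = T^κ × T`, `SS α φ (x, y) = (x + α, y + φ x)`, `φ` an arbitrary continuous function into the circle.
`ph n x = φ(x) + ... + φ(x + (n-1) α)`.  `Sol α C A`: `A (t + α) - A t = C t` almost everywhere.
`ResF x0 p q k l A`: `A (t + α) - A t = k φ_p(x0 + p t) - l φ_q(x0 + q t)`.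
`GH q g h`: functions `h s`, `q s = 0`, with `h s (x + α) - h s x = g (φ (x + s) - φ x)` and the cocycle identity.
`Cov x0 q g h`: the resonances `k`, `q ∤ k`, at the point `x0` are multiples `m g` and the transfer function is lifted by `m h`.
`Eo q h m f x = q^{-κ} ∑_s f (x + s) e(m h_s(x))`.  Measures on `YY κ × YY κ`:
`m1 q g h` law of `(x, y), (x + s, y + rt g (h s x) + w)`, `s` uniform on the q-torsion, `w` with law `lam g`;
`m2 q` law of `(x, y), (x, y + i / q)`; `mi1`, `mi2` the limits.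
-/

set_option autoImplicit false

open Finset MeasureTheory Filter Topology
open scoped ComplexConjugate Matrix

namespace Pool.Agent.Lib.MP_9fe581_an.TW

open Pool.Agent.Lib.MP_9fe581_an.HT (TX mX ch ptq)
open Pool.Agent.Lib.MP_9fe581_an.FT (ec)

/-- the space of the base -/
abbrev YY (κ : Type) := TX κ × UnitAddCircle

/-- its Haar probability measure -/
noncomputable def mY (κ : Type) [Fintype κ] : Measure (YY κ) := (mX κ).prod AddCircle.haarAddCircle

instance (κ : Type) [Fintype κ] : IsProbabilityMeasure (mY κ) := by unfold mY; infer_instance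

/-- the group of measurable functions modulo null sets -/
abbrev FG (κ : Type) [Fintype κ] := TX κ →ₘ[mX κ] UnitAddCircle

variable {κ : Type}

/-- the characters of the base -/
noncomputable def chy (m : κ →₀ ℤ) (k : ℤ) (z : YY κ) : ℂ := ch m z.1 * ec (k • z.2)

/-- the base map -/
def SS (α : TX κ) (φ : TX κ → UnitAddCircle) (z : YY κ) : YY κ := (z.1 + α, z.2 + φ z.1)

/-- Birkhoff sums of `φ` -/
noncomputable def ph (α : TX κ) (φ : TX κ → UnitAddCircle) (n : ℕ) (x : TX κ) : UnitAddCircle :=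
  ∑ i ∈ range n, φ (x + i • α)

/-- the rotation by `α` is ergodic -/
def Irr (α : TX κ) : Prop := ∀ m : κ →₀ ℤ, m ≠ 0 → ch m α ≠ 1

/-- `A` is a measurable solution of `A (t + α) - A t = C t` -/
def Sol [Fintype κ] (α : TX κ) (C A : TX κ → UnitAddCircle) : Prop :=
  Measurable A ∧ ∀ᵐ t ∂mX κ, A (t + α) - A t = C t

/-- no multiple of `φ` is a coboundary (ergodicity of `SS α φ`) -/
def ErgF [Fintype κ] (α : TX κ) (φ : TX κ → UnitAddCircle) : Prop :=
  ∀ k : ℤ, k ≠ 0 → ∀ A, ¬ Sol α (fun t => k • φ t) A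

/-- no multiple of `φ` is cohomologous to a constant -/
def NoEig [Fintype κ] (α : TX κ) (φ : TX κ → UnitAddCircle) : Prop :=
  ∀ k : ℤ, k ≠ 0 → ∀ (z : UnitAddCircle) (A : TX κ → UnitAddCircle), ¬ Sol α (fun t => k • φ t - z) A

/-- the cocycle of the pair `p, q` at the point `x0` -/
noncomputable def rc (α : TX κ) (φ : TX κ → UnitAddCircle) (x0 : TX κ) (p q : ℕ) (k l : ℤ) (t : TX κ) : UnitAddCircle :=
  k • ph α φ p (x0 + p • t) - l • ph α φ q (x0 + q • t)

/-- resonance -/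
def ResF [Fintype κ] (α : TX κ) (φ : TX κ → UnitAddCircle) (x0 : TX κ) (p q : ℕ) (k l : ℤ) (A : TX κ → UnitAddCircle) : Prop :=
  Sol α (rc α φ x0 p q k l) A

/-- the lifts -/
structure GH [Fintype κ] (α : TX κ) (φ : TX κ → UnitAddCircle) (q : ℕ) (g : ℤ) (h : TX κ → TX κ → UnitAddCircle) : Prop where
  meas : ∀ s, Measurable (h s)
  coh : ∀ s, q • s = 0 → ∀ᵐ x ∂mX κ, h s (x + α) - h s x = g • (φ (x + s) - φ x)
  coc : ∀ s s', q • s = 0 → q • s' = 0 → ∀ᵐ x ∂mX κ, h (s + s') x = h s (x + s') + h s' x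

/-- the lifts cover the resonances at `x0` -/
structure Cov [Fintype κ] (α : TX κ) (φ : TX κ → UnitAddCircle) (x0 : TX κ) (q : ℕ) (g : ℤ)
    (h : TX κ → TX κ → UnitAddCircle) : Prop where
  gh : GH α φ q g h
  res : ∀ p : ℕ, 0 < p → p.Coprime q → ∀ (k l : ℤ) (A : TX κ → UnitAddCircle), ResF α φ x0 p q k l A → ¬ (q : ℤ) ∣ k →
    ∃ m : ℤ, k = m * g ∧ ∀ s, q • s = 0 → ∀ᵐ t ∂mX κ, m • h (p • s) (x0 + p • t) = A (t + s) - A t
  eig : g = 0 ∨ NoEig α φ

/-- the averaging operator of the lifts -/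
noncomputable def Eo [Fintype κ] [DecidableEq κ] (q : ℕ) (h : TX κ → TX κ → UnitAddCircle) (m : ℤ) (f : TX κ → ℂ) (x : TX κ) : ℂ :=
  (1 / (q : ℂ) ^ Fintype.card κ) * ∑ i : κ → Fin q, f (x + ptq q i) * ec (m • h (ptq q i) x)

/-- Haar measure of the group of the `w` with `g w = 0` -/
noncomputable def lam (g : ℤ) : Measure UnitAddCircle :=
  if g = 0 then AddCircle.haarAddCircle
  else ((g.natAbs : ENNReal))⁻¹ • ∑ j : Fin g.natAbs, Measure.dirac ((((j : ℕ) : ℝ) / (g.natAbs : ℝ) : ℝ) : UnitAddCircle)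

/-- a measurable division by `g` on the circle -/
noncomputable def rt (g : ℤ) (w : UnitAddCircle) : UnitAddCircle :=
  if g = 0 then 0 else ((((AddCircle.equivIco 1 0 w : ℝ) / (g : ℝ)) : ℝ) : UnitAddCircle)

/-- the first joining -/
noncomputable def m1 [Fintype κ] [DecidableEq κ] (q : ℕ) (g : ℤ) (h : TX κ → TX κ → UnitAddCircle) : Measure (YY κ × YY κ) :=
  ((q : ENNReal) ^ Fintype.card κ)⁻¹ • ∑ i : κ → Fin q, Measure.map
    (fun w : YY κ × UnitAddCircle => (w.1, (w.1.1 + ptq q i, w.1.2 + rt g (h (ptq q i) w.1.1) + w.2))) ((mY κ).prod (lam g))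

/-- the second joining -/
noncomputable def m2 [Fintype κ] (q : ℕ) : Measure (YY κ × YY κ) :=
  ((q : ENNReal))⁻¹ • ∑ i : Fin q, Measure.map
    (fun z : YY κ => (z, (z.1, z.2 + ((((i : ℕ) : ℝ) / (q : ℝ) : ℝ) : UnitAddCircle)))) (mY κ)

/-- the limit of the first joinings -/
noncomputable def mi1 [Fintype κ] : Measure (YY κ × YY κ) := (mY κ).prod (mY κ)

/-- the limit of the second joinings -/
noncomputable def mi2 [Fintype κ] : Measure (YY κ × YY κ) :=
  Measure.map (fun w : YY κ × UnitAddCircle => (w.1, (w.1.1, w.2))) ((mY κ).prod AddCircle.haarAddCircle)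

/-- the set of joinings for the property (P) -/
def MM [Fintype κ] [DecidableEq κ] (α : TX κ) (φ : TX κ → UnitAddCircle) (i : Fin 2) (q : ℕ) : Set (Measure (YY κ × YY κ)) :=
  if i = 0 then {m | q.Prime ∧ ∃ (g : ℤ) (h : TX κ → TX κ → UnitAddCircle), GH α φ q g h ∧ (g = 0 ∨ NoEig α φ) ∧ m = m1 q g h}
  else {m | q.Prime ∧ m = m2 q}

/-- the limits -/
noncomputable def LL [Fintype κ] (i : Fin 2) : Measure (YY κ × YY κ) := if i = 0 then mi1 else mi2

/-- the points of the base coset of `x0` -/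
def KK (x0 : TX κ) (p q : ℕ) : Set (YY κ × YY κ) := {z | q • (z.1.1 - x0) = p • (z.2.1 - x0)}

/-- a product function -/
noncomputable def pf (f : TX κ → ℂ) (k : ℤ) (z : YY κ) : ℂ := f z.1 * ec (k • z.2)

/-- the scalar cocycle of the character `chy m k` -/
noncomputable def scy (α : TX κ) (φ : TX κ → UnitAddCircle) (m : κ →₀ ℤ) (k : ℤ) (z : YY κ) : Matrix (Fin 1) (Fin 1) ℂ :=
  (chy m k (SS α φ z) * conj (chy m k z)) • 1

end Pool.Agent.Lib.MP_9fe581_an.TW
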