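import Pool.Agent.Lib.MP_9fe581_an.TW.Rot
import Pool.Agent.Lib.MP_9fe581_an.TW.Defs

/-!
# TW, row R2: translations, dilations and constants on `FG κ`

The operators `trF`, `dlF` and `cF` on the group `FG κ` of measurable functions `T^κ → T` modulo null sets, and their relations.
-/

set_option autoImplicit false
set_option linter.unusedSectionVars false

open Finset MeasureTheory Filter Topology
open scoped ComplexConjugate Matrix

namespace Pool.Agent.Lib.MP_9fe581_an.TW

open Pool.Agent.Lib.MP_9fe581_an.HT (TX mX ch ptq)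
open Pool.Agent.Lib.MP_9fe581_an.FT (ec)

section base

variable {κ : Type} [Fintype κ] [DecidableEq κ]

private theorem tr_pres (b : TX κ) : MeasurePreserving (fun t : TX κ => t + b) (mX κ) (mX κ) :=
  measurePreserving_add_right _ b

/-- composition with a measure preserving map -/
private noncomputable def cmp (S : TX κ → TX κ) (hS : MeasurePreserving S (mX κ) (mX κ)) : FG κ →+ FG κ where
  toFun f := f.compMeasurePreserving S hS
  map_zero' := rfl
  map_add' f g := by
    induction f using AEEqFun.induction_on with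
    | H f hf =>
      induction g using AEEqFun.induction_on with
      | H g hg => rfl

private theorem cmp_coe (S : TX κ → TX κ) (hS : MeasurePreserving S (mX κ) (mX κ)) (f : FG κ) :
    ⇑(cmp S hS f) =ᵐ[mX κ] fun t => f (S t) :=
  AEEqFun.coeFn_compMeasurePreserving f hS

/-- translation -/
noncomputable def trF (b : TX κ) : FG κ →+ FG κ := cmp (fun t => t + b) (tr_pres b)

/-- dilation -/
noncomputable def dlF (n : ℕ) : FG κ →+ FG κ :=
  if hn : 0 < n then cmp (fun t => n • t) (nsmul_pres n hn) else 0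

/-- constants -/
noncomputable def cF : UnitAddCircle →+ FG κ where
  toFun z := AEEqFun.const (TX κ) z
  map_zero' := rfl
  map_add' _ _ := rfl

theorem trF_coe (b : TX κ) (f : FG κ) : ⇑(trF b f) =ᵐ[mX κ] fun t => f (t + b) :=
  cmp_coe _ _ f

theorem dlF_coe (n : ℕ) (hn : 0 < n) (f : FG κ) : ⇑(dlF n f) =ᵐ[mX κ] fun t => f (n • t) := by
  unfold dlF
  rw [dif_pos hn]
  exact cmp_coe _ _ f

theorem cF_coe (z : UnitAddCircle) : ⇑(cF z : FG κ) =ᵐ[mX κ] fun _ => z :=
  AEEqFun.coeFn_const _ z

private theorem comp_ae {S : TX κ → TX κ} (hS : MeasurePreserving S (mX κ) (mX κ)) {u v : TX κ → UnitAddCircle}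
    (h : u =ᵐ[mX κ] v) : (fun t => u (S t)) =ᵐ[mX κ] fun t => v (S t) :=
  hS.quasiMeasurePreserving.ae_eq_comp h

theorem trF_zero (f : FG κ) : trF 0 f = f := by
  apply AEEqFun.ext
  refine (trF_coe 0 f).trans (Eventually.of_forall fun t => ?_)
  simp

theorem trF_add (a b : TX κ) (f : FG κ) : trF (a + b) f = trF a (trF b f) := by
  apply AEEqFun.ext
  refine (trF_coe _ f).trans (((trF_coe a _).trans (comp_ae (tr_pres a) (trF_coe b f))).trans
    (Eventually.of_forall fun t => ?_)).symm
  show f (t + a + b) = f (t + (a + b))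
  rw [add_assoc]

theorem dlF_one (f : FG κ) : dlF 1 f = f := by
  apply AEEqFun.ext
  refine (dlF_coe 1 one_pos f).trans (Eventually.of_forall fun t => ?_)
  simp

theorem dlF_mul (m n : ℕ) (hm : 0 < m) (hn : 0 < n) (f : FG κ) : dlF (m * n) f = dlF m (dlF n f) := by
  apply AEEqFun.ext
  refine (dlF_coe _ (Nat.mul_pos hm hn) f).trans (((dlF_coe m hm _).trans (comp_ae (nsmul_pres m hm) (dlF_coe n hn f))).trans
    (Eventually.of_forall fun t => ?_)).symm
  show f (n • m • t) = f ((m * n) • t)
  rw [← mul_nsmul]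

theorem trF_dlF (b : TX κ) (n : ℕ) (hn : 0 < n) (f : FG κ) : trF b (dlF n f) = dlF n (trF (n • b) f) := by
  apply AEEqFun.ext
  refine ((trF_coe b _).trans (comp_ae (tr_pres b) (dlF_coe n hn f))).trans
    (((dlF_coe n hn _).trans (comp_ae (nsmul_pres n hn) (trF_coe (n • b) f))).trans (Eventually.of_forall fun t => ?_)).symm
  show f (n • t + n • b) = f (n • (t + b))
  rw [nsmul_add]

theorem trF_cF (b : TX κ) (z : UnitAddCircle) : trF b (cF z : FG κ) = cF z := by
  apply AEEqFun.ext
  exact ((trF_coe b _).trans (comp_ae (tr_pres b) (cF_coe z))).trans (cF_coe z).symm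

theorem dlF_cF (n : ℕ) (hn : 0 < n) (z : UnitAddCircle) : dlF n (cF z : FG κ) = cF z := by
  apply AEEqFun.ext
  exact ((dlF_coe n hn _).trans (comp_ae (nsmul_pres n hn) (cF_coe z))).trans (cF_coe z).symm

theorem cF_inj : Function.Injective (cF : UnitAddCircle →+ FG κ) := by
  intro z w h
  have h1 : (fun _ : TX κ => z) =ᵐ[mX κ] fun _ => w := by
    have h2 := cF_coe (κ := κ) z
    rw [h] at h2
    exact h2.symm.trans (cF_coe w)
  obtain ⟨t, ht⟩ := h1.exists
  exact ht

end base

end Pool.Agent.Lib.MP_9fe581_an.TW
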