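import Pool.Agent.Lib.MP_9fe581_an.TW.Defs

/-!
# TW: torsion points of the torus
-/

set_option autoImplicit false
set_option linter.unusedSectionVars false

open Finset MeasureTheory Filter Topology

namespace Pool.Agent.Lib.MP_9fe581_an.TW

open Pool.Agent.Lib.MP_9fe581_an.HT (TX mX ch ptq)

variable {κ : Type} [Fintype κ] [DecidableEq κ]

theorem tor_ptq (q : ℕ) (hq : 0 < q) (i : κ → Fin q) : q • (ptq q i : TX κ) = 0 := by
  funext k
  show q • ((((i k : ℕ) : ℝ) / (q : ℝ) : ℝ) : UnitAddCircle) = 0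
  refine (AddCircle.nsmul_eq_zero_iff hq).2 ⟨(i k : ℕ), (i k).2, ?_⟩
  rw [mul_one]

theorem tor_exists (q : ℕ) (hq : 0 < q) (s : TX κ) (hs : q • s = 0) : ∃ i : κ → Fin q, s = ptq q i := by
  have h : ∀ k, ∃ m : Fin q, s k = ((((m : ℕ) : ℝ) / (q : ℝ) : ℝ) : UnitAddCircle) := by
    intro k
    have hk : q • s k = 0 := congrFun hs k
    obtain ⟨m, hm, e⟩ := (AddCircle.nsmul_eq_zero_iff hq).1 hk
    rw [mul_one] at e
    exact ⟨⟨m, hm⟩, e.symm⟩
  choose i hi using h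
  exact ⟨i, funext hi⟩

theorem ptq_inj (q : ℕ) (hq : 0 < q) : Function.Injective (ptq q : (κ → Fin q) → TX κ) := by
  intro i j h
  funext k
  have hk : ((((i k : ℕ) : ℝ) / (q : ℝ) : ℝ) : UnitAddCircle) = ((((j k : ℕ) : ℝ) / (q : ℝ) : ℝ) : UnitAddCircle) := congrFun h k
  have hq' : (0 : ℝ) < q := by exact_mod_cast hq
  have hmem : ∀ m : Fin q, (((m : ℕ) : ℝ) / (q : ℝ)) ∈ Set.Ico (0 : ℝ) (0 + 1) := by
    intro m
    refine ⟨by positivity, ?_⟩
    rw [zero_add, div_lt_one hq']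
    exact_mod_cast m.2
  have e := (AddCircle.coe_eq_coe_iff_of_mem_Ico (hmem (i k)) (hmem (j k))).1 hk
  have e' : ((i k : ℕ) : ℝ) = ((j k : ℕ) : ℝ) := by
    field_simp at e
    exact e
  exact Fin.ext (by exact_mod_cast e')

theorem tor_fin (q : ℕ) (hq : 0 < q) : {v : TX κ | q • v = 0}.Finite := by
  refine (Set.finite_range (ptq q : (κ → Fin q) → TX κ)).subset ?_
  intro v hv
  obtain ⟨i, hi⟩ := tor_exists q hq v hv
  exact ⟨i, hi.symm⟩

private theorem sum_perm (q : ℕ) (hq : 0 < q) (g : TX κ → TX κ) (hg : ∀ v, q • v = 0 → q • g v = 0)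
    (hi : ∀ v w, q • v = 0 → q • w = 0 → g v = g w → v = w) (f : TX κ → ℂ) :
    ∑ i : κ → Fin q, f (g (ptq q i)) = ∑ i : κ → Fin q, f (ptq q i) := by
  have h : ∀ i : κ → Fin q, ∃ j : κ → Fin q, g (ptq q i) = ptq q j := fun i => tor_exists q hq _ (hg _ (tor_ptq q hq i))
  choose σ hσ using h
  have hinj : Function.Injective σ := by
    intro i j hij
    apply ptq_inj q hq
    apply hi _ _ (tor_ptq q hq i) (tor_ptq q hq j)
    rw [hσ, hσ, hij]
  have hb : Function.Bijective σ := Finite.injective_iff_bijective.1 hinj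
  calc ∑ i : κ → Fin q, f (g (ptq q i)) = ∑ i : κ → Fin q, f (ptq q (σ i)) := by simp only [hσ]
    _ = ∑ i : κ → Fin q, f (ptq q i) := hb.sum_comp (fun j => f (ptq q j))

theorem sum_add (q : ℕ) (hq : 0 < q) (s : TX κ) (hs : q • s = 0) (f : TX κ → ℂ) :
    ∑ i : κ → Fin q, f (ptq q i + s) = ∑ i : κ → Fin q, f (ptq q i) := by
  refine sum_perm q hq (fun v => v + s) ?_ ?_ f
  · intro v hv
    rw [smul_add, hv, hs, add_zero]
  · intro v w _ _ h
    exact add_right_cancel h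

theorem sum_neg (q : ℕ) (hq : 0 < q) (f : TX κ → ℂ) :
    ∑ i : κ → Fin q, f (-ptq q i) = ∑ i : κ → Fin q, f (ptq q i) := by
  refine sum_perm q hq (fun v => -v) ?_ ?_ f
  · intro v hv
    rw [smul_neg, hv, neg_zero]
  · intro v w _ _ h
    exact neg_injective h

theorem sum_mul (p q : ℕ) (hq : 0 < q) (hpq : p.Coprime q) (f : TX κ → ℂ) :
    ∑ i : κ → Fin q, f (p • ptq q i) = ∑ i : κ → Fin q, f (ptq q i) := by
  refine sum_perm q hq (fun v => p • v) ?_ ?_ f
  · intro v hv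
    rw [smul_comm, hv, smul_zero]
  · intro v w hv hw h
    have h1 : (p : ℤ) • (v - w) = 0 := by
      rw [natCast_zsmul, smul_sub]; exact sub_eq_zero.2 h
    have h2 : (q : ℤ) • (v - w) = 0 := by
      rw [natCast_zsmul, smul_sub, hv, hw, sub_zero]
    have h3 : IsCoprime (p : ℤ) (q : ℤ) := Nat.isCoprime_iff_coprime.2 hpq
    obtain ⟨a, b, hab⟩ := h3
    have h4 : v - w = a • ((p : ℤ) • (v - w)) + b • ((q : ℤ) • (v - w)) := by
      rw [← mul_smul, ← mul_smul, ← add_smul, hab, one_smul]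
    rw [h1, h2, smul_zero, smul_zero, add_zero] at h4
    exact sub_eq_zero.1 h4

end Pool.Agent.Lib.MP_9fe581_an.TW
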