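import Pool.Agent.Lib.MP_9fe581_an.TW.Rot
import Pool.Agent.Lib.MP_9fe581_an.TW.Tor
import Pool.Agent.Lib.MP_9fe581_an.TW.Ops

/-!
# TW / Desc: invariant functions, descent along the multiplication by n
-/

set_option autoImplicit false
set_option linter.unusedSectionVars false

open Finset MeasureTheory Filter Topology
open scoped ComplexConjugate Matrix

namespace Pool.Agent.Lib.MP_9fe581_an.TW

open Pool.Agent.Lib.MP_9fe581_an.HT (TX mX ch ptq)
open Pool.Agent.Lib.MP_9fe581_an.FT (ec)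

variable {κ : Type} [Fintype κ] [DecidableEq κ] {α : TX κ} {φ : TX κ → UnitAddCircle}

theorem erg_F (hα : Irr α) (n : ℕ) (hn : 0 < n) (f : FG κ) (h : trF (n • α) f = f) : ∃ z, f = cF z := by
  have he := (hα.nsmul n hn).ergodic
  have h1 : (f : TX κ → UnitAddCircle) ∘ (fun t : TX κ => t + n • α) =ᵐ[mX κ] f := by
    have h2 := trF_coe (n • α) f
    rw [h] at h2
    exact h2.symm
  obtain ⟨z, hz⟩ := he.quasiErgodic.ae_eq_const_of_ae_eq_comp₀ f.measurable.nullMeasurable h1
  refine ⟨z, AEEqFun.ext ?_⟩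
  exact hz.trans (cF_coe z).symm

theorem dl_inj_F (n : ℕ) (hn : 0 < n) (f : FG κ) (h : dlF n f = 0) : f = 0 := by
  have hp := nsmul_pres (κ := κ) n hn
  have h1 : ∀ᵐ t ∂mX κ, f (n • t) = 0 := by
    have h2 := dlF_coe n hn f
    have h3 : ⇑(dlF n f) =ᵐ[mX κ] 0 := by
      rw [h]
      exact AEEqFun.coeFn_zero
    filter_upwards [h2, h3] with t e2 e3
    rw [← e2, e3]
    rfl
  have hm : MeasurableSet {x : TX κ | f x = 0} := f.measurable (measurableSet_singleton 0)
  have h4 := (ae_map_iff hp.measurable.aemeasurable hm).2 h1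
  rw [hp.map_eq] at h4
  have h5 : (f : TX κ → UnitAddCircle) =ᵐ[mX κ] 0 := h4
  exact AEEqFun.ext (h5.trans AEEqFun.coeFn_zero.symm)

/-- a measurable section of the multiplication by `n` -/
private noncomputable def sec (n : ℕ) (x : TX κ) : TX κ := fun i => ((((AddCircle.equivIco 1 0 (x i) : ℝ) / (n : ℝ)) : ℝ) : UnitAddCircle)

private theorem sec_meas (n : ℕ) : Measurable (sec n : TX κ → TX κ) := by
  refine measurable_pi_iff.2 fun i => ?_
  have h1 : Measurable fun w : UnitAddCircle => (AddCircle.equivIco 1 0 w : ℝ) :=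
    measurable_subtype_coe.comp (AddCircle.measurableEquivIco 1 0).measurable
  exact (AddCircle.continuous_mk' (1:ℝ)).measurable.comp ((h1.comp (measurable_pi_apply i)).div_const _)

private theorem nsmul_sec (n : ℕ) (hn : 0 < n) (x : TX κ) : n • sec n x = x := by
  funext i
  have hn' : (n : ℝ) ≠ 0 := by exact_mod_cast hn.ne'
  show n • ((((AddCircle.equivIco 1 0 (x i) : ℝ) / (n : ℝ)) : ℝ) : UnitAddCircle) = x i
  rw [← AddCircle.coe_nsmul, nsmul_eq_mul, mul_div_cancel₀ _ hn']
  exact (AddCircle.equivIco 1 0).symm_apply_apply (x i)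

theorem desc_F (n : ℕ) (hn : 0 < n) (f : FG κ) (h : ∀ v : TX κ, n • v = 0 → trF v f = f) : ∃ g, f = dlF n g := by
  have hg0 : Measurable fun x : TX κ => f (sec n x) := f.measurable.comp (sec_meas n)
  have hp := nsmul_pres (κ := κ) n hn
  refine ⟨AEEqFun.mk (fun x : TX κ => f (sec n x)) hg0.aestronglyMeasurable, AEEqFun.ext ?_⟩
  have h1 := dlF_coe n hn (AEEqFun.mk (fun x : TX κ => f (sec n x)) hg0.aestronglyMeasurable)
  have h2 : ∀ᵐ t ∂mX κ, (AEEqFun.mk (fun x : TX κ => f (sec n x)) hg0.aestronglyMeasurable : FG κ) (n • t) = f (sec n (n • t)) :=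
    hp.quasiMeasurePreserving.ae (AEEqFun.coeFn_mk _ hg0.aestronglyMeasurable)
  have h3 : ∀ᵐ t ∂mX κ, ∀ v ∈ {v : TX κ | n • v = 0}, f (t + v) = f t := by
    rw [ae_ball_iff (tor_fin n hn).countable]
    intro v hv
    have h4 := trF_coe v f
    rw [h v hv] at h4
    exact h4.symm
  filter_upwards [h1, h2, h3] with t e1 e2 e3
  rw [e1, e2]
  have h5 := e3 (sec n (n • t) - t) (by
    show n • (sec n (n • t) - t) = 0
    rw [nsmul_sub, nsmul_sec n hn, sub_self])
  rw [add_sub_cancel] at h5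
  exact h5.symm

end Pool.Agent.Lib.MP_9fe581_an.TW
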