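import Pool.Agent.Lib.MP_9fe581_an.TW.SysBasic

/-!
# TW / SysUniq: uniqueness of resonances
-/

set_option autoImplicit false

open Finset

namespace Pool.Agent.Lib.MP_9fe581_an.TW

variable {B F C : Type} [AddCommGroup B] [AddCommGroup F] [AddCommGroup C] (Y : Sys B F C) {Φ : F}

theorem Sys.no_res (hE : Y.Erg Φ) (q : ℕ) (hq : 0 < q) (m : ℤ) (A : F) (h : Y.d A = m • Y.dn q Φ) : m = 0 := by
  classical
  obtain ⟨T, hT⟩ : ∃ T : Finset B, ∀ v, v ∈ T ↔ q • v = 0 := by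
    refine ⟨(Y.tor q hq).toFinset, fun v => ?_⟩
    rw [Set.Finite.mem_toFinset]
    rfl
  have hinv : ∀ w, q • w = 0 → Y.tr w (∑ v ∈ T, Y.tr v A) = ∑ v ∈ T, Y.tr v A := by
    intro w hw
    rw [map_sum]
    refine sum_bij (fun v _ => w + v) (fun v hv => ?_) (fun v _ v' _ hvv => add_left_cancel hvv)
      (fun v hv => ⟨v - w, ?_, ?_⟩) (fun v _ => ?_)
    · rw [hT] at hv ⊢
      rw [smul_add, hw, hv, add_zero]
    · rw [hT] at hv ⊢
      rw [smul_sub, hw, hv, sub_zero]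
    · abel
    · rw [Y.tr_add]
  obtain ⟨N, hN⟩ := Y.desc q hq _ hinv
  have hc : 0 < T.card := card_pos.mpr ⟨0, (hT 0).mpr (smul_zero q)⟩
  have hd : Y.d (∑ v ∈ T, Y.tr v A) = ((T.card : ℤ) * m) • Y.dn q Φ := by
    rw [map_sum]
    have h1 : ∀ v ∈ T, Y.d (Y.tr v A) = m • Y.dn q Φ := fun v hv => by
      rw [← Y.tr_d, h, map_zsmul, Y.tr_dn_tor v q hq ((hT v).mp hv)]
    rw [sum_congr rfl h1, sum_const, ← natCast_zsmul, smul_smul]
  rw [hN] at hd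
  have h2 : Y.tr (q • Y.al) N - N = ((T.card : ℤ) * m) • Y.sm q Φ := by
    have h3 : Y.dl q (Y.tr (q • Y.al) N - N - ((T.card : ℤ) * m) • Y.sm q Φ) = 0 := by
      rw [map_sub, map_sub, map_zsmul, ← Y.tr_dl _ q hq, ← Y.dn_apply, ← hd, Y.d_apply, sub_self]
    exact sub_eq_zero.mp (Y.dl_inj q hq _ h3)
  have h4 : Y.sm q (((T.card : ℤ) * m) • Φ - Y.d N) = 0 := by
    rw [map_sub, map_zsmul, Y.sm_d, h2, sub_self]
  have h5 : Y.tr (q • Y.al) (((T.card : ℤ) * m) • Φ - Y.d N) = ((T.card : ℤ) * m) • Φ - Y.d N := by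
    rw [← sub_eq_zero, ← Y.d_sm, h4, map_zero]
  obtain ⟨z, hz⟩ := Y.erg q hq _ h5
  have h6 : (q : ℤ) • (((T.card : ℤ) * m) • Φ - Y.d N) = 0 := by
    rw [hz, Y.sm_cst] at h4
    rw [hz, ← map_zsmul, natCast_zsmul, h4]
  have h7 : Y.d ((q : ℤ) • N) = ((q : ℤ) * ((T.card : ℤ) * m)) • Φ := by
    rw [smul_sub, sub_eq_zero] at h6
    rw [map_zsmul, ← h6, smul_smul]
  by_contra hm
  refine hE ((q : ℤ) * ((T.card : ℤ) * m)) ?_ _ h7
  refine mul_ne_zero (by exact_mod_cast hq.ne') (mul_ne_zero (by exact_mod_cast hc.ne') hm)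

theorem Sys.res_uniq (hE : Y.Erg Φ) {p q : ℕ} (hp : 0 < p) (hq : 0 < q) {k l l' : ℤ} {A A' : F}
    (h : Y.Res Φ p q k l A) (h' : Y.Res Φ p q k l' A') : l = l' := by
  have _ := hp
  unfold Sys.Res at h h'
  have h1 : Y.d (A - A') = (l' - l) • Y.dn q Φ := by
    rw [map_sub, h, h', sub_smul]
    abel
  have h2 := Y.no_res hE q hq _ _ h1
  omega

theorem Sys.res_uniq' (hE : Y.Erg Φ) {p q : ℕ} (hp : 0 < p) (hq : 0 < q) {k k' l : ℤ} {A A' : F}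
    (h : Y.Res Φ p q k l A) (h' : Y.Res Φ p q k' l A') : k = k' := by
  have _ := hq
  unfold Sys.Res at h h'
  have h1 : Y.d (A - A') = (k - k') • Y.dn p Φ := by
    rw [map_sub, h, h', sub_smul]
    abel
  have h2 := Y.no_res hE p hp _ _ h1
  omega

theorem Sys.no_E (hE : Y.Erg Φ) {p q : ℕ} (hp : 0 < p) (hq : 0 < q) {k0 : ℤ} (hk0 : k0 ≠ 0) {z : C} {A0 : F}
    (h0 : k0 • Φ = Y.cst z + Y.d A0) {k l : ℤ} {A : F} (h : Y.Res Φ p q k l A) : k * p = l * q := by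
  unfold Sys.Res at h
  have hD : ∀ n : ℕ, 0 < n → k0 • Y.dn n Φ = Y.cst ((n : ℤ) • z) + Y.d (Y.dl n A0) := by
    intro n hn
    rw [← map_zsmul, h0, map_add, Y.dn_cst n hn, Y.dn_d n hn, natCast_zsmul]
  have h1 : Y.d (k0 • A) = k • (Y.cst ((p : ℤ) • z) + Y.d (Y.dl p A0)) - l • (Y.cst ((q : ℤ) • z) + Y.d (Y.dl q A0)) := by
    rw [← hD p hp, ← hD q hq, map_zsmul, h, smul_sub, smul_comm k0 k, smul_comm k0 l]
  have h2 : Y.d (k0 • A - k • Y.dl p A0 + l • Y.dl q A0 + (k * p - l * q) • A0) =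
      ((k * p - l * q) * k0) • Φ := by
    rw [mul_smul, h0, map_add, map_add, map_sub, h1, map_zsmul, map_zsmul, map_zsmul, map_zsmul, map_zsmul, smul_add,
      smul_add, smul_add, smul_smul, smul_smul, sub_smul (k * (p : ℤ)) (l * (q : ℤ)) (Y.cst z)]
    abel
  by_contra hne
  exact hE _ (mul_ne_zero (sub_ne_zero.mpr hne) hk0) _ h2

end Pool.Agent.Lib.MP_9fe581_an.TW
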