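import Pool.Agent.Lib.MP_9fe581_an.TW.SysGen
import Pool.Agent.Lib.MP_9fe581_an.TW.SysUniq
import Pool.Agent.Lib.MP_9fe581_an.TW.Tor
import Pool.Agent.Lib.MP_9fe581_an.TW.Ops
import Pool.Agent.Lib.MP_9fe581_an.TW.Desc

/-!
# TW, module R4: from the abstract system to measurable functions
-/

set_option autoImplicit false
set_option linter.unusedSectionVars false

open Finset MeasureTheory Filter Topology
open scoped ComplexConjugate Matrix

namespace Pool.Agent.Lib.MP_9fe581_an.TW

open Pool.Agent.Lib.MP_9fe581_an.HT (TX mX ch ptq)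
open Pool.Agent.Lib.MP_9fe581_an.FT (ec)

variable {κ : Type} [Fintype κ] [DecidableEq κ] {α : TX κ} {φ : TX κ → UnitAddCircle}

/-- the system of the rotation -/
noncomputable def sysX (α : TX κ) (hα : Irr α) : Sys (TX κ) (FG κ) UnitAddCircle where
  tr := trF
  dl := dlF
  cst := cF
  al := α
  tr_zero := trF_zero
  tr_add := trF_add
  dl_one := dlF_one
  dl_mul := dlF_mul
  tr_dl := trF_dlF
  tr_cst := trF_cF
  dl_cst := dlF_cF
  cst_inj := cF_inj
  erg := fun n hn f h => erg_F hα n hn f h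
  dl_inj := dl_inj_F
  desc := desc_F
  tor := tor_fin

/-- `F` represents the class `f` -/
private def Rep (f : FG κ) (F : TX κ → UnitAddCircle) : Prop := ⇑f =ᵐ[mX κ] F

private theorem tend_add (b : TX κ) : Tendsto (fun t : TX κ => t + b) (ae (mX κ)) (ae (mX κ)) :=
  (measurePreserving_add_right (mX κ) b).quasiMeasurePreserving.tendsto_ae

private theorem tend_aff (x0 : TX κ) (n : ℕ) (hn : 0 < n) :
    Tendsto (fun t : TX κ => x0 + n • t) (ae (mX κ)) (ae (mX κ)) :=
  (affine_pres x0 n hn).quasiMeasurePreserving.tendsto_ae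

private theorem tend_mul (n : ℕ) (hn : 0 < n) : Tendsto (fun t : TX κ => n • t) (ae (mX κ)) (ae (mX κ)) :=
  (nsmul_pres n hn).quasiMeasurePreserving.tendsto_ae

private theorem Rep.sub {f g : FG κ} {F G : TX κ → UnitAddCircle} (hf : Rep f F) (hg : Rep g G) :
    Rep (f - g) (fun t => F t - G t) :=
  (AEEqFun.coeFn_sub f g).trans (EventuallyEq.sub hf hg)

private theorem Rep.add {f g : FG κ} {F G : TX κ → UnitAddCircle} (hf : Rep f F) (hg : Rep g G) :
    Rep (f + g) (fun t => F t + G t) :=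
  (AEEqFun.coeFn_add f g).trans (EventuallyEq.add hf hg)

private theorem Rep.neg {f : FG κ} {F : TX κ → UnitAddCircle} (hf : Rep f F) : Rep (-f) (fun t => -F t) :=
  (AEEqFun.coeFn_neg f).trans (EventuallyEq.neg hf)

private theorem rep_zero : Rep (0 : FG κ) (fun _ => 0) := AEEqFun.coeFn_zero

private theorem Rep.nsmul {f : FG κ} {F : TX κ → UnitAddCircle} (hf : Rep f F) (n : ℕ) :
    Rep (n • f) (fun t => n • F t) := by
  induction n with
  | zero =>
    rw [zero_smul]
    exact rep_zero.trans (Eventually.of_forall fun t => (zero_smul ℕ (F t)).symm)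
  | succ n ih =>
    rw [succ_nsmul]
    exact (ih.add hf).trans (Eventually.of_forall fun t => (succ_nsmul (F t) n).symm)

private theorem Rep.zsmul {f : FG κ} {F : TX κ → UnitAddCircle} (hf : Rep f F) (k : ℤ) :
    Rep (k • f) (fun t => k • F t) := by
  obtain ⟨n, rfl | rfl⟩ := k.eq_nat_or_neg
  · rw [natCast_zsmul]
    exact (hf.nsmul n).trans (Eventually.of_forall fun t => (natCast_zsmul (F t) n).symm)
  · rw [neg_smul, natCast_zsmul]
    refine (hf.nsmul n).neg.trans (Eventually.of_forall fun t => ?_)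
    show -(n • F t) = (-(n : ℤ)) • F t
    rw [neg_smul, natCast_zsmul]

private theorem Rep.tr {f : FG κ} {F : TX κ → UnitAddCircle} (hf : Rep f F) (b : TX κ) :
    Rep (trF b f) (fun t => F (t + b)) :=
  (trF_coe b f).trans (EventuallyEq.comp_tendsto hf (tend_add b))

private theorem Rep.dl {f : FG κ} {F : TX κ → UnitAddCircle} (hf : Rep f F) (n : ℕ) (hn : 0 < n) :
    Rep (dlF n f) (fun t => F (n • t)) :=
  (dlF_coe n hn f).trans (EventuallyEq.comp_tendsto hf (tend_mul n hn))

private theorem Rep.sum {f : ℕ → FG κ} {F : ℕ → TX κ → UnitAddCircle} (hf : ∀ i, Rep (f i) (F i)) (n : ℕ) :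
    Rep (∑ i ∈ range n, f i) (fun t => ∑ i ∈ range n, F i t) := by
  induction n with
  | zero =>
    simp only [range_zero, sum_empty]
    exact rep_zero
  | succ n ih =>
    simp only [sum_range_succ]
    exact ih.add (hf n)

private theorem Rep.d {f : FG κ} {F : TX κ → UnitAddCircle} (hf : Rep f F) (hα : Irr α) :
    Rep ((sysX α hα).d f) (fun t => F (t + α) - F t) := by
  rw [Sys.d_apply]
  exact (hf.tr α).sub hf

private theorem Rep.sm {f : FG κ} {F : TX κ → UnitAddCircle} (hf : Rep f F) (hα : Irr α) (n : ℕ) :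
    Rep ((sysX α hα).sm n f) (fun t => ∑ i ∈ range n, F (t + i • α)) := by
  rw [Sys.sm_apply]
  exact Rep.sum (fun i => hf.tr (i • α)) n

private theorem Rep.dn {f : FG κ} {F : TX κ → UnitAddCircle} (hf : Rep f F) (hα : Irr α) (n : ℕ) (hn : 0 < n) :
    Rep ((sysX α hα).dn n f) (fun t => ∑ i ∈ range n, F (n • t + i • α)) := by
  rw [Sys.dn_apply]
  exact (hf.sm hα n).dl n hn

private theorem Rep.eq {f g : FG κ} {F G : TX κ → UnitAddCircle} (hf : Rep f F) (hg : Rep g G) (h : F =ᵐ[mX κ] G) : f = g :=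
  AEEqFun.ext (hf.trans (h.trans hg.symm))

private theorem Rep.ae {f g : FG κ} {F G : TX κ → UnitAddCircle} (hf : Rep f F) (hg : Rep g G) (h : f = g) : F =ᵐ[mX κ] G := by
  subst h
  exact hf.symm.trans hg

/-- the class of a measurable function -/
private noncomputable def cls (F : TX κ → UnitAddCircle) (hF : Measurable F) : FG κ := AEEqFun.mk F hF.aestronglyMeasurable

private theorem cls_rep (F : TX κ → UnitAddCircle) (hF : Measurable F) : Rep (cls F hF) F :=
  AEEqFun.coeFn_mk F hF.aestronglyMeasurable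

private theorem rep_self (f : FG κ) : Rep f f := EventuallyEq.rfl

private theorem rep_cst (z : UnitAddCircle) : Rep (cF z : FG κ) (fun _ => z) := cF_coe z

private theorem phi_meas (hφ : Continuous φ) (x0 : TX κ) : Measurable fun t => φ (x0 + t) :=
  (hφ.comp (continuous_const.add continuous_id)).measurable

private theorem rep_dn (hα : Irr α) (hφ : Continuous φ) (x0 : TX κ) (n : ℕ) (hn : 0 < n) :
    Rep ((sysX α hα).dn n (cls (fun t => φ (x0 + t)) (phi_meas hφ x0))) (fun t => ph α φ n (x0 + n • t)) := by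
  refine ((cls_rep _ (phi_meas hφ x0)).dn hα n hn).trans (Eventually.of_forall fun t => ?_)
  show ∑ i ∈ range n, φ (x0 + (n • t + i • α)) = ∑ i ∈ range n, φ (x0 + n • t + i • α)
  simp only [add_assoc]

private theorem res_iff (hα : Irr α) (hφ : Continuous φ) (x0 : TX κ) {p q : ℕ} (hp : 0 < p) (hq : 0 < q) (k l : ℤ)
    (A : TX κ → UnitAddCircle) (f : FG κ) (hf : Rep f A) :
    (sysX α hα).Res (cls (fun t => φ (x0 + t)) (phi_meas hφ x0)) p q k l f ↔
      ∀ᵐ t ∂mX κ, A (t + α) - A t = rc α φ x0 p q k l t := by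
  have h1 := hf.d hα
  have h2 := ((rep_dn hα hφ x0 p hp).zsmul k).sub ((rep_dn hα hφ x0 q hq).zsmul l)
  constructor
  · intro h
    exact h1.ae h2 h
  · intro h
    exact h1.eq h2 h

private theorem erg_sys (hα : Irr α) (hφ : Continuous φ) (hE : ErgF α φ) (x0 : TX κ) :
    (sysX α hα).Erg (cls (fun t => φ (x0 + t)) (phi_meas hφ x0)) := by
  intro k hk A hA
  have h1 := ((rep_self A).d hα).ae ((cls_rep _ (phi_meas hφ x0)).zsmul k) hA
  refine hE k hk (fun t => A (t - x0)) ⟨?_, ?_⟩
  · exact A.measurable.comp (measurable_id.sub_const x0)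
  · have h2 := EventuallyEq.comp_tendsto h1 (tend_add (-x0))
    filter_upwards [h2] with t ht
    have h3 : A (t + -x0 + α) - A (t + -x0) = k • φ (x0 + (t + -x0)) := ht
    have e1 : t + -x0 + α = t + α - x0 := by abel
    have e2 : t + -x0 = t - x0 := by abel
    have e3 : x0 + (t + -x0) = t := by abel
    rw [e1, e3, e2] at h3
    exact h3

theorem resF_zero (α : TX κ) (φ : TX κ → UnitAddCircle) (x0 : TX κ) (p q : ℕ) : ResF α φ x0 p q 0 0 (fun _ => 0) := by
  refine ⟨measurable_const, Eventually.of_forall fun t => ?_⟩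
  unfold rc
  simp

theorem ResF.symm {x0 : TX κ} {p q : ℕ} {k l : ℤ} {A : TX κ → UnitAddCircle} (h : ResF α φ x0 p q k l A) :
    ResF α φ x0 q p l k (fun t => -A t) := by
  refine ⟨h.1.neg, ?_⟩
  filter_upwards [h.2] with t ht
  have : rc α φ x0 q p l k t = -rc α φ x0 p q k l t := by
    unfold rc
    abel
  rw [this, ← ht]
  abel

theorem resF_uniq (hα : Irr α) (hφ : Continuous φ) (hE : ErgF α φ) {x0 : TX κ} {p q : ℕ} (hp : 0 < p) (hq : 0 < q)
    {k l l' : ℤ} {A A' : TX κ → UnitAddCircle} (h : ResF α φ x0 p q k l A) (h' : ResF α φ x0 p q k l' A') : l = l' :=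
  (sysX α hα).res_uniq (erg_sys hα hφ hE x0) hp hq
    ((res_iff hα hφ x0 hp hq k l A _ (cls_rep A h.1)).2 h.2)
    ((res_iff hα hφ x0 hp hq k l' A' _ (cls_rep A' h'.1)).2 h'.2)

theorem resF_uniq' (hα : Irr α) (hφ : Continuous φ) (hE : ErgF α φ) {x0 : TX κ} {p q : ℕ} (hp : 0 < p) (hq : 0 < q)
    {k k' l : ℤ} {A A' : TX κ → UnitAddCircle} (h : ResF α φ x0 p q k l A) (h' : ResF α φ x0 p q k' l A') : k = k' :=
  (sysX α hα).res_uniq' (erg_sys hα hφ hE x0) hp hq
    ((res_iff hα hφ x0 hp hq k l A _ (cls_rep A h.1)).2 h.2)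
    ((res_iff hα hφ x0 hp hq k' l A' _ (cls_rep A' h'.1)).2 h'.2)

theorem cov_exists (hα : Irr α) (hφ : Continuous φ) (hE : ErgF α φ) {q : ℕ} (hq : q.Prime) (x0 : TX κ) :
    ∃ (g : ℤ) (h : TX κ → TX κ → UnitAddCircle), Cov α φ x0 q g h := by
  have hΦ := cls_rep _ (phi_meas hφ x0)
  obtain ⟨g, h, h1, h2, h3, h4⟩ := (sysX α hα).gen (erg_sys hα hφ hE x0) hq
  refine ⟨g, fun s x => h s (x - x0), ⟨⟨fun s => ?_, fun s hs => ?_, fun s s' hs hs' => ?_⟩, ?_, ?_⟩⟩
  · exact (h s).measurable.comp (measurable_id.sub_const x0)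
  · have e1 := ((rep_self (h s)).d hα).ae (((hΦ.tr s).sub hΦ).zsmul g) (h1 s hs)
    have e2 := EventuallyEq.comp_tendsto e1 (tend_add (-x0))
    filter_upwards [e2] with x hx
    have h5 : h s (x + -x0 + α) - h s (x + -x0) = g • (φ (x0 + (x + -x0 + s)) - φ (x0 + (x + -x0))) := hx
    have a1 : x + -x0 + α = x + α - x0 := by abel
    have a2 : x0 + (x + -x0 + s) = x + s := by abel
    have a3 : x0 + (x + -x0) = x := by abel
    have a4 : x + -x0 = x - x0 := by abel
    rw [a1, a2, a3, a4] at h5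
    exact h5
  · have e1 := (rep_self (h (s + s'))).ae (((rep_self (h s)).tr s').add (rep_self (h s'))) (h2 s s' hs hs')
    have e2 := EventuallyEq.comp_tendsto e1 (tend_add (-x0))
    filter_upwards [e2] with x hx
    have h5 : h (s + s') (x + -x0) = h s (x + -x0 + s') + h s' (x + -x0) := hx
    have a1 : x + -x0 + s' = x + s' - x0 := by abel
    have a4 : x + -x0 = x - x0 := by abel
    rw [a1, a4] at h5
    exact h5
  · intro p hp hpq k l A hA hk
    obtain ⟨m, hm, hs⟩ := h3 p hp hpq k l (cls A hA.1)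
      ((res_iff hα hφ x0 hp hq.pos k l A _ (cls_rep A hA.1)).2 hA.2) hk
    refine ⟨m, hm, fun s hs0 => ?_⟩
    have e1 := (((rep_self (h (p • s))).zsmul m).dl p hp).ae (((cls_rep A hA.1).tr s).sub (cls_rep A hA.1)) (hs s hs0)
    filter_upwards [e1] with t ht
    have a1 : x0 + p • t - x0 = p • t := by abel
    show m • (h (p • s)) (x0 + p • t - x0) = A (t + s) - A t
    rw [a1]
    exact ht
  · rcases h4 with h4 | ⟨p, k, l, A, hp, hpq, hA, hk⟩
    · exact Or.inl h4
    · refine Or.inr fun k0 hk0 z A0 hA0 => hk ?_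
      have e1 : k0 • cls (fun t => φ (x0 + t)) (phi_meas hφ x0) =
          (sysX α hα).cst z + (sysX α hα).d (cls (fun t => A0 (x0 + t)) (hA0.1.comp (measurable_const.add measurable_id))) := by
        refine (hΦ.zsmul k0).eq ((rep_cst z).add ((cls_rep _ _).d hα)) ?_
        have e2 := Tendsto.eventually (tend_add x0) hA0.2
        filter_upwards [e2] with t ht
        have a1 : t + x0 + α = x0 + (t + α) := by abel
        have a2 : t + x0 = x0 + t := by abel
        rw [a1, a2] at ht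
        rw [ht]
        abel
      have e3 := (sysX α hα).no_E (erg_sys hα hφ hE x0) hp hq.pos hk0 e1 hA
      have e4 : (q : ℤ) ∣ k * p := ⟨l, by rw [e3]; ring⟩
      have e5 : IsCoprime (q : ℤ) (p : ℤ) := (Nat.isCoprime_iff_coprime.2 hpq).symm
      exact e5.dvd_of_dvd_mul_right e4

end Pool.Agent.Lib.MP_9fe581_an.TW
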