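import Pool.Agent.Lib.MP_9fe581_an.TW.Defs

/-!
# TW / Rot: rotations of the torus
-/

set_option autoImplicit false
set_option linter.unusedSectionVars false

open Finset MeasureTheory Filter Topology
open scoped ComplexConjugate Matrix

namespace Pool.Agent.Lib.MP_9fe581_an.TW

open Pool.Agent.Lib.MP_9fe581_an.HT (TX mX ch ptq)
open Pool.Agent.Lib.MP_9fe581_an.FT (ec)

variable {κ : Type} [Fintype κ] [DecidableEq κ] {α : TX κ} {φ : TX κ → UnitAddCircle}

private theorem rot_ch_nsmul (m : κ →₀ ℤ) (n : ℕ) (x : TX κ) : ch m (n • x) = ch m x ^ n := by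
  induction n with
  | zero =>
    have h := HT.ch_add_right m (0 : TX κ) 0
    rw [add_zero] at h
    have h0 : ch m (0 : TX κ) ≠ 0 := by
      intro h1
      have := HT.ch_norm m (0 : TX κ)
      rw [h1, norm_zero] at this
      exact zero_ne_one this
    rw [zero_smul, pow_zero]
    exact (mul_eq_left₀ h0).mp h.symm
  | succ n ih => rw [succ_nsmul, HT.ch_add_right, ih, pow_succ]

private theorem rot_nsmul_ch (m : κ →₀ ℤ) (n : ℕ) (x : TX κ) : ch (n • m) x = ch m x ^ n := by
  induction n with
  | zero => rw [zero_smul, HT.ch_zero, pow_zero]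
  | succ n ih => rw [succ_nsmul, HT.ch_add, ih, pow_succ]

private theorem rot_nsmul_ne (m : κ →₀ ℤ) (n : ℕ) (hn : 0 < n) (hm : m ≠ 0) : n • m ≠ 0 := by
  intro h
  apply hm
  ext i
  have := DFunLike.congr_fun h i
  simp only [Finsupp.smul_apply, nsmul_eq_mul, Finsupp.coe_zero, Pi.zero_apply, mul_eq_zero] at this
  rcases this with h1 | h1
  · exact absurd (by exact_mod_cast h1) hn.ne'
  · simpa using h1

theorem nsmul_pres (n : ℕ) (hn : 0 < n) : MeasurePreserving (fun t : TX κ => n • t) (mX κ) (mX κ) := by
  have hm : Measurable (fun t : TX κ => n • t) := (continuous_const_smul n).measurable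
  refine ⟨hm, ?_⟩
  haveI : IsProbabilityMeasure (Measure.map (fun t : TX κ => n • t) (mX κ)) :=
    Measure.isProbabilityMeasure_map hm.aemeasurable
  refine HT.ch_ext _ _ fun m => ?_
  rw [integral_map hm.aemeasurable (HT.ch_cont m).aestronglyMeasurable, HT.ch_int]
  have h1 : (fun x : TX κ => ch m (n • x)) = fun x => ch (n • m) x := by
    funext x
    rw [rot_ch_nsmul, rot_nsmul_ch]
  rw [h1, HT.ch_int]
  by_cases h : m = 0
  · rw [if_pos h, if_pos (by rw [h, smul_zero])]
  · rw [if_neg h, if_neg (rot_nsmul_ne m n hn h)]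

theorem affine_pres (x0 : TX κ) (n : ℕ) (hn : 0 < n) : MeasurePreserving (fun t : TX κ => x0 + n • t) (mX κ) (mX κ) :=
  (measurePreserving_add_left (mX κ) x0).comp (nsmul_pres n hn)

theorem Irr.nsmul (hα : Irr α) (n : ℕ) (hn : 0 < n) : Irr (n • α) := by
  intro m hm
  rw [rot_ch_nsmul, ← rot_nsmul_ch]
  exact hα _ (rot_nsmul_ne m n hn hm)

/-- the characters have integral 0 against an invariant finite measure -/
private theorem rot_int (hα : Irr α) (ν : Measure (TX κ)) [IsFiniteMeasure ν] (h : MeasurePreserving (fun t => t + α) ν ν)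
    (m : κ →₀ ℤ) (hm : m ≠ 0) : ∫ x, ch m x ∂ν = 0 := by
  have h1 : ∫ x, ch m (x + α) ∂ν = ∫ x, ch m x ∂ν := by
    have h2 := integral_map (μ := ν) h.measurable.aemeasurable
      (f := fun x => ch m x) (by rw [h.map_eq]; exact (HT.ch_cont m).aestronglyMeasurable)
    rw [h.map_eq] at h2
    exact h2.symm
  have h3 : ∫ x, ch m (x + α) ∂ν = (∫ x, ch m x ∂ν) * ch m α := by
    rw [← integral_mul_const]
    exact integral_congr_ae (Eventually.of_forall fun x => HT.ch_add_right m x α)
  rw [h3] at h1
  by_contra hne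
  exact hα m hm (by
    have : (∫ x, ch m x ∂ν) * (ch m α - 1) = 0 := by rw [mul_sub, h1]; ring
    rcases mul_eq_zero.mp this with h4 | h4
    · exact absurd h4 hne
    · exact sub_eq_zero.mp h4)

/-- a probability measure invariant under the rotation is Haar measure (characters) -/
theorem Irr.unique (hα : Irr α) (ν : Measure (TX κ)) [IsProbabilityMeasure ν] (h : MeasurePreserving (fun t => t + α) ν ν) :
    ν = mX κ := by
  refine HT.ch_ext _ _ fun m => ?_
  rw [HT.ch_int]
  split_ifs with hm
  · subst hm
    simp only [HT.ch_zero]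
    simp
  · exact rot_int hα ν h m hm

/-- invariant sets have trivial Fourier coefficients -/
theorem Irr.ergodic (hα : Irr α) : Ergodic (fun t : TX κ => t + α) (mX κ) := by
  have hp : MeasurePreserving (fun t : TX κ => t + α) (mX κ) (mX κ) := measurePreserving_add_right (mX κ) α
  refine ⟨hp, ⟨fun s hs hinv => ?_⟩⟩
  have h1 : MeasurePreserving (fun t : TX κ => t + α) ((mX κ).restrict s) ((mX κ).restrict s) := by
    have := hp.restrict_preimage hs
    rwa [hinv] at this
  have h2 : (mX κ).restrict s = (mX κ s) • mX κ := by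
    haveI : IsFiniteMeasure ((mX κ s) • mX κ) := by
      refine ⟨?_⟩
      rw [Measure.smul_apply, measure_univ, smul_eq_mul, mul_one]
      exact measure_lt_top _ _
    refine HT.ch_ext _ _ fun m => ?_
    by_cases hm : m = 0
    · subst hm
      simp only [HT.ch_zero]
      rw [integral_const, integral_const]
      simp [Measure.real]
    · rw [rot_int hα _ h1 m hm, integral_smul_measure, HT.ch_int, if_neg hm, smul_zero]
  have h3 : mX κ s * mX κ sᶜ = 0 := by
    have := congrArg (fun P : Measure (TX κ) => P sᶜ) h2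
    simp only [Measure.smul_apply, smul_eq_mul] at this
    rw [← this, Measure.restrict_apply hs.compl, Set.compl_inter_self, measure_empty]
  rcases mul_eq_zero.mp h3 with h4 | h4
  · rw [eventuallyConst_set']
    exact Or.inl (ae_eq_empty.mpr h4)
  · rw [eventuallyConst_set']
    exact Or.inr (ae_eq_univ.mpr h4)

end Pool.Agent.Lib.MP_9fe581_an.TW
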