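import Pool.Agent.Lib.MP_9fe581_an.TW.Defs
import Pool.Agent.Lib.MP_9fe581_an.HD.MeanErg
import Pool.Agent.Lib.MP_9fe581_an.TW.Rot
import Pool.Agent.Lib.MP_9fe581_an.TW.Arg

/-! A2: averages of cocycles over a rotation (`bsum_res`, `bsum_none`), by the mean ergodic theorem. -/

set_option autoImplicit false
set_option linter.unusedSectionVars false

open Finset MeasureTheory Filter Topology
open scoped ComplexConjugate Matrix

namespace Pool.Agent.Lib.MP_9fe581_an.TW

open Pool.Agent.Lib.MP_9fe581_an.HT (TX mX ch ptq)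
open Pool.Agent.Lib.MP_9fe581_an.FT (ec)

section merg

variable {X : Type} [MeasurableSpace X] {ν : Measure X} [IsProbabilityMeasure ν] {T : X → X}

private theorem bs_l1 (g : Lp ℂ 2 ν) : ∫ z, ‖g z‖ ∂ν ≤ ‖g‖ := by
  have h1 : eLpNorm g 1 ν ≤ eLpNorm g 2 ν :=
    eLpNorm_le_eLpNorm_of_exponent_le (by norm_num) (Lp.aestronglyMeasurable g)
  rw [integral_norm_eq_lintegral_enorm (Lp.aestronglyMeasurable g), ← eLpNorm_one_eq_lintegral_enorm, Lp.norm_def]
  exact ENNReal.toReal_mono (Lp.eLpNorm_ne_top g) h1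

/-- the mean ergodic theorem in `L¹`, in terms of functions -/
private theorem bs_merg (hT : MeasurePreserving T ν ν) (F : X → ℂ) (hF : MemLp F 2 ν) :
    ∃ P : X → ℂ, MemLp P 2 ν ∧ (∀ᵐ z ∂ν, P (T z) = P z) ∧
      Tendsto (fun M : ℕ => ∫ z, ‖(1 / (M : ℂ)) * ∑ m ∈ range M, F (T^[m] z) - P z‖ ∂ν) atTop (𝓝 0) := by
  obtain ⟨Q, hQ1, hQ2, -⟩ := HD.mean_erg hT 1 norm_one
  set f : Lp ℂ 2 ν := hF.toLp F with hf
  set P : X → ℂ := ⇑(Q f) with hP
  have hPT : ∀ᵐ z ∂ν, P (T z) = P z := by
    filter_upwards [hQ1 f] with z hz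
    rw [hP, hz, one_mul]
  have hPm : AEStronglyMeasurable P ν := Lp.aestronglyMeasurable _
  refine ⟨P, Lp.memLp _, hPT, ?_⟩
  have h1 := tendsto_iff_norm_sub_tendsto_zero.mp (hQ2 f)
  refine squeeze_zero (fun M => integral_nonneg fun z => norm_nonneg _) (fun M => ?_) h1
  have hm : ∀ m, AEStronglyMeasurable (fun z => F (T^[m] z)) ν := fun m =>
    hF.1.comp_measurePreserving (hT.iterate m)
  have hs : AEStronglyMeasurable (fun z => ‖(1 / (M : ℂ)) * ∑ m ∈ range M, F (T^[m] z) - P z‖) ν :=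
    (((Finset.aestronglyMeasurable_fun_sum _ fun m _ => hm m).const_mul _).sub hPm).norm
  have e1 : ∫ z, ‖(1 / (M : ℂ)) * ∑ m ∈ range M, F (T^[m] z) - P z‖ ∂ν =
      ∫ z, ‖(1 / (M : ℂ)) * ∑ m ∈ range M, F (T^[m] (T z)) - P (T z)‖ ∂ν := by
    have h2 := integral_map (μ := ν) hT.measurable.aemeasurable
      (f := fun z => ‖(1 / (M : ℂ)) * ∑ m ∈ range M, F (T^[m] z) - P z‖) (by rw [hT.map_eq]; exact hs)
    rw [hT.map_eq] at h2
    exact h2
  rw [e1]
  refine le_trans (le_of_eq ?_) (bs_l1 _)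
  refine integral_congr_ae ?_
  have h3 : ∀ n, ⇑(Lp.compMeasurePreserving (T^[n]) (hT.iterate n) f) =ᵐ[ν] fun z => F (T^[n] z) := fun n =>
    (Lp.coeFn_compMeasurePreserving f (hT.iterate n)).trans
      ((hT.iterate n).quasiMeasurePreserving.ae_eq_comp (MemLp.coeFn_toLp hF))
  have h4 : ∀ᵐ z ∂ν, ∀ n, (Lp.compMeasurePreserving (T^[n]) (hT.iterate n) f) z = F (T^[n] z) := ae_all_iff.mpr h3
  have h5 := Lp.coeFn_sub ((1 / (M : ℂ)) • ∑ n ∈ Icc 1 M,
        (conj (1 : ℂ)) ^ n • Lp.compMeasurePreserving (T^[n]) (hT.iterate n) f) (Q f)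
  have h6 := Lp.coeFn_smul (1 / (M : ℂ)) (∑ n ∈ Icc 1 M,
        (conj (1 : ℂ)) ^ n • Lp.compMeasurePreserving (T^[n]) (hT.iterate n) f)
  have h7 := Lp.coeFn_fun_finsetSum (Icc 1 M) (fun n =>
        (conj (1 : ℂ)) ^ n • Lp.compMeasurePreserving (T^[n]) (hT.iterate n) f)
  have h8 : ∀ᵐ z ∂ν, ∀ n, ((conj (1 : ℂ)) ^ n • Lp.compMeasurePreserving (T^[n]) (hT.iterate n) f : Lp ℂ 2 ν) z =
      (conj (1 : ℂ)) ^ n • (Lp.compMeasurePreserving (T^[n]) (hT.iterate n) f) z :=
    ae_all_iff.mpr fun n => Lp.coeFn_smul _ _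
  filter_upwards [h4, h5, h6, h7, h8, hPT] with z g4 g5 g6 g7 g8 gT
  rw [g5, Pi.sub_apply, g6, Pi.smul_apply, g7, gT]
  congr 2
  rw [smul_eq_mul]
  congr 1
  have e9 : Icc 1 M = Ico (0 + 1) (M + 1) := by
    ext n
    simp only [Finset.mem_Icc, Finset.mem_Ico]
    omega
  rw [e9, ← Finset.sum_Ico_add' (fun n => ((conj (1 : ℂ)) ^ n • Lp.compMeasurePreserving (T^[n]) (hT.iterate n) f : Lp ℂ 2 ν) z) 0 M 1,
    Finset.range_eq_Ico]
  refine Finset.sum_congr rfl fun n _ => ?_
  rw [g8, g4, map_one, one_pow, one_smul, ← Function.iterate_succ_apply]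

end merg

section base

variable {κ : Type} [Fintype κ] [DecidableEq κ] {α : TX κ} {φ : TX κ → UnitAddCircle}

private theorem bs_rot (α : TX κ) (n : ℕ) (t : TX κ) : (fun t : TX κ => t + α)^[n] t = t + n • α := by
  induction n with
  | zero => simp
  | succ n ih =>
    rw [Function.iterate_succ_apply', ih, succ_nsmul]
    abel

private theorem bs_ss (α : TX κ) (C : TX κ → UnitAddCircle) (n : ℕ) (z : YY κ) :
    (SS α C)^[n] z = (z.1 + n • α, z.2 + ph α C n z.1) := by
  induction n with
  | zero => simp [ph]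
  | succ n ih =>
    rw [Function.iterate_succ_apply', ih]
    unfold SS ph
    simp only
    rw [sum_range_succ, succ_nsmul]
    ext <;> simp [add_assoc]

private theorem bs_pres (C : TX κ → UnitAddCircle) (hC : Continuous C) : MeasurePreserving (SS α C) (mY κ) (mY κ) := by
  have h1 : MeasurePreserving (fun t : TX κ => t + α) (mX κ) (mX κ) := measurePreserving_add_right _ _
  have h2 := MeasurePreserving.skew_product (μc := (AddCircle.haarAddCircle : Measure UnitAddCircle))
    (μd := (AddCircle.haarAddCircle : Measure UnitAddCircle)) (g := fun t y => y + C t) h1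
    (by
      unfold Function.uncurry
      exact measurable_snd.add (hC.measurable.comp measurable_fst))
    (Eventually.of_forall fun t => (measurePreserving_add_right _ (C t)).map_eq)
  exact h2

private theorem bs_ecm : Measurable ec := FT.continuous_ec.measurable

theorem bsum_res (hα : Irr α) (A : TX κ → UnitAddCircle) (hA : Measurable A) (G : TX κ → ℂ) (hG : Measurable G) (c : ℝ)
    (hc : ∀ t, ‖G t‖ ≤ c) :
    Tendsto (fun M : ℕ => ∫ t, ‖(1 / (M : ℂ)) * ∑ m ∈ range M, G (t + m • α) * ec (A (t + m • α) - A t)‖ ∂mX κ) atTop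
      (𝓝 ‖∫ t, G t * ec (A t) ∂mX κ‖) := by
  have hE := hα.ergodic
  have hT : MeasurePreserving (fun t : TX κ => t + α) (mX κ) (mX κ) := hE.toMeasurePreserving
  set F : TX κ → ℂ := fun t => G t * ec (A t) with hF
  have hFm : Measurable F := hG.mul (bs_ecm.comp hA)
  have hFb : ∀ t, ‖F t‖ ≤ c := fun t => by
    rw [hF]
    simp only
    rw [norm_mul, FT.norm_ec, mul_one]
    exact hc t
  have hF2 : MemLp F 2 (mX κ) := MemLp.of_bound hFm.aestronglyMeasurable c (Eventually.of_forall hFb)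
  have hFi : Integrable F (mX κ) := hF2.integrable (by norm_num)
  obtain ⟨P, hP2, hPT, hlim⟩ := bs_merg hT F hF2
  have hPi : Integrable P (mX κ) := hP2.integrable (by norm_num)
  obtain ⟨c0, hc0⟩ := hE.ae_eq_const_of_ae_eq_comp_ae hP2.1 hPT
  have hmi : ∀ m : ℕ, Integrable (fun t : TX κ => F (t + m • α)) (mX κ) := fun m =>
    (measurePreserving_add_right (mX κ) (m • α)).integrable_comp_of_integrable hFi
  have hmm : ∀ m : ℕ, ∫ t, F (t + m • α) ∂mX κ = ∫ t, F t ∂mX κ := fun m => integral_add_right_eq_self F _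
  set a : ℕ → TX κ → ℂ := fun M t => (1 / (M : ℂ)) * ∑ m ∈ range M, F (t + m • α) with ha
  have hai : ∀ M, Integrable (a M) (mX κ) := fun M => (integrable_finsetSum _ fun m _ => hmi m).const_mul _
  have haint : ∀ M : ℕ, 0 < M → ∫ t, a M t ∂mX κ = ∫ t, F t ∂mX κ := by
    intro M hM
    rw [ha]
    simp only
    rw [integral_const_mul, integral_finsetSum _ fun m _ => hmi m]
    simp only [hmm, sum_const, card_range, nsmul_eq_mul]
    have : (M : ℂ) ≠ 0 := by exact_mod_cast hM.ne'
    field_simp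
  have hlim' : Tendsto (fun M : ℕ => ∫ t, ‖a M t - c0‖ ∂mX κ) atTop (𝓝 0) := by
    refine hlim.congr fun M => integral_congr_ae ?_
    filter_upwards [hc0] with t ht
    rw [ht]
    simp only [bs_rot, ha, Function.const_apply]
  have hc1 : c0 = ∫ t, F t ∂mX κ := by
    have h1 : Tendsto (fun M : ℕ => ‖(∫ t, F t ∂mX κ) - c0‖) atTop (𝓝 0) := by
      refine squeeze_zero' (Eventually.of_forall fun M => norm_nonneg _) ?_ hlim'
      filter_upwards [eventually_gt_atTop 0] with M hM
      rw [← haint M hM]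
      have h2 : ∫ t, (a M t - c0) ∂mX κ = (∫ t, a M t ∂mX κ) - c0 := by
        rw [integral_sub (hai M) (integrable_const _), integral_const]
        simp
      rw [← h2]
      exact norm_integral_le_integral_norm _
    have h2 := tendsto_nhds_unique h1 tendsto_const_nhds
    exact (sub_eq_zero.mp (norm_eq_zero.mp h2.symm)).symm
  rw [← hc1]
  rw [tendsto_iff_norm_sub_tendsto_zero]
  refine squeeze_zero (fun M => norm_nonneg _) (fun M => ?_) hlim'
  have e1 : ∀ t, ‖(1 / (M : ℂ)) * ∑ m ∈ range M, G (t + m • α) * ec (A (t + m • α) - A t)‖ = ‖a M t‖ := by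
    intro t
    have e2 : (1 / (M : ℂ)) * ∑ m ∈ range M, G (t + m • α) * ec (A (t + m • α) - A t) = a M t * ec (-A t) := by
      rw [ha]
      simp only
      rw [mul_assoc, sum_mul]
      congr 1
      refine sum_congr rfl fun m _ => ?_
      rw [hF]
      simp only
      rw [sub_eq_add_neg, FT.ec_add, mul_assoc]
    rw [e2, norm_mul, FT.norm_ec, mul_one]
  simp only [e1]
  have e3 : (∫ t, ‖a M t‖ ∂mX κ) - ‖c0‖ = ∫ t, (‖a M t‖ - ‖c0‖) ∂mX κ := by
    rw [integral_sub (hai M).norm (integrable_const _), integral_const]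
    simp
  rw [e3]
  refine (norm_integral_le_integral_norm _).trans ?_
  refine integral_mono ?_ ?_ fun t => ?_
  · exact ((hai M).norm.sub (integrable_const _)).norm
  · exact ((hai M).sub (integrable_const _)).norm
  · simp only
    exact abs_norm_sub_norm_le _ _

theorem bsum_none (hα : Irr α) (C : TX κ → UnitAddCircle) (hC : Continuous C) (hno : ∀ A, ¬ Sol α C A) (G : TX κ → ℂ)
    (hG : Measurable G) (c : ℝ) (hc : ∀ t, ‖G t‖ ≤ c) :
    Tendsto (fun M : ℕ => ∫ t, ‖(1 / (M : ℂ)) * ∑ m ∈ range M, G (t + m • α) * ec (ph α C m t)‖ ∂mX κ) atTop (𝓝 0) := by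
  set F : YY κ → ℂ := fun z => G z.1 * ec z.2 with hF
  have hFm : Measurable F := (hG.comp measurable_fst).mul (bs_ecm.comp measurable_snd)
  have hFb : ∀ z, ‖F z‖ ≤ c := fun z => by
    rw [hF]
    simp only
    rw [norm_mul, FT.norm_ec, mul_one]
    exact hc z.1
  have hF2 : MemLp F 2 (mY κ) := MemLp.of_bound hFm.aestronglyMeasurable c (Eventually.of_forall hFb)
  obtain ⟨P, hP2, hPT, hlim⟩ := bs_merg (bs_pres (α := α) C hC) F hF2
  have hPi : Integrable P (mY κ) := hP2.integrable (by norm_num)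
  have hPi' : Integrable P ((mX κ).prod AddCircle.haarAddCircle) := hPi
  set B : ℕ → TX κ → ℂ := fun M t => (1 / (M : ℂ)) * ∑ m ∈ range M, G (t + m • α) * ec (ph α C m t) with hB
  have hphc : ∀ m : ℕ, Continuous (ph α C m) := fun m => by
    unfold ph
    exact continuous_finsetSum _ fun i _ => hC.comp (continuous_id.add continuous_const)
  have hBm : ∀ M, Measurable (B M) := fun M =>
    (Finset.measurable_fun_sum _ fun m _ => (hG.comp (measurable_id.add_const _)).mul
      (bs_ecm.comp (hphc m).measurable)).const_mul _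
  have hBb : ∀ M t, ‖B M t‖ ≤ c := by
    intro M t
    rw [hB]
    simp only
    rw [norm_mul]
    have h1 : ‖∑ m ∈ range M, G (t + m • α) * ec (ph α C m t)‖ ≤ M * c := by
      refine (norm_sum_le _ _).trans ?_
      refine (sum_le_sum (g := fun _ => c) fun m _ => ?_).trans ?_
      · rw [norm_mul, FT.norm_ec, mul_one]
        exact hc _
      · simp
    have hc' : 0 ≤ c := (norm_nonneg _).trans (hc t)
    rcases Nat.eq_zero_or_pos M with h0 | h0
    · subst h0
      simpa using hc'
    · have h2 : ‖(1 / (M : ℂ))‖ = 1 / (M : ℝ) := by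
        rw [norm_div, norm_one, Complex.norm_natCast]
      rw [h2]
      have h3 : (0 : ℝ) < M := by exact_mod_cast h0
      calc 1 / (M : ℝ) * ‖∑ m ∈ range M, G (t + m • α) * ec (ph α C m t)‖ ≤ 1 / (M : ℝ) * (M * c) :=
            mul_le_mul_of_nonneg_left h1 (by positivity)
        _ = c := by field_simp
  have hav : ∀ (M : ℕ) (z : YY κ), (1 / (M : ℂ)) * ∑ m ∈ range M, F ((SS α C)^[m] z) = B M z.1 * ec z.2 := by
    intro M z
    rw [hB]
    simp only
    rw [mul_assoc, sum_mul]
    congr 1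
    refine sum_congr rfl fun m _ => ?_
    rw [bs_ss, hF]
    simp only
    rw [FT.ec_add]
    ring
  simp only [hav] at hlim
  -- the Fourier coefficient of the limit
  set P0 : TX κ → ℂ := fun t => ∫ y, P (t, y) * conj (ec y) ∂AddCircle.haarAddCircle with hP0
  have hecc : Continuous fun y : UnitAddCircle => conj (ec y) := Complex.continuous_conj.comp FT.continuous_ec
  have hP0m : AEStronglyMeasurable P0 (mX κ) := by
    refine AEStronglyMeasurable.integral_prod_right' (f := fun z : YY κ => P z * conj (ec z.2)) ?_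
    exact hPi'.1.mul (hecc.comp continuous_snd).aestronglyMeasurable
  have hPT' : ∀ᵐ z ∂((mX κ).prod (AddCircle.haarAddCircle : Measure UnitAddCircle)), P (SS α C z) = P z := hPT
  have heq : ∀ᵐ t ∂mX κ, P0 (t + α) * ec (C t) = ec 0 * P0 t := by
    filter_upwards [Measure.ae_ae_of_ae_prod hPT'] with t ht
    rw [FT.ec_zero, one_mul]
    have h1 : P0 (t + α) = ∫ y, P (t + α, y + C t) * conj (ec (y + C t)) ∂AddCircle.haarAddCircle := by
      rw [hP0]
      exact (integral_add_right_eq_self (fun y => P (t + α, y) * conj (ec y)) (C t)).symm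
    have h2 : P0 (t + α) = ∫ y, P (t, y) * conj (ec y) * conj (ec (C t)) ∂AddCircle.haarAddCircle := by
      rw [h1]
      refine integral_congr_ae ?_
      filter_upwards [ht] with y hy
      have h3 : P (t + α, y + C t) = P (t, y) := hy
      rw [h3, FT.ec_add, map_mul, mul_assoc]
    rw [h2, integral_mul_const, mul_assoc]
    have h4 : conj (ec (C t)) * ec (C t) = 1 := by
      rw [mul_comm, Complex.mul_conj, Complex.normSq_eq_norm_sq, FT.norm_ec]
      norm_num
    rw [h4, mul_one]
  have hP00 : P0 =ᵐ[mX κ] 0 := by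
    by_contra hne
    obtain ⟨A, r, -, hA, -⟩ := arg_exists hα C 0 P0 hP0m heq hne
    exact hno A (by simpa only [sub_zero] using hA)
  refine squeeze_zero (fun M => integral_nonneg fun t => norm_nonneg _) (fun M => ?_) hlim
  have hint : Integrable (fun z : YY κ => B M z.1 * ec z.2 - P z) ((mX κ).prod AddCircle.haarAddCircle) := by
    refine Integrable.sub ?_ hPi'
    refine Integrable.of_bound (C := c) ?_ (Eventually.of_forall fun z => ?_)
    · exact (((hBm M).comp measurable_fst).mul (bs_ecm.comp measurable_snd)).aestronglyMeasurable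
    · rw [norm_mul, FT.norm_ec, mul_one]
      exact hBb M z.1
  have e1 : ∫ z, ‖B M z.1 * ec z.2 - P z‖ ∂mY κ =
      ∫ t, ∫ y, ‖B M t * ec y - P (t, y)‖ ∂AddCircle.haarAddCircle ∂mX κ := by
    unfold mY
    exact integral_prod _ hint.norm
  rw [e1]
  refine integral_mono_ae ?_ hint.norm.integral_prod_left ?_
  · exact (Integrable.of_bound (hBm M).aestronglyMeasurable c (Eventually.of_forall (hBb M))).norm
  · filter_upwards [hP00, hPi'.prod_right_ae] with t ht hti
    have h1 : B M t = ∫ y, (B M t * ec y - P (t, y)) * conj (ec y) ∂AddCircle.haarAddCircle := by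
      have h2 : ∀ y, (B M t * ec y - P (t, y)) * conj (ec y) = B M t - P (t, y) * conj (ec y) := by
        intro y
        have h4 : ec y * conj (ec y) = 1 := by
          rw [Complex.mul_conj, Complex.normSq_eq_norm_sq, FT.norm_ec]
          norm_num
        rw [sub_mul, mul_assoc, h4, mul_one]
      simp only [h2]
      rw [integral_sub (integrable_const _), integral_const]
      · have h5 : ∫ y, P (t, y) * conj (ec y) ∂AddCircle.haarAddCircle = 0 := ht
        rw [h5]
        simp
      · refine hti.mul_bdd (c := 1) hecc.aestronglyMeasurable (Eventually.of_forall fun y => ?_)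
        rw [RCLike.norm_conj, FT.norm_ec]
    calc ‖B M t‖ = ‖∫ y, (B M t * ec y - P (t, y)) * conj (ec y) ∂AddCircle.haarAddCircle‖ := by rw [← h1]
      _ ≤ ∫ y, ‖(B M t * ec y - P (t, y)) * conj (ec y)‖ ∂AddCircle.haarAddCircle := norm_integral_le_integral_norm _
      _ = ∫ y, ‖B M t * ec y - P (t, y)‖ ∂AddCircle.haarAddCircle := by
        refine integral_congr_ae (Eventually.of_forall fun y => ?_)
        simp only
        rw [norm_mul, RCLike.norm_conj, FT.norm_ec, mul_one]

end base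

end Pool.Agent.Lib.MP_9fe581_an.TW
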