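import Pool.Agent.Lib.MP_9fe581_an.TW.Defs
import Pool.Agent.Lib.MP_9fe581_an.HT.Char

/-!
# TW / TMarg (row P1): the parameter of the base coset is Haar distributed
-/

set_option autoImplicit false
set_option linter.unusedSectionVars false
set_option linter.unusedVariables false

open Finset MeasureTheory Filter Topology
open scoped ComplexConjugate Matrix

namespace Pool.Agent.Lib.MP_9fe581_an.TW

open Pool.Agent.Lib.MP_9fe581_an.HT (TX mX ch ptq)
open Pool.Agent.Lib.MP_9fe581_an.FT (ec)

section base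

variable {κ : Type} [Fintype κ] [DecidableEq κ] {α : TX κ} {φ : TX κ → UnitAddCircle}

/-- the parameter of a point of the base coset -/
def tpar (x0 : TX κ) (a b : ℤ) (z : YY κ × YY κ) : TX κ := a • (z.1.1 - x0) + b • (z.2.1 - x0)

private theorem p1_iter (n : ℕ) (z : YY κ) : ((SS α φ)^[n] z).1 = z.1 + n • α := by
  induction n with
  | zero => simp
  | succ n ih =>
    rw [Function.iterate_succ', Function.comp_apply]
    show ((SS α φ)^[n] z).1 + α = _
    rw [ih, succ_nsmul, add_assoc]

private theorem p1_unique (hα : Irr α) (ν : Measure (TX κ)) [IsProbabilityMeasure ν]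
    (h : MeasurePreserving (fun t => t + α) ν ν) : ν = mX κ := by
  refine HT.ch_ext ν (mX κ) fun m => ?_
  rw [HT.ch_int]
  split_ifs with hm
  · subst hm
    simp only [HT.ch_zero]
    simp
  · have h1 : ∫ t, ch m t ∂ν = (∫ t, ch m t ∂ν) * ch m α := by
      have h2 : AEStronglyMeasurable (ch m) (Measure.map (fun t => t + α) ν) := (HT.ch_cont m).aestronglyMeasurable
      have h3 := integral_map h.measurable.aemeasurable h2
      rw [h.map_eq] at h3
      calc ∫ t, ch m t ∂ν = ∫ t, ch m (t + α) ∂ν := h3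
        _ = ∫ t, ch m t * ch m α ∂ν := by simp only [HT.ch_add_right]
        _ = _ := integral_mul_const _ _
    have h4 : (∫ t, ch m t ∂ν) * (ch m α - 1) = 0 := by
      rw [mul_sub, mul_one, ← h1, sub_self]
    rcases mul_eq_zero.mp h4 with h5 | h5
    · exact h5
    · exact absurd (sub_eq_zero.mp h5) (hα m hm)

private theorem p1_meas (x0 : TX κ) (a b : ℤ) : Measurable (tpar x0 a b) := by
  have h1 : ∀ c : ℤ, Continuous fun x : TX κ => c • (x - x0) := fun c =>
    (continuous_zsmul c).comp (continuous_id.sub continuous_const)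
  exact ((h1 a).measurable.comp (measurable_fst.comp measurable_fst)).add
    ((h1 b).measurable.comp (measurable_fst.comp measurable_snd))

private theorem p1_comb {M : Type} [AddCommGroup M] (p q : ℕ) (a b : ℤ) (hab : a * p + b * q = 1) (v : M) :
    v = a • (p • v) + b • (q • v) := by
  calc v = (1 : ℤ) • v := (one_zsmul v).symm
    _ = (a * p + b * q) • v := by rw [hab]
    _ = (a * p) • v + (b * q) • v := add_zsmul _ _ _
    _ = _ := by rw [mul_zsmul v a (p : ℤ), mul_zsmul v b (q : ℤ), natCast_zsmul, natCast_zsmul]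

theorem tmarg (hα : Irr α) (hφ : Continuous φ) {p q : ℕ} (a b : ℤ) (hab : a * p + b * q = 1) (x0 : TX κ)
    (ρ : Measure (YY κ × YY κ)) [IsProbabilityMeasure ρ]
    (hρ : MeasurePreserving (Prod.map (SS α φ)^[p] (SS α φ)^[q]) ρ ρ) : Measure.map (tpar x0 a b) ρ = mX κ := by
  have hc : Measurable (tpar x0 a b) := p1_meas x0 a b
  have : IsProbabilityMeasure (Measure.map (tpar x0 a b) ρ) := Measure.isProbabilityMeasure_map hc.aemeasurable
  have hm : MeasurePreserving (tpar x0 a b) ρ (Measure.map (tpar x0 a b) ρ) := ⟨hc, rfl⟩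
  refine p1_unique hα _ (hm.of_semiconj hρ (fun z => ?_) (measurable_add_const α))
  show tpar x0 a b ((SS α φ)^[p] z.1, (SS α φ)^[q] z.2) = tpar x0 a b z + α
  unfold tpar
  simp only [p1_iter]
  have e := p1_comb p q a b hab α
  calc a • (z.1.1 + p • α - x0) + b • (z.2.1 + q • α - x0)
      = a • (z.1.1 - x0) + b • (z.2.1 - x0) + (a • (p • α) + b • (q • α)) := by
        rw [add_sub_right_comm, add_sub_right_comm, smul_add, smul_add]
        abel
    _ = _ := by rw [← e]

theorem tpar_KK {p q : ℕ} (a b : ℤ) (hab : a * p + b * q = 1) (x0 : TX κ) (z : YY κ × YY κ) (hz : z ∈ KK x0 p q) :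
    z.1.1 = x0 + p • tpar x0 a b z ∧ z.2.1 = x0 + q • tpar x0 a b z := by
  have hz' : q • (z.1.1 - x0) = p • (z.2.1 - x0) := hz
  unfold tpar
  have h1 : p • (a • (z.1.1 - x0) + b • (z.2.1 - x0)) = z.1.1 - x0 := by
    rw [smul_add, smul_comm p a, smul_comm p b, ← hz', ← p1_comb p q a b hab]
  have h2 : q • (a • (z.1.1 - x0) + b • (z.2.1 - x0)) = z.2.1 - x0 := by
    rw [smul_add, smul_comm q a, smul_comm q b, hz', ← p1_comb p q a b hab]
  rw [h1, h2]
  exact ⟨(add_sub_cancel x0 z.1.1).symm, (add_sub_cancel x0 z.2.1).symm⟩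

end base

end Pool.Agent.Lib.MP_9fe581_an.TW
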