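import Pool.Agent.Lib.MP_9fe581_an.TW.Defs
import Pool.Agent.Lib.MP_9fe581_an.TW.Bsum
import Pool.Agent.Lib.MP_9fe581_an.TW.TMarg

/-! P2: couplings of the powers `p`, `q` supported on a base coset: product functions (`coup_res`, `coup_none`). -/

set_option autoImplicit false
set_option linter.unusedSectionVars false
set_option linter.unusedVariables false
set_option linter.style.haveILetI false

open Finset MeasureTheory Filter Topology
open scoped ComplexConjugate Matrix

namespace Pool.Agent.Lib.MP_9fe581_an.TW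

open Pool.Agent.Lib.MP_9fe581_an.HT (TX mX ch ptq)
open Pool.Agent.Lib.MP_9fe581_an.FT (ec)

section base

variable {κ : Type} [Fintype κ] [DecidableEq κ] {α : TX κ} {φ : TX κ → UnitAddCircle}

private theorem cu_ss (α : TX κ) (C : TX κ → UnitAddCircle) (n : ℕ) (z : YY κ) :
    (SS α C)^[n] z = (z.1 + n • α, z.2 + ph α C n z.1) := by
  induction n with
  | zero => simp [ph]
  | succ n ih =>
    rw [Function.iterate_succ_apply', ih]
    unfold SS ph
    simp only
    rw [sum_range_succ, succ_nsmul]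
    ext <;> simp [add_assoc]

private theorem cu_oms : OpensMeasurableSpace (YY κ × YY κ) := Prod.opensMeasurableSpace

private theorem cu_ph (α : TX κ) (φ : TX κ → UnitAddCircle) (p m : ℕ) (x : TX κ) :
    ph α φ (p * m) x = ∑ j ∈ range m, ph α φ p (x + (p * j) • α) := by
  induction m with
  | zero => simp [ph]
  | succ m ih =>
    rw [sum_range_succ, ← ih]
    unfold ph
    rw [Nat.mul_succ, sum_range_add]
    congr 1
    refine sum_congr rfl fun i _ => ?_
    rw [add_nsmul, add_assoc]

private theorem cu_rc (α : TX κ) (φ : TX κ → UnitAddCircle) (x0 : TX κ) (p q : ℕ) (k l : ℤ) (m : ℕ) (t : TX κ) :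
    ph α (rc α φ x0 p q k l) m t = k • ph α φ (p * m) (x0 + p • t) - l • ph α φ (q * m) (x0 + q • t) := by
  have h1 : ∀ (p j : ℕ), x0 + p • (t + j • α) = x0 + p • t + (p * j) • α := by
    intro p j
    rw [smul_add, smul_smul, add_assoc]
  rw [cu_ph, cu_ph, smul_sum, smul_sum, ← sum_sub_distrib]
  unfold ph rc
  refine sum_congr rfl fun j _ => ?_
  rw [h1, h1]
  rfl

private theorem cu_sol {C A : TX κ → UnitAddCircle} (h : Sol α C A) :
    ∀ᵐ t ∂mX κ, ∀ m : ℕ, ph α C m t = A (t + m • α) - A t := by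
  have h1 : ∀ᵐ t ∂mX κ, ∀ m : ℕ, A (t + m • α + α) - A (t + m • α) = C (t + m • α) := by
    rw [ae_all_iff]
    intro m
    exact (measurePreserving_add_right (mX κ) (m • α)).quasiMeasurePreserving.ae h.2
  filter_upwards [h1] with t ht m
  unfold ph
  induction m with
  | zero => simp
  | succ m ih =>
    rw [sum_range_succ, ih, ← ht m, succ_nsmul, add_assoc]
    abel

/-- the main estimate -/
private theorem cu_main (hα : Irr α) (hφ : Continuous φ) {p q : ℕ} (hpq : p.Coprime q) (x0 : TX κ)
    (ρ : Measure (YY κ × YY κ)) [IsProbabilityMeasure ρ]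
    (hρ : MeasurePreserving (Prod.map (SS α φ)^[p] (SS α φ)^[q]) ρ ρ) (hK : ρ (KK x0 p q)ᶜ = 0) (f f' : TX κ → ℂ)
    (hf : Continuous f) (hf' : Continuous f') (k l : ℤ) (M : ℕ) (hM : 0 < M) :
    ‖∫ z, pf f k z.1 * conj (pf f' l z.2) ∂ρ‖ ≤
      ∫ t, ‖(1 / (M : ℂ)) * ∑ m ∈ range M, (fun t => f (x0 + p • t) * conj (f' (x0 + q • t))) (t + m • α) *
        ec (ph α (rc α φ x0 p q k l) m t)‖ ∂mX κ := by
  haveI : OpensMeasurableSpace (YY κ × YY κ) := cu_oms
  obtain ⟨a, b, hab⟩ := Nat.isCoprime_iff_coprime.mpr hpq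
  set G : TX κ → ℂ := fun t => f (x0 + p • t) * conj (f' (x0 + q • t)) with hG
  have hGc : Continuous G := (hf.comp (continuous_const.add (continuous_id.const_smul p))).mul
    (Complex.continuous_conj.comp (hf'.comp (continuous_const.add (continuous_id.const_smul q))))
  set S := Prod.map (SS α φ)^[p] (SS α φ)^[q] with hS
  set W : YY κ × YY κ → ℂ := fun z => pf f k z.1 * conj (pf f' l z.2) with hW
  have hpf : ∀ (f : TX κ → ℂ), Continuous f → ∀ k : ℤ, Continuous (pf f k) := fun f hf k =>
    (hf.comp continuous_fst).mul (FT.continuous_ec.comp (continuous_snd.zsmul k))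
  have hWc : Continuous W := ((hpf f hf k).comp continuous_fst).mul
    (Complex.continuous_conj.comp ((hpf f' hf' l).comp continuous_snd))
  have hphc : ∀ m : ℕ, Continuous (ph α (rc α φ x0 p q k l) m) := by
    have h0 : ∀ (φ : TX κ → UnitAddCircle), Continuous φ → ∀ n : ℕ, Continuous (ph α φ n) := fun φ hφ n => by
      unfold ph
      exact continuous_finsetSum _ fun i _ => hφ.comp (continuous_id.add continuous_const)
    have h1 : Continuous (rc α φ x0 p q k l) := by
      unfold rc
      exact (((h0 φ hφ p).comp (continuous_const.add (continuous_id.const_smul p))).zsmul k).sub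
        (((h0 φ hφ q).comp (continuous_const.add (continuous_id.const_smul q))).zsmul l)
    exact h0 _ h1
  have htc : Continuous (tpar x0 a b : YY κ × YY κ → TX κ) := by
    unfold tpar
    exact (((continuous_fst.comp continuous_fst).sub continuous_const).zsmul a).add
      (((continuous_fst.comp continuous_snd).sub continuous_const).zsmul b)
  -- the integrand after m steps
  have hstep : ∀ (m : ℕ) (z : YY κ × YY κ), z ∈ KK x0 p q →
      W (S^[m] z) = G (tpar x0 a b z + m • α) * ec (ph α (rc α φ x0 p q k l) m (tpar x0 a b z)) *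
        ec (k • z.1.2 - l • z.2.2) := by
    intro m z hz
    obtain ⟨h1, h2⟩ := tpar_KK a b hab x0 z hz
    have h3 : S^[m] z = ((SS α φ)^[p * m] z.1, (SS α φ)^[q * m] z.2) := by
      rw [hS, Prod.map_iterate, Function.iterate_mul, Function.iterate_mul]
      rfl
    rw [h3, hW]
    simp only
    unfold pf
    rw [cu_ss, cu_ss, cu_rc, hG]
    simp only
    have h4 : ∀ (p : ℕ) (x : TX κ), x0 + p • (x + m • α) = x0 + p • x + (p * m) • α := by
      intro p x
      rw [smul_add, smul_smul, add_assoc]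
    rw [h4, h4, ← h1, ← h2]
    have h5 : k • ph α φ (p * m) z.1.1 - l • ph α φ (q * m) z.2.1 =
      k • ph α φ (p * m) z.1.1 + -(l • ph α φ (q * m) z.2.1) := sub_eq_add_neg _ _
    have h6 : k • z.1.2 - l • z.2.2 = k • z.1.2 + -(l • z.2.2) := sub_eq_add_neg _ _
    rw [h5, h6, smul_add, smul_add, FT.ec_add, FT.ec_add, FT.ec_add, FT.ec_add, FT.ec_neg, FT.ec_neg, map_mul, map_mul]
    ring
  have hae : ∀ᵐ z ∂ρ, z ∈ KK x0 p q := hK
  set B : TX κ → ℂ := fun t => (1 / (M : ℂ)) * ∑ m ∈ range M, G (t + m • α) * ec (ph α (rc α φ x0 p q k l) m t) with hB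
  have hBc : Continuous B := continuous_const.mul (continuous_finsetSum _ fun m _ =>
    (hGc.comp (continuous_id.add continuous_const)).mul (FT.continuous_ec.comp (hphc m)))
  have hWi : ∀ m : ℕ, ∫ z, W z ∂ρ = ∫ z, W (S^[m] z) ∂ρ := by
    intro m
    have h2 := integral_map (μ := ρ) (hρ.iterate m).measurable.aemeasurable (f := W)
      (by rw [(hρ.iterate m).map_eq]; exact hWc.aestronglyMeasurable)
    rw [(hρ.iterate m).map_eq] at h2
    exact h2
  have hcomp : ∀ g : YY κ × YY κ → ℂ, Continuous g → Integrable g ρ := fun g hg =>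
    hg.integrable_of_hasCompactSupport (HasCompactSupport.of_compactSpace g)
  have hterm : ∀ m : ℕ, Integrable (fun z : YY κ × YY κ => G (tpar x0 a b z + m • α) *
      ec (ph α (rc α φ x0 p q k l) m (tpar x0 a b z)) * ec (k • z.1.2 - l • z.2.2)) ρ := fun m => by
    refine hcomp _ ?_
    exact ((hGc.comp (htc.add continuous_const)).mul (FT.continuous_ec.comp ((hphc m).comp htc))).mul
      (FT.continuous_ec.comp (((continuous_snd.comp continuous_fst).zsmul k).sub
        ((continuous_snd.comp continuous_snd).zsmul l)))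
  have hI : ∫ z, W z ∂ρ = ∫ z, B (tpar x0 a b z) * ec (k • z.1.2 - l • z.2.2) ∂ρ := by
    have h1 : ∀ z : YY κ × YY κ, B (tpar x0 a b z) * ec (k • z.1.2 - l • z.2.2) = (1 / (M : ℂ)) * ∑ m ∈ range M,
        G (tpar x0 a b z + m • α) * ec (ph α (rc α φ x0 p q k l) m (tpar x0 a b z)) * ec (k • z.1.2 - l • z.2.2) := by
      intro z
      rw [hB]
      simp only
      rw [mul_assoc, sum_mul]
    simp only [h1]
    rw [integral_const_mul, integral_finsetSum _ fun m _ => hterm m]
    have h2 : ∀ m : ℕ, ∫ z, G (tpar x0 a b z + m • α) * ec (ph α (rc α φ x0 p q k l) m (tpar x0 a b z)) *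
        ec (k • z.1.2 - l • z.2.2) ∂ρ = ∫ z, W z ∂ρ := by
      intro m
      rw [hWi m]
      refine integral_congr_ae ?_
      filter_upwards [hae] with z hz
      exact (hstep m z hz).symm
    simp only [h2, sum_const, card_range, nsmul_eq_mul]
    have : (M : ℂ) ≠ 0 := by exact_mod_cast hM.ne'
    field_simp
  rw [hI]
  refine (norm_integral_le_integral_norm _).trans ?_
  have h1 : ∀ z : YY κ × YY κ, ‖B (tpar x0 a b z) * ec (k • z.1.2 - l • z.2.2)‖ = ‖B (tpar x0 a b z)‖ := by
    intro z
    rw [norm_mul, FT.norm_ec, mul_one]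
  simp only [h1]
  have h2 := integral_map (μ := ρ) htc.measurable.aemeasurable (f := fun t => ‖B t‖) hBc.norm.aestronglyMeasurable
  rw [tmarg hα hφ a b hab x0 ρ hρ] at h2
  rw [← h2]

theorem coup_res (hα : Irr α) (hφ : Continuous φ) {p q : ℕ} (hp : 0 < p) (hq : 0 < q) (hpq : p.Coprime q) (x0 : TX κ)
    (ρ : Measure (YY κ × YY κ)) [IsProbabilityMeasure ρ]
    (hρ : MeasurePreserving (Prod.map (SS α φ)^[p] (SS α φ)^[q]) ρ ρ) (hK : ρ (KK x0 p q)ᶜ = 0) (f f' : TX κ → ℂ)
    (hf : Continuous f) (hf' : Continuous f') (k l : ℤ) (A : TX κ → UnitAddCircle) (hA : ResF α φ x0 p q k l A) :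
    ‖∫ z, pf f k z.1 * conj (pf f' l z.2) ∂ρ‖ ≤ ‖∫ t, f (x0 + p • t) * conj (f' (x0 + q • t)) * ec (A t) ∂mX κ‖ := by
  set G : TX κ → ℂ := fun t => f (x0 + p • t) * conj (f' (x0 + q • t)) with hG
  have hGc : Continuous G := (hf.comp (continuous_const.add (continuous_id.const_smul p))).mul
    (Complex.continuous_conj.comp (hf'.comp (continuous_const.add (continuous_id.const_smul q))))
  obtain ⟨c, hc⟩ := (isCompact_range hGc).isBounded.exists_norm_le
  have hc' : ∀ t, ‖G t‖ ≤ c := fun t => hc _ ⟨t, rfl⟩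
  have h1 := bsum_res hα A hA.1 G hGc.measurable c hc'
  refine ge_of_tendsto h1 ?_
  filter_upwards [eventually_gt_atTop 0] with M hM
  refine (cu_main hα hφ hpq x0 ρ hρ hK f f' hf hf' k l M hM).trans (le_of_eq ?_)
  refine integral_congr_ae ?_
  filter_upwards [cu_sol hA] with t ht
  simp only [ht]
  rfl

theorem coup_none (hα : Irr α) (hφ : Continuous φ) {p q : ℕ} (hp : 0 < p) (hq : 0 < q) (hpq : p.Coprime q) (x0 : TX κ)
    (ρ : Measure (YY κ × YY κ)) [IsProbabilityMeasure ρ]
    (hρ : MeasurePreserving (Prod.map (SS α φ)^[p] (SS α φ)^[q]) ρ ρ) (hK : ρ (KK x0 p q)ᶜ = 0) (f f' : TX κ → ℂ)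
    (hf : Continuous f) (hf' : Continuous f') (k l : ℤ) (hno : ∀ A, ¬ ResF α φ x0 p q k l A) :
    ∫ z, pf f k z.1 * conj (pf f' l z.2) ∂ρ = 0 := by
  set G : TX κ → ℂ := fun t => f (x0 + p • t) * conj (f' (x0 + q • t)) with hG
  have hGc : Continuous G := (hf.comp (continuous_const.add (continuous_id.const_smul p))).mul
    (Complex.continuous_conj.comp (hf'.comp (continuous_const.add (continuous_id.const_smul q))))
  obtain ⟨c, hc⟩ := (isCompact_range hGc).isBounded.exists_norm_le
  have hc' : ∀ t, ‖G t‖ ≤ c := fun t => hc _ ⟨t, rfl⟩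
  have hrc : Continuous (rc α φ x0 p q k l) := by
    have h0 : ∀ n : ℕ, Continuous (ph α φ n) := fun n => by
      unfold ph
      exact continuous_finsetSum _ fun i _ => hφ.comp (continuous_id.add continuous_const)
    unfold rc
    exact (((h0 p).comp (continuous_const.add (continuous_id.const_smul p))).zsmul k).sub
      (((h0 q).comp (continuous_const.add (continuous_id.const_smul q))).zsmul l)
  have h1 := bsum_none hα (rc α φ x0 p q k l) hrc hno G hGc.measurable c hc'
  have h2 : ‖∫ z, pf f k z.1 * conj (pf f' l z.2) ∂ρ‖ ≤ 0 := by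
    refine ge_of_tendsto h1 ?_
    filter_upwards [eventually_gt_atTop 0] with M hM
    exact cu_main hα hφ hpq x0 ρ hρ hK f f' hf hf' k l M hM
  exact norm_le_zero_iff.mp h2

end base

end Pool.Agent.Lib.MP_9fe581_an.TW
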