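import Pool.Agent.Lib.MP_9fe581_an.TW.Bd
import Pool.Agent.Lib.MP_9fe581_an.TW.Coup
import Pool.Agent.Lib.MP_9fe581_an.TW.Bridge

/-! TW, row P4: the sieve for finite sums of product functions. -/

set_option autoImplicit false
set_option linter.unusedSectionVars false

open Finset MeasureTheory Filter Topology
open scoped ComplexConjugate Matrix

namespace Pool.Agent.Lib.MP_9fe581_an.TW

open Pool.Agent.Lib.MP_9fe581_an.HT (TX mX ch ptq)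
open Pool.Agent.Lib.MP_9fe581_an.FT (ec)

section cnt

open Classical in
private theorem sum_ite_le {τ : Type*} (A : Finset τ) (R : τ → Prop) (x : ℝ) (hx : 0 ≤ x)
    (h : ∀ a b, R a → R b → a = b) : ∑ a ∈ A, (if R a then x else 0) ≤ x := by
  rw [← Finset.sum_filter, Finset.sum_const, nsmul_eq_mul]
  have h1 : (A.filter R).card ≤ 1 := by
    rw [Finset.card_le_one]
    intro a ha b hb
    exact h a b (Finset.mem_filter.mp ha).2 (Finset.mem_filter.mp hb).2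
  calc ((A.filter R).card : ℝ) * x ≤ 1 * x := by
        refine mul_le_mul_of_nonneg_right ?_ hx
        exact_mod_cast h1
    _ = x := one_mul x

open Classical in
private theorem count {τ : Type*} (A : Finset τ) (R : τ → τ → Prop) (x y : τ → ℝ) (hx : ∀ k, 0 ≤ x k) (hy : ∀ k, 0 ≤ y k)
    (hr : ∀ k l l', R k l → R k l' → l = l') (hl : ∀ k k' l, R k l → R k' l → k = k') :
    ∑ k ∈ A, ∑ l ∈ A, (if R k l then (x k + y l) / 2 else 0) ≤ (∑ k ∈ A, x k + ∑ l ∈ A, y l) / 2 := by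
  have e1 : ∑ k ∈ A, ∑ l ∈ A, (if R k l then (x k + y l) / 2 else 0) =
      (∑ k ∈ A, ∑ l ∈ A, (if R k l then x k else 0)) / 2 + (∑ l ∈ A, ∑ k ∈ A, (if R k l then y l else 0)) / 2 := by
    rw [Finset.sum_comm (s := A) (t := A) (f := fun l k => if R k l then y l else 0), ← add_div, ← Finset.sum_add_distrib,
      Finset.sum_div]
    refine Finset.sum_congr rfl fun k _ => ?_
    rw [← Finset.sum_add_distrib, Finset.sum_div]
    refine Finset.sum_congr rfl fun l _ => ?_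
    split_ifs <;> simp
  have b1 : ∑ k ∈ A, ∑ l ∈ A, (if R k l then x k else 0) ≤ ∑ k ∈ A, x k :=
    Finset.sum_le_sum fun k _ => sum_ite_le A (R k) _ (hx k) fun a b ha hb => hr k a b ha hb
  have b2 : ∑ l ∈ A, ∑ k ∈ A, (if R k l then y l else 0) ≤ ∑ l ∈ A, y l :=
    Finset.sum_le_sum fun l _ => sum_ite_le A (fun k => R k l) _ (hy l) fun a b ha hb => hl a b l ha hb
  rw [e1]
  linarith

end cnt

variable {κ : Type} [Fintype κ] [DecidableEq κ] {α : TX κ} {φ : TX κ → UnitAddCircle}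

private theorem pf_meas {f : TX κ → ℂ} (hf : Continuous f) (k : ℤ) : Measurable (pf f k) := by
  unfold pf
  have h1 : Measurable fun y : UnitAddCircle => ec (k • y) :=
    (FT.continuous_ec.comp (continuous_id.zsmul k)).measurable
  exact (hf.measurable.comp measurable_fst).mul (h1.comp measurable_snd)

private theorem pf_bdd {f : TX κ → ℂ} (hf : Continuous f) (k : ℤ) : ∃ c, ∀ z, ‖pf f k z‖ ≤ c := by
  obtain ⟨c, hc⟩ := isCompact_univ.exists_bound_of_continuousOn hf.continuousOn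
  refine ⟨c, fun z => ?_⟩
  unfold pf
  rw [norm_mul, FT.norm_ec, mul_one]
  exact hc _ (Set.mem_univ _)

private theorem pf_int (ρ : Measure (YY κ × YY κ)) [IsProbabilityMeasure ρ] {f f' : TX κ → ℂ} (hf : Continuous f)
    (hf' : Continuous f') (k l : ℤ) : Integrable (fun z => pf f k z.1 * conj (pf f' l z.2)) ρ := by
  obtain ⟨c, hc⟩ := pf_bdd hf k
  obtain ⟨c', hc'⟩ := pf_bdd hf' l
  refine Integrable.of_bound (((pf_meas hf k).comp measurable_fst).mul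
    (Complex.continuous_conj.measurable.comp ((pf_meas hf' l).comp measurable_snd))).aestronglyMeasurable (c * c')
    (ae_of_all _ fun z => ?_)
  rw [norm_mul, RCLike.norm_conj]
  exact mul_le_mul (hc _) (hc' _) (norm_nonneg _) ((norm_nonneg _).trans (hc z.1))

private theorem expand (ρ : Measure (YY κ × YY κ)) [IsProbabilityMeasure ρ] (R : Finset ℤ) (a b : ℤ → TX κ → ℂ)
    (ha : ∀ k, Continuous (a k)) (hb : ∀ k, Continuous (b k)) :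
    ∫ z, (∑ k ∈ R, pf (a k) k z.1) * conj (∑ k ∈ R, pf (b k) k z.2) ∂ρ =
      ∑ k ∈ R, ∑ l ∈ R, ∫ z, pf (a k) k z.1 * conj (pf (b l) l z.2) ∂ρ := by
  have h1 : ∀ z : YY κ × YY κ, (∑ k ∈ R, pf (a k) k z.1) * conj (∑ k ∈ R, pf (b k) k z.2) =
      ∑ k ∈ R, ∑ l ∈ R, pf (a k) k z.1 * conj (pf (b l) l z.2) := fun z => by
    rw [map_sum, Finset.sum_mul_sum]
  simp_rw [h1]
  rw [integral_finsetSum _ fun k _ => integrable_finsetSum _ fun l _ => pf_int ρ (ha k) (hb l) k l]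
  exact Finset.sum_congr rfl fun k _ => integral_finsetSum _ fun l _ => pf_int ρ (ha k) (hb l) k l

/-- the right side for the pair `p, q` -/
private noncomputable def WW (q : ℕ) (g : ℤ) (h : TX κ → TX κ → UnitAddCircle) (R : Finset ℤ) (f : ℤ → TX κ → ℂ) : ℝ :=
  ∫ x, ‖Eo q h 0 (fun x => f 0 x - ∫ y, f 0 y ∂mX κ) x‖ ^ 2 ∂mX κ +
    ∑ k ∈ (R.erase 0).filter (fun k => g ∣ k), ∫ x, ‖Eo q h (k / g) (f k) x‖ ^ 2 ∂mX κ +
    ∑ k ∈ (R.erase 0).filter (fun k => (q : ℤ) ∣ k), ∫ x, ‖f k x‖ ^ 2 ∂mX κ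

private theorem WW_nonneg (q : ℕ) (g : ℤ) (h : TX κ → TX κ → UnitAddCircle) (R : Finset ℤ) (f : ℤ → TX κ → ℂ) :
    0 ≤ WW q g h R f := by
  unfold WW
  refine add_nonneg (add_nonneg (integral_nonneg fun x => sq_nonneg _) (Finset.sum_nonneg fun k _ => ?_))
    (Finset.sum_nonneg fun k _ => ?_)
  · exact integral_nonneg fun x => sq_nonneg _
  · exact integral_nonneg fun x => sq_nonneg _

/-- the weight of the module `k` -/
private noncomputable def ww (q : ℕ) (g : ℤ) (h : TX κ → TX κ → UnitAddCircle) (f : ℤ → TX κ → ℂ) (k : ℤ) : ℝ :=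
  if (q : ℤ) ∣ k then ∫ x, ‖f k x‖ ^ 2 ∂mX κ else if g ∣ k then ∫ x, ‖Eo q h (k / g) (f k) x‖ ^ 2 ∂mX κ else 0

private theorem ww_nonneg (q : ℕ) (g : ℤ) (h : TX κ → TX κ → UnitAddCircle) (f : ℤ → TX κ → ℂ) (k : ℤ) :
    0 ≤ ww q g h f k := by
  unfold ww
  split_ifs
  · exact integral_nonneg fun x => sq_nonneg _
  · exact integral_nonneg fun x => sq_nonneg _
  · exact le_rfl

private theorem ww_le (q : ℕ) (g : ℤ) (h : TX κ → TX κ → UnitAddCircle) (R : Finset ℤ) (f : ℤ → TX κ → ℂ) :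
    ∫ x, ‖Eo q h 0 (fun x => f 0 x - ∫ y, f 0 y ∂mX κ) x‖ ^ 2 ∂mX κ + ∑ k ∈ R.erase 0, ww q g h f k ≤ WW q g h R f := by
  unfold WW
  rw [add_assoc, Finset.sum_filter, Finset.sum_filter, ← Finset.sum_add_distrib]
  refine add_le_add le_rfl (Finset.sum_le_sum fun k _ => ?_)
  have h1 : 0 ≤ ∫ x, ‖f k x‖ ^ 2 ∂mX κ := integral_nonneg fun x => sq_nonneg _
  have h2 : 0 ≤ ∫ x, ‖Eo q h (k / g) (f k) x‖ ^ 2 ∂mX κ := integral_nonneg fun x => sq_nonneg _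
  unfold ww
  split_ifs <;> linarith

open Classical in
private theorem pair_le (hα : Irr α) (hφ : Continuous φ) (hE : ErgF α φ) (x0 : TX κ) {p q : ℕ} (hp : p.Prime) (hq : q.Prime)
    (hpq : p ≠ q) {g g' : ℤ} {h h' : TX κ → TX κ → UnitAddCircle} (hG : Cov α φ x0 q g h) (hG' : Cov α φ x0 p g' h')
    (R : Finset ℤ) (h0 : (0 : ℤ) ∈ R) (a b : ℤ → TX κ → ℂ) (ha : ∀ k, Continuous (a k)) (hb : ∀ k, Continuous (b k))
    (ρ : Measure (YY κ × YY κ)) [IsProbabilityMeasure ρ]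
    (hρ : MeasurePreserving (Prod.map (SS α φ)^[p] (SS α φ)^[q]) ρ ρ) (hK : ρ (KK x0 p q)ᶜ = 0) :
    (∫ z, (∑ k ∈ R, pf (a k) k z.1) * conj (∑ k ∈ R, pf (b k) k z.2) ∂ρ).re ≤
      ((∫ x, a 0 x ∂mX κ) * conj (∫ x, b 0 x ∂mX κ)).re + (WW q g h R a + WW p g' h' R b) / 2 := by
  have hco : p.Coprime q := (Nat.coprime_primes hp hq).mpr hpq
  set J : ℤ → ℤ → ℂ := fun k l => ∫ z, pf (a k) k z.1 * conj (pf (b l) l z.2) ∂ρ with hJ
  set S : ℤ → ℤ → Prop := fun k l => ∃ A, ResF α φ x0 p q k l A with hS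
  have hr : ∀ k l l', S k l → S k l' → l = l' := fun k l l' ⟨A, hA⟩ ⟨A', hA'⟩ => resF_uniq hα hφ hE hp.pos hq.pos hA hA'
  have hl : ∀ k k' l, S k l → S k' l → k = k' := fun k k' l ⟨A, hA⟩ ⟨A', hA'⟩ => resF_uniq' hα hφ hE hp.pos hq.pos hA hA'
  have h00 : S 0 0 := ⟨_, resF_zero α φ x0 p q⟩
  have hJ0 : ∀ k l, ¬ S k l → J k l = 0 := fun k l hkl =>
    coup_none hα hφ hp.pos hq.pos hco x0 ρ hρ hK (a k) (b l) (ha k) (hb l) k l fun A hA => hkl ⟨A, hA⟩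
  have hJ1 : ∀ k l, k ≠ 0 → l ≠ 0 → S k l → (J k l).re ≤ (ww q g h a k + ww p g' h' b l) / 2 := by
    rintro k l hk hl ⟨A, hA⟩
    refine (Complex.re_le_norm _).trans ?_
    exact (coup_res hα hφ hp.pos hq.pos hco x0 ρ hρ hK (a k) (b l) (ha k) (hb l) k l A hA).trans
      (pair_bd hα hφ hp hq hpq x0 hG hG' hA hk hl (a k) (b l) (ha k) (hb l))
  have e1 : ∑ k ∈ R, ∑ l ∈ R, J k l = J 0 0 + ∑ k ∈ R.erase 0, ∑ l ∈ R.erase 0, J k l := by
    rw [← Finset.insert_erase h0, Finset.sum_insert (Finset.notMem_erase _ _),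
      Finset.sum_insert (Finset.notMem_erase _ _), Finset.insert_erase h0]
    have a1 : ∑ l ∈ R.erase 0, J 0 l = 0 :=
      Finset.sum_eq_zero fun l hl' => hJ0 0 l fun hs => Finset.ne_of_mem_erase hl' (hr 0 l 0 hs h00)
    have a2 : ∀ k ∈ R.erase 0, ∑ l ∈ R, J k l = ∑ l ∈ R.erase 0, J k l := by
      intro k hk
      rw [← Finset.insert_erase h0, Finset.sum_insert (Finset.notMem_erase _ _), Finset.insert_erase h0,
        hJ0 k 0 fun hs => Finset.ne_of_mem_erase hk (hl k 0 0 hs h00), zero_add]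
    rw [a1, add_zero, Finset.sum_congr rfl a2]
  have e2 : (J 0 0).re ≤ ((∫ x, a 0 x ∂mX κ) * conj (∫ x, b 0 x ∂mX κ)).re +
      (∫ x, ‖Eo q h 0 (fun x => a 0 x - ∫ y, a 0 y ∂mX κ) x‖ ^ 2 ∂mX κ +
        ∫ x, ‖Eo p h' 0 (fun x => b 0 x - ∫ y, b 0 y ∂mX κ) x‖ ^ 2 ∂mX κ) / 2 := by
    have h1 := (Complex.re_le_norm _).trans (pair_zero hα hφ hp hq hpq x0 h h' ρ hρ hK (a 0) (b 0) (ha 0) (hb 0))
    rw [Complex.sub_re] at h1
    linarith
  have e3 : (∑ k ∈ R.erase 0, ∑ l ∈ R.erase 0, J k l).re ≤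
      (∑ k ∈ R.erase 0, ww q g h a k + ∑ l ∈ R.erase 0, ww p g' h' b l) / 2 := by
    refine le_trans ?_ (count (R.erase 0) S (ww q g h a) (ww p g' h' b) (ww_nonneg q g h a) (ww_nonneg p g' h' b) hr hl)
    rw [Complex.re_sum]
    refine Finset.sum_le_sum fun k hk => ?_
    rw [Complex.re_sum]
    refine Finset.sum_le_sum fun l hl' => ?_
    by_cases hs : S k l
    · rw [if_pos hs]
      exact hJ1 k l (Finset.ne_of_mem_erase hk) (Finset.ne_of_mem_erase hl') hs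
    · rw [if_neg hs, hJ0 k l hs, Complex.zero_re]
  rw [expand ρ R a b ha hb]
  have e4 := ww_le q g h R a
  have e5 := ww_le p g' h' R b
  rw [show (∑ k ∈ R, ∑ l ∈ R, ∫ z, pf (a k) k z.1 * conj (pf (b l) l z.2) ∂ρ) = ∑ k ∈ R, ∑ l ∈ R, J k l from rfl, e1,
    Complex.add_re]
  linarith

private theorem diag_le (ρ : Measure (YY κ × YY κ)) [IsProbabilityMeasure ρ] (F : YY κ → ℂ) (B : ℝ) (hB : ∀ z, ‖F z‖ ≤ B) :
    (∫ z, F z.1 * conj (F z.2) ∂ρ).re ≤ B ^ 2 := by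
  refine (Complex.re_le_norm _).trans ?_
  have h1 : ∀ z : YY κ × YY κ, ‖F z.1 * conj (F z.2)‖ ≤ B ^ 2 := fun z => by
    rw [norm_mul, RCLike.norm_conj, sq]
    exact mul_le_mul (hB _) (hB _) (norm_nonneg _) ((norm_nonneg _).trans (hB z.1))
  have h2 := norm_integral_le_of_norm_le_const (μ := ρ) (ae_of_all _ h1)
  rwa [probReal_univ, mul_one] at h2

theorem sieve_trig (hα : Irr α) (hφ : Continuous φ) (hE : ErgF α φ) (x0 : TX κ) (Q : Finset ℕ) (hQ : ∀ p ∈ Q, p.Prime)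
    (g : ℕ → ℤ) (h : ℕ → TX κ → TX κ → UnitAddCircle) (hG : ∀ q ∈ Q, Cov α φ x0 q (g q) (h q))
    (R : Finset ℤ) (h0 : (0 : ℤ) ∈ R) (f : ℕ → ℤ → TX κ → ℂ) (hf : ∀ p k, Continuous (f p k)) (B : ℝ)
    (hB : ∀ p ∈ Q, ∀ z : YY κ, ‖∑ k ∈ R, pf (f p k) k z‖ ≤ B) (ρ : ℕ → ℕ → Measure (YY κ × YY κ))
    (hρ : ∀ p ∈ Q, ∀ q ∈ Q, IsProbabilityMeasure (ρ p q) ∧
      MeasurePreserving (Prod.map (SS α φ)^[p] (SS α φ)^[q]) (ρ p q) (ρ p q) ∧ ρ p q (KK x0 p q)ᶜ = 0) :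
    (∑ p ∈ Q, ∑ q ∈ Q, ∫ z, (∑ k ∈ R, pf (f p k) k z.1) * conj (∑ k ∈ R, pf (f q k) k z.2) ∂ρ p q).re ≤
      ‖∑ p ∈ Q, ∫ x, f p 0 x ∂mX κ‖ ^ 2 + Q.card * B ^ 2 + ∑ p ∈ Q, ∑ q ∈ Q,
        (∫ x, ‖Eo q (h q) 0 (fun x => f p 0 x - ∫ y, f p 0 y ∂mX κ) x‖ ^ 2 ∂mX κ +
          ∑ k ∈ (R.erase 0).filter (fun k => g q ∣ k), ∫ x, ‖Eo q (h q) (k / g q) (f p k) x‖ ^ 2 ∂mX κ +
          ∑ k ∈ (R.erase 0).filter (fun k => (q : ℤ) ∣ k), ∫ x, ‖f p k x‖ ^ 2 ∂mX κ) := by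
  show _ ≤ ‖∑ p ∈ Q, ∫ x, f p 0 x ∂mX κ‖ ^ 2 + Q.card * B ^ 2 + ∑ p ∈ Q, ∑ q ∈ Q, WW q (g q) (h q) R (f p)
  set m : ℕ → ℂ := fun p => ∫ x, f p 0 x ∂mX κ with hm
  set W : ℕ → ℕ → ℝ := fun p q => WW q (g q) (h q) R (f p) with hW
  have hW0 : ∀ p q, 0 ≤ W p q := fun p q => WW_nonneg _ _ _ _ _
  have key : ∀ p ∈ Q, ∀ q ∈ Q, (∫ z, (∑ k ∈ R, pf (f p k) k z.1) * conj (∑ k ∈ R, pf (f q k) k z.2) ∂ρ p q).re ≤
      (m p * conj (m q)).re + (if p = q then B ^ 2 else 0) + (W p q + W q p) / 2 := by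
    intro p hp q hq
    obtain ⟨i1, i2, i3⟩ := hρ p hp q hq
    by_cases hpq : p = q
    · subst hpq
      rw [if_pos rfl]
      have h1 := diag_le (ρ p p) (fun z => ∑ k ∈ R, pf (f p k) k z) B (hB p hp)
      have h2 : 0 ≤ (m p * conj (m p)).re := by
        rw [Complex.mul_conj, Complex.ofReal_re]
        exact Complex.normSq_nonneg _
      have h3 := hW0 p p
      linarith
    · rw [if_neg hpq, add_zero]
      exact pair_le hα hφ hE x0 (hQ p hp) (hQ q hq) hpq (hG q hq) (hG p hp) R h0 (f p) (f q) (hf p) (hf q) (ρ p q) i2 i3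
  rw [Complex.re_sum]
  have s1 : ∑ p ∈ Q, (∑ q ∈ Q, ∫ z, (∑ k ∈ R, pf (f p k) k z.1) * conj (∑ k ∈ R, pf (f q k) k z.2) ∂ρ p q).re ≤
      ∑ p ∈ Q, ∑ q ∈ Q, ((m p * conj (m q)).re + (if p = q then B ^ 2 else 0) + (W p q + W q p) / 2) :=
    Finset.sum_le_sum fun p hp => by
      rw [Complex.re_sum]
      exact Finset.sum_le_sum fun q hq => key p hp q hq
  refine s1.trans (le_of_eq ?_)
  have t1 : ∑ p ∈ Q, ∑ q ∈ Q, (m p * conj (m q)).re = ‖∑ p ∈ Q, m p‖ ^ 2 := by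
    have h1 : ∑ p ∈ Q, ∑ q ∈ Q, m p * conj (m q) = ((‖∑ p ∈ Q, m p‖ ^ 2 : ℝ) : ℂ) := by
      rw [← Complex.normSq_eq_norm_sq, ← Complex.mul_conj, map_sum, Finset.sum_mul_sum]
    have h2 := congrArg Complex.re h1
    rw [Complex.ofReal_re, Complex.re_sum] at h2
    rw [← h2]
    exact Finset.sum_congr rfl fun p _ => (Complex.re_sum _ _).symm
  have t2 : ∑ p ∈ Q, ∑ q ∈ Q, (if p = q then B ^ 2 else 0) = Q.card * B ^ 2 := by
    have h1 : ∀ p ∈ Q, ∑ q ∈ Q, (if p = q then B ^ 2 else 0) = B ^ 2 := fun p hp => by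
      rw [Finset.sum_ite_eq, if_pos hp]
    rw [Finset.sum_congr rfl h1, Finset.sum_const, nsmul_eq_mul]
  have t3 : ∑ p ∈ Q, ∑ q ∈ Q, (W p q + W q p) / 2 = ∑ p ∈ Q, ∑ q ∈ Q, W p q := by
    have h1 : ∑ p ∈ Q, ∑ q ∈ Q, W q p = ∑ p ∈ Q, ∑ q ∈ Q, W p q := Finset.sum_comm
    have h2 : ∑ p ∈ Q, ∑ q ∈ Q, (W p q + W q p) / 2 = (∑ p ∈ Q, ∑ q ∈ Q, W p q + ∑ p ∈ Q, ∑ q ∈ Q, W q p) / 2 := by
      simp only [← Finset.sum_div, Finset.sum_add_distrib]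
    rw [h2, h1]
    ring
  simp only [Finset.sum_add_distrib] at t3 ⊢
  rw [t1, t2]
  simp only [← Finset.sum_div, Finset.sum_add_distrib] at t3 ⊢
  rw [t3]

end Pool.Agent.Lib.MP_9fe581_an.TW
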