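import Pool.Agent.Lib.MP_9fe581_an.TW.M1Int
import Pool.Agent.Lib.MP_9fe581_an.TW.M2Int
import Pool.Agent.Lib.MP_9fe581_an.TW.DenseY
import Pool.Agent.Lib.MP_9fe581_an.TW.Form
import Pool.Agent.Lib.MP_9fe581_an.TW.SieveTrig

/-!
# TW, P5: the sieve inequality for continuous functions
-/

set_option autoImplicit false
set_option linter.unusedSectionVars false

open Finset MeasureTheory Filter Topology
open scoped ComplexConjugate Matrix

namespace Pool.Agent.Lib.MP_9fe581_an.TW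

open Pool.Agent.Lib.MP_9fe581_an.HT (TX mX ch ptq)
open Pool.Agent.Lib.MP_9fe581_an.FT (ec)

variable {κ : Type} [Fintype κ] [DecidableEq κ] {α : TX κ} {φ : TX κ → UnitAddCircle}

local instance p5_borel : BorelSpace (YY κ × YY κ) := Prod.borelSpace

private theorem p5_pt {a a' b b' : ℂ} {B δ : ℝ} (hB : 0 ≤ B) (hδ : 0 ≤ δ) (ha : ‖a‖ ≤ B) (ha' : ‖a'‖ ≤ B)
    (h : ‖a - b‖ ≤ δ) (h' : ‖a' - b'‖ ≤ δ) : ‖a * conj a' - b * conj b'‖ ≤ δ * (2 * B + δ) := by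
  have e : a * conj a' - b * conj b' = (a - b) * conj a' + b * conj (a' - b') := by
    rw [map_sub]; ring
  have hb : ‖b‖ ≤ B + δ := by
    have e2 : b = a - (a - b) := by ring
    rw [e2]
    exact (norm_sub_le _ _).trans (add_le_add ha h)
  rw [e]
  refine (norm_add_le _ _).trans ?_
  rw [norm_mul, norm_mul, RCLike.norm_conj, RCLike.norm_conj]
  have h1 : ‖a - b‖ * ‖a'‖ ≤ δ * B := mul_le_mul h ha' (norm_nonneg _) hδ
  have h2 : ‖b‖ * ‖a' - b'‖ ≤ (B + δ) * δ := mul_le_mul hb h' (norm_nonneg _) (by linarith)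
  calc ‖a - b‖ * ‖a'‖ + ‖b‖ * ‖a' - b'‖ ≤ δ * B + (B + δ) * δ := add_le_add h1 h2
    _ = δ * (2 * B + δ) := by ring

private theorem p5_int {σ : Measure (YY κ × YY κ)} [IsProbabilityMeasure σ] {f g f' g' : YY κ → ℂ} (hf : Continuous f)
    (hg : Continuous g) (hf' : Continuous f') (hg' : Continuous g') {B δ : ℝ} (hB : 0 ≤ B) (hδ : 0 ≤ δ)
    (h1 : ∀ x, ‖f x‖ ≤ B) (h2 : ∀ x, ‖f' x‖ ≤ B) (h3 : ∀ x, ‖f x - g x‖ ≤ δ) (h4 : ∀ x, ‖f' x - g' x‖ ≤ δ) :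
    ‖∫ z, f z.1 * conj (f' z.2) ∂σ - ∫ z, g z.1 * conj (g' z.2) ∂σ‖ ≤ δ * (2 * B + δ) := by
  have c1 : Continuous fun z : YY κ × YY κ => f z.1 * conj (f' z.2) :=
    (hf.comp continuous_fst).mul (Complex.continuous_conj.comp (hf'.comp continuous_snd))
  have c2 : Continuous fun z : YY κ × YY κ => g z.1 * conj (g' z.2) :=
    (hg.comp continuous_fst).mul (Complex.continuous_conj.comp (hg'.comp continuous_snd))
  have i1 : Integrable (fun z : YY κ × YY κ => f z.1 * conj (f' z.2)) σ :=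
    c1.integrable_of_hasCompactSupport (HasCompactSupport.of_compactSpace _)
  have i2 : Integrable (fun z : YY κ × YY κ => g z.1 * conj (g' z.2)) σ :=
    c2.integrable_of_hasCompactSupport (HasCompactSupport.of_compactSpace _)
  rw [← integral_sub i1 i2]
  refine (norm_integral_le_of_norm_le_const (C := δ * (2 * B + δ)) (ae_of_all _ fun z => ?_)).trans ?_
  · exact p5_pt hB hδ (h1 _) (h2 _) (h3 _) (h4 _)
  · simp

/-- the approximating functions -/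
private noncomputable def p5_g (R : Finset ℤ) (f : ℤ → TX κ → ℂ) (z : YY κ) : ℂ := ∑ k ∈ R, pf (f k) k z

private theorem p5_pf_cont (f : TX κ → ℂ) (hf : Continuous f) (k : ℤ) : Continuous (pf f k) := by
  unfold pf
  exact (hf.comp continuous_fst).mul (FT.continuous_ec.comp (continuous_snd.zsmul k))

private theorem p5_g_cont (R : Finset ℤ) (f : ℤ → TX κ → ℂ) (hf : ∀ k, Continuous (f k)) : Continuous (p5_g R f) :=
  continuous_finsetSum _ fun k _ => p5_pf_cont (f k) (hf k) k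

private theorem p5_ec (k : ℤ) (hk : k ≠ 0) : ∫ y, ec (k • y) ∂(AddCircle.haarAddCircle : Measure UnitAddCircle) = 0 := by
  have h1 : ∀ y : UnitAddCircle, ec (k • (y + ((1 / 2 / k : ℝ) : UnitAddCircle))) = - ec (k • y) := by
    intro y
    exact fourier_add_half_inv_index hk one_pos y
  have h2 : ∫ y, ec (k • (y + ((1 / 2 / k : ℝ) : UnitAddCircle))) ∂(AddCircle.haarAddCircle : Measure UnitAddCircle) =
      ∫ y, ec (k • y) ∂(AddCircle.haarAddCircle : Measure UnitAddCircle) :=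
    integral_add_right_eq_self (fun y => ec (k • y)) _
  simp only [h1] at h2
  rw [integral_neg] at h2
  exact self_eq_neg.mp h2.symm

private theorem p5_pf_int (f : TX κ → ℂ) (k : ℤ) :
    ∫ z, pf f k z ∂mY κ = if k = 0 then ∫ x, f x ∂mX κ else 0 := by
  have h1 : ∫ z, pf f k z ∂mY κ =
      (∫ x, f x ∂mX κ) * ∫ y, ec (k • y) ∂(AddCircle.haarAddCircle : Measure UnitAddCircle) :=
    integral_prod_mul f fun y => ec (k • y)
  rw [h1]
  split_ifs with hk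
  · subst hk
    simp [FT.ec_zero]
  · rw [p5_ec k hk, mul_zero]

private theorem p5_mean (R : Finset ℤ) (h0 : (0 : ℤ) ∈ R) (f : ℤ → TX κ → ℂ) (hf : ∀ k, Continuous (f k)) :
    ∫ z, p5_g R f z ∂mY κ = ∫ x, f 0 x ∂mX κ := by
  unfold p5_g
  rw [integral_finsetSum _ fun k _ => (p5_pf_cont (f k) (hf k) k).integrable_of_hasCompactSupport
    (HasCompactSupport.of_compactSpace _)]
  rw [Finset.sum_eq_single 0]
  · rw [p5_pf_int, if_pos rfl]
  · intro k _ hk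
    rw [p5_pf_int, if_neg hk]
  · intro h
    exact absurd h0 h

/-- simultaneous approximation -/
private theorem p5_approx (Q : Finset ℕ) (F : ℕ → C(YY κ, ℂ)) {δ : ℝ} (hδ : 0 < δ) :
    ∃ (R : Finset ℤ) (f : ℕ → ℤ → TX κ → ℂ), (0 : ℤ) ∈ R ∧ (∀ p k, Continuous (f p k)) ∧
      ∀ p ∈ Q, ∀ z, ‖F p z - p5_g R (f p) z‖ ≤ δ := by
  classical
  have h1 := fun p : ℕ => dense_Y (F p) δ hδ
  choose R f h2 h3 h4 using h1
  refine ⟨insert 0 (Q.biUnion R), fun p k => if k ∈ R p then f p k else fun _ => 0, Finset.mem_insert_self _ _,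
    fun p k => ?_, fun p hp z => ?_⟩
  · show Continuous (if k ∈ R p then f p k else fun _ => 0)
    split_ifs
    · exact h3 p k
    · exact continuous_const
  · have h5 : p5_g (insert 0 (Q.biUnion R)) (fun k => if k ∈ R p then f p k else fun _ => 0) z =
        ∑ k ∈ R p, pf (f p k) k z := by
      unfold p5_g
      symm
      have h6 : ∑ k ∈ R p, pf (f p k) k z = ∑ k ∈ R p, pf (if k ∈ R p then f p k else fun _ => 0) k z :=
        Finset.sum_congr rfl fun k hk => by rw [if_pos hk]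
      rw [h6]
      refine Finset.sum_subset (fun m hm => Finset.mem_insert_of_mem (Finset.mem_biUnion.mpr ⟨p, hp, hm⟩)) ?_
      intro k _ hk
      rw [if_neg hk]
      unfold pf
      rw [zero_mul]
    rw [h5]
    exact h4 p z

private theorem p5_final {a b C : ℝ} (h : ∀ δ : ℝ, 0 < δ → δ ≤ 1 → a ≤ b + δ * C) : a ≤ b := by
  by_contra hcon
  push Not at hcon
  have hC : 0 < C := by
    have := h 1 one_pos le_rfl
    linarith
  have h1 := h (min 1 ((a - b) / (2 * C))) (lt_min one_pos (by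
    apply div_pos <;> linarith)) (min_le_left _ _)
  have h2 : min 1 ((a - b) / (2 * C)) * C ≤ (a - b) / (2 * C) * C :=
    mul_le_mul_of_nonneg_right (min_le_right _ _) hC.le
  have h3 : (a - b) / (2 * C) * C = (a - b) / 2 := by
    field_simp
  linarith

/-- the form of `G` is at most the form of `F` plus an error -/
private theorem p5_jq {σ : Measure (YY κ × YY κ)} [IsProbabilityMeasure σ] (F : C(YY κ, ℂ)) {g : YY κ → ℂ}
    (hg : Continuous g) {B δ : ℝ} (hB : 0 ≤ B) (hδ : 0 ≤ δ) (hδ1 : δ ≤ 1) (h1 : ∀ x, ‖F x‖ ≤ B) (h3 : ∀ x, ‖F x - g x‖ ≤ δ) :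
    |(∫ z, g z.1 * conj (g z.2) ∂σ).re - HX.jq σ F| ≤ δ * (2 * B + 1) := by
  have e1 := p5_int (σ := σ) F.continuous hg F.continuous hg hB hδ h1 h1 h3 h3
  have e2 : (∫ z, g z.1 * conj (g z.2) ∂σ).re - HX.jq σ F =
      -((∫ z, F z.1 * conj (F z.2) ∂σ - ∫ z, g z.1 * conj (g z.2) ∂σ).re) := by
    unfold HX.jq
    rw [Complex.sub_re]
    ring
  rw [e2, abs_neg]
  refine (Complex.abs_re_le_norm _).trans (e1.trans ?_)
  exact mul_le_mul_of_nonneg_left (by linarith) hδ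

theorem sieve (hα : Irr α) (hφ : Continuous φ) (hE : ErgF α φ) (x0 : TX κ) (Q : Finset ℕ) (hQ : ∀ p ∈ Q, p.Prime)
    (g : ℕ → ℤ) (h : ℕ → TX κ → TX κ → UnitAddCircle) (hG : ∀ q ∈ Q, Cov α φ x0 q (g q) (h q))
    (F : ℕ → C(YY κ, ℂ)) (B : ℝ) (hB : ∀ p ∈ Q, ∀ z : YY κ, ‖F p z‖ ≤ B) (ρ : ℕ → ℕ → Measure (YY κ × YY κ))
    (hρ : ∀ p ∈ Q, ∀ q ∈ Q, IsProbabilityMeasure (ρ p q) ∧
      MeasurePreserving (Prod.map (SS α φ)^[p] (SS α φ)^[q]) (ρ p q) (ρ p q) ∧ ρ p q (KK x0 p q)ᶜ = 0) :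
    (∑ p ∈ Q, ∑ q ∈ Q, ∫ z, F p z.1 * conj (F q z.2) ∂ρ p q).re ≤
      ‖∑ p ∈ Q, ∫ z, F p z ∂mY κ‖ ^ 2 + Q.card * B ^ 2 + ∑ p ∈ Q, ∑ q ∈ Q,
        ((HX.jq (m1 q (g q) (h q)) (F p) - HX.jq mi1 (F p)) + (HX.jq (m2 q) (F p) - HX.jq mi2 (F p))) := by
  classical
  rcases Q.eq_empty_or_nonempty with hE0 | ⟨p0, hp0⟩
  · subst hE0
    simp
  have hB0 : 0 ≤ B := (norm_nonneg _).trans (hB p0 hp0 0)
  set n : ℝ := (Q.card : ℝ) with hn
  have hn0 : 0 ≤ n := Nat.cast_nonneg _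
  set a : ℝ := ‖∑ p ∈ Q, ∫ z, F p z ∂mY κ‖ with ha
  have ha0 : 0 ≤ a := norm_nonneg _
  apply p5_final (C := n * (n * (2 * B + 1)) + (2 * a * n + n ^ 2) + n * (2 * B + 1) +
    n * (n * (4 * (2 * B + 1))))
  intro δ hδ hδ1
  obtain ⟨R, f, h0, hfc, happ⟩ := p5_approx Q F hδ
  have hE1 : δ * (2 * B + δ) ≤ δ * (2 * B + 1) := mul_le_mul_of_nonneg_left (by linarith) hδ.le
  have hgc : ∀ p, Continuous (p5_g R (f p)) := fun p => p5_g_cont R (f p) (hfc p)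
  -- the left side
  have hL : (∑ p ∈ Q, ∑ q ∈ Q, ∫ z, F p z.1 * conj (F q z.2) ∂ρ p q).re ≤
      (∑ p ∈ Q, ∑ q ∈ Q, ∫ z, p5_g R (f p) z.1 * conj (p5_g R (f q) z.2) ∂ρ p q).re + n * (n * (δ * (2 * B + 1))) := by
    have e : ∑ p ∈ Q, ∑ q ∈ Q, ∫ z, F p z.1 * conj (F q z.2) ∂ρ p q =
        ∑ p ∈ Q, ∑ q ∈ Q, ∫ z, p5_g R (f p) z.1 * conj (p5_g R (f q) z.2) ∂ρ p q +
        ∑ p ∈ Q, ∑ q ∈ Q, (∫ z, F p z.1 * conj (F q z.2) ∂ρ p q -
          ∫ z, p5_g R (f p) z.1 * conj (p5_g R (f q) z.2) ∂ρ p q) := by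
      simp only [Finset.sum_sub_distrib]
      ring
    rw [e, Complex.add_re]
    refine add_le_add le_rfl ?_
    refine (Complex.re_le_norm _).trans ?_
    refine (norm_sum_le _ _).trans ?_
    have e1 : n * (n * (δ * (2 * B + 1))) = ∑ p ∈ Q, n * (δ * (2 * B + 1)) := by
      rw [Finset.sum_const, nsmul_eq_mul]
    rw [e1]
    refine Finset.sum_le_sum fun p hp => ?_
    refine (norm_sum_le _ _).trans ?_
    have e2 : n * (δ * (2 * B + 1)) = ∑ q ∈ Q, δ * (2 * B + 1) := by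
      rw [Finset.sum_const, nsmul_eq_mul]
    rw [e2]
    refine Finset.sum_le_sum fun q hq => ?_
    have := (hρ p hp q hq).1
    exact (p5_int (F p).continuous (hgc p) (F q).continuous (hgc q) hB0 hδ.le (hB p hp) (hB q hq)
      (happ p hp) (happ q hq)).trans hE1
  have hGB : ∀ p ∈ Q, ∀ z : YY κ, ‖∑ k ∈ R, pf (f p k) k z‖ ≤ B + δ := by
    intro p hp z
    have e3 : ∑ k ∈ R, pf (f p k) k z = F p z - (F p z - p5_g R (f p) z) := by
      rw [sub_sub_cancel]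
      rfl
    rw [e3]
    exact (norm_sub_le _ _).trans (add_le_add (hB p hp z) (happ p hp z))
  have hS := sieve_trig hα hφ hE x0 Q hQ g h hG R h0 f hfc (B + δ) hGB ρ hρ
  -- the constant terms
  have h1 : ‖∑ p ∈ Q, ∫ x, f p 0 x ∂mX κ‖ ^ 2 ≤ a ^ 2 + δ * (2 * a * n + n ^ 2) := by
    have e1 : ‖∑ p ∈ Q, ∫ x, f p 0 x ∂mX κ‖ ≤ a + n * δ := by
      have e2 : ∑ p ∈ Q, ∫ x, f p 0 x ∂mX κ = ∑ p ∈ Q, ∫ z, F p z ∂mY κ +
          ∑ p ∈ Q, (∫ x, f p 0 x ∂mX κ - ∫ z, F p z ∂mY κ) := by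
        simp only [Finset.sum_sub_distrib]
        ring
      rw [e2]
      refine (norm_add_le _ _).trans (add_le_add le_rfl ?_)
      refine (norm_sum_le _ _).trans ?_
      have e3 : n * δ = ∑ p ∈ Q, δ := by rw [Finset.sum_const, nsmul_eq_mul]
      rw [e3]
      refine Finset.sum_le_sum fun p hp => ?_
      rw [← p5_mean R h0 (f p) (hfc p)]
      have i1 : Integrable (F p) (mY κ) :=
        (F p).continuous.integrable_of_hasCompactSupport (HasCompactSupport.of_compactSpace _)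
      have i2 : Integrable (p5_g R (f p)) (mY κ) :=
        (hgc p).integrable_of_hasCompactSupport (HasCompactSupport.of_compactSpace _)
      rw [← integral_sub i2 i1]
      refine (norm_integral_le_of_norm_le_const (C := δ) (ae_of_all _ fun x => ?_)).trans ?_
      · rw [norm_sub_rev]
        exact happ p hp x
      · simp
    have e4 : ‖∑ p ∈ Q, ∫ x, f p 0 x ∂mX κ‖ ^ 2 ≤ (a + n * δ) ^ 2 := pow_le_pow_left₀ (norm_nonneg _) e1 2
    have e5 : δ * (δ * n ^ 2) ≤ δ * (1 * n ^ 2) :=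
      mul_le_mul_of_nonneg_left (mul_le_mul_of_nonneg_right hδ1 (sq_nonneg n)) hδ.le
    calc ‖∑ p ∈ Q, ∫ x, f p 0 x ∂mX κ‖ ^ 2 ≤ (a + n * δ) ^ 2 := e4
      _ = a ^ 2 + δ * (2 * a * n) + δ * (δ * n ^ 2) := by ring
      _ ≤ a ^ 2 + δ * (2 * a * n) + δ * (1 * n ^ 2) := by linarith
      _ = a ^ 2 + δ * (2 * a * n + n ^ 2) := by ring
  -- the diagonal
  have h2 : n * (B + δ) ^ 2 ≤ n * B ^ 2 + δ * (n * (2 * B + 1)) := by
    calc n * (B + δ) ^ 2 = n * (B ^ 2 + δ * (2 * B + δ)) := by ring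
      _ ≤ n * (B ^ 2 + δ * (2 * B + 1)) := mul_le_mul_of_nonneg_left (by linarith) hn0
      _ = n * B ^ 2 + δ * (n * (2 * B + 1)) := by ring
  -- the forms
  have h3 : ∑ p ∈ Q, ∑ q ∈ Q,
        (∫ x, ‖Eo q (h q) 0 (fun x => f p 0 x - ∫ y, f p 0 y ∂mX κ) x‖ ^ 2 ∂mX κ +
          ∑ k ∈ (R.erase 0).filter (fun k => g q ∣ k), ∫ x, ‖Eo q (h q) (k / g q) (f p k) x‖ ^ 2 ∂mX κ +
          ∑ k ∈ (R.erase 0).filter (fun k => (q : ℤ) ∣ k), ∫ x, ‖f p k x‖ ^ 2 ∂mX κ) ≤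
      (∑ p ∈ Q, ∑ q ∈ Q,
        ((HX.jq (m1 q (g q) (h q)) (F p) - HX.jq mi1 (F p)) + (HX.jq (m2 q) (F p) - HX.jq mi2 (F p)))) +
      n * (n * (4 * (δ * (2 * B + 1)))) := by
    have e1 : n * (n * (4 * (δ * (2 * B + 1)))) = ∑ p ∈ Q, ∑ q ∈ Q, 4 * (δ * (2 * B + 1)) := by
      simp only [Finset.sum_const, nsmul_eq_mul]
      rfl
    rw [e1, ← Finset.sum_add_distrib]
    refine Finset.sum_le_sum fun p hp => ?_
    rw [← Finset.sum_add_distrib]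
    refine Finset.sum_le_sum fun q hq => ?_
    have hq0 : 0 < q := (hQ q hq).pos
    have hGH := (hG q hq).gh
    have := m1_prob hq0 (g q) hGH.meas
    have := m2_prob (κ := κ) hq0
    have := mi1_prob (κ := κ)
    have := mi2_prob (κ := κ)
    have d1 := p5_jq (σ := m1 q (g q) (h q)) (F p) (hgc p) hB0 hδ.le hδ1 (hB p hp) (happ p hp)
    have d2 := p5_jq (σ := mi1) (F p) (hgc p) hB0 hδ.le hδ1 (hB p hp) (happ p hp)
    have d3 := p5_jq (σ := m2 q) (F p) (hgc p) hB0 hδ.le hδ1 (hB p hp) (happ p hp)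
    have d4 := p5_jq (σ := mi2) (F p) (hgc p) hB0 hδ.le hδ1 (hB p hp) (happ p hp)
    have f1 := congrArg Complex.re (form1 hq0 hGH R h0 (f p) (hfc p))
    have f2 := congrArg Complex.re (form2 hq0 R h0 (f p) (hfc p))
    rw [Complex.ofReal_re, Complex.sub_re] at f1 f2
    have f1' : (∫ z, p5_g R (f p) z.1 * conj (p5_g R (f p) z.2) ∂m1 q (g q) (h q)).re -
        (∫ z, p5_g R (f p) z.1 * conj (p5_g R (f p) z.2) ∂mi1).re =
        ∫ x, ‖Eo q (h q) 0 (fun x => f p 0 x - ∫ y, f p 0 y ∂mX κ) x‖ ^ 2 ∂mX κ +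
        ∑ k ∈ (R.erase 0).filter (fun k => g q ∣ k), ∫ x, ‖Eo q (h q) (k / g q) (f p k) x‖ ^ 2 ∂mX κ := f1
    have f2' : (∫ z, p5_g R (f p) z.1 * conj (p5_g R (f p) z.2) ∂m2 q).re -
        (∫ z, p5_g R (f p) z.1 * conj (p5_g R (f p) z.2) ∂mi2).re =
        ∑ k ∈ (R.erase 0).filter (fun k => (q : ℤ) ∣ k), ∫ x, ‖f p k x‖ ^ 2 ∂mX κ := f2
    rw [← f1', ← f2']
    rw [abs_le] at d1 d2 d3 d4
    linarith [d1.2, d2.1, d3.2, d4.1]
  calc (∑ p ∈ Q, ∑ q ∈ Q, ∫ z, F p z.1 * conj (F q z.2) ∂ρ p q).re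
      ≤ (∑ p ∈ Q, ∑ q ∈ Q, ∫ z, p5_g R (f p) z.1 * conj (p5_g R (f q) z.2) ∂ρ p q).re +
        n * (n * (δ * (2 * B + 1))) := hL
    _ ≤ (‖∑ p ∈ Q, ∫ x, f p 0 x ∂mX κ‖ ^ 2 + n * (B + δ) ^ 2 + ∑ p ∈ Q, ∑ q ∈ Q,
        (∫ x, ‖Eo q (h q) 0 (fun x => f p 0 x - ∫ y, f p 0 y ∂mX κ) x‖ ^ 2 ∂mX κ +
          ∑ k ∈ (R.erase 0).filter (fun k => g q ∣ k), ∫ x, ‖Eo q (h q) (k / g q) (f p k) x‖ ^ 2 ∂mX κ +
          ∑ k ∈ (R.erase 0).filter (fun k => (q : ℤ) ∣ k), ∫ x, ‖f p k x‖ ^ 2 ∂mX κ)) +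
        n * (n * (δ * (2 * B + 1))) := add_le_add hS le_rfl
    _ ≤ _ := by linarith

end Pool.Agent.Lib.MP_9fe581_an.TW
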