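import Pool.Agent.Lib.MP_9fe581_an.TW.Defs
import Pool.Agent.Lib.MP_9fe581_an.FT.Emp

/-!
# TW, row P6: windows of several time changes of one orbit, limits of the empirical measures
-/

set_option autoImplicit false

open Finset MeasureTheory Filter Topology
open scoped ComplexConjugate Matrix

namespace Pool.Agent.Lib.MP_9fe581_an.TW

/-- a limit of empirical measures along an ultrafilter -/
private theorem win_limit {Z : Type} [TopologicalSpace Z] [CompactSpace Z] [TopologicalSpace.MetrizableSpace Z]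
    [MeasurableSpace Z] [BorelSpace Z] (S : Z → Z) (hS : Continuous S) (z : ℕ → Z) (N : ℕ → ℕ) (hN : ∀ k, k ≤ N k)
    (U : Ultrafilter ℕ) (hU : (U : Filter ℕ) ≤ atTop) :
    ∃ ρ : Measure Z, IsProbabilityMeasure ρ ∧ MeasurePreserving S ρ ρ ∧
      (∀ F : C(Z, ℂ), Tendsto (fun j => ∫ y, F y ∂(FT.emp S (z j) (N j))) (U : Filter ℕ) (𝓝 (∫ y, F y ∂ρ))) ∧
      (∀ V : Set Z, IsOpen V → (∀ᶠ j in (U : Filter ℕ), ∀ n : ℕ, S^[n + 1] (z j) ∉ V) → ρ V = 0) := by
  let _ : MetricSpace Z := TopologicalSpace.metrizableSpaceMetric Z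
  set μ : ℕ → ProbabilityMeasure Z := fun k => ⟨FT.emp S (z k) (N k), FT.emp_prob S (z k) (N k)⟩
    with hμ
  obtain ⟨ρ, -, hρ⟩ := isCompact_univ.ultrafilter_le_nhds (U.map μ) (by simp)
  have hρt : Tendsto μ (U : Filter ℕ) (𝓝 ρ) := hρ
  have hR := ProbabilityMeasure.tendsto_iff_forall_integral_tendsto.mp hρt
  have hC := (ProbabilityMeasure.tendsto_iff_forall_integral_rclike_tendsto ℂ).mp hρt
  refine ⟨(ρ : Measure Z), inferInstance, ?_, ?_, ?_⟩
  · refine ⟨hS.measurable, ?_⟩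
    have hfm : IsFiniteMeasure (Measure.map S (ρ : Measure Z)) := Measure.isFiniteMeasure_map _ _
    refine ext_of_forall_integral_eq_of_IsFiniteMeasure fun g => ?_
    rw [integral_map hS.measurable.aemeasurable g.continuous.measurable.aestronglyMeasurable]
    set gS : BoundedContinuousFunction Z ℝ := g.compContinuous ⟨S, hS⟩ with hgS
    have t1 : Tendsto (fun k => ∫ y, gS y ∂(μ k : Measure Z)) (U : Filter ℕ)
      (𝓝 (∫ y, gS y ∂(ρ : Measure Z))) := hR gS
    have t2 : Tendsto (fun k => ∫ y, g y ∂(μ k : Measure Z)) (U : Filter ℕ)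
      (𝓝 (∫ y, g y ∂(ρ : Measure Z))) := hR g
    have t3 : Tendsto (fun k => ∫ y, gS y ∂(μ k : Measure Z) - ∫ y, g y ∂(μ k : Measure Z)) atTop
        (𝓝 0) := by
      rw [tendsto_zero_iff_norm_tendsto_zero]
      have hb : Tendsto (fun k : ℕ => 2 * ‖g‖ * (1 / ((k : ℝ) + 1))) atTop (𝓝 (2 * ‖g‖ * 0)) :=
        tendsto_one_div_add_atTop_nhds_zero_nat.const_mul _
      rw [mul_zero] at hb
      refine squeeze_zero (fun k => norm_nonneg _) (fun k => ?_) hb
      have e1 : ∫ y, gS y ∂(μ k : Measure Z) =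
          (((N k + 1 : ℕ) : ℝ))⁻¹ • ∑ n ∈ range (N k + 1), g (S (S^[n + 1] (z k))) :=
        FT.emp_int S (z k) (N k) gS gS.continuous
      have e2 : ∫ y, g y ∂(μ k : Measure Z) =
          (((N k + 1 : ℕ) : ℝ))⁻¹ • ∑ n ∈ range (N k + 1), g (S^[n + 1] (z k)) :=
        FT.emp_int S (z k) (N k) g g.continuous
      have e3 : ∑ n ∈ range (N k + 1), g (S (S^[n + 1] (z k))) -
          ∑ n ∈ range (N k + 1), g (S^[n + 1] (z k)) =
          g (S^[N k + 2] (z k)) - g (S^[1] (z k)) := by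
        rw [← Finset.sum_sub_distrib]
        have h2 := Finset.sum_range_sub (fun n => g (S^[n + 1] (z k))) (N k + 1)
        rw [← h2]
        refine Finset.sum_congr rfl fun n _ => ?_
        rw [← Function.iterate_succ_apply' S (n + 1) (z k)]
      rw [e1, e2, ← smul_sub, e3, norm_smul, Real.norm_of_nonneg (by positivity)]
      have e4 : ‖g (S^[N k + 2] (z k)) - g (S^[1] (z k))‖ ≤ 2 * ‖g‖ := by
        refine (norm_sub_le _ _).trans ?_
        linarith [g.norm_coe_le_norm (S^[N k + 2] (z k)), g.norm_coe_le_norm (S^[1] (z k))]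
      have e5 : (((N k + 1 : ℕ) : ℝ))⁻¹ ≤ 1 / ((k : ℝ) + 1) := by
        rw [one_div]
        apply inv_anti₀ (by positivity)
        have h3 : (k : ℝ) ≤ N k := by exact_mod_cast hN k
        push_cast
        linarith
      calc (((N k + 1 : ℕ) : ℝ))⁻¹ * ‖g (S^[N k + 2] (z k)) - g (S^[1] (z k))‖
          ≤ (1 / ((k : ℝ) + 1)) * (2 * ‖g‖) := by gcongr
        _ = 2 * ‖g‖ * (1 / ((k : ℝ) + 1)) := by ring
    have t4 := t1.sub t2
    have t5 := tendsto_nhds_unique t4 (t3.mono_left hU)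
    have t6 : ∫ y, gS y ∂(ρ : Measure Z) = ∫ y, g y ∂(ρ : Measure Z) := by linarith
    exact t6
  · intro F
    exact hC (BoundedContinuousFunction.mkOfCompact F)
  · intro V hV hev
    have h1 := ProbabilityMeasure.le_liminf_measure_open_of_tendsto hρt hV
    have h2 : (fun k => (μ k : Measure Z) V) =ᶠ[(U : Filter ℕ)] fun _ => 0 := by
      filter_upwards [hev] with k hk
      change FT.emp S (z k) (N k) V = 0
      unfold FT.emp
      rw [Measure.smul_apply, Measure.finsetSum_apply]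
      have h3 : ∀ n ∈ range (N k + 1), Measure.dirac (S^[n + 1] (z k)) V = 0 := by
        intro n _
        rw [Measure.dirac_apply' _ hV.measurableSet]
        exact Set.indicator_of_notMem (hk n) _
      rw [Finset.sum_eq_zero h3, smul_zero]
    rw [liminf_congr h2, liminf_const] at h1
    exact le_antisymm h1 (zero_le)

theorem win_joint {X : Type} [TopologicalSpace X] [CompactSpace X] [TopologicalSpace.MetrizableSpace X] [MeasurableSpace X]
    [BorelSpace X] (S : X → X) (hS : Continuous S) (Q : Finset ℕ) (f : ℕ → C(X, ℂ)) (K : X → ℕ → ℕ → Set (X × X))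
    (Kcl : ∀ p q, IsClosed {w : X × X × X | w.2 ∈ K w.1 p q}) (Kd : ∀ x p q k, (S^[p * k] x, S^[q * k] x) ∈ K x p q)
    (b : X → ℝ) (hb : ∀ (x : X) (ρ : ℕ → ℕ → Measure (X × X)), (∀ p ∈ Q, ∀ q ∈ Q, IsProbabilityMeasure (ρ p q) ∧
      MeasurePreserving (Prod.map S^[p] S^[q]) (ρ p q) (ρ p q) ∧ ρ p q (K x p q)ᶜ = 0) →
      (∑ p ∈ Q, ∑ q ∈ Q, ∫ z, f p z.1 * conj (f q z.2) ∂ρ p q).re ≤ b x) (ε : ℝ) (hε : 0 < ε) :
    ∃ M0 : ℕ, ∀ M ≥ M0, ∀ (M1 : ℕ) (y : X), ∃ x : X,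
      ∑ k ∈ Ioc M1 (M1 + M), ‖∑ p ∈ Q, f p (S^[p * k] y)‖ ^ 2 ≤ (b x + ε) * M := by
  classical
  by_contra hcon
  push Not at hcon
  have hseq : ∀ j : ℕ, ∃ (N : ℕ) (M1 : ℕ) (y : X), j ≤ N ∧ ∀ x, (b x + ε) * ((N + 1 : ℕ) : ℝ) <
      ∑ k ∈ Ioc M1 (M1 + (N + 1)), ‖∑ p ∈ Q, f p (S^[p * k] y)‖ ^ 2 := by
    intro j
    obtain ⟨M, hM, M1, y, h⟩ := hcon (j + 1)
    obtain ⟨N, rfl⟩ : ∃ N, M = N + 1 := ⟨M - 1, by omega⟩
    exact ⟨N, M1, y, by omega, h⟩
  choose N M1 y hN hlt using hseq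
  obtain ⟨U, hU⟩ : ∃ U : Ultrafilter ℕ, (U : Filter ℕ) ≤ atTop := ⟨Ultrafilter.of atTop, Ultrafilter.of_le _⟩
  obtain ⟨x, -, hx'⟩ := isCompact_univ.ultrafilter_le_nhds (U.map y) (by simp)
  have hx : Tendsto y (U : Filter ℕ) (𝓝 x) := hx'
  have hiter : ∀ (p q n m : ℕ) (w : X), (Prod.map S^[p] S^[q])^[n + 1] ((Prod.map S^[p] S^[q])^[m] (w, w)) =
      (S^[p * (m + (n + 1))] w, S^[q * (m + (n + 1))] w) := by
    intro p q n m w
    rw [← Function.iterate_add_apply, Prod.map_iterate, Function.iterate_mul, Function.iterate_mul,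
      Nat.add_comm (n + 1) m]
    rfl
  have hall := fun p q : ℕ => win_limit (Prod.map S^[p] S^[q]) ((hS.iterate p).prodMap (hS.iterate q))
    (fun j => (Prod.map S^[p] S^[q])^[M1 j] (y j, y j)) N hN U hU
  choose ρ h1 h2 h3 h4 using hall
  have hK : ∀ p q, ρ p q (K x p q)ᶜ = 0 := by
    intro p q
    have hsc : SecondCountableTopology X := by
      let _ : MetricSpace X := TopologicalSpace.metrizableSpaceMetric X
      infer_instance
    refine measure_null_of_locally_null _ fun w hw => ?_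
    have ho : IsOpen {v : X × X × X | v.2 ∉ K v.1 p q} := (Kcl p q).isOpen_compl
    have hmem : {v : X × X × X | v.2 ∉ K v.1 p q} ∈ 𝓝 ((x, w) : X × X × X) := ho.mem_nhds hw
    obtain ⟨A, V, hA, hxA, hV, hwV, hAV⟩ := mem_nhds_prod_iff'.mp hmem
    refine ⟨V, mem_nhdsWithin_of_mem_nhds (hV.mem_nhds hwV), h4 p q V hV ?_⟩
    filter_upwards [hx.eventually (hA.mem_nhds hxA)] with j hj n hn
    have h5 : ((y j, (Prod.map S^[p] S^[q])^[n + 1] ((Prod.map S^[p] S^[q])^[M1 j] (y j, y j))) : X × X × X) ∈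
        {v : X × X × X | v.2 ∉ K v.1 p q} := hAV (Set.mk_mem_prod hj hn)
    apply h5
    change (Prod.map S^[p] S^[q])^[n + 1] ((Prod.map S^[p] S^[q])^[M1 j] (y j, y j)) ∈ K (y j) p q
    rw [hiter]
    exact Kd _ _ _ _
  have hbx := hb x ρ (fun p _ q _ => ⟨h1 p q, h2 p q, hK p q⟩)
  have hlim : Tendsto (fun j => (((N j + 1 : ℕ) : ℝ))⁻¹ *
      ∑ k ∈ Ioc (M1 j) (M1 j + (N j + 1)), ‖∑ p ∈ Q, f p (S^[p * k] (y j))‖ ^ 2) (U : Filter ℕ)
      (𝓝 (∑ p ∈ Q, ∑ q ∈ Q, ∫ z, f p z.1 * conj (f q z.2) ∂ρ p q).re) := by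
    have hF : ∀ p q : ℕ, Continuous fun z : X × X => f p z.1 * conj (f q z.2) := fun p q =>
      ((f p).continuous.comp continuous_fst).mul
        (Complex.continuous_conj.comp ((f q).continuous.comp continuous_snd))
    have h5 : Tendsto (fun j => ∑ p ∈ Q, ∑ q ∈ Q, ∫ z, f p z.1 * conj (f q z.2)
        ∂(FT.emp (Prod.map S^[p] S^[q]) ((Prod.map S^[p] S^[q])^[M1 j] (y j, y j)) (N j))) (U : Filter ℕ)
        (𝓝 (∑ p ∈ Q, ∑ q ∈ Q, ∫ z, f p z.1 * conj (f q z.2) ∂ρ p q)) :=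
      tendsto_finsetSum _ fun p _ => tendsto_finsetSum _ fun q _ => h3 p q ⟨_, hF p q⟩
    have h6 := (Complex.continuous_re.tendsto _).comp h5
    refine h6.congr fun j => ?_
    have h7 : ∀ p q : ℕ, ∫ z, f p z.1 * conj (f q z.2)
        ∂(FT.emp (Prod.map S^[p] S^[q]) ((Prod.map S^[p] S^[q])^[M1 j] (y j, y j)) (N j)) =
        (((N j + 1 : ℕ) : ℝ))⁻¹ • ∑ k ∈ Ioc (M1 j) (M1 j + (N j + 1)),
          f p (S^[p * k] (y j)) * conj (f q (S^[q * k] (y j))) := by
      intro p q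
      rw [FT.emp_int _ _ _ (fun z : X × X => f p z.1 * conj (f q z.2)) (hF p q)]
      congr 1
      have h8 : ∀ n : ℕ, (fun z : X × X => f p z.1 * conj (f q z.2))
          ((Prod.map S^[p] S^[q])^[n + 1] ((Prod.map S^[p] S^[q])^[M1 j] (y j, y j))) =
          f p (S^[p * (M1 j + (n + 1))] (y j)) * conj (f q (S^[q * (M1 j + (n + 1))] (y j))) := by
        intro n
        rw [hiter]
      rw [Finset.sum_congr rfl fun n _ => h8 n]
      refine Finset.sum_bij (fun n _ => M1 j + (n + 1)) ?_ ?_ ?_ ?_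
      · intro n hn
        rw [Finset.mem_range] at hn
        rw [Finset.mem_Ioc]
        omega
      · intro a _ c _ hac
        omega
      · intro k hk
        rw [Finset.mem_Ioc] at hk
        refine ⟨k - M1 j - 1, ?_, ?_⟩
        · rw [Finset.mem_range]
          omega
        · omega
      · intro n _
        rfl
    change (∑ p ∈ Q, ∑ q ∈ Q, ∫ z, f p z.1 * conj (f q z.2)
        ∂(FT.emp (Prod.map S^[p] S^[q]) ((Prod.map S^[p] S^[q])^[M1 j] (y j, y j)) (N j))).re = _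
    simp_rw [h7, ← Finset.smul_sum]
    rw [Complex.smul_re, smul_eq_mul]
    congr 1
    rw [Finset.sum_congr rfl fun p _ => Finset.sum_comm, Finset.sum_comm, Complex.re_sum]
    refine Finset.sum_congr rfl fun k _ => ?_
    have h9 : ∑ p ∈ Q, ∑ q ∈ Q, f p (S^[p * k] (y j)) * conj (f q (S^[q * k] (y j))) =
        (∑ p ∈ Q, f p (S^[p * k] (y j))) * conj (∑ p ∈ Q, f p (S^[p * k] (y j))) := by
      rw [map_sum, Finset.sum_mul_sum]
    rw [h9, Complex.mul_conj, Complex.ofReal_re, Complex.normSq_eq_norm_sq]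
  have hge : b x + ε ≤ (∑ p ∈ Q, ∑ q ∈ Q, ∫ z, f p z.1 * conj (f q z.2) ∂ρ p q).re := by
    refine ge_of_tendsto hlim (Eventually.of_forall fun j => ?_)
    have h5 := hlt j x
    have h6 : (0 : ℝ) < ((N j + 1 : ℕ) : ℝ) := by positivity
    rw [inv_mul_eq_div, le_div_iff₀ h6]
    exact h5.le
  linarith

end Pool.Agent.Lib.MP_9fe581_an.TW
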