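import Pool.Agent.Lib.MP_9fe581_an.TW.Bridge
import Pool.Agent.Lib.MP_9fe581_an.TW.EigY
import Pool.Agent.Lib.MP_9fe581_an.TW.M1Int
import Pool.Agent.Lib.MP_9fe581_an.TW.M2Int
import Pool.Agent.Lib.MP_9fe581_an.TW.Inv
import Pool.Agent.Lib.MP_9fe581_an.TW.Lim
import Pool.Agent.Lib.MP_9fe581_an.TW.Form
import Pool.Agent.Lib.MP_9fe581_an.TW.Sieve
import Pool.Agent.Lib.MP_9fe581_an.TW.Win

/-!
# TW, module P7: property (P) for the circle extensions of rotations
-/

set_option autoImplicit false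
set_option linter.unusedSectionVars false

open Finset MeasureTheory Filter Topology
open scoped ComplexConjugate Matrix

namespace Pool.Agent.Lib.MP_9fe581_an.TW

open Pool.Agent.Lib.MP_9fe581_an.HT (TX mX ch ptq)
open Pool.Agent.Lib.MP_9fe581_an.FT (ec)

variable {κ : Type} [Fintype κ] [DecidableEq κ] {α : TX κ} {φ : TX κ → UnitAddCircle}

private theorem MM_zero (α : TX κ) (φ : TX κ → UnitAddCircle) (q : ℕ) (m : Measure (YY κ × YY κ)) :
    m ∈ MM α φ 0 q ↔ q.Prime ∧ ∃ (g : ℤ) (h : TX κ → TX κ → UnitAddCircle), GH α φ q g h ∧ (g = 0 ∨ NoEig α φ) ∧ m = m1 q g h := by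
  unfold MM
  rw [if_pos rfl]
  rfl

private theorem MM_one (α : TX κ) (φ : TX κ → UnitAddCircle) (q : ℕ) (m : Measure (YY κ × YY κ)) :
    m ∈ MM α φ 1 q ↔ q.Prime ∧ m = m2 q := by
  unfold MM
  rw [if_neg (by decide)]
  rfl

private theorem LL_zero : (LL 0 : Measure (YY κ × YY κ)) = mi1 := by
  unfold LL
  rw [if_pos rfl]

private theorem LL_one : (LL 1 : Measure (YY κ × YY κ)) = mi2 := by
  unfold LL
  rw [if_neg (by decide)]

/-- the function `f ⊗ conj f` -/
private noncomputable def ten (f : C(YY κ, ℂ)) : C(YY κ × YY κ, ℂ) :=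
  ⟨fun z => f z.1 * conj (f z.2), (f.continuous.comp continuous_fst).mul
    (Complex.continuous_conj.comp (f.continuous.comp continuous_snd))⟩

private theorem KK_cl (p q : ℕ) : IsClosed {w : YY κ × YY κ × YY κ | w.2 ∈ KK w.1.1 p q} := by
  unfold KK
  have h1 : Continuous fun w : YY κ × YY κ × YY κ => q • (w.2.1.1 - w.1.1) := by fun_prop
  have h2 : Continuous fun w : YY κ × YY κ × YY κ => p • (w.2.2.1 - w.1.1) := by fun_prop
  exact isClosed_eq h1 h2

theorem baseQ (hα : Irr α) (hφ : Continuous φ) (hE : ErgF α φ) : HX.BaseQ (SS α φ) (mY κ) (MM α φ) LL 0 where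
  cont := SS_cont hφ
  prob := inferInstance
  mp := SS_pres hφ
  C0_nonneg := le_rfl
  lprob i q m hm := by
    fin_cases i
    · obtain ⟨hq, g, h, hG, _, rfl⟩ := (MM_zero α φ q m).1 hm
      exact m1_prob hq.pos g hG.meas
    · obtain ⟨hq, rfl⟩ := (MM_one α φ q m).1 hm
      exact m2_prob hq.pos
  linv i q m hm := by
    fin_cases i
    · obtain ⟨hq, g, h, hG, _, rfl⟩ := (MM_zero α φ q m).1 hm
      exact m1_inv hφ hq.pos hG
    · obtain ⟨hq, rfl⟩ := (MM_one α φ q m).1 hm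
      exact m2_inv hφ hq.pos
  iprob i := by
    fin_cases i
    · show IsProbabilityMeasure (LL 0 : Measure (YY κ × YY κ))
      rw [LL_zero]
      exact mi1_prob
    · show IsProbabilityMeasure (LL 1 : Measure (YY κ × YY κ))
      rw [LL_one]
      exact mi2_prob
  iinv i := by
    fin_cases i
    · show MeasurePreserving (Prod.map (SS α φ) (SS α φ)) (LL 0 : Measure (YY κ × YY κ)) (LL 0)
      rw [LL_zero]
      exact mi1_inv hφ
    · show MeasurePreserving (Prod.map (SS α φ) (SS α φ)) (LL 1 : Measure (YY κ × YY κ)) (LL 1)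
      rw [LL_one]
      exact mi2_inv hφ
  pos i q m hm f := by
    fin_cases i
    · obtain ⟨hq, g, h, hG, _, rfl⟩ := (MM_zero α φ q m).1 hm
      show HX.jq (LL 0) f ≤ _
      rw [LL_zero]
      exact pos1 hq.pos hG f
    · obtain ⟨hq, rfl⟩ := (MM_one α φ q m).1 hm
      show HX.jq (LL 1) f ≤ _
      rw [LL_one]
      exact pos2 hq.pos f
  lim i f ε hε := by
    have key : ∀ (m m' : Measure (YY κ × YY κ)), ‖∫ z, ten f z ∂m - ∫ z, ten f z ∂m'‖ ≤ ε → HX.jq m f ≤ HX.jq m' f + ε := by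
      intro m m' h
      have h1 : (∫ z, ten f z ∂m - ∫ z, ten f z ∂m').re ≤ ε := (Complex.re_le_norm _).trans h
      rw [Complex.sub_re] at h1
      have h2 : HX.jq m f = (∫ z, ten f z ∂m).re := rfl
      have h3 : HX.jq m' f = (∫ z, ten f z ∂m').re := rfl
      rw [h2, h3]
      linarith
    fin_cases i
    · obtain ⟨q0, hq0⟩ := lim_m1 hα hφ (ten f) ε hε
      refine ⟨q0, fun q hq m hm => ?_⟩
      obtain ⟨_, g, h, hG, hg, rfl⟩ := (MM_zero α φ q m).1 hm
      show _ ≤ HX.jq (LL 0) f + ε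
      rw [LL_zero]
      exact key _ _ (hq0 q hq g h hG hg)
    · obtain ⟨q0, hq0⟩ := lim_m2 (ten f) ε hε
      refine ⟨q0, fun q hq m hm => ?_⟩
      obtain ⟨_, rfl⟩ := (MM_one α φ q m).1 hm
      show _ ≤ HX.jq (LL 1) f + ε
      rw [LL_one]
      exact key _ _ (hq0 q hq)
  P Q hQ f B hB ε hε := by
    classical
    have hcov : ∀ (x : TX κ) (q : ℕ), ∃ (g : ℤ) (h : TX κ → TX κ → UnitAddCircle), q.Prime → Cov α φ x q g h := by
      intro x q
      by_cases hq : q.Prime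
      · obtain ⟨g, h, hc⟩ := cov_exists hα hφ hE hq x
        exact ⟨g, h, fun _ => hc⟩
      · exact ⟨0, fun _ _ => 0, fun h => absurd h hq⟩
    choose g h hgh using hcov
    obtain ⟨M0, hM0⟩ := win_joint (SS α φ) (SS_cont hφ) Q f (fun x p q => KK x.1 p q) KK_cl (by
      intro x p q k
      show q • (((SS α φ)^[p * k] x).1 - x.1) = p • (((SS α φ)^[q * k] x).1 - x.1)
      rw [SS_iter, SS_iter]
      show q • (x.1 + (p * k) • α - x.1) = p • (x.1 + (q * k) • α - x.1)
      rw [add_sub_cancel_left, add_sub_cancel_left, smul_smul, smul_smul]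
      congr 1
      ring)
      (fun x => ‖∑ p ∈ Q, ∫ z, f p z ∂mY κ‖ ^ 2 + Q.card * B ^ 2 + ∑ p ∈ Q, ∑ q ∈ Q,
        ((HX.jq (m1 q (g x.1 q) (h x.1 q)) (f p) - HX.jq mi1 (f p)) + (HX.jq (m2 q) (f p) - HX.jq mi2 (f p))))
      (fun x ρ hρ => sieve hα hφ hE x.1 Q hQ (g x.1) (h x.1) (fun q hq => hgh x.1 q (hQ q hq)) f B hB ρ hρ) ε hε
    refine ⟨M0, fun M hM M1 y => ?_⟩
    obtain ⟨x, hx⟩ := hM0 M hM M1 y
    refine ⟨fun i q => if i = 0 then m1 q (g x.1 q) (h x.1 q) else m2 q, fun i q hq => ?_, ?_⟩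
    · have hqp := hQ q hq
      have hc := hgh x.1 q hqp
      fin_cases i
      · show (if (0 : Fin 2) = 0 then m1 q (g x.1 q) (h x.1 q) else m2 q) ∈ MM α φ 0 q
        rw [if_pos rfl, MM_zero]
        exact ⟨hqp, g x.1 q, h x.1 q, hc.gh, hc.eig, rfl⟩
      · show (if (1 : Fin 2) = 0 then m1 q (g x.1 q) (h x.1 q) else m2 q) ∈ MM α φ 1 q
        rw [if_neg (by decide), MM_one]
        exact ⟨hqp, rfl⟩
    · refine hx.trans (le_of_eq ?_)
      rw [zero_mul, zero_mul, zero_mul, add_zero]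
      congr 3
      refine Finset.sum_congr rfl fun p _ => ?_
      rw [Finset.sum_comm]
      refine Finset.sum_congr rfl fun q _ => ?_
      rw [Fin.sum_univ_two, LL_zero, LL_one]
      simp only [if_true, one_ne_zero, if_false]

end Pool.Agent.Lib.MP_9fe581_an.TW
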