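import Pool.Agent.Lib.MP_9fe581_an.TW.Rot
import Pool.Agent.Lib.MP_9fe581_an.TW.Tor
import Pool.Agent.Lib.MP_9fe581_an.TW.Eo
import Pool.Agent.Lib.MP_9fe581_an.TW.TMarg

/-! TW, row P3: the bound of the resonant integrals by the averaging operators of the lifts.  `bd_left`: translate by the
`q`-torsion points; `pair_bd`: both sides, then Cauchy - Schwarz; `pair_zero`: the modules `k = l = 0`. -/

set_option autoImplicit false
set_option linter.unusedSectionVars false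

open Finset MeasureTheory Filter Topology
open scoped ComplexConjugate Matrix

namespace Pool.Agent.Lib.MP_9fe581_an.TW

open Pool.Agent.Lib.MP_9fe581_an.HT (TX mX ch ptq)
open Pool.Agent.Lib.MP_9fe581_an.FT (ec)

variable {κ : Type} [Fintype κ] [DecidableEq κ] {α : TX κ} {φ : TX κ → UnitAddCircle}

private theorem aff_meas (x0 : TX κ) (n : ℕ) : Measurable fun t : TX κ => x0 + n • t :=
  (continuous_const.add (continuous_id.nsmul n)).measurable

private theorem int_bdd {g : TX κ → ℂ} (hg : Measurable g) (c : ℝ) (hc : ∀ x, ‖g x‖ ≤ c) : Integrable g (mX κ) :=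
  Integrable.of_bound hg.aestronglyMeasurable c (ae_of_all _ hc)

private theorem int_sq {g : TX κ → ℂ} (hg : Measurable g) (c : ℝ) (hc : ∀ x, ‖g x‖ ≤ c) :
    Integrable (fun x => ‖g x‖ ^ 2) (mX κ) := by
  refine Integrable.of_bound (hg.norm.pow_const 2).aestronglyMeasurable (c ^ 2) (ae_of_all _ fun x => ?_)
  rw [Real.norm_of_nonneg (sq_nonneg _)]
  exact pow_le_pow_left₀ (norm_nonneg _) (hc x) 2

private theorem ec_meas {A : TX κ → UnitAddCircle} (hA : Measurable A) : Measurable fun t => ec (A t) :=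
  FT.continuous_ec.measurable.comp hA

private theorem res_symm {x0 : TX κ} {p q : ℕ} {k l : ℤ} {A : TX κ → UnitAddCircle} (h : ResF α φ x0 p q k l A) :
    ResF α φ x0 q p l k (fun t => -A t) := by
  refine ⟨h.1.neg, ?_⟩
  filter_upwards [h.2] with t ht
  have e1 : -A (t + α) - -A t = -(A (t + α) - A t) := by abel
  rw [e1, ht]
  unfold rc
  abel

theorem bd_left (hα : Irr α) {p q : ℕ} (hp : 0 < p) (hq : 0 < q) (hpq : p.Coprime q) (x0 : TX κ)
    {h : TX κ → TX κ → UnitAddCircle} (hh : ∀ s, Measurable (h s)) (m : ℤ) (A : TX κ → UnitAddCircle) (hA : Measurable A)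
    (hs : ∀ s, q • s = 0 → ∀ᵐ t ∂mX κ, m • h (p • s) (x0 + p • t) = A (t + s) - A t)
    (f u : TX κ → ℂ) (hf : Measurable f) (c : ℝ) (hc : ∀ x, ‖f x‖ ≤ c) (hu : Measurable u) (hcu : ∀ x, ‖u x‖ ≤ c)
    (hus : ∀ t s, q • s = 0 → u (t + s) = u t) :
    ∫ t, f (x0 + p • t) * u t * ec (A t) ∂mX κ = ∫ t, Eo q h m f (x0 + p • t) * u t * ec (A t) ∂mX κ := by
  -- the function of `s`
  set G : TX κ → TX κ → ℂ := fun t s => f (x0 + p • t + s) * ec (m • h s (x0 + p • t)) with hG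
  have hGm : ∀ s, Measurable fun t => G t s := fun s =>
    (hf.comp ((aff_meas x0 p).add_const s)).mul (ec_meas (((hh s).comp (aff_meas x0 p)).const_smul m))
  have hGc : ∀ t s, ‖G t s‖ ≤ c := fun t s => by
    simp only [hG]
    rw [norm_mul, FT.norm_ec, mul_one]
    exact hc _
  have hc0 : 0 ≤ c := (norm_nonneg _).trans (hc 0)
  have hI : ∀ s, Integrable (fun t => G t s * u t * ec (A t)) (mX κ) := fun s => by
    refine int_bdd (((hGm s).mul hu).mul (ec_meas hA)) (c * c) fun t => ?_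
    rw [norm_mul, FT.norm_ec, mul_one, norm_mul]
    exact mul_le_mul (hGc t s) (hcu t) (norm_nonneg _) hc0
  have key : ∀ s : TX κ, q • s = 0 → ∫ t, f (x0 + p • t) * u t * ec (A t) ∂mX κ =
      ∫ t, G t (p • s) * u t * ec (A t) ∂mX κ := fun s hs0 => by
    rw [← integral_add_right_eq_self (μ := mX κ) (fun t => f (x0 + p • t) * u t * ec (A t)) s]
    refine integral_congr_ae ?_
    filter_upwards [hs s hs0] with t ht
    have e1 : A (t + s) = m • h (p • s) (x0 + p • t) + A t := by rw [ht]; abel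
    simp only [hG]
    rw [hus t s hs0, e1, FT.ec_add, smul_add, ← add_assoc]
    ring
  have hN : ((q : ℂ) ^ Fintype.card κ) ≠ 0 := pow_ne_zero _ (by exact_mod_cast hq.ne')
  have e2 : (q : ℂ) ^ Fintype.card κ * ∫ t, f (x0 + p • t) * u t * ec (A t) ∂mX κ =
      ∫ t, (∑ i : κ → Fin q, G t (ptq q i)) * u t * ec (A t) ∂mX κ := by
    calc (q : ℂ) ^ Fintype.card κ * ∫ t, f (x0 + p • t) * u t * ec (A t) ∂mX κ =
        ∑ i : κ → Fin q, ∫ t, f (x0 + p • t) * u t * ec (A t) ∂mX κ := by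
          rw [Finset.sum_const, Finset.card_univ, Fintype.card_pi, nsmul_eq_mul]
          simp
      _ = ∑ i : κ → Fin q, ∫ t, G t (p • ptq q i) * u t * ec (A t) ∂mX κ :=
          Finset.sum_congr rfl fun i _ => key _ (tor_ptq q hq i)
      _ = ∫ t, ∑ i : κ → Fin q, G t (p • ptq q i) * u t * ec (A t) ∂mX κ :=
          (integral_finsetSum _ fun i _ => hI _).symm
      _ = _ := by
          refine integral_congr_ae (ae_of_all _ fun t => ?_)
          simp only
          rw [← Finset.sum_mul, ← Finset.sum_mul, sum_mul p q hq hpq (G t)]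
  have e3 : ∀ t, Eo q h m f (x0 + p • t) = (1 / (q : ℂ) ^ Fintype.card κ) * ∑ i : κ → Fin q, G t (ptq q i) :=
    fun t => rfl
  simp_rw [e3]
  have e4 : ∀ t, (1 / (q : ℂ) ^ Fintype.card κ) * (∑ i : κ → Fin q, G t (ptq q i)) * u t * ec (A t) =
      (1 / (q : ℂ) ^ Fintype.card κ) * ((∑ i : κ → Fin q, G t (ptq q i)) * u t * ec (A t)) := fun t => by ring
  simp_rw [e4]
  rw [integral_const_mul, ← e2]
  field_simp

/-- Cauchy - Schwarz -/
private theorem cs_bd {p q : ℕ} (hp : 0 < p) (hq : 0 < q) (x0 : TX κ) (a b : TX κ → ℂ) (A : TX κ → UnitAddCircle)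
    (ha : Measurable a) (hb : Measurable b) (c : ℝ) (hca : ∀ x, ‖a x‖ ≤ c) (hcb : ∀ x, ‖b x‖ ≤ c) :
    ‖∫ t, a (x0 + p • t) * conj (b (x0 + q • t)) * ec (A t) ∂mX κ‖ ≤
      (∫ x, ‖a x‖ ^ 2 ∂mX κ + ∫ x, ‖b x‖ ^ 2 ∂mX κ) / 2 := by
  have i1 : Integrable (fun t => ‖a (x0 + p • t)‖ ^ 2) (mX κ) :=
    int_sq (ha.comp (aff_meas x0 p)) c fun t => hca _
  have i2 : Integrable (fun t => ‖b (x0 + q • t)‖ ^ 2) (mX κ) :=
    int_sq (hb.comp (aff_meas x0 q)) c fun t => hcb _
  have m1 : ∫ t, ‖a (x0 + p • t)‖ ^ 2 ∂mX κ = ∫ x, ‖a x‖ ^ 2 ∂mX κ := by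
    have h1 := (affine_pres x0 p hp).map_eq
    conv_rhs => rw [← h1]
    rw [integral_map (aff_meas x0 p).aemeasurable (ha.norm.pow_const 2).aestronglyMeasurable]
  have m2 : ∫ t, ‖b (x0 + q • t)‖ ^ 2 ∂mX κ = ∫ x, ‖b x‖ ^ 2 ∂mX κ := by
    have h1 := (affine_pres x0 q hq).map_eq
    conv_rhs => rw [← h1]
    rw [integral_map (aff_meas x0 q).aemeasurable (hb.norm.pow_const 2).aestronglyMeasurable]
  rw [← m1, ← m2, ← integral_add i1 i2, ← integral_div]
  refine norm_integral_le_of_norm_le ((i1.add i2).div_const 2) (ae_of_all _ fun t => ?_)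
  rw [norm_mul, FT.norm_ec, mul_one, norm_mul, RCLike.norm_conj]
  nlinarith [sq_nonneg (‖a (x0 + p • t)‖ - ‖b (x0 + q • t)‖)]

private theorem conj_flip (x0 : TX κ) (p q : ℕ) (a b : TX κ → ℂ) (A : TX κ → UnitAddCircle) :
    ∫ t, a (x0 + p • t) * conj (b (x0 + q • t)) * ec (A t) ∂mX κ =
      conj (∫ t, b (x0 + q • t) * conj (a (x0 + p • t)) * ec (-A t) ∂mX κ) := by
  rw [← integral_conj]
  refine integral_congr_ae (ae_of_all _ fun t => ?_)
  simp only
  rw [FT.ec_neg, map_mul, map_mul, Complex.conj_conj, Complex.conj_conj]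
  ring

private theorem cont_bdd {f : TX κ → ℂ} (hf : Continuous f) : ∃ c, ∀ x, ‖f x‖ ≤ c := by
  obtain ⟨c, hc⟩ := isCompact_univ.exists_bound_of_continuousOn hf.continuousOn
  exact ⟨c, fun x => hc x (Set.mem_univ x)⟩

private theorem per_u {q : ℕ} (x0 : TX κ) (b : TX κ → ℂ) (t s : TX κ) (hs : q • s = 0) :
    conj (b (x0 + q • (t + s))) = conj (b (x0 + q • t)) := by
  rw [smul_add, hs, add_zero]

theorem pair_bd (hα : Irr α) (hφ : Continuous φ) {p q : ℕ} (hp : p.Prime) (hq : q.Prime) (hpq : p ≠ q) (x0 : TX κ)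
    {g g' : ℤ} {h h' : TX κ → TX κ → UnitAddCircle} (hG : Cov α φ x0 q g h) (hG' : Cov α φ x0 p g' h')
    {k l : ℤ} {A : TX κ → UnitAddCircle} (hA : ResF α φ x0 p q k l A) (hk : k ≠ 0) (hl : l ≠ 0)
    (f f' : TX κ → ℂ) (hf : Continuous f) (hf' : Continuous f') :
    ‖∫ t, f (x0 + p • t) * conj (f' (x0 + q • t)) * ec (A t) ∂mX κ‖ ≤
      ((if (q : ℤ) ∣ k then ∫ x, ‖f x‖ ^ 2 ∂mX κ else if g ∣ k then ∫ x, ‖Eo q h (k / g) f x‖ ^ 2 ∂mX κ else 0) +
        (if (p : ℤ) ∣ l then ∫ x, ‖f' x‖ ^ 2 ∂mX κ else if g' ∣ l then ∫ x, ‖Eo p h' (l / g') f' x‖ ^ 2 ∂mX κ else 0)) / 2 := by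
  have hco : p.Coprime q := (Nat.coprime_primes hp hq).mpr hpq
  obtain ⟨c1, hc1⟩ := cont_bdd hf
  obtain ⟨c2, hc2⟩ := cont_bdd hf'
  set c := max c1 c2 with hcdef
  have hcf : ∀ x, ‖f x‖ ≤ c := fun x => (hc1 x).trans (le_max_left _ _)
  have hcf' : ∀ x, ‖f' x‖ ≤ c := fun x => (hc2 x).trans (le_max_right _ _)
  have hAm : Measurable A := hA.1
  -- the first side
  have s1 : ∃ a : TX κ → ℂ, Measurable a ∧ (∀ x, ‖a x‖ ≤ c) ∧
      (∫ x, ‖a x‖ ^ 2 ∂mX κ = if (q : ℤ) ∣ k then ∫ x, ‖f x‖ ^ 2 ∂mX κ else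
        if g ∣ k then ∫ x, ‖Eo q h (k / g) f x‖ ^ 2 ∂mX κ else 0) ∧
      ∫ t, f (x0 + p • t) * conj (f' (x0 + q • t)) * ec (A t) ∂mX κ =
        ∫ t, a (x0 + p • t) * conj (f' (x0 + q • t)) * ec (A t) ∂mX κ := by
    by_cases hqk : (q : ℤ) ∣ k
    · exact ⟨f, hf.measurable, hcf, by rw [if_pos hqk], rfl⟩
    · obtain ⟨m, hm, hs⟩ := hG.res p hp.pos hco k l A hA hqk
      have hg0 : g ≠ 0 := by
        rintro rfl
        exact hk (by rw [hm, mul_zero])
      have hkg : k / g = m := by rw [hm, Int.mul_ediv_cancel _ hg0]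
      refine ⟨Eo q h m f, Eo_meas hG.gh.meas m f hf.measurable, Eo_le hq.pos m f c hcf, ?_, ?_⟩
      · rw [if_neg hqk, if_pos (Dvd.intro_left m hm.symm), hkg]
      · exact bd_left hα hp.pos hq.pos hco x0 hG.gh.meas m A hAm hs f (fun t => conj (f' (x0 + q • t))) hf.measurable c hcf
          (Complex.continuous_conj.measurable.comp (hf'.measurable.comp (aff_meas x0 q)))
          (fun t => by rw [RCLike.norm_conj]; exact hcf' _) fun t s hs0 => per_u x0 f' t s hs0
  obtain ⟨a, ham, hca, hsa, hea⟩ := s1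
  -- the second side
  have s2 : ∃ b : TX κ → ℂ, Measurable b ∧ (∀ x, ‖b x‖ ≤ c) ∧
      (∫ x, ‖b x‖ ^ 2 ∂mX κ = if (p : ℤ) ∣ l then ∫ x, ‖f' x‖ ^ 2 ∂mX κ else
        if g' ∣ l then ∫ x, ‖Eo p h' (l / g') f' x‖ ^ 2 ∂mX κ else 0) ∧
      ∫ t, f' (x0 + q • t) * conj (a (x0 + p • t)) * ec (-A t) ∂mX κ =
        ∫ t, b (x0 + q • t) * conj (a (x0 + p • t)) * ec (-A t) ∂mX κ := by
    by_cases hpl : (p : ℤ) ∣ l
    · exact ⟨f', hf'.measurable, hcf', by rw [if_pos hpl], rfl⟩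
    · obtain ⟨m, hm, hs⟩ := hG'.res q hq.pos hco.symm l k (fun t => -A t) (res_symm hA) hpl
      have hg0 : g' ≠ 0 := by
        rintro rfl
        exact hl (by rw [hm, mul_zero])
      have hlg : l / g' = m := by rw [hm, Int.mul_ediv_cancel _ hg0]
      refine ⟨Eo p h' m f', Eo_meas hG'.gh.meas m f' hf'.measurable, Eo_le hp.pos m f' c hcf', ?_, ?_⟩
      · rw [if_neg hpl, if_pos (Dvd.intro_left m hm.symm), hlg]
      · exact bd_left hα hq.pos hp.pos hco.symm x0 hG'.gh.meas m (fun t => -A t) hAm.neg hs f' (fun t => conj (a (x0 + p • t)))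
          hf'.measurable c hcf' (Complex.continuous_conj.measurable.comp (ham.comp (aff_meas x0 p)))
          (fun t => by rw [RCLike.norm_conj]; exact hca _) fun t s hs0 => per_u x0 a t s hs0
  obtain ⟨b, hbm, hcb, hsb, heb⟩ := s2
  rw [hea, conj_flip, heb, ← conj_flip, ← hsa, ← hsb]
  exact cs_bd hp.pos hq.pos x0 a b A ham hbm c hca hcb

/-- the modules `k = l = 0` -/
theorem pair_zero (hα : Irr α) (hφ : Continuous φ) {p q : ℕ} (hp : p.Prime) (hq : q.Prime) (hpq : p ≠ q) (x0 : TX κ)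
    (h h' : TX κ → TX κ → UnitAddCircle) (ρ : Measure (YY κ × YY κ)) [IsProbabilityMeasure ρ]
    (hρ : MeasurePreserving (Prod.map (SS α φ)^[p] (SS α φ)^[q]) ρ ρ) (hK : ρ (KK x0 p q)ᶜ = 0)
    (f f' : TX κ → ℂ) (hf : Continuous f) (hf' : Continuous f') :
    ‖∫ z, pf f 0 z.1 * conj (pf f' 0 z.2) ∂ρ - (∫ x, f x ∂mX κ) * conj (∫ x, f' x ∂mX κ)‖ ≤
      (∫ x, ‖Eo q h 0 (fun x => f x - ∫ y, f y ∂mX κ) x‖ ^ 2 ∂mX κ +
        ∫ x, ‖Eo p h' 0 (fun x => f' x - ∫ y, f' y ∂mX κ) x‖ ^ 2 ∂mX κ) / 2 := by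
  have hco : p.Coprime q := (Nat.coprime_primes hp hq).mpr hpq
  obtain ⟨a, b, hab⟩ : IsCoprime (p : ℤ) (q : ℤ) := Nat.isCoprime_iff_coprime.mpr hco
  have hae : ∀ᵐ z ∂ρ, z ∈ KK x0 p q := mem_ae_iff.mpr hK
  have hpf : ∀ (f : TX κ → ℂ) (z : YY κ), pf f 0 z = f z.1 := fun f z => by
    unfold pf
    rw [zero_smul, FT.ec_zero, mul_one]
  set m : ℂ := ∫ x, f x ∂mX κ with hm
  set m' : ℂ := ∫ x, f' x ∂mX κ with hm'
  -- the parameter
  have htm : Measurable (tpar x0 a b : YY κ × YY κ → TX κ) := by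
    have h1 : Measurable fun w : TX κ => a • (w - x0) := ((continuous_id.sub continuous_const).zsmul a).measurable
    have h2 : Measurable fun w : TX κ => b • (w - x0) := ((continuous_id.sub continuous_const).zsmul b).measurable
    exact (h1.comp (measurable_fst.comp measurable_fst)).add (h2.comp (measurable_fst.comp measurable_snd))
  have e1 : ∫ z, pf f 0 z.1 * conj (pf f' 0 z.2) ∂ρ = ∫ t, f (x0 + p • t) * conj (f' (x0 + q • t)) ∂mX κ := by
    rw [← tmarg hα hφ a b hab x0 ρ hρ, integral_map htm.aemeasurable]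
    · refine integral_congr_ae ?_
      filter_upwards [hae] with z hz
      obtain ⟨h1, h2⟩ := tpar_KK a b hab x0 z hz
      rw [hpf, hpf, ← h1, ← h2]
    · exact ((hf.measurable.comp (aff_meas x0 p)).mul
        (Complex.continuous_conj.measurable.comp (hf'.measurable.comp (aff_meas x0 q)))).aestronglyMeasurable
  -- subtract the means
  set f0 : TX κ → ℂ := fun x => f x - m with hf0
  set f0' : TX κ → ℂ := fun x => f' x - m' with hf0'
  have hf0c : Continuous f0 := hf.sub continuous_const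
  have hf0c' : Continuous f0' := hf'.sub continuous_const
  have c1 : Integrable (fun t => f0 (x0 + p • t)) (mX κ) := by
    obtain ⟨c, hc⟩ := cont_bdd hf0c
    exact int_bdd (hf0c.measurable.comp (aff_meas x0 p)) c fun t => hc _
  have c2 : Integrable (fun t => conj (f0' (x0 + q • t))) (mX κ) := by
    obtain ⟨c, hc⟩ := cont_bdd hf0c'
    exact int_bdd (Complex.continuous_conj.measurable.comp (hf0c'.measurable.comp (aff_meas x0 q))) c fun t => by
      rw [RCLike.norm_conj]; exact hc _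
  have c3 : Integrable (fun t => f0 (x0 + p • t) * conj (f0' (x0 + q • t))) (mX κ) := by
    obtain ⟨c, hc⟩ := cont_bdd hf0c
    obtain ⟨c', hc'⟩ := cont_bdd hf0c'
    refine int_bdd ((hf0c.measurable.comp (aff_meas x0 p)).mul
      (Complex.continuous_conj.measurable.comp (hf0c'.measurable.comp (aff_meas x0 q)))) (c * c') fun t => ?_
    rw [norm_mul, RCLike.norm_conj]
    exact mul_le_mul (hc _) (hc' _) (norm_nonneg _) ((norm_nonneg _).trans (hc 0))
  have z1 : ∫ t, f0 (x0 + p • t) ∂mX κ = 0 := by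
    have h1 := (affine_pres x0 p hp.pos (κ := κ)).map_eq
    have h2 : ∫ x, f0 x ∂mX κ = ∫ t, f0 (x0 + p • t) ∂mX κ := by
      conv_lhs => rw [← h1]
      rw [integral_map (aff_meas x0 p).aemeasurable hf0c.measurable.aestronglyMeasurable]
    rw [← h2]
    simp only [hf0]
    obtain ⟨c, hc⟩ := cont_bdd hf
    rw [integral_sub (int_bdd hf.measurable c hc) (integrable_const _), integral_const, probReal_univ, one_smul, ← hm, sub_self]
  have z2 : ∫ t, conj (f0' (x0 + q • t)) ∂mX κ = 0 := by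
    rw [integral_conj]
    have h1 := (affine_pres x0 q hq.pos (κ := κ)).map_eq
    have h2 : ∫ x, f0' x ∂mX κ = ∫ t, f0' (x0 + q • t) ∂mX κ := by
      conv_lhs => rw [← h1]
      rw [integral_map (aff_meas x0 q).aemeasurable hf0c'.measurable.aestronglyMeasurable]
    rw [← h2]
    simp only [hf0']
    obtain ⟨c, hc⟩ := cont_bdd hf'
    rw [integral_sub (int_bdd hf'.measurable c hc) (integrable_const _), integral_const, probReal_univ, one_smul, ← hm', sub_self,
      map_zero]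
  have e2 : ∫ t, f (x0 + p • t) * conj (f' (x0 + q • t)) ∂mX κ =
      ∫ t, f0 (x0 + p • t) * conj (f0' (x0 + q • t)) ∂mX κ + m * conj m' := by
    have h1 : ∀ t, f (x0 + p • t) * conj (f' (x0 + q • t)) =
        f0 (x0 + p • t) * conj (f0' (x0 + q • t)) + f0 (x0 + p • t) * conj m' + m * conj (f0' (x0 + q • t)) + m * conj m' := by
      intro t
      simp only [hf0, hf0', map_sub]
      ring
    have d1 : Integrable (fun t => f0 (x0 + p • t) * conj m') (mX κ) := c1.mul_const _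
    have d2 : Integrable (fun t => m * conj (f0' (x0 + q • t))) (mX κ) := c2.const_mul _
    have d3 : Integrable (fun t => f0 (x0 + p • t) * conj (f0' (x0 + q • t)) + f0 (x0 + p • t) * conj m') (mX κ) := c3.add d1
    have d4 : Integrable (fun t => f0 (x0 + p • t) * conj (f0' (x0 + q • t)) + f0 (x0 + p • t) * conj m' +
      m * conj (f0' (x0 + q • t))) (mX κ) := d3.add d2
    simp_rw [h1]
    rw [integral_add d4 (integrable_const _), integral_add d3 d2, integral_add c3 d1, integral_mul_const,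
      integral_const_mul, z1, z2, integral_const, probReal_univ, one_smul, zero_mul, mul_zero, add_zero, add_zero]
  rw [e1, e2, add_sub_cancel_right]
  -- the bound
  obtain ⟨c1', hc1⟩ := cont_bdd hf0c
  obtain ⟨c2', hc2⟩ := cont_bdd hf0c'
  set c := max c1' c2' with hcdef
  have hcf : ∀ x, ‖f0 x‖ ≤ c := fun x => (hc1 x).trans (le_max_left _ _)
  have hcf' : ∀ x, ‖f0' x‖ ≤ c := fun x => (hc2 x).trans (le_max_right _ _)
  set hz : TX κ → TX κ → UnitAddCircle := fun _ _ => 0 with hhz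
  have hzm : ∀ s, Measurable (hz s) := fun s => measurable_const
  have hE1 : ∀ x, Eo q h 0 f0 x = Eo q hz 0 f0 x := fun x => by rw [Eo_zero hq.pos, Eo_zero hq.pos]
  have hE2 : ∀ x, Eo p h' 0 f0' x = Eo p hz 0 f0' x := fun x => by rw [Eo_zero hp.pos, Eo_zero hp.pos]
  simp_rw [hE1, hE2]
  have b1 := bd_left hα hp.pos hq.pos hco x0 hzm 0 (fun _ => 0) measurable_const
    (fun s _ => ae_of_all _ fun t => by simp) f0 (fun t => conj (f0' (x0 + q • t))) hf0c.measurable c hcf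
    (Complex.continuous_conj.measurable.comp (hf0c'.measurable.comp (aff_meas x0 q)))
    (fun t => by rw [RCLike.norm_conj]; exact hcf' _) fun t s hs0 => per_u x0 f0' t s hs0
  have ham : Measurable (Eo q hz 0 f0) := Eo_meas hzm 0 f0 hf0c.measurable
  have hca : ∀ x, ‖Eo q hz 0 f0 x‖ ≤ c := Eo_le hq.pos 0 f0 c hcf
  have b2 := bd_left hα hq.pos hp.pos hco.symm x0 hzm 0 (fun _ => 0) measurable_const
    (fun s _ => ae_of_all _ fun t => by simp) f0' (fun t => conj (Eo q hz 0 f0 (x0 + p • t))) hf0c'.measurable c hcf'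
    (Complex.continuous_conj.measurable.comp (ham.comp (aff_meas x0 p)))
    (fun t => by rw [RCLike.norm_conj]; exact hca _) fun t s hs0 => per_u x0 _ t s hs0
  have b3 := conj_flip x0 p q (Eo q hz 0 f0) f0' (fun _ => 0)
  have b4 := conj_flip x0 p q (Eo q hz 0 f0) (Eo p hz 0 f0') (fun _ => 0)
  simp only [neg_zero] at b3 b4
  have b5 : ∫ t, f0 (x0 + p • t) * conj (f0' (x0 + q • t)) ∂mX κ =
      ∫ t, f0 (x0 + p • t) * conj (f0' (x0 + q • t)) * ec (0 : UnitAddCircle) ∂mX κ := by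
    simp only [FT.ec_zero, mul_one]
  rw [b5, b1, b3, b2, ← b4]
  exact cs_bd hp.pos hq.pos x0 _ _ _ ham (Eo_meas hzm 0 f0' hf0c'.measurable) c hca (Eo_le hp.pos 0 f0' c hcf')

end Pool.Agent.Lib.MP_9fe581_an.TW
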