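import Pool.Agent.Lib.MP_9fe581_an.TW.Defs
import Pool.Agent.Lib.MP_9fe581_an.HT.Base

/-!
# TW / ErgCons (row G2): consequences of ergodicity of a group extension of the circle extension `SS α φ`
-/

set_option autoImplicit false
set_option linter.unusedSectionVars false
set_option linter.unusedVariables false

open Finset MeasureTheory Filter Topology
open scoped ComplexConjugate Matrix

namespace Pool.Agent.Lib.MP_9fe581_an.TW

open Pool.Agent.Lib.MP_9fe581_an.HT (TX mX ch ptq)
open Pool.Agent.Lib.MP_9fe581_an.FT (ec)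

section tower

variable {κ : Type} [Fintype κ] [DecidableEq κ] {α : TX κ} {φ : TX κ → UnitAddCircle}
  {G : Type} [Group G] [TopologicalSpace G] [IsTopologicalGroup G]
  [CompactSpace G] [T2Space G] [SecondCountableTopology G] [MeasurableSpace G] [BorelSpace G]
  {μ : Measure G} [μ.IsHaarMeasure] [IsProbabilityMeasure μ] {ψ : YY κ → G}

private theorem g2_SS_cont (hφ : Continuous φ) : Continuous (SS α φ) := by
  unfold SS
  exact (continuous_fst.add continuous_const).prodMk (continuous_snd.add (hφ.comp continuous_fst))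

theorem erg_base (hE : Ergodic (HT.skew (SS α φ) ψ) ((mY κ).prod μ)) (hφ : Continuous φ) (hψ : Continuous ψ) :
    Ergodic (SS α φ) (mY κ) := by
  have h1 : MeasurePreserving (Prod.fst : YY κ × G → YY κ) ((mY κ).prod μ) (mY κ) := measurePreserving_fst
  exact h1.ergodic_of_ergodic_semiconj hE (g2_SS_cont hφ).measurable fun z => rfl

private theorem g2_ec_int (k : ℤ) (hk : k ≠ 0) :
    ∫ y : UnitAddCircle, ec (k • y) ∂AddCircle.haarAddCircle = 0 := by
  have h := FT.haar_char (mX (Fin 1)) (Finsupp.single (0 : Fin 1) k) (by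
    intro h0
    exact hk (Finsupp.single_eq_zero.mp h0))
  have e : ∀ x : Fin 1 → UnitAddCircle, FT.pr (Finsupp.single (0 : Fin 1) k) x = k • x 0 := by
    intro x
    unfold FT.pr
    rw [Finsupp.sum_single_index]
    simp
  simp only [e] at h
  have h2 : MeasurePreserving (Function.eval (0 : Fin 1)) (mX (Fin 1)) (AddCircle.haarAddCircle : Measure UnitAddCircle) :=
    measurePreserving_eval _ 0
  have h3 : AEStronglyMeasurable (fun y : UnitAddCircle => ec (k • y)) (Measure.map (Function.eval (0 : Fin 1)) (mX (Fin 1))) :=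
    (FT.continuous_ec.comp (continuous_zsmul k)).aestronglyMeasurable
  have h4 := integral_map h2.measurable.aemeasurable h3
  rw [h2.map_eq] at h4
  rw [h4]
  exact h

theorem irr_of_erg (hE : Ergodic (SS α φ) (mY κ)) : Irr α := by
  intro m hm h
  refine HT.not_inv_of_erg (S := fun x => x + α) (T := SS α φ) (fun z => rfl) hE m hm fun x => ?_
  rw [HT.ch_add_right, h, mul_one]

theorem ergF_of_erg (hE : Ergodic (SS α φ) (mY κ)) : ErgF α φ := by
  rintro k hk A ⟨hA, hs⟩
  have hs' : ∀ᵐ z : YY κ ∂mY κ, A (z.1 + α) - A z.1 = k • φ z.1 := by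
    have h1 : MeasurePreserving (Prod.fst : YY κ → TX κ) (mY κ) (mX κ) := measurePreserving_fst
    exact h1.quasiMeasurePreserving.ae hs
  have hm : Measurable fun z : YY κ => ec (k • z.2 - A z.1) := by
    refine FT.continuous_ec.measurable.comp (Measurable.sub ?_ (hA.comp measurable_fst))
    exact ((continuous_zsmul k).measurable.comp measurable_snd)
  obtain ⟨c, hc⟩ := hE.quasiErgodic.ae_eq_const_of_ae_eq_comp₀ (g := fun z : YY κ => ec (k • z.2 - A z.1))
    hm.nullMeasurable (by
      filter_upwards [hs'] with z hz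
      show ec (k • (z.2 + φ z.1) - A (z.1 + α)) = ec (k • z.2 - A z.1)
      congr 1
      rw [smul_add, ← hz]
      abel)
  have e1 : ∀ᵐ z : YY κ ∂mY κ, ec (k • z.2) * conj (c * ec (A z.1)) = 1 := by
    filter_upwards [hc] with z hz
    have h1 : c = ec (k • z.2 - A z.1) := hz.symm
    rw [h1, ← FT.ec_add, sub_add_cancel]
    rw [Complex.mul_conj, Complex.normSq_eq_norm_sq, FT.norm_ec]
    simp
  have e2 : ∫ z : YY κ, ec (k • z.2) * conj (c * ec (A z.1)) ∂mY κ = 1 := by
    rw [integral_congr_ae e1]
    simp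
  have e3 : ∫ z : YY κ, ec (k • z.2) * conj (c * ec (A z.1)) ∂mY κ =
      (∫ x : TX κ, conj (c * ec (A x)) ∂mX κ) * ∫ y : UnitAddCircle, ec (k • y) ∂AddCircle.haarAddCircle := by
    have := integral_prod_mul (μ := mX κ) (ν := (AddCircle.haarAddCircle : Measure UnitAddCircle))
      (fun x => conj (c * ec (A x))) (fun y => ec (k • y))
    rw [← this]
    exact integral_congr_ae (Eventually.of_forall fun z => mul_comm _ _)
  rw [e3, g2_ec_int k hk, mul_zero] at e2
  exact zero_ne_one e2

end tower

end Pool.Agent.Lib.MP_9fe581_an.TW
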