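import Pool.Agent.Lib.MP_9fe581_an.TW.Defs
import Pool.Agent.Lib.MP_9fe581_an.HT.CBasic
import Pool.Agent.Lib.MP_9fe581_an.HX.MainQ

/-!
# TW, module G1: the products of a unitary cocycle form a family in the sense of HX
-/

set_option autoImplicit false
set_option linter.unusedSectionVars false

open Finset MeasureTheory Filter Topology
open scoped ComplexConjugate Matrix

namespace Pool.Agent.Lib.MP_9fe581_an.TW

variable {X : Type} {ι : Type} [Fintype ι] [DecidableEq ι] [TopologicalSpace X] {T : X → X} {A : X → Matrix ι ι ℂ} {Q : Matrix ι ι ℂ}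

theorem uc_fam (hT : Continuous T) (hU : HT.UC A Q) : HX.Fam T (HT.cp T A Q) where
  cont := HT.cp_cont hT hU
  bd := fun n y i j => HT.cp_entry hU n y i j
  add := fun k y => ⟨HT.cp T A Q k y, fun t => HT.cp_col hU k y t, fun l =>
    ⟨HT.cp_add hU l k y, by rw [HT.cp_AAH hU, HT.cp_AQ hU]⟩⟩

theorem uc_FF (hU : HT.UC A Q) (n : ℕ) (x : X) : HX.FF (HT.cp T A Q) n x = HT.trc T A Q n x := by
  unfold HX.FF HT.trc
  have h : HT.cp T A Q 0 x = Q := rfl
  rw [h, hU.QH, HT.cp_AQ hU]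

theorem mstQ [CompactSpace X] [T2Space X] [SecondCountableTopology X] [MeasurableSpace X] [BorelSpace X] {ν : Measure X}
    {D : Type} [Fintype D] {Ms : D → ℕ → Set (Measure (X × X))} {linf : D → Measure (X × X)} {C0 : ℝ}
    (hB : HX.BaseQ T ν Ms linf C0) (hU : HT.UC A Q) (hR : HD.NoRat (HT.aa ν T A Q)) {u : ℕ → ℂ} (hu : HD.BMult u)
    (ε : ℝ) (hε : 0 < ε) :
    ∃ N0 : ℕ, ∀ N ≥ N0, ∀ (x : X) (i j : ι), ‖∑ n ∈ Icc 1 N, u n * HT.cp T A Q n x i j‖ ≤ ε * N := by
  refine HX.obs_noRatQ hB (uc_fam hB.cont hU) ?_ hu ε hε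
  have h : HX.aX ν (HT.cp T A Q) = HT.aa ν T A Q := by
    funext n
    unfold HX.aX HT.aa
    exact integral_congr_ae (Eventually.of_forall fun x => uc_FF hU n x)
  rw [h]
  exact hR

end Pool.Agent.Lib.MP_9fe581_an.TW
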