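import Pool.Agent.Lib.MP_9fe581_an.TW.EigY
import Pool.Agent.Lib.MP_9fe581_an.HD.MeanErg

/-!
# TW, G3: the scalar cocycle of a character of the base
-/

set_option autoImplicit false
set_option linter.unusedSectionVars false

open Finset MeasureTheory Filter Topology
open scoped ComplexConjugate Matrix

namespace Pool.Agent.Lib.MP_9fe581_an.TW

open Pool.Agent.Lib.MP_9fe581_an.HT (TX mX ch ptq)
open Pool.Agent.Lib.MP_9fe581_an.FT (ec)

variable {κ : Type} [Fintype κ] [DecidableEq κ] {α : TX κ} {φ : TX κ → UnitAddCircle}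

private theorem g3_cont (m : κ →₀ ℤ) (k : ℤ) : Continuous (chy m k) := by
  unfold chy
  exact ((HT.ch_cont m).comp continuous_fst).mul (FT.continuous_ec.comp (continuous_snd.zsmul k))

private theorem g3_norm (m : κ →₀ ℤ) (k : ℤ) (z : YY κ) : ‖chy m k z‖ = 1 := by
  unfold chy
  rw [norm_mul, HT.ch_norm, FT.norm_ec, one_mul]

private theorem g3_unit (m : κ →₀ ℤ) (k : ℤ) (z : YY κ) : conj (chy m k z) * chy m k z = 1 := by
  rw [mul_comm, Complex.mul_conj, Complex.normSq_eq_norm_sq, g3_norm]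
  norm_num

private theorem g3_star (m : κ →₀ ℤ) (k : ℤ) (z z' : YY κ) :
    (chy m k z' * conj (chy m k z)) * star (chy m k z' * conj (chy m k z)) = 1 := by
  rw [star_mul', RCLike.star_def, Complex.conj_conj]
  calc chy m k z' * conj (chy m k z) * (conj (chy m k z') * chy m k z)
      = (conj (chy m k z') * chy m k z') * (conj (chy m k z) * chy m k z) := by ring
    _ = 1 := by rw [g3_unit, g3_unit, one_mul]

theorem scy_uc (hφ : Continuous φ) (m : κ →₀ ℤ) (k : ℤ) : HT.UC (scy α φ m k) 1 where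
  cont := by
    unfold scy
    exact (((g3_cont m k).comp (SS_cont hφ)).mul
      (Complex.continuous_conj.comp (g3_cont m k))).smul continuous_const
  QH := Matrix.conjTranspose_one
  QQ := one_mul 1
  QA := fun _ => one_mul _
  AQ := fun _ => mul_one _
  AAH := fun x => by
    unfold scy
    rw [Matrix.conjTranspose_smul, Matrix.conjTranspose_one, Matrix.smul_mul, Matrix.mul_smul, one_mul, smul_smul,
      g3_star, one_smul]
  AHA := fun x => by
    unfold scy
    rw [Matrix.conjTranspose_smul, Matrix.conjTranspose_one, Matrix.smul_mul, Matrix.mul_smul, one_mul, smul_smul,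
      mul_comm, g3_star, one_smul]

theorem scy_cp (m : κ →₀ ℤ) (k : ℤ) (n : ℕ) (z : YY κ) :
    HT.cp (SS α φ) (scy α φ m k) 1 n z = (chy m k ((SS α φ)^[n] z) * conj (chy m k z)) • 1 := by
  induction n with
  | zero =>
    rw [Function.iterate_zero, id, mul_comm, g3_unit, one_smul]
    rfl
  | succ n ih =>
    show scy α φ m k ((SS α φ)^[n] z) * HT.cp (SS α φ) (scy α φ m k) 1 n z = _
    rw [ih, Function.iterate_succ_apply']
    unfold scy
    rw [Matrix.smul_mul, one_mul, smul_smul]
    congr 1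
    calc chy m k (SS α φ ((SS α φ)^[n] z)) * conj (chy m k ((SS α φ)^[n] z)) *
          (chy m k ((SS α φ)^[n] z) * conj (chy m k z))
        = chy m k (SS α φ ((SS α φ)^[n] z)) *
          (conj (chy m k ((SS α φ)^[n] z)) * chy m k ((SS α φ)^[n] z)) * conj (chy m k z) := by ring
      _ = chy m k (SS α φ ((SS α φ)^[n] z)) * conj (chy m k z) := by rw [g3_unit, mul_one]

private theorem g3_aa (m : κ →₀ ℤ) (k : ℤ) (n : ℕ) :
    HT.aa (mY κ) (SS α φ) (scy α φ m k) 1 n = ∫ z, chy m k ((SS α φ)^[n] z) * conj (chy m k z) ∂mY κ := by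
  unfold HT.aa HT.trc
  simp only [scy_cp]
  simp

private theorem g3_mem (m : κ →₀ ℤ) (k : ℤ) : MemLp (chy m k) 2 (mY κ) :=
  MemLp.of_bound (g3_cont m k).aestronglyMeasurable 1 (Eventually.of_forall fun z => (g3_norm m k z).le)

private theorem g3_epow (x : ℝ) (n : ℕ) : GT.e x ^ n = GT.e (n * x) := by
  induction n with
  | zero =>
    rw [pow_zero, Nat.cast_zero, zero_mul]
    simp [GT.e]
  | succ n ih =>
    rw [pow_succ, ih, ← GT.e_add]
    congr 1
    push_cast
    ring

private theorem g3_econj (x : ℝ) : conj (GT.e x) = GT.e (-x) := by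
  unfold GT.e
  rw [← Complex.exp_conj]
  congr 1
  simp only [map_mul, Complex.conj_ofReal, Complex.conj_I, Complex.ofReal_neg, map_ofNat]
  ring

theorem scy_noRat (hα : Irr α) (hφ : Continuous φ) (hE : ErgF α φ) (m : κ →₀ ℤ) (k : ℤ) (hmk : m ≠ 0 ∨ k ≠ 0) :
    HD.NoRat (HT.aa (mY κ) (SS α φ) (scy α φ m k) 1) := by
  intro b q hq
  set w : ℂ := GT.e ((b : ℝ) / q) with hw
  have hw1 : ‖w‖ = 1 := GT.norm_e _
  have hwq : w ^ q = 1 := by
    rw [hw, g3_epow]
    have hqR : (q : ℝ) ≠ 0 := by exact_mod_cast hq.ne'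
    have e1 : (q : ℝ) * ((b : ℝ) / q) = (((b : ℕ) : ℤ) : ℝ) := by
      push_cast
      field_simp
    rw [e1, GT.e_int]
  obtain ⟨P, hP1, hP2, -⟩ := HD.mean_erg (SS_pres (α := α) hφ) w hw1
  set f : Lp ℂ 2 (mY κ) := (g3_mem m k).toLp (chy m k) with hf
  have hfe : f =ᵐ[mY κ] chy m k := (g3_mem m k).coeFn_toLp
  have h3 : inner ℂ f (P f) = (0 : ℂ) := by
    have e1 := eig_rat hα hφ hE m k hmk w q hq hwq (P f) (Lp.memLp _) (hP1 f)
    have e2 : inner ℂ f (P f) = ∫ z, conj (chy m k z) * (P f) z ∂mY κ := by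
      rw [L2.inner_def]
      refine integral_congr_ae ?_
      filter_upwards [hfe] with z hz
      rw [hz, RCLike.inner_apply, mul_comm]
    have e3 : ∫ z, conj (chy m k z) * (P f) z ∂mY κ = conj (∫ z, chy m k z * conj ((P f) z) ∂mY κ) := by
      rw [← integral_conj]
      refine integral_congr_ae (Eventually.of_forall fun z => ?_)
      simp
    rw [e2, e3, e1, map_zero]
  have h1 := (tendsto_const_nhds (x := f)).inner (𝕜 := ℂ) (hP2 f)
  rw [h3] at h1
  refine h1.congr fun N => ?_
  rw [inner_smul_right, inner_sum]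
  congr 1
  refine Finset.sum_congr rfl fun n _ => ?_
  rw [inner_smul_right, g3_aa, mul_comm]
  congr 1
  · rw [L2.inner_def]
    refine integral_congr_ae ?_
    have e4 := Lp.coeFn_compMeasurePreserving f ((SS_pres (α := α) hφ).iterate n)
    have e5 := ((SS_pres (α := α) hφ).iterate n).quasiMeasurePreserving.ae_eq_comp hfe
    filter_upwards [hfe, e4, e5] with z hz h4 h5
    rw [h4, hz, RCLike.inner_apply]
    congr 1
  · rw [hw, g3_econj, g3_epow]
    congr 1
    ring

end Pool.Agent.Lib.MP_9fe581_an.TW
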