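import Pool.Agent.Lib.MP_9fe581_an.HD.Final
import Pool.Agent.Lib.MP_9fe581_an.HT.Char
import Pool.Agent.Lib.MP_9fe581_an.HT.Iter
import Pool.Agent.Lib.MP_9fe581_an.HT.ErgRep
import Pool.Agent.Lib.MP_9fe581_an.TW.Defs
import Pool.Agent.Lib.MP_9fe581_an.TW.FamUC
import Pool.Agent.Lib.MP_9fe581_an.TW.ErgCons
import Pool.Agent.Lib.MP_9fe581_an.TW.Scy
import Pool.Agent.Lib.MP_9fe581_an.TW.DenseG
import Pool.Agent.Lib.MP_9fe581_an.TW.BaseQ

/-!
# TW: the final theorem for group extensions of circle extensions of rotations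
-/

set_option autoImplicit false

open Finset MeasureTheory Filter Topology
open scoped ComplexConjugate Matrix

namespace Pool.Agent.Lib.MP_9fe581_an.TW

open Pool.Agent.Lib.MP_9fe581_an.HT (TX mX ch ptq)
open Pool.Agent.Lib.MP_9fe581_an.FT (ec)

/-! ### integrals of the characters of the base -/

private theorem fn_ec_int (k : ℤ) (hk : k ≠ 0) : ∫ w, ec (k • w) ∂AddCircle.haarAddCircle = 0 := by
  have h1 : ∀ w : UnitAddCircle, ec (k • w) = fourier k w := fun w => by
    rw [fourier_apply]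
    rfl
  simp only [h1]
  exact integral_eq_zero_of_add_right_eq_neg (μ := AddCircle.haarAddCircle)
    (fun w => fourier_add_half_inv_index hk one_pos w)

private theorem fn_chy_zero {κ : Type} (z : YY κ) : chy (0 : κ →₀ ℤ) 0 z = 1 := by
  unfold chy
  rw [zero_smul, FT.ec_zero, mul_one]
  unfold HT.ch
  rw [FT.pr_zero, FT.ec_zero]

private theorem fn_chy_int {κ : Type} [Fintype κ] [DecidableEq κ] (m : κ →₀ ℤ) (k : ℤ) (hmk : m ≠ 0 ∨ k ≠ 0) :
    ∫ z, chy m k z ∂mY κ = 0 := by
  have h := integral_prod_mul (μ := mX κ) (ν := (AddCircle.haarAddCircle : Measure UnitAddCircle))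
    (fun x => ch m x) (fun y => ec (k • y))
  have e : ∫ z, chy m k z ∂mY κ = (∫ x, ch m x ∂mX κ) * ∫ y, ec (k • y) ∂AddCircle.haarAddCircle := h
  rw [e]
  rcases hmk with hm | hk
  · rw [HT.ch_int, if_neg hm, zero_mul]
  · rw [fn_ec_int k hk, mul_zero]

/-! ### the generators -/

section gens

variable {κ : Type} [Fintype κ] [DecidableEq κ] {α : TX κ} {φ : TX κ → UnitAddCircle}
  {ι : Type} [Fintype ι] [DecidableEq ι] {G : Type} [Group G] [TopologicalSpace G] [IsTopologicalGroup G]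
  [CompactSpace G] [T2Space G] [SecondCountableTopology G] [MeasurableSpace G] [BorelSpace G]
  {μ : Measure G} [μ.IsHaarMeasure] [IsProbabilityMeasure μ] {ψ : YY κ → G}

private theorem fn_SS_cont (hφ : Continuous φ) : Continuous (SS α φ) := by
  unfold SS
  exact (continuous_fst.add continuous_const).prodMk (continuous_snd.add (hφ.comp continuous_fst))

/-- the part off the fixed vectors -/
private theorem fn_off [ConnectedSpace G] {π : G → Matrix ι ι ℂ} (hπ : HD.URep π) (m : κ →₀ ℤ) (k : ℤ)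
    (hφ : Continuous φ) (hψ : Continuous ψ)
    (hE : Ergodic (HT.skew (SS α φ) ψ) ((mY κ).prod μ)) (i j : ι) :
    HD.UnifOrth (HT.skew (SS α φ) ψ) (fun z => chy m k z.1 * ((1 - HD.fixP μ π) * π z.2) i j) := by
  intro u hu ε hε
  have hb := erg_base hE hφ hψ
  have hB := baseQ (irr_of_erg hb) hφ (ergF_of_erg hb)
  have hc : (0 : ℝ) < Fintype.card ι + 1 := by positivity
  obtain ⟨N0, hN0⟩ := mstQ hB (HT.AG_uc (μ := μ) hπ (chy_cont m k) (chy_norm m k) (fn_SS_cont hφ) hψ)
    (HT.noRat_AG (fn_SS_cont hφ) hπ (chy_cont m k) (chy_norm m k) hψ hE) hu (ε / (Fintype.card ι + 1)) (by positivity)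
  refine ⟨N0, fun N hN z => ?_⟩
  have e : ∑ n ∈ Icc 1 N, u n * (chy m k ((HT.skew (SS α φ) ψ)^[n] z).1 *
        ((1 - HD.fixP μ π) * π ((HT.skew (SS α φ) ψ)^[n] z).2) i j) =
      ∑ a, chy m k z.1 * π z.2 a j *
        ∑ n ∈ Icc 1 N, u n * HT.cp (SS α φ) (HT.AG μ π (SS α φ) (chy m k) ψ) (1 - HD.fixP μ π) n z.1 i a := by
    simp_rw [mul_sum]
    rw [sum_comm]
    refine sum_congr rfl fun n _ => ?_
    rw [HT.coef_orbit hπ (chy_norm m k) n z i j, mul_sum]
    exact sum_congr rfl fun a _ => by ring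
  rw [e]
  calc _ ≤ ∑ a, ‖chy m k z.1 * π z.2 a j *
        ∑ n ∈ Icc 1 N, u n * HT.cp (SS α φ) (HT.AG μ π (SS α φ) (chy m k) ψ) (1 - HD.fixP μ π) n z.1 i a‖ :=
        norm_sum_le _ _
    _ ≤ ∑ _a : ι, ε / (Fintype.card ι + 1) * N := by
        refine sum_le_sum fun a _ => ?_
        rw [norm_mul, norm_mul]
        have h1 := (chy_norm m k z.1).le
        have h2 := HD.fin_entry hπ z.2 a j
        have h3 := hN0 N hN z.1 i a
        calc _ ≤ 1 * 1 * (ε / (Fintype.card ι + 1) * N) := by gcongr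
          _ = _ := by ring
    _ = Fintype.card ι * (ε / (Fintype.card ι + 1) * N) := by
        rw [sum_const, card_univ, nsmul_eq_mul]
    _ ≤ (Fintype.card ι + 1) * (ε / (Fintype.card ι + 1) * N) := by
        have : 0 ≤ ε / (Fintype.card ι + 1) * N := by positivity
        nlinarith
    _ = ε * N := by field_simp

private theorem fn_norm_mul (m : κ →₀ ℤ) (k : ℤ) (x : YY κ) (c : ℂ) : chy m k x * (c * conj (chy m k x)) = c := by
  have h1 : chy m k x * conj (chy m k x) = 1 := by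
    rw [Complex.mul_conj, Complex.normSq_eq_norm_sq, chy_norm m k x, one_pow, Complex.ofReal_one]
  calc chy m k x * (c * conj (chy m k x)) = c * (chy m k x * conj (chy m k x)) := by ring
    _ = c := by rw [h1, mul_one]

/-- characters of the base -/
private theorem fn_char (hα : Irr α) (hφ : Continuous φ) (hE : ErgF α φ) (m : κ →₀ ℤ) (k : ℤ) (hmk : m ≠ 0 ∨ k ≠ 0) :
    HD.UnifOrth (HT.skew (SS α φ) ψ) (fun z => chy m k z.1) := by
  intro u hu ε hε
  obtain ⟨N0, hN0⟩ := mstQ (baseQ hα hφ hE) (scy_uc hφ m k) (scy_noRat hα hφ hE m k hmk) hu ε hε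
  refine ⟨N0, fun N hN z => ?_⟩
  have e : ∑ n ∈ Icc 1 N, u n * chy m k ((HT.skew (SS α φ) ψ)^[n] z).1 = chy m k z.1 *
      ∑ n ∈ Icc 1 N, u n * HT.cp (SS α φ) (scy α φ m k) 1 n z.1 0 0 := by
    rw [mul_sum]
    refine sum_congr rfl fun n _ => ?_
    rw [scy_cp, HT.skew_iter]
    simp only [Matrix.smul_apply, Matrix.one_apply_eq, smul_eq_mul, mul_one]
    have h1 := fn_norm_mul m k z.1 (chy m k ((SS α φ)^[n] z.1))
    calc u n * chy m k ((SS α φ)^[n] z.1) =
          u n * (chy m k z.1 * (chy m k ((SS α φ)^[n] z.1) * conj (chy m k z.1))) := by rw [h1]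
      _ = _ := by ring
  rw [e, norm_mul]
  calc _ ≤ 1 * (ε * N) := mul_le_mul (chy_norm m k z.1).le (hN0 N hN z.1 0 0) (norm_nonneg _) zero_le_one
    _ = ε * N := one_mul _

/-- a matrix coefficient minus its integral -/
private theorem fn_gen [ConnectedSpace G] {π : G → Matrix ι ι ℂ} (hπ : HD.URep π) (m : κ →₀ ℤ) (k : ℤ)
    (hφ : Continuous φ) (hψ : Continuous ψ)
    (hE : Ergodic (HT.skew (SS α φ) ψ) ((mY κ).prod μ)) (i j : ι) :
    HD.UnifOrth (HT.skew (SS α φ) ψ)
      (fun z => chy m k z.1 * π z.2 i j - ∫ w, chy m k w.1 * π w.2 i j ∂(mY κ).prod μ) := by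
  have hI : ∫ w, chy m k w.1 * π w.2 i j ∂(mY κ).prod μ = (∫ x, chy m k x ∂mY κ) * HD.fixP μ π i j := by
    have := integral_prod_mul (μ := mY κ) (ν := μ) (fun x => chy m k x) (fun y => π y i j)
    rw [this]
    rfl
  have hdec : ∀ y : G, π y i j = ((1 - HD.fixP μ π) * π y) i j + HD.fixP μ π i j := by
    intro y
    rw [Matrix.sub_mul, Matrix.one_mul, HD.fixP_pi hπ y, Matrix.sub_apply]
    ring
  have hb := erg_base hE hφ hψ
  have h1 := fn_off (μ := μ) hπ m k hφ hψ hE i j
  by_cases hmk : m ≠ 0 ∨ k ≠ 0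
  · have e : (fun z : YY κ × G => chy m k z.1 * π z.2 i j - ∫ w, chy m k w.1 * π w.2 i j ∂(mY κ).prod μ) =
        fun z => chy m k z.1 * ((1 - HD.fixP μ π) * π z.2) i j + HD.fixP μ π i j * chy m k z.1 := by
      funext z
      rw [hI, hdec z.2, fn_chy_int m k hmk]
      ring
    rw [e]
    exact HD.uo_add h1 (HD.uo_smul (fn_char (irr_of_erg hb) hφ (ergF_of_erg hb) m k hmk) _)
  · have hm : m = 0 := by
      by_contra h
      exact hmk (Or.inl h)
    have hk : k = 0 := by
      by_contra h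
      exact hmk (Or.inr h)
    subst hm
    subst hk
    have h0 : ∫ x, chy (0 : κ →₀ ℤ) 0 x ∂mY κ = 1 := by
      simp only [fn_chy_zero]
      simp
    have e : (fun z : YY κ × G => chy 0 0 z.1 * π z.2 i j - ∫ w, chy 0 0 w.1 * π w.2 i j ∂(mY κ).prod μ) =
        fun z => chy 0 0 z.1 * ((1 - HD.fixP μ π) * π z.2) i j := by
      funext z
      rw [hI, hdec z.2, h0, fn_chy_zero]
      ring
    rw [e]
    exact h1

end gens

variable {κ : Type} [Fintype κ] [DecidableEq κ] {α : TX κ} {φ : TX κ → UnitAddCircle}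
  {G : Type} [Group G] [TopologicalSpace G] [IsTopologicalGroup G]
  [CompactSpace G] [T2Space G] [SecondCountableTopology G] [MeasurableSpace G] [BorelSpace G]
  {μ : Measure G} [μ.IsHaarMeasure] [IsProbabilityMeasure μ] {ψ : YY κ → G}

/-- **Theorem T2, compact connected linear fibres** -/
theorem unifOrth_tower {n : ℕ} {ρ : G → Matrix (Fin n) (Fin n) ℂ}
    [ConnectedSpace G] (hρ : HD.URep ρ) (hinj : Function.Injective ρ) (hφ : Continuous φ) (hψ : Continuous ψ)
    (hE : Ergodic (HT.skew (SS α φ) ψ) ((mY κ).prod μ)) (f : C(YY κ × G, ℂ)) :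
    HD.UnifOrth (HT.skew (SS α φ) ψ) (fun z => f z - ∫ w, f w ∂(mY κ).prod μ) := by
  have key : ∀ g : YY κ × G → ℂ, g ∈ Submodule.span ℂ {h : YY κ × G → ℂ | ∃ (m : κ →₀ ℤ) (k : ℤ) (a b : ℕ)
      (s t : (Fin a → Fin n) × (Fin b → Fin n)), h = fun z => chy m k z.1 * HD.tens ρ a b z.2 s t} →
      Continuous g ∧ HD.UnifOrth (HT.skew (SS α φ) ψ) (fun z => g z - ∫ w, g w ∂(mY κ).prod μ) := by
    intro g hg
    induction hg using Submodule.span_induction with
    | mem h hh =>
      obtain ⟨m, k, a, b, s, t, rfl⟩ := hh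
      have hπ := HD.tens_urep hρ a b
      refine ⟨?_, fn_gen hπ m k hφ hψ hE s t⟩
      have hc : Continuous fun y => HD.tens ρ a b y s t := (hπ.cont.matrix_elem s t)
      exact ((chy_cont m k).comp continuous_fst).mul (hc.comp continuous_snd)
    | zero =>
      refine ⟨continuous_const, ?_⟩
      simp only [Pi.zero_apply, integral_zero, sub_zero]
      exact HD.uo_zero
    | add x y _ _ hx hy =>
      refine ⟨hx.1.add hy.1, ?_⟩
      have ix : Integrable x ((mY κ).prod μ) :=
        hx.1.integrable_of_hasCompactSupport (HasCompactSupport.of_compactSpace x)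
      have iy : Integrable y ((mY κ).prod μ) :=
        hy.1.integrable_of_hasCompactSupport (HasCompactSupport.of_compactSpace y)
      have e : (fun z : YY κ × G => (x + y) z - ∫ w, (x + y) w ∂(mY κ).prod μ) =
          fun z => (x z - ∫ w, x w ∂(mY κ).prod μ) + (y z - ∫ w, y w ∂(mY κ).prod μ) := by
        funext z
        have : ∫ w, (x + y) w ∂(mY κ).prod μ = ∫ w, x w ∂(mY κ).prod μ + ∫ w, y w ∂(mY κ).prod μ :=
          integral_add ix iy
        rw [this]
        simp only [Pi.add_apply]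
        ring
      rw [e]
      exact HD.uo_add hx.2 hy.2
    | smul c x _ hx =>
      refine ⟨hx.1.const_smul c, ?_⟩
      have e : (fun z : YY κ × G => (c • x) z - ∫ w, (c • x) w ∂(mY κ).prod μ) =
          fun z => c * (x z - ∫ w, x w ∂(mY κ).prod μ) := by
        funext z
        have : ∫ w, (c • x) w ∂(mY κ).prod μ = c * ∫ w, x w ∂(mY κ).prod μ := by
          have := integral_const_mul (μ := (mY κ).prod μ) c x
          exact this
        rw [this]
        simp only [Pi.smul_apply, smul_eq_mul]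
        ring
      rw [e]
      exact HD.uo_smul hx.2 c
  refine HD.uo_approx fun ε hε => ?_
  obtain ⟨g, hg1, hg2⟩ := coef_denseY hρ hinj f (ε / 2) (half_pos hε)
  obtain ⟨hc, hu⟩ := key _ hg2
  refine ⟨_, fun z => ?_, hu⟩
  have hfi : Integrable (fun w => f w) ((mY κ).prod μ) :=
    f.continuous.integrable_of_hasCompactSupport (HasCompactSupport.of_compactSpace _)
  have hgi : Integrable (fun w => g w) ((mY κ).prod μ) :=
    g.continuous.integrable_of_hasCompactSupport (HasCompactSupport.of_compactSpace _)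
  have h1 : ‖∫ w, f w ∂(mY κ).prod μ - ∫ w, g w ∂(mY κ).prod μ‖ ≤ ε / 2 := by
    rw [← integral_sub hfi hgi]
    have := norm_integral_le_of_norm_le_const (μ := (mY κ).prod μ) (f := fun w => f w - g w) (C := ε / 2)
      (Eventually.of_forall hg1)
    simpa using this
  have e : (f z - ∫ w, f w ∂(mY κ).prod μ) - (g z - ∫ w, g w ∂(mY κ).prod μ) =
      (f z - g z) - (∫ w, f w ∂(mY κ).prod μ - ∫ w, g w ∂(mY κ).prod μ) := by ring
  rw [e]
  calc _ ≤ _ := norm_sub_le _ _
    _ ≤ ε / 2 + ε / 2 := add_le_add (hg1 z) h1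
    _ = ε := by ring

end Pool.Agent.Lib.MP_9fe581_an.TW
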