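import Pool.Agent.Lib.MP_9fe581_an.TW.Defs

/-!
The Haar measure `lam g` of the group of the `w` with `g w = 0`, and the measurable division `rt g`.
-/

set_option autoImplicit false
set_option linter.unusedSectionVars false

open Finset MeasureTheory Filter Topology
open scoped ComplexConjugate Matrix

namespace Pool.Agent.Lib.MP_9fe581_an.TW

open Pool.Agent.Lib.MP_9fe581_an.HT (TX mX ch ptq)
open Pool.Agent.Lib.MP_9fe581_an.FT (ec ec_add ec_zero ec_neg ec_injective continuous_ec)

theorem lam_prob (g : ℤ) : IsProbabilityMeasure (lam g) := by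
  unfold lam
  split_ifs with h
  · infer_instance
  · constructor
    have hN : ((g.natAbs : ℕ) : ENNReal) ≠ 0 := by
      have : g.natAbs ≠ 0 := Int.natAbs_ne_zero.mpr h
      exact_mod_cast this
    rw [Measure.smul_apply, Measure.finsetSum_apply]
    simp only [measure_univ, sum_const, card_univ, Fintype.card_fin, nsmul_eq_mul, mul_one,
      smul_eq_mul]
    exact ENNReal.inv_mul_cancel hN (ENNReal.natCast_ne_top _)

private theorem haar_ec (l : ℤ) (hl : l ≠ 0) : ∫ w, ec (l • w) ∂AddCircle.haarAddCircle = 0 := by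
  have hl' : (l : ℝ) ≠ 0 := by exact_mod_cast hl
  set v : UnitAddCircle := ((1 / (2 * (l : ℝ)) : ℝ) : UnitAddCircle) with hv
  have h1 : l • v = ((1 / 2 : ℝ) : UnitAddCircle) := by
    rw [hv, ← AddCircle.coe_zsmul]
    congr 1
    rw [zsmul_eq_mul]
    field_simp
  have h2 : ec (l • v) = -1 := by
    rw [h1, FT.ec_coe]
    have : ((2 * Real.pi * (1 / 2) : ℝ) : ℂ) * Complex.I = Real.pi * Complex.I := by
      push_cast; ring
    rw [this, Complex.exp_pi_mul_I]
  have h3 : ∫ w, ec (l • (w + v)) ∂AddCircle.haarAddCircle =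
      ∫ w, ec (l • w) ∂AddCircle.haarAddCircle :=
    integral_add_right_eq_self (fun w => ec (l • w)) v
  have h4 : ∫ w, ec (l • (w + v)) ∂AddCircle.haarAddCircle =
      -∫ w, ec (l • w) ∂AddCircle.haarAddCircle := by
    rw [← integral_neg]
    congr 1
    funext w
    rw [smul_add, ec_add, h2]
    ring
  rw [h4] at h3
  have h5 : (2 : ℂ) * ∫ w, ec (l • w) ∂AddCircle.haarAddCircle = 0 := by linear_combination -h3
  rcases mul_eq_zero.mp h5 with h6 | h6
  · norm_num at h6
  · exact h6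

private theorem sum_ec (N : ℕ) (hN : N ≠ 0) (l : ℤ) :
    ∑ j : Fin N, ec (l • ((((j : ℕ) : ℝ) / (N : ℝ) : ℝ) : UnitAddCircle)) =
      if (N : ℤ) ∣ l then (N : ℂ) else 0 := by
  have hN' : (N : ℝ) ≠ 0 := by exact_mod_cast hN
  have h1 : ∀ j : ℕ, ec (l • (((j : ℝ) / (N : ℝ) : ℝ) : UnitAddCircle)) =
      (ec (((l : ℝ) / (N : ℝ) : ℝ) : UnitAddCircle)) ^ j := by
    intro j
    rw [FT.ec_coe, ← Complex.exp_nat_mul, ← AddCircle.coe_zsmul, FT.ec_coe]
    congr 1
    rw [zsmul_eq_mul]
    push_cast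
    ring
  rw [Fin.sum_univ_eq_sum_range (fun j => ec (l • (((j : ℝ) / (N : ℝ) : ℝ) : UnitAddCircle))) N,
    sum_congr rfl fun j _ => h1 j]
  split_ifs with h
  · obtain ⟨m, rfl⟩ := h
    have h2 : ec (((((N : ℤ) * m : ℤ) : ℝ) / (N : ℝ) : ℝ) : UnitAddCircle) = 1 := by
      have h3 : ((((N : ℤ) * m : ℤ) : ℝ) / (N : ℝ) : ℝ) = (m : ℝ) := by
        push_cast
        field_simp
      rw [h3, FT.ec_coe, Complex.exp_eq_one_iff]
      exact ⟨m, by push_cast; ring⟩
    rw [h2]
    simp
  · have h2 : ec (((l : ℝ) / (N : ℝ) : ℝ) : UnitAddCircle) ≠ 1 := by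
      intro hc
      rw [FT.ec_coe, Complex.exp_eq_one_iff] at hc
      obtain ⟨m, hm⟩ := hc
      apply h
      refine ⟨m, ?_⟩
      have h3 : (((2 * Real.pi * ((l : ℝ) / (N : ℝ)) : ℝ) : ℂ)) = m * (2 * Real.pi) := by
        have h4 := mul_right_cancel₀ Complex.I_ne_zero
          (show (((2 * Real.pi * ((l : ℝ) / (N : ℝ)) : ℝ) : ℂ)) * Complex.I =
            (m * (2 * Real.pi)) * Complex.I by rw [hm]; ring)
        exact h4
      have h5 : (2 * Real.pi * ((l : ℝ) / (N : ℝ)) : ℝ) = m * (2 * Real.pi) := by exact_mod_cast h3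
      have hpi := Real.pi_ne_zero
      field_simp at h5
      have h6 : (l : ℝ) = N * m := by linarith
      exact_mod_cast h6
    rw [geom_sum_eq h2]
    have h3 : (ec (((l : ℝ) / (N : ℝ) : ℝ) : UnitAddCircle)) ^ N = 1 := by
      rw [FT.ec_coe, ← Complex.exp_nat_mul, Complex.exp_eq_one_iff]
      have hNC : (N : ℂ) ≠ 0 := by exact_mod_cast hN
      refine ⟨l, ?_⟩
      push_cast
      field_simp
    rw [h3, sub_self, zero_div]

theorem lam_ec (g l : ℤ) : ∫ w, ec (l • w) ∂lam g = if g ∣ l then 1 else 0 := by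
  by_cases hg : g = 0
  · subst hg
    unfold lam
    rw [if_pos rfl]
    by_cases hl : l = 0
    · subst hl
      rw [if_pos (dvd_refl 0)]
      simp only [zero_smul, ec_zero]
      simp
    · rw [haar_ec l hl, if_neg (fun h => hl (zero_dvd_iff.mp h))]
  · unfold lam
    rw [if_neg hg]
    have hN : g.natAbs ≠ 0 := Int.natAbs_ne_zero.mpr hg
    have hNC : ((g.natAbs : ℕ) : ℂ) ≠ 0 := by exact_mod_cast hN
    rw [integral_smul_measure, integral_finsetSum_measure (fun j _ => integrable_dirac (by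
      simp [enorm_lt_top]))]
    simp only [integral_dirac]
    rw [sum_ec g.natAbs hN l]
    have e1 : ((((g.natAbs : ENNReal))⁻¹).toReal) = ((g.natAbs : ℕ) : ℝ)⁻¹ := by
      rw [ENNReal.toReal_inv, ENNReal.toReal_natCast]
    rw [e1]
    by_cases h : g ∣ l
    · rw [if_pos h, if_pos (Int.natAbs_dvd.mpr h)]
      rw [Complex.real_smul]
      push_cast
      exact inv_mul_cancel₀ hNC
    · rw [if_neg h, if_neg (fun h' => h (Int.natAbs_dvd.mp h')), smul_zero]

theorem rt_meas (g : ℤ) : Measurable (rt g) := by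
  unfold rt
  by_cases hg : g = 0
  · simp only [if_pos hg]
    exact measurable_const
  · simp only [if_neg hg]
    have h1 : Measurable (fun w : UnitAddCircle => ((AddCircle.equivIco 1 0 w : ℝ))) :=
      measurable_subtype_coe.comp (AddCircle.measurableEquivIco 1 0).measurable
    exact AddCircle.measurable_mk'.comp (h1.div_const _)

theorem rt_mul (g : ℤ) (hg : g ≠ 0) (w : UnitAddCircle) : g • rt g w = w := by
  unfold rt
  rw [if_neg hg, ← AddCircle.coe_zsmul]
  have hg' : (g : ℝ) ≠ 0 := by exact_mod_cast hg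
  have h1 : g • ((AddCircle.equivIco 1 0 w : ℝ) / (g : ℝ)) = (AddCircle.equivIco 1 0 w : ℝ) := by
    rw [zsmul_eq_mul]
    field_simp
  rw [h1]
  exact AddCircle.coe_equivIco

end Pool.Agent.Lib.MP_9fe581_an.TW
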