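import Pool.Agent.Lib.MP_9fe581_an.TW.Rot
import Pool.Agent.Lib.MP_9fe581_an.TW.Bsum
import Pool.Agent.Lib.MP_9fe581_an.TW.EigY
import Pool.Agent.Lib.MP_9fe581_an.HT.MaxMeas
import Pool.Agent.Lib.MP_9fe581_an.HX.DefsZ

/-!
# TW, module U1: ergodic circle extensions of rotations are uniquely ergodic
-/

set_option autoImplicit false
set_option linter.unusedSectionVars false

open Finset MeasureTheory Filter Topology
open scoped ComplexConjugate Matrix

namespace Pool.Agent.Lib.MP_9fe581_an.TW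

open Pool.Agent.Lib.MP_9fe581_an.HT (TX mX ch ptq)
open Pool.Agent.Lib.MP_9fe581_an.FT (ec)

variable {κ : Type} [Fintype κ] [DecidableEq κ] {α : TX κ} {φ : TX κ → UnitAddCircle}

private theorem u1_cont (m : κ →₀ ℤ) (k : ℤ) : Continuous (chy m k) := by
  unfold chy
  exact ((HT.ch_cont m).comp continuous_fst).mul
    (FT.continuous_ec.comp (continuous_snd.zsmul k))

private theorem u1_add (m m' : κ →₀ ℤ) (k k' : ℤ) (z : YY κ) : chy (m + m') (k + k') z = chy m k z * chy m' k' z := by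
  unfold chy
  rw [HT.ch_add, add_smul, FT.ec_add]
  ring

private theorem u1_neg (m : κ →₀ ℤ) (k : ℤ) (z : YY κ) : chy (-m) (-k) z = conj (chy m k z) := by
  unfold chy
  rw [HT.ch_neg, neg_smul, FT.ec_neg, map_mul]

/-- the characters -/
private def chYm (κ : Type) [Fintype κ] [DecidableEq κ] : Submonoid C(YY κ, ℂ) where
  carrier := {f | ∃ (m : κ →₀ ℤ) (k : ℤ), ∀ z, f z = chy m k z}
  one_mem' := ⟨0, 0, fun z => by
    unfold chy
    rw [HT.ch_zero, zero_smul, FT.ec_zero, mul_one]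
    rfl⟩
  mul_mem' := by
    rintro f g ⟨m, k, hm⟩ ⟨m', k', hm'⟩
    refine ⟨m + m', k + k', fun z => ?_⟩
    rw [ContinuousMap.mul_apply, hm, hm', u1_add]

private theorem chYm_star : ∀ f ∈ chYm κ, star f ∈ chYm κ := by
  rintro f ⟨m, k, hm⟩
  refine ⟨-m, -k, fun z => ?_⟩
  rw [u1_neg, ← hm]
  rfl

private theorem chYm_sep : ∀ x y : YY κ, x ≠ y → ∃ f ∈ chYm κ, f x ≠ f y := by
  intro x y hxy
  by_cases h1 : x.1 = y.1
  · have h2 : x.2 ≠ y.2 := fun h2 => hxy (Prod.ext h1 h2)
    refine ⟨⟨chy 0 1, u1_cont 0 1⟩, ⟨0, 1, fun z => rfl⟩, ?_⟩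
    show chy (0 : κ →₀ ℤ) 1 x ≠ chy 0 1 y
    unfold chy
    rw [HT.ch_zero, HT.ch_zero, one_mul, one_mul, one_smul, one_smul]
    exact fun h => h2 (FT.ec_injective h)
  · obtain ⟨i, hi⟩ := Function.ne_iff.mp h1
    refine ⟨⟨chy (Finsupp.single i (1 : ℤ)) 0, u1_cont _ 0⟩, ⟨_, 0, fun z => rfl⟩, ?_⟩
    show chy (Finsupp.single i (1 : ℤ)) 0 x ≠ chy (Finsupp.single i (1 : ℤ)) 0 y
    unfold chy HT.ch
    rw [zero_smul, zero_smul, FT.ec_zero, mul_one, mul_one, FT.pr_single_one, FT.pr_single_one]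
    exact fun h => hi (FT.ec_injective h)

private theorem ph_smul (k : ℤ) (n : ℕ) (x : TX κ) : ph α (fun t => k • φ t) n x = k • ph α φ n x := by
  unfold ph
  rw [Finset.smul_sum]

private theorem u1_iter (m : κ →₀ ℤ) (k : ℤ) (n : ℕ) (z : YY κ) :
    chy m k ((SS α φ)^[n] z) = ch m (z.1 + n • α) * ec (ph α (fun t => k • φ t) n z.1) * ec (k • z.2) := by
  rw [SS_iter, ph_smul]
  unfold chy
  rw [smul_add, FT.ec_add]
  ring

/-- the marginal on the torus -/
private theorem u1_marg (hα : Irr α) (hφ : Continuous φ) (ρ : Measure (YY κ)) [IsProbabilityMeasure ρ]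
    (hρ : MeasurePreserving (SS α φ) ρ ρ) : Measure.map Prod.fst ρ = mX κ := by
  have : IsProbabilityMeasure (Measure.map Prod.fst ρ) := Measure.isProbabilityMeasure_map measurable_fst.aemeasurable
  have hm : Measurable fun t : TX κ => t + α := measurable_id.add_const α
  refine hα.unique _ ⟨hm, ?_⟩
  rw [Measure.map_map hm measurable_fst]
  have h1 : (fun t : TX κ => t + α) ∘ Prod.fst = Prod.fst ∘ SS α φ := rfl
  rw [h1, ← Measure.map_map measurable_fst (SS_cont hφ).measurable, hρ.map_eq]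

private theorem u1_char (hα : Irr α) (hφ : Continuous φ) (hE : ErgF α φ) (ρ : Measure (YY κ)) [IsProbabilityMeasure ρ]
    (hρ : MeasurePreserving (SS α φ) ρ ρ) (m : κ →₀ ℤ) (k : ℤ) :
    ∫ z, chy m k z ∂ρ = if m = 0 ∧ k = 0 then 1 else 0 := by
  have hmarg := u1_marg hα hφ ρ hρ
  by_cases hk : k = 0
  · subst hk
    have h1 : ∫ z, chy m 0 z ∂ρ = ∫ x, ch m x ∂mX κ := by
      rw [← hmarg, integral_map measurable_fst.aemeasurable (HT.ch_cont m).aestronglyMeasurable]
      refine integral_congr_ae (Eventually.of_forall fun z => ?_)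
      show chy m 0 z = ch m z.1
      unfold chy
      rw [zero_smul, FT.ec_zero, mul_one]
    rw [h1, HT.ch_int]
    simp
  · rw [if_neg (fun h => hk h.2)]
    set C : TX κ → UnitAddCircle := fun t => k • φ t with hC
    have hCc : Continuous C := hφ.zsmul k
    have hno : ∀ A, ¬ Sol α C A := fun A => hE k hk A
    have h0 := bsum_none hα C hCc hno (ch m) (HT.ch_cont m).measurable 1 (fun t => (HT.ch_norm m t).le)
    have hle : ∀ M : ℕ, 0 < M → ‖∫ z, chy m k z ∂ρ‖ ≤
        ∫ t, ‖(1 / (M : ℂ)) * ∑ n ∈ range M, ch m (t + n • α) * ec (ph α C n t)‖ ∂mX κ := by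
      intro M hM
      have hcontH : Continuous fun t : TX κ => (1 / (M : ℂ)) * ∑ n ∈ range M, ch m (t + n • α) * ec (ph α C n t) := by
        refine continuous_const.mul (continuous_finsetSum _ fun n _ => ?_)
        refine ((HT.ch_cont m).comp (continuous_id.add continuous_const)).mul (FT.continuous_ec.comp ?_)
        unfold ph
        exact continuous_finsetSum _ fun i _ => hCc.comp (continuous_id.add continuous_const)
      have e1 : ∀ n : ℕ, ∫ z, chy m k ((SS α φ)^[n] z) ∂ρ = ∫ z, chy m k z ∂ρ := fun n => by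
        have h2 := integral_map (μ := ρ) (hρ.iterate n).measurable.aemeasurable (f := chy m k)
          (u1_cont m k).aestronglyMeasurable
        rw [(hρ.iterate n).map_eq] at h2
        exact h2.symm
      have hint : ∀ n : ℕ, Integrable (fun z => chy m k ((SS α φ)^[n] z)) ρ := fun n => by
        refine Integrable.of_bound ((u1_cont m k).comp ((SS_cont hφ).iterate n)).aestronglyMeasurable 1
          (Eventually.of_forall fun z => ?_)
        unfold chy
        rw [norm_mul, HT.ch_norm, FT.norm_ec, one_mul]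
      have e2 : ∫ z, chy m k z ∂ρ = ∫ z, ((1 / (M : ℂ)) * ∑ n ∈ range M, ch m (z.1 + n • α) * ec (ph α C n z.1)) *
          ec (k • z.2) ∂ρ := by
        have e3 : ∀ z : YY κ, ((1 / (M : ℂ)) * ∑ n ∈ range M, ch m (z.1 + n • α) * ec (ph α C n z.1)) * ec (k • z.2) =
            (1 / (M : ℂ)) * ∑ n ∈ range M, chy m k ((SS α φ)^[n] z) := by
          intro z
          rw [mul_assoc, Finset.sum_mul]
          congr 1
          exact Finset.sum_congr rfl fun n _ => (u1_iter m k n z).symm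
        simp_rw [e3]
        rw [integral_const_mul, integral_finsetSum _ fun n _ => hint n]
        simp_rw [e1]
        rw [Finset.sum_const, card_range, nsmul_eq_mul, one_div, ← mul_assoc, inv_mul_cancel₀, one_mul]
        exact_mod_cast hM.ne'
      rw [e2]
      refine (norm_integral_le_integral_norm _).trans (le_of_eq ?_)
      rw [← hmarg, integral_map measurable_fst.aemeasurable hcontH.norm.aestronglyMeasurable]
      refine integral_congr_ae (Eventually.of_forall fun z => ?_)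
      show ‖_ * ec (k • z.2)‖ = _
      rw [norm_mul, FT.norm_ec, mul_one]
    have h1 : ‖∫ z, chy m k z ∂ρ‖ ≤ 0 := by
      refine ge_of_tendsto h0 ?_
      filter_upwards [eventually_gt_atTop 0] with M hM
      exact hle M hM
    exact norm_le_zero_iff.1 h1

/-- unique ergodicity -/
theorem uniq_SS (hα : Irr α) (hφ : Continuous φ) (hE : ErgF α φ) (ρ : Measure (YY κ)) [IsProbabilityMeasure ρ]
    (hρ : MeasurePreserving (SS α φ) ρ ρ) : ρ = mY κ := by
  refine FT.meas_ext (chYm κ) chYm_star chYm_sep ρ (mY κ) ?_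
  rintro f ⟨m, k, hm⟩
  have e : (fun z => f z) = fun z => chy m k z := funext fun z => hm z
  rw [e, u1_char hα hφ hE ρ hρ m k, u1_char hα hφ hE (mY κ) (SS_pres hφ) m k]

theorem ue_SS (hα : Irr α) (hφ : Continuous φ) (hE : ErgF α φ) : HX.UE (SS α φ) (mY κ) := by
  intro E hEc ε hε
  obtain ⟨ρ, hρ1, hρ2, hρ3⟩ := HT.max_meas (SS α φ) (SS_cont hφ) E hEc
  have hρ : ρ = mY κ := uniq_SS hα hφ hE ρ hρ2
  obtain ⟨M0, hM0⟩ := hρ3 ε hε
  refine ⟨max M0 1, fun N hN x => ?_⟩
  have hN0 : (0 : ℝ) < N := by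
    have : 1 ≤ N := (le_max_right _ _).trans hN
    exact_mod_cast this
  have h := hM0 N ((le_max_left _ _).trans hN) x
  rw [hρ, one_div, inv_mul_eq_div, div_le_iff₀ hN0] at h
  exact h

end Pool.Agent.Lib.MP_9fe581_an.TW
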