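import Pool.Agent.Lib.MP_9fe581_an.TW.ErgCons
import Pool.Agent.Lib.MP_9fe581_an.HX.MneD
import Pool.Agent.Lib.MP_9fe581_an.HX.SeqCoc
import Pool.Agent.Lib.MP_9fe581_an.HX.ExtY
import Pool.Agent.Lib.MP_9fe581_an.TW.UE
import Pool.Agent.Lib.MP_9fe581_an.TW.BaseQ

/-!
# TW: compact group extensions of ergodic circle extensions of rotations, nothing ergodic in the last step
-/

set_option autoImplicit false
set_option linter.unusedSectionVars false

open Finset MeasureTheory Filter Topology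
open scoped ComplexConjugate Matrix

namespace Pool.Agent.Lib.MP_9fe581_an.TW

open Pool.Agent.Lib.MP_9fe581_an.HT (TX mX ch ptq)

variable {κ : Type} [Fintype κ] [DecidableEq κ] {α : TX κ} {φ : TX κ → UnitAddCircle}

theorem mob_tower (hφ : Continuous φ) (hE : Ergodic (SS α φ) (mY κ)) {u : ℕ → ℂ} (hu : HD.BMult u)
    (hw : ∀ (w : ℂ) (q : ℕ), 0 < q → w ^ q = 1 → HD.ShortOrth u w) {G : Type} [Group G] [TopologicalSpace G]
    [IsTopologicalGroup G] [CompactSpace G] [T2Space G] {ψ : YY κ → G} (hψ : Continuous ψ) (F : C(YY κ × G, ℂ)) :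
    HD.OrthOn (HT.skew (SS α φ) ψ) F u Set.univ := by
  have hα := irr_of_erg hE
  have hF := ergF_of_erg hE
  have h1 : HX.MatOrth (SS α φ) u := HX.mneD (baseQ hα hφ hF) (ue_SS hα hφ hF) hu hw
  have h2 := HX.ext_orth (HX.mat_coc h1) hu.le_one hψ F
  rwa [Set.preimage_univ] at h2

end Pool.Agent.Lib.MP_9fe581_an.TW
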