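import Pool.Agent.Lib.MP_9fe581_an.TW.SysDefs

/-!
# TW / SysBasic: identities in a system
-/

set_option autoImplicit false

open Finset

namespace Pool.Agent.Lib.MP_9fe581_an.TW

variable {B F C : Type} [AddCommGroup B] [AddCommGroup F] [AddCommGroup C] (Y : Sys B F C)

theorem Sys.d_apply (f : F) : Y.d f = Y.tr Y.al f - f := rfl

theorem Sys.sm_apply (n : ℕ) (f : F) : Y.sm n f = ∑ i ∈ range n, Y.tr (i • Y.al) f := by
  unfold Sys.sm
  rw [AddMonoidHom.finsetSum_apply]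

theorem Sys.dn_apply (n : ℕ) (f : F) : Y.dn n f = Y.dl n (Y.sm n f) := rfl

theorem Sys.tr_comm (a b : B) (f : F) : Y.tr a (Y.tr b f) = Y.tr b (Y.tr a f) := by
  rw [← Y.tr_add, ← Y.tr_add, add_comm]

theorem Sys.tr_d (a : B) (f : F) : Y.tr a (Y.d f) = Y.d (Y.tr a f) := by
  rw [Y.d_apply, Y.d_apply, map_sub, Y.tr_comm]

theorem Sys.tr_sm (a : B) (n : ℕ) (f : F) : Y.tr a (Y.sm n f) = Y.sm n (Y.tr a f) := by
  rw [Y.sm_apply, Y.sm_apply, map_sum]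
  exact sum_congr rfl fun i _ => Y.tr_comm _ _ _

theorem Sys.d_cst (z : C) : Y.d (Y.cst z) = 0 := by
  rw [Y.d_apply, Y.tr_cst, sub_self]

theorem Sys.d_eq_zero (f : F) (h : Y.d f = 0) : ∃ z, f = Y.cst z := by
  refine Y.erg 1 one_pos f ?_
  rw [one_smul]
  rw [Y.d_apply] at h
  exact sub_eq_zero.mp h

theorem Sys.d_sm (n : ℕ) (f : F) : Y.d (Y.sm n f) = Y.tr (n • Y.al) f - f := by
  induction n with
  | zero => rw [Y.sm_apply, range_zero, sum_empty, map_zero, zero_smul, Y.tr_zero, sub_self]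
  | succ n ih =>
    have h1 : Y.sm (n + 1) f = Y.sm n f + Y.tr (n • Y.al) f := by
      rw [Y.sm_apply, Y.sm_apply, sum_range_succ]
    rw [h1, map_add, ih, Y.d_apply, ← Y.tr_add, succ_nsmul']
    abel

theorem Sys.sm_d (n : ℕ) (f : F) : Y.sm n (Y.d f) = Y.tr (n • Y.al) f - f := by
  rw [← Y.d_sm, Y.d_apply, Y.d_apply, map_sub, Y.tr_sm]

theorem Sys.sm_cst (n : ℕ) (z : C) : Y.sm n (Y.cst z) = Y.cst (n • z) := by
  rw [Y.sm_apply, map_nsmul]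
  have h1 : ∀ i ∈ range n, Y.tr (i • Y.al) (Y.cst z) = Y.cst z := fun i _ => Y.tr_cst _ _
  rw [sum_congr rfl h1, sum_const, card_range]

theorem Sys.dn_cst (n : ℕ) (hn : 0 < n) (z : C) : Y.dn n (Y.cst z) = Y.cst (n • z) := by
  rw [Y.dn_apply, Y.sm_cst, Y.dl_cst n hn]

theorem Sys.dl_comm (m n : ℕ) (hm : 0 < m) (hn : 0 < n) (f : F) : Y.dl m (Y.dl n f) = Y.dl n (Y.dl m f) := by
  rw [← Y.dl_mul m n hm hn, ← Y.dl_mul n m hn hm, mul_comm]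

/-- `D_n (d f) = d (δ_n f)` -/
theorem Sys.dn_d (n : ℕ) (hn : 0 < n) (f : F) : Y.dn n (Y.d f) = Y.d (Y.dl n f) := by
  rw [Y.dn_apply, Y.sm_d, map_sub, Y.d_apply, Y.tr_dl _ n hn]

theorem Sys.tr_dn (b : B) (n : ℕ) (hn : 0 < n) (f : F) : Y.tr b (Y.dn n f) = Y.dl n (Y.tr (n • b) (Y.sm n f)) := by
  rw [Y.dn_apply, Y.tr_dl _ n hn]

theorem Sys.tr_dn_tor (b : B) (n : ℕ) (hn : 0 < n) (hb : n • b = 0) (f : F) : Y.tr b (Y.dn n f) = Y.dn n f := by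
  rw [Y.tr_dn b n hn, hb, Y.tr_zero, Y.dn_apply]

private theorem sm_mul (m n : ℕ) (f : F) :
    Y.sm (m * n) f = ∑ i ∈ range m, Y.tr ((n * i) • Y.al) (Y.sm n f) := by
  induction m with
  | zero => rw [zero_mul, Y.sm_apply, range_zero, sum_empty, sum_empty]
  | succ m ih =>
    rw [sum_range_succ, ← ih, Y.sm_apply, Nat.succ_mul, sum_range_add, ← Y.sm_apply, Y.sm_apply n, map_sum]
    congr 1
    refine sum_congr rfl fun j _ => ?_
    rw [← Y.tr_add, ← add_smul, mul_comm n m]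

/-- `D_m D_n = D_{mn}` -/
theorem Sys.dn_dn (m n : ℕ) (hm : 0 < m) (hn : 0 < n) (f : F) : Y.dn m (Y.dn n f) = Y.dn (m * n) f := by
  have h1 : Y.sm m (Y.dl n (Y.sm n f)) = Y.dl n (Y.sm (m * n) f) := by
    rw [sm_mul, Y.sm_apply m, map_sum (Y.dl n)]
    refine sum_congr rfl fun i _ => ?_
    rw [Y.tr_dl _ n hn, ← mul_smul]
  rw [Y.dn_apply, Y.dn_apply, Y.dn_apply, Y.dl_mul m n hm hn, h1]

end Pool.Agent.Lib.MP_9fe581_an.TW
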