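import Pool.Agent.Lib.MP_9fe581_an.TW.SysBasic

/-!
# TW, row S4: the lifts of two resonances agree

`A` and `A'` are transfer functions of the resonances `(k, l)` of `p, q` and `(k, l')` of `p', q` (the same `k`, prime to the prime `q`).
Then the lifts `H`, `H'` of the translations by the `q`-torsion points agree.
-/

set_option autoImplicit false
set_option linter.unusedSectionVars false

open Finset

namespace Pool.Agent.Lib.MP_9fe581_an.TW

variable {B F C : Type} [AddCommGroup B] [AddCommGroup F] [AddCommGroup C] (Y : Sys B F C)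

variable {Φ : F}

/-- an element killed by two coprime integers is zero -/
private theorem kill {G : Type} [AddCommGroup G] {q : ℕ} (hq : q.Prime) {k : ℤ} (hk : ¬ (q : ℤ) ∣ k) {x : G} (h1 : k • x = 0)
    (h2 : q • x = 0) : x = 0 := by
  have hc : IsCoprime (q : ℤ) k := (Nat.prime_iff_prime_int.mp hq).coprime_iff_not_dvd.mpr hk
  obtain ⟨a, b, hab⟩ := hc
  have h3 : (q : ℤ) • x = 0 := by rw [natCast_zsmul]; exact h2
  calc x = (1 : ℤ) • x := (one_zsmul x).symm
    _ = (a * (q : ℤ) + b * k) • x := by rw [hab]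
    _ = 0 := by rw [add_zsmul, mul_zsmul, mul_zsmul, h1, h3, zsmul_zero, zsmul_zero, add_zero]

/-- every `q`-torsion point is `n` times a `q`-torsion point -/
private theorem divide {n q : ℕ} (hq : q.Prime) (hn : n.Coprime q) {s : B} (hs : q • s = 0) :
    ∃ v : B, q • v = 0 ∧ n • v = s := by
  obtain ⟨m, hm⟩ := Nat.exists_mul_mod_eq_one_of_coprime hn hq.one_lt
  refine ⟨m • s, ?_, ?_⟩
  · rw [← mul_nsmul, mul_comm, mul_nsmul, hs, nsmul_zero]
  · have h1 : n * m = 1 + q * (n * m / q) := by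
      have := Nat.mod_add_div (n * m) q
      omega
    rw [← mul_nsmul, mul_comm m n, h1, add_nsmul, one_nsmul, mul_nsmul, hs, nsmul_zero, add_zero]

/-- the lift vanishes at zero -/
private theorem lift_zero {p q : ℕ} {k : ℤ} {A : F} {H : B → F} (hH : Y.IsLift Φ p q k A H) : H 0 = 0 := by
  have h := hH.coc 0 0 (nsmul_zero q) (nsmul_zero q)
  rw [add_zero, Y.tr_zero] at h
  exact (left_eq_add.mp h)

/-- the difference of two lifts is constant -/
private theorem diff_cst {p p' q : ℕ} {k : ℤ} {A A' : F} {H H' : B → F} (hH : Y.IsLift Φ p q k A H)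
    (hH' : Y.IsLift Φ p' q k A' H') (s : B) (hs : q • s = 0) : ∃ z, H' s - H s = Y.cst z := by
  apply Y.d_eq_zero
  rw [map_sub, hH.coh s hs, hH'.coh s hs, sub_self]

/-- the difference of two lifts is additive -/
private theorem diff_add {p p' q : ℕ} {k : ℤ} {A A' : F} {H H' : B → F} (hH : Y.IsLift Φ p q k A H)
    (hH' : Y.IsLift Φ p' q k A' H') (s s' : B) (hs : q • s = 0) (hs' : q • s' = 0) :
    H' (s + s') - H (s + s') = (H' s - H s) + (H' s' - H s') := by
  obtain ⟨z, hz⟩ := diff_cst Y hH hH' s hs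
  rw [hH.coc s s' hs hs', hH'.coc s s' hs hs']
  have h1 : Y.tr s' (H' s) - Y.tr s' (H s) = H' s - H s := by
    rw [← map_sub, hz, Y.tr_cst]
  rw [← h1]
  abel

/-- the difference of two lifts on multiples -/
private theorem diff_nsmul {p p' q : ℕ} {k : ℤ} {A A' : F} {H H' : B → F} (hH : Y.IsLift Φ p q k A H)
    (hH' : Y.IsLift Φ p' q k A' H') (s : B) (hs : q • s = 0) (n : ℕ) :
    H' (n • s) - H (n • s) = n • (H' s - H s) := by
  induction n with
  | zero => rw [zero_nsmul, zero_nsmul, lift_zero Y hH, lift_zero Y hH', sub_zero]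
  | succ n ih =>
    have h1 : q • (n • s) = 0 := by rw [← mul_nsmul, mul_comm, mul_nsmul, hs, nsmul_zero]
    rw [succ_nsmul, diff_add Y hH hH' _ _ h1 hs, ih, succ_nsmul]

theorem Sys.lift_eq {p p' q : ℕ} (hp : 0 < p) (hp' : 0 < p') (hq : q.Prime) (hpq : p.Coprime q) (hpq' : p'.Coprime q)
    {k l l' : ℤ} {A A' : F} (h : Y.Res Φ p q k l A) (h' : Y.Res Φ p' q k l' A') (hk : ¬ (q : ℤ) ∣ k) {H H' : B → F}
    (hH : Y.IsLift Φ p q k A H) (hH' : Y.IsLift Φ p' q k A' H') : ∀ s, q • s = 0 → H s = H' s := by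
  intro s hs
  have hq0 : 0 < q := hq.pos
  unfold Sys.Res at h h'
  -- `W` and `V`
  have hdA : Y.d (Y.dl p' A) = k • Y.dn (p' * p) Φ - l • Y.dn (p' * q) Φ := by
    rw [← Y.dn_d p' hp' A, h, map_sub, map_zsmul, map_zsmul, Y.dn_dn p' p hp' hp, Y.dn_dn p' q hp' hq0]
  have hdA' : Y.d (Y.dl p A') = k • Y.dn (p * p') Φ - l' • Y.dn (p * q) Φ := by
    rw [← Y.dn_d p hp A', h', map_sub, map_zsmul, map_zsmul, Y.dn_dn p p' hp hp', Y.dn_dn p q hp hq0]
  have hdW : Y.d (Y.dl p A' - Y.dl p' A) = l • Y.dn (p' * q) Φ - l' • Y.dn (p * q) Φ := by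
    rw [map_sub, hdA, hdA', mul_comm p' p]
    abel
  have hdV : Y.d (l • A' - l' • A) = k • (l • Y.dn p' Φ - l' • Y.dn p Φ) := by
    rw [map_sub, map_zsmul, map_zsmul, h, h']
    rw [smul_sub, smul_sub, smul_sub, smul_smul, smul_smul, smul_smul, smul_smul, smul_smul, smul_smul, mul_comm l k,
      mul_comm l' k, mul_comm l' l]
    abel
  have hdqV : Y.d (Y.dl q (l • A' - l' • A)) = k • Y.d (Y.dl p A' - Y.dl p' A) := by
    rw [← Y.dn_d q hq0, hdV, map_zsmul, map_sub, map_zsmul, map_zsmul, Y.dn_dn q p' hq0 hp', Y.dn_dn q p hq0 hp, hdW,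
      mul_comm q p', mul_comm q p]
  have hz : ∃ z, k • (Y.dl p A' - Y.dl p' A) - Y.dl q (l • A' - l' • A) = Y.cst z := by
    apply Y.d_eq_zero
    rw [map_sub, map_zsmul, hdqV, sub_self]
  obtain ⟨z, hz⟩ := hz
  -- the torsion point
  have hcop : (p * p').Coprime q := Nat.Coprime.mul_left hpq hpq'
  obtain ⟨v, hv, hvs⟩ := divide hq hcop hs
  have hvs1 : p' • p • v = s := by rw [← hvs, mul_nsmul]
  have hvs2 : p • p' • v = s := by rw [← hvs, mul_comm, mul_nsmul]
  have hpv : q • (p • v) = 0 := by rw [← mul_nsmul, mul_comm, mul_nsmul, hv, nsmul_zero]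
  have hpv' : q • (p' • v) = 0 := by rw [← mul_nsmul, mul_comm, mul_nsmul, hv, nsmul_zero]
  have e1 := hH'.dlh (p • v) hpv
  have e2 := hH.dlh (p' • v) hpv'
  rw [hvs1] at e1
  rw [hvs2] at e2
  obtain ⟨x, hx⟩ := diff_cst Y hH hH' s hs
  have hW : Y.tr v (Y.dl p A' - Y.dl p' A) - (Y.dl p A' - Y.dl p' A) = Y.cst x := by
    calc Y.tr v (Y.dl p A' - Y.dl p' A) - (Y.dl p A' - Y.dl p' A)
        = Y.dl p (Y.tr (p • v) A' - A') - Y.dl p' (Y.tr (p' • v) A - A) := by
          rw [map_sub, Y.tr_dl v p hp, Y.tr_dl v p' hp', map_sub, map_sub]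
          abel
      _ = Y.dl p (Y.dl p' (H' s)) - Y.dl p' (Y.dl p (H s)) := by rw [e1, e2]
      _ = Y.dl p (Y.dl p' (H' s - H s)) := by
          rw [Y.dl_comm p' p hp' hp (H s), map_sub, map_sub]
      _ = Y.cst x := by rw [hx, Y.dl_cst p' hp', Y.dl_cst p hp]
  have hkx : k • Y.cst x = 0 := by
    have h1 := congrArg (Y.tr v) hz
    rw [map_sub, map_zsmul, Y.tr_cst, Y.tr_dl v q hq0, hv, Y.tr_zero] at h1
    rw [← hW, smul_sub, sub_eq_zero]
    have h2 := h1.trans hz.symm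
    exact sub_left_injective h2
  have hqx : q • Y.cst x = 0 := by
    rw [← hx, ← diff_nsmul Y hH hH' s hs q, hs, lift_zero Y hH, lift_zero Y hH', sub_zero]
  have hx0 : Y.cst x = 0 := kill hq hk hkx hqx
  rw [hx0, sub_eq_zero] at hx
  exact hx.symm

end Pool.Agent.Lib.MP_9fe581_an.TW
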