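import Mathlib

/-!
# TW: the algebra of the cohomological equations, abstract form

`F` is an abelian group (functions on the group `B` with values in `C`), `tr b` the translations, `dl n` the dilations,
`cst` the constants, `al` the rotation. `d f = tr al f - f`, `sm n f = ∑_{i < n} tr (i al) f`, `dn n = dl n ∘ sm n`.
`Res Φ p q k l A` is the resonance `d A = k D_p Φ - l D_q Φ`.
-/

set_option autoImplicit false

open Finset

namespace Pool.Agent.Lib.MP_9fe581_an.TW

/-- translations, dilations and constants on an abelian group `F` of functions on `B` with values in `C` -/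
structure Sys (B F C : Type) [AddCommGroup B] [AddCommGroup F] [AddCommGroup C] where
  /-- translations -/
  tr : B → F →+ F
  /-- dilations -/
  dl : ℕ → F →+ F
  /-- constants -/
  cst : C →+ F
  /-- the rotation -/
  al : B
  tr_zero : ∀ f, tr 0 f = f
  tr_add : ∀ a b f, tr (a + b) f = tr a (tr b f)
  dl_one : ∀ f, dl 1 f = f
  dl_mul : ∀ m n, 0 < m → 0 < n → ∀ f, dl (m * n) f = dl m (dl n f)
  tr_dl : ∀ b n, 0 < n → ∀ f, tr b (dl n f) = dl n (tr (n • b) f)
  tr_cst : ∀ b z, tr b (cst z) = cst z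
  dl_cst : ∀ n, 0 < n → ∀ z, dl n (cst z) = cst z
  cst_inj : Function.Injective cst
  erg : ∀ n, 0 < n → ∀ f, tr (n • al) f = f → ∃ z, f = cst z
  dl_inj : ∀ n, 0 < n → ∀ f, dl n f = 0 → f = 0
  desc : ∀ n, 0 < n → ∀ f, (∀ v, n • v = 0 → tr v f = f) → ∃ g, f = dl n g
  tor : ∀ n, 0 < n → {v : B | n • v = 0}.Finite

variable {B F C : Type} [AddCommGroup B] [AddCommGroup F] [AddCommGroup C]

/-- the coboundary operator -/
def Sys.d (Y : Sys B F C) : F →+ F := Y.tr Y.al - AddMonoidHom.id F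

/-- Birkhoff sums -/
def Sys.sm (Y : Sys B F C) (n : ℕ) : F →+ F := ∑ i ∈ range n, Y.tr (i • Y.al)

/-- dilated Birkhoff sums -/
def Sys.dn (Y : Sys B F C) (n : ℕ) : F →+ F := (Y.dl n).comp (Y.sm n)

/-- the resonance `(k, l)` of `p, q` with transfer function `A` -/
def Sys.Res (Y : Sys B F C) (Φ : F) (p q : ℕ) (k l : ℤ) (A : F) : Prop :=
  Y.d A = k • Y.dn p Φ - l • Y.dn q Φ

/-- no multiple of `Φ` is a coboundary -/
def Sys.Erg (Y : Sys B F C) (Φ : F) : Prop := ∀ k : ℤ, k ≠ 0 → ∀ A, Y.d A ≠ k • Φ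

/-- a lift of `A` (translations by the `q`-torsion points) -/
structure Sys.IsLift (Y : Sys B F C) (Φ : F) (p q : ℕ) (k : ℤ) (A : F) (h : B → F) : Prop where
  dlh : ∀ s, q • s = 0 → Y.dl p (h (p • s)) = Y.tr s A - A
  coh : ∀ s, q • s = 0 → Y.d (h s) = k • (Y.tr s Φ - Φ)
  coc : ∀ s s', q • s = 0 → q • s' = 0 → h (s + s') = Y.tr s' (h s) + h s'

end Pool.Agent.Lib.MP_9fe581_an.TW
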