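import Pool.Agent.Lib.MP_9fe581_an.TW.SysLift
import Pool.Agent.Lib.MP_9fe581_an.TW.SysClaim

/-!
# TW row S5: the generator of the resonances with their lifts
-/

set_option autoImplicit false
set_option linter.unusedSectionVars false
set_option linter.unusedVariables false

open Finset

namespace Pool.Agent.Lib.MP_9fe581_an.TW

variable {B F C : Type} [AddCommGroup B] [AddCommGroup F] [AddCommGroup C] (Y : Sys B F C)
variable {Φ : F}

/-- the pairs `(k, h)` of a resonance with a lift, `q` not dividing `k` -/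
private def GG (Φ : F) (q : ℕ) : Set (ℤ × (B → F)) :=
  {x | ∃ (p : ℕ) (l : ℤ) (A : F), 0 < p ∧ p.Coprime q ∧ Y.Res Φ p q x.1 l A ∧ ¬ (q : ℤ) ∣ x.1 ∧
    Y.IsLift Φ p q x.1 A x.2}

private theorem res_smul {p q : ℕ} {k l : ℤ} {A : F} (h : Y.Res Φ p q k l A) (c : ℤ) :
    Y.Res Φ p q (c * k) (c * l) (c • A) := by
  unfold Sys.Res at h ⊢
  rw [map_zsmul, h, smul_sub, smul_smul, smul_smul]

private theorem lift_smul {p q : ℕ} {k : ℤ} {A : F} {h : B → F} (H : Y.IsLift Φ p q k A h) (c : ℤ) :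
    Y.IsLift Φ p q (c * k) (c • A) (c • h) := by
  refine ⟨?_, ?_, ?_⟩
  · intro s hs
    rw [Pi.smul_apply, map_zsmul, H.dlh s hs, map_zsmul, smul_sub]
  · intro s hs
    rw [Pi.smul_apply, map_zsmul, H.coh s hs, smul_smul]
  · intro s s' hs hs'
    rw [Pi.smul_apply, Pi.smul_apply, Pi.smul_apply, H.coc s s' hs hs', smul_add, map_zsmul]

private theorem GG_pair {q : ℕ} (hq : q.Prime) (x y : ℤ × (B → F)) (hx : x ∈ GG Y Φ q) (hy : y ∈ GG Y Φ q)
    (s : B) (hs : q • s = 0) : y.1 • x.2 s = x.1 • y.2 s := by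
  obtain ⟨p, l, A, hp, hpq, hres, hk, hl⟩ := hx
  obtain ⟨p', l', A', hp', hpq', hres', hk', hl'⟩ := hy
  have hqp : Prime (q : ℤ) := Nat.prime_iff_prime_int.mp hq
  have h1 : Y.Res Φ p q (y.1 * x.1) (y.1 * l) (y.1 • A) := res_smul Y hres y.1
  have h2 : Y.Res Φ p' q (y.1 * x.1) (x.1 * l') (x.1 • A') := by
    rw [mul_comm y.1 x.1]; exact res_smul Y hres' x.1
  have h3 : Y.IsLift Φ p q (y.1 * x.1) (y.1 • A) (y.1 • x.2) := lift_smul Y hl y.1
  have h4 : Y.IsLift Φ p' q (y.1 * x.1) (x.1 • A') (x.1 • y.2) := by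
    rw [mul_comm y.1 x.1]; exact lift_smul Y hl' x.1
  have hnd : ¬ (q : ℤ) ∣ y.1 * x.1 := by
    intro hd
    rcases hqp.dvd_or_dvd hd with h | h
    · exact hk' h
    · exact hk h
  have := Y.lift_eq hp hp' hq hpq hpq' h1 h2 hnd h3 h4 s hs
  simpa using this

private theorem cl_pair {q : ℕ} (hq : q.Prime) (x : ℤ × (B → F)) (hx : x ∈ AddSubgroup.closure (GG Y Φ q))
    (y : ℤ × (B → F)) (hy : y ∈ GG Y Φ q) (s : B) (hs : q • s = 0) : y.1 • x.2 s = x.1 • y.2 s := by
  induction hx using AddSubgroup.closure_induction with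
  | mem x hx => exact GG_pair Y hq x y hx hy s hs
  | zero => simp
  | add a b _ _ ha hb => simp only [Prod.snd_add, Prod.fst_add, Pi.add_apply, smul_add, add_smul, ha, hb]
  | neg a _ ha => simp only [Prod.snd_neg, Prod.fst_neg, Pi.neg_apply, smul_neg, neg_smul, ha]

private theorem cl_coh {q : ℕ} (x : ℤ × (B → F)) (hx : x ∈ AddSubgroup.closure (GG Y Φ q))
    (s : B) (hs : q • s = 0) : Y.d (x.2 s) = x.1 • (Y.tr s Φ - Φ) := by
  induction hx using AddSubgroup.closure_induction with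
  | mem x hx =>
    obtain ⟨p, l, A, hp, hpq, hres, hk, hl⟩ := hx
    exact hl.coh s hs
  | zero => simp
  | add a b _ _ ha hb => simp only [Prod.snd_add, Prod.fst_add, Pi.add_apply, map_add, add_smul, ha, hb]
  | neg a _ ha => simp only [Prod.snd_neg, Prod.fst_neg, Pi.neg_apply, map_neg, neg_smul, ha]

private theorem cl_coc {q : ℕ} (x : ℤ × (B → F)) (hx : x ∈ AddSubgroup.closure (GG Y Φ q))
    (s s' : B) (hs : q • s = 0) (hs' : q • s' = 0) : x.2 (s + s') = Y.tr s' (x.2 s) + x.2 s' := by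
  induction hx using AddSubgroup.closure_induction with
  | mem x hx =>
    obtain ⟨p, l, A, hp, hpq, hres, hk, hl⟩ := hx
    exact hl.coc s s' hs hs'
  | zero => simp
  | add a b _ _ ha hb =>
    simp only [Prod.snd_add, Pi.add_apply, map_add, ha, hb]
    abel
  | neg a _ ha =>
    simp only [Prod.snd_neg, Pi.neg_apply, map_neg, ha]
    abel

/-- an element of the closure over 0 vanishes on the `q`-torsion, if a resonance exists -/
private theorem cl_zero {q : ℕ} (hq : q.Prime) (x : B → F) (hx : ((0 : ℤ), x) ∈ AddSubgroup.closure (GG Y Φ q))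
    (y : ℤ × (B → F)) (hy : y ∈ GG Y Φ q) (s : B) (hs : q • s = 0) : x s = 0 := by
  have hcst : ∀ s, q • s = 0 → ∃ z, x s = Y.cst z := by
    intro s hs
    apply Y.d_eq_zero
    have := cl_coh Y _ hx s hs
    simpa using this
  have hadd : ∀ s s', q • s = 0 → q • s' = 0 → x (s + s') = x s + x s' := by
    intro s s' hs hs'
    have h1 := cl_coc Y _ hx s s' hs hs'
    obtain ⟨z, hz⟩ := hcst s hs
    simp only at h1
    rw [h1, hz, Y.tr_cst]
  have h0 : x 0 = 0 := by
    have h1 := hadd 0 0 (smul_zero _) (smul_zero _)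
    rw [add_zero] at h1
    exact (add_eq_left.mp h1.symm)
  have hn : ∀ n : ℕ, x (n • s) = n • x s := by
    intro n
    induction n with
    | zero => simp [h0]
    | succ n ih =>
      rw [succ_nsmul, hadd (n • s) s (by rw [smul_comm, hs, smul_zero]) hs, ih, succ_nsmul]
  have hqx : (q : ℤ) • x s = 0 := by
    have h1 := hn q
    rw [hs, h0] at h1
    rw [natCast_zsmul]
    exact h1.symm
  have hkx : y.1 • x s = 0 := by
    have h1 := cl_pair Y hq _ hx y hy s hs
    simpa using h1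
  obtain ⟨p, l, A, hp, hpq, hres, hk, hl⟩ := hy
  have hcop : IsCoprime (q : ℤ) y.1 := by
    have hqp : Prime (q : ℤ) := Nat.prime_iff_prime_int.mp hq
    exact hqp.coprime_iff_not_dvd.2 hk
  obtain ⟨a, b, hab⟩ := hcop
  calc x s = (1 : ℤ) • x s := (one_smul _ _).symm
    _ = (a * q + b * y.1) • x s := by rw [hab]
    _ = 0 := by rw [add_smul, mul_smul, mul_smul, hqx, hkx, smul_zero, smul_zero, add_zero]

theorem Sys.gen (hE : Y.Erg Φ) {q : ℕ} (hq : q.Prime) : ∃ (g : ℤ) (h : B → F),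
    (∀ s, q • s = 0 → Y.d (h s) = g • (Y.tr s Φ - Φ)) ∧
    (∀ s s', q • s = 0 → q • s' = 0 → h (s + s') = Y.tr s' (h s) + h s') ∧
    (∀ p : ℕ, 0 < p → p.Coprime q → ∀ (k l : ℤ) (A : F), Y.Res Φ p q k l A → ¬ (q : ℤ) ∣ k →
      ∃ m : ℤ, k = m * g ∧ ∀ s, q • s = 0 → Y.dl p (m • h (p • s)) = Y.tr s A - A) ∧
    (g = 0 ∨ ∃ (p : ℕ) (k l : ℤ) (A : F), 0 < p ∧ p.Coprime q ∧ Y.Res Φ p q k l A ∧ ¬ (q : ℤ) ∣ k) := by
  classical
  by_cases hex : ∃ (p : ℕ) (k l : ℤ) (A : F), 0 < p ∧ p.Coprime q ∧ Y.Res Φ p q k l A ∧ ¬ (q : ℤ) ∣ k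
  · obtain ⟨g, hg⟩ := Int.subgroup_cyclic
      ((AddSubgroup.closure (GG Y Φ q)).map (AddMonoidHom.fst ℤ (B → F)))
    have hgm : g ∈ (AddSubgroup.closure (GG Y Φ q)).map (AddMonoidHom.fst ℤ (B → F)) := by
      rw [hg]
      exact AddSubgroup.subset_closure (Set.mem_singleton g)
    obtain ⟨⟨g', h⟩, hmem, hgg⟩ := hgm
    have hgg' : g' = g := hgg
    subst hgg'
    refine ⟨g', h, ?_, ?_, ?_, Or.inr hex⟩
    · intro s hs
      exact cl_coh Y _ hmem s hs
    · intro s s' hs hs'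
      exact cl_coc Y _ hmem s s' hs hs'
    · intro p hp hpq k l A hres hk
      obtain ⟨H, hH⟩ := Y.lift_exists hp hq.pos hpq hres
      have hy : ((k, H) : ℤ × (B → F)) ∈ GG Y Φ q := ⟨p, l, A, hp, hpq, hres, hk, hH⟩
      have hkm : k ∈ (AddSubgroup.closure (GG Y Φ q)).map (AddMonoidHom.fst ℤ (B → F)) :=
        ⟨(k, H), AddSubgroup.subset_closure hy, rfl⟩
      rw [hg, AddSubgroup.mem_closure_singleton] at hkm
      obtain ⟨m, hm⟩ := hkm
      have hm' : k = m * g' := by rw [← hm, smul_eq_mul]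
      refine ⟨m, hm', ?_⟩
      intro s hs
      have hz : ((0 : ℤ), H - m • h) ∈ AddSubgroup.closure (GG Y Φ q) := by
        have h1 : ((k, H) : ℤ × (B → F)) - m • (g', h) ∈ AddSubgroup.closure (GG Y Φ q) :=
          AddSubgroup.sub_mem _ (AddSubgroup.subset_closure hy) (AddSubgroup.zsmul_mem _ hmem m)
        have h2 : ((k, H) : ℤ × (B → F)) - m • (g', h) = ((0 : ℤ), H - m • h) := by
          ext1
          · simp [hm']
          · simp
        rw [h2] at h1
        exact h1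
      have hps : q • (p • s) = 0 := by rw [smul_comm, hs, smul_zero]
      have h3 := cl_zero Y hq _ hz _ hy (p • s) hps
      have h4 : m • h (p • s) = H (p • s) := by
        have : H (p • s) - m • h (p • s) = 0 := by simpa using h3
        exact (sub_eq_zero.mp this).symm
      rw [h4]
      exact hH.dlh s hs
  · refine ⟨0, 0, ?_, ?_, ?_, Or.inl rfl⟩
    · intro s _; simp
    · intro s s' _ _; simp
    · intro p hp hpq k l A hres hk
      exact absurd ⟨p, k, l, A, hp, hpq, hres, hk⟩ hex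

end Pool.Agent.Lib.MP_9fe581_an.TW
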