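import Pool.Agent.Lib.MP_9fe581_an.TW.SysDefs

/-!
# TW: existence of the lifts of a resonance
-/

set_option autoImplicit false
set_option linter.unusedSectionVars false

open Finset

namespace Pool.Agent.Lib.MP_9fe581_an.TW

variable {B F C : Type} [AddCommGroup B] [AddCommGroup F] [AddCommGroup C] (Y : Sys B F C)

private theorem d_apply' (f : F) : Y.d f = Y.tr Y.al f - f := rfl

private theorem sm_apply' (n : ℕ) (f : F) : Y.sm n f = ∑ i ∈ range n, Y.tr (i • Y.al) f := by
  simp [Sys.sm]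

private theorem dn_apply' (n : ℕ) (f : F) : Y.dn n f = Y.dl n (Y.sm n f) := rfl

private theorem tr_comm' (a b : B) (f : F) : Y.tr a (Y.tr b f) = Y.tr b (Y.tr a f) := by
  rw [← Y.tr_add, ← Y.tr_add, add_comm]

private theorem tr_d' (a : B) (f : F) : Y.tr a (Y.d f) = Y.d (Y.tr a f) := by
  rw [d_apply', d_apply', map_sub, tr_comm' Y a]

private theorem tr_sm' (a : B) (n : ℕ) (f : F) : Y.tr a (Y.sm n f) = Y.sm n (Y.tr a f) := by
  rw [sm_apply', sm_apply', map_sum]
  exact Finset.sum_congr rfl fun i _ => tr_comm' Y a _ f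

private theorem d_sm' (n : ℕ) (f : F) : Y.d (Y.sm n f) = Y.tr (n • Y.al) f - f := by
  induction n with
  | zero => simp [sm_apply', Y.tr_zero]
  | succ n ih =>
    have h : Y.sm (n + 1) f = Y.sm n f + Y.tr (n • Y.al) f := by
      rw [sm_apply', sm_apply', Finset.sum_range_succ]
    rw [h, map_add, ih, d_apply', ← Y.tr_add, succ_nsmul', ]
    abel

private theorem sm_d' (n : ℕ) (f : F) : Y.sm n (Y.d f) = Y.tr (n • Y.al) f - f := by
  rw [← d_sm', d_apply', map_sub, d_apply', tr_sm']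

private theorem sm_cst' (n : ℕ) (z : C) : Y.sm n (Y.cst z) = Y.cst (n • z) := by
  rw [sm_apply', map_nsmul]
  simp [Y.tr_cst]

private theorem d_zero' (f : F) (h : Y.d f = 0) : ∃ z, f = Y.cst z := by
  apply Y.erg 1 one_pos
  rw [one_nsmul]
  exact sub_eq_zero.1 h

private theorem cop {p q : ℕ} (hpq : p.Coprime q) : ∃ a b : ℤ, a * p + b * q = 1 := by
  have h := Int.isCoprime_iff_gcd_eq_one.2 (by rw [Int.gcd_natCast_natCast]; exact hpq : Int.gcd (p : ℤ) (q : ℤ) = 1)
  obtain ⟨a, b, h⟩ := h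
  exact ⟨a, b, h⟩

private theorem cop_kill {p q : ℕ} (hpq : p.Coprime q) {G : Type} [AddCommGroup G] {x : G} (hp : p • x = 0) (hq : q • x = 0) :
    x = 0 := by
  obtain ⟨a, b, h⟩ := cop hpq
  have h1 : x = a • ((p : ℤ) • x) + b • ((q : ℤ) • x) := by
    rw [← mul_smul, ← mul_smul, ← add_smul, h, one_smul]
  rw [h1, natCast_zsmul, natCast_zsmul, hp, hq, smul_zero, smul_zero, add_zero]

/-- a cocycle with constant values on the `n`-torsion is killed by `n` -/
private theorem kill {n : ℕ} {u : B → F} (hu : ∀ s s', n • s = 0 → n • s' = 0 → u (s + s') = Y.tr s' (u s) + u s')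
    (hc : ∀ s, n • s = 0 → ∃ z, u s = Y.cst z) (s : B) (hs : n • s = 0) : n • u s = 0 := by
  have h0 : u 0 = 0 := by
    have h := hu 0 0 (smul_zero _) (smul_zero _)
    rw [add_zero, Y.tr_zero] at h
    simpa using h
  have hj : ∀ j : ℕ, u (j • s) = j • u s := by
    intro j
    induction j with
    | zero => rw [zero_nsmul, zero_nsmul, h0]
    | succ j ih =>
      have ht : n • (j • s) = 0 := by rw [smul_comm, hs, smul_zero]
      obtain ⟨z, hz⟩ := hc _ ht
      rw [succ_nsmul, hu _ _ ht hs, hz, Y.tr_cst, ← hz, ih, succ_nsmul]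
  have h := hj n
  rw [hs, h0] at h
  exact h.symm

private theorem tr_dn_tor' (b : B) (n : ℕ) (hn : 0 < n) (hb : n • b = 0) (f : F) : Y.tr b (Y.dn n f) = Y.dn n f := by
  rw [dn_apply', Y.tr_dl b n hn, hb, Y.tr_zero]

variable {Φ : F}

theorem Sys.lift_exists {p q : ℕ} (hp : 0 < p) (hq : 0 < q) (hpq : p.Coprime q) {k l : ℤ} {A : F} (h : Y.Res Φ p q k l A) :
    ∃ H : B → F, Y.IsLift Φ p q k A H := by
  have hR : Y.d A = k • Y.dn p Φ - l • Y.dn q Φ := h
  -- the commutator
  have hom : ∀ s v, q • s = 0 → p • v = 0 → Y.tr v (Y.tr s A - A) - (Y.tr s A - A) = 0 := by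
    have hcst : ∀ s v, q • s = 0 → p • v = 0 → ∃ z, Y.tr v (Y.tr s A - A) - (Y.tr s A - A) = Y.cst z := by
      intro s v hs hv
      apply d_zero'
      have e1 : Y.d (Y.tr s A - A) = k • (Y.tr s (Y.dn p Φ) - Y.dn p Φ) := by
        rw [map_sub, ← tr_d', hR, map_sub, map_zsmul, map_zsmul, tr_dn_tor' Y s q hq hs]
        rw [smul_sub]; abel
      rw [map_sub, ← tr_d', e1, map_zsmul, map_sub, tr_comm' Y v s, tr_dn_tor' Y v p hp hv, sub_self]
    intro s v hs hv
    apply cop_kill hpq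
    · -- additive in v
      refine kill Y (n := p) (u := fun v => Y.tr v (Y.tr s A - A) - (Y.tr s A - A)) ?_ (fun v hv => hcst s v hs hv) v hv
      intro v v' _ _
      simp only [map_sub]
      rw [add_comm v v', Y.tr_add, Y.tr_add]
      abel
    · refine kill Y (n := q) (u := fun s => Y.tr v (Y.tr s A - A) - (Y.tr s A - A)) ?_ (fun s hs => hcst s v hs hv) s hs
      intro s s' _ _
      simp only [map_sub]
      rw [add_comm s s', Y.tr_add, tr_comm' Y v s', ]
      abel_nf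
      rw [tr_comm' Y v s']
      abel
  have hH : ∀ s, ∃ g, q • s = 0 → Y.tr s A - A = Y.dl p g := by
    intro s
    by_cases hs : q • s = 0
    · obtain ⟨g, hg⟩ := Y.desc p hp (Y.tr s A - A) (fun v hv => sub_eq_zero.1 (hom s v hs hv))
      exact ⟨g, fun _ => hg⟩
    · exact ⟨0, fun h => absurd h hs⟩
  choose H hH using hH
  obtain ⟨a, b, hab⟩ := cop hpq
  have hpa : ∀ s : B, q • s = 0 → p • (a • s) = s := by
    intro s hs
    have h1 : p • (a • s) = (a * p : ℤ) • s := by rw [mul_comm, mul_smul, natCast_zsmul]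
    have h2 : (b * q : ℤ) • s = 0 := by rw [mul_smul, natCast_zsmul, hs, smul_zero]
    have h3 : (a * p + b * q : ℤ) • s = s := by rw [hab, one_smul]
    rw [add_smul, h2, add_zero] at h3
    rw [h1, h3]
  have hta : ∀ s : B, q • s = 0 → q • (a • s) = 0 := by
    intro s hs
    rw [smul_comm, hs, smul_zero]
  have hdl : ∀ s : B, q • s = 0 → Y.dl p (H (a • s)) = Y.tr (a • s) A - A := fun s hs => (hH _ (hta s hs)).symm
  have htr : ∀ (s : B) (g : F), q • s = 0 → Y.dl p (Y.tr s g) = Y.tr (a • s) (Y.dl p g) := by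
    intro s g hs
    rw [Y.tr_dl _ p hp, hpa s hs]
  have hcoc : ∀ s s', q • s = 0 → q • s' = 0 → H (a • (s + s')) = Y.tr s' (H (a • s)) + H (a • s') := by
    intro s s' hs hs'
    have hss : q • (s + s') = 0 := by rw [smul_add, hs, hs', add_zero]
    rw [← sub_eq_zero]
    apply Y.dl_inj p hp
    rw [map_sub, map_add, hdl _ hss, htr s' _ hs', hdl _ hs, hdl _ hs', smul_add, add_comm (a • s), Y.tr_add, map_sub]
    abel
  refine ⟨fun s => H (a • s), ?_, ?_, hcoc⟩
  · intro s hs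
    have h1 : q • (p • s) = 0 := by rw [smul_comm, hs, smul_zero]
    have h2 : a • (p • s) = s := by rw [smul_comm]; exact hpa s hs
    show Y.dl p (H (a • (p • s))) = _
    rw [hdl _ h1, h2]
  · intro s hs
    show Y.d (H (a • s)) = k • (Y.tr s Φ - Φ)
    -- step 1
    have hst1 : ∀ s, q • s = 0 → Y.tr (p • Y.al) (H (a • s)) - H (a • s) = k • (Y.tr s (Y.sm p Φ) - Y.sm p Φ) := by
      intro s hs
      rw [← sub_eq_zero]
      apply Y.dl_inj p hp
      have e1 : Y.dl p (Y.tr (p • Y.al) (H (a • s)) - H (a • s)) = Y.d (Y.tr (a • s) A - A) := by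
        rw [map_sub, ← Y.tr_dl Y.al p hp, hdl s hs, d_apply']
      have e2 : Y.d (Y.tr (a • s) A - A) = k • (Y.tr (a • s) (Y.dn p Φ) - Y.dn p Φ) := by
        rw [map_sub, ← tr_d', hR, map_sub, map_zsmul, map_zsmul, tr_dn_tor' Y (a • s) q hq (hta s hs), smul_sub]
        abel
      have e3 : Y.dl p (k • (Y.tr s (Y.sm p Φ) - Y.sm p Φ)) = k • (Y.tr (a • s) (Y.dn p Φ) - Y.dn p Φ) := by
        rw [map_zsmul, map_sub, htr s _ hs, dn_apply']
      rw [map_sub, e1, e2, e3, sub_self]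
    have hCsm : ∀ s, q • s = 0 → Y.sm p (k • (Y.tr s Φ - Φ) - Y.d (H (a • s))) = 0 := by
      intro s hs
      rw [map_sub, map_zsmul, map_sub, ← tr_sm', sm_d', hst1 s hs, sub_self]
    have hCc : ∀ s, q • s = 0 → ∃ z, k • (Y.tr s Φ - Φ) - Y.d (H (a • s)) = Y.cst z := by
      intro s hs
      apply Y.erg p hp
      rw [← sub_eq_zero, ← d_sm', hCsm s hs, map_zero]
    have h0 : k • (Y.tr s Φ - Φ) - Y.d (H (a • s)) = 0 := by
      apply cop_kill hpq
      · obtain ⟨z, hz⟩ := hCc s hs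
        have h1 := hCsm s hs
        rw [hz, sm_cst', map_nsmul] at h1
        rw [hz]; exact h1
      · refine kill Y (n := q) (u := fun s => k • (Y.tr s Φ - Φ) - Y.d (H (a • s))) ?_ hCc s hs
        intro s s' hs hs'
        show k • (Y.tr (s + s') Φ - Φ) - Y.d (H (a • (s + s'))) = Y.tr s' (k • (Y.tr s Φ - Φ) - Y.d (H (a • s))) +
          (k • (Y.tr s' Φ - Φ) - Y.d (H (a • s')))
        rw [hcoc s s' hs hs', map_add, ← tr_d', add_comm s s', Y.tr_add, map_sub, map_zsmul, map_sub, smul_sub, smul_sub, smul_sub]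
        abel
    exact (sub_eq_zero.1 h0).symm

end Pool.Agent.Lib.MP_9fe581_an.TW
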