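import Pool.Agent.Lib.MP_9fe581_an.HD.Torus
import Pool.Agent.Lib.MP_9fe581_an.TW.Final

/-!
# TW: torus fibres, additive notation
-/

set_option autoImplicit false

open Finset MeasureTheory Filter Topology
open scoped ComplexConjugate Matrix

namespace Pool.Agent.Lib.MP_9fe581_an.TW

open Pool.Agent.Lib.MP_9fe581_an.HT (TX mX ch ptq)

variable {κ : Type} [Fintype κ] [DecidableEq κ] {α : TX κ} {φ : TX κ → UnitAddCircle}

/-- **Theorem T2, torus fibres** -/
theorem unifOrth_towerT {m : ℕ} {ψ : YY κ → TX (Fin m)} (hφ : Continuous φ) (hψ : Continuous ψ)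
    (hE : Ergodic (fun z : YY κ × TX (Fin m) => (SS α φ z.1, z.2 + ψ z.1)) ((mY κ).prod (mX (Fin m))))
    (f : C(YY κ × TX (Fin m), ℂ)) :
    HD.UnifOrth (fun z : YY κ × TX (Fin m) => (SS α φ z.1, z.2 + ψ z.1))
      (fun z => f z - ∫ w, f w ∂(mY κ).prod (mX (Fin m))) := by
  have h1 : HT.skew (SS α φ) (fun x => (Multiplicative.ofAdd (ψ x) : HD.MTd m)) =
      fun z : YY κ × TX (Fin m) => (SS α φ z.1, z.2 + ψ z.1) := by
    funext z
    unfold HT.skew
    refine Prod.ext rfl ?_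
    exact add_comm (ψ z.1) z.2
  have h2 : Ergodic (HT.skew (SS α φ) (fun x => (Multiplicative.ofAdd (ψ x) : HD.MTd m)))
      ((mY κ).prod (HD.mM m)) := by
    rw [h1]
    exact hE
  have h3 := unifOrth_tower (μ := HD.mM m) (HD.rhoT_urep m) (HD.rhoT_inj m) hφ
    (continuous_ofAdd.comp hψ) h2 f
  have h4 : HT.skew (SS α φ) (Multiplicative.ofAdd ∘ ψ : YY κ → HD.MTd m) =
      fun z : YY κ × TX (Fin m) => (SS α φ z.1, z.2 + ψ z.1) := h1
  rw [h4] at h3
  exact h3

end Pool.Agent.Lib.MP_9fe581_an.TW
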